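import Pool.Agent.H327R4.NU.Stubs

set_option autoImplicit false

namespace Pool.Agent.H327R4.NU

open Filter Topology Pool.Agent.H327R4.Pure

universe u

namespace TBaux

variable {A : Type u} [CStarAlgebra A] [PartialOrder A] [StarOrderedRing A] [TrSet A] (T : Tr A)

theorem pos_re (x : A) : 0 ≤ (T.f (star x * x)).re := (T.pos x).1

theorem sa_im (a : A) (ha : IsSelfAdjoint a) : (T.f a).im = 0 := by
  have h1 := (T.pos (a + 1)).2
  have h2 := (T.pos (a - 1)).2
  have hs : star a = a := ha
  have e : star (a + 1) * (a + 1) - star (a - 1) * (a - 1) = (4 : ℂ) • a := by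
    rw [star_add, star_sub, star_one, hs]
    have : (4 : ℂ) • a = a + a + a + a := by
      rw [show (4 : ℂ) = 1 + 1 + 1 + 1 by norm_num, add_smul, add_smul, add_smul, one_smul]
    rw [this]; noncomm_ring
  have h3 : (T.f ((4 : ℂ) • a)).im = 0 := by
    rw [← e, map_sub, Complex.sub_im, h1, h2, sub_zero]
  rw [map_smul, smul_eq_mul, Complex.mul_im] at h3
  simp at h3
  exact h3

theorem star_f (a : A) : T.f (star a) = (starRingEnd ℂ) (T.f a) := by
  have hx := sa_im T (a + star a) (IsSelfAdjoint.add_star_self a)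
  have hy := sa_im T (Complex.I • (a - star a)) (by
    rw [isSelfAdjoint_iff, star_smul, star_sub, star_star]
    simp only [Complex.star_def, Complex.conj_I]
    rw [neg_smul, ← smul_neg, neg_sub])
  rw [map_add] at hx
  rw [map_smul, map_sub, smul_eq_mul, Complex.mul_im] at hy
  simp only [Complex.I_re, Complex.I_im, Complex.add_im, Complex.sub_re, Complex.sub_im, zero_mul,
    one_mul, zero_add] at hx hy
  apply Complex.ext
  · rw [Complex.conj_re]; linarith
  · rw [Complex.conj_im]; linarith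

theorem quad (x y : A) (c : ℂ) : 0 ≤ (T.f (star x * x)).re - 2 * (c * T.f (star x * y)).re +
    ‖c‖ ^ 2 * (T.f (star y * y)).re := by
  have h := pos_re T (x - c • y)
  have e : star (x - c • y) * (x - c • y) = star x * x - c • (star x * y)
      - (starRingEnd ℂ c) • (star y * x) + (starRingEnd ℂ c * c) • (star y * y) := by
    rw [star_sub, star_smul]
    simp only [Complex.star_def]
    rw [sub_mul, mul_sub, mul_sub, mul_smul_comm, smul_mul_assoc, smul_mul_assoc, mul_smul_comm,
      smul_smul]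
    abel
  rw [e, map_add, map_sub, map_sub, map_smul, map_smul, map_smul] at h
  simp only [smul_eq_mul, Complex.add_re, Complex.sub_re] at h
  have h1 : (starRingEnd ℂ c * T.f (star y * x)).re = (c * T.f (star x * y)).re := by
    have : T.f (star y * x) = (starRingEnd ℂ) (T.f (star x * y)) := by
      rw [← star_f, star_mul, star_star]
    rw [this, ← map_mul, Complex.conj_re]
  have h2 : (starRingEnd ℂ c * c * T.f (star y * y)).re = ‖c‖ ^ 2 * (T.f (star y * y)).re := by
    rw [mul_comm ((starRingEnd ℂ) c) c, Complex.mul_conj, Complex.normSq_eq_norm_sq,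
      Complex.re_ofReal_mul]
  rw [h1, h2] at h
  linarith

theorem cs (x y : A) : ‖T.f (star x * y)‖ ≤ n2 T x * n2 T y := by
  set z := T.f (star x * y) with hz
  set P := (T.f (star x * x)).re with hP
  set R := (T.f (star y * y)).re with hR
  have hP0 : 0 ≤ P := pos_re T x
  have hR0 : 0 ≤ R := pos_re T y
  have key : ∀ t : ℝ, 0 ≤ P - 2 * t * ‖z‖ ^ 2 + t ^ 2 * ‖z‖ ^ 2 * R := by
    intro t
    have h := quad T x y ((t : ℂ) * (starRingEnd ℂ z))
    rw [← hz] at h
    have h1 : ((t : ℂ) * (starRingEnd ℂ z) * z).re = t * ‖z‖ ^ 2 := by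
      rw [mul_assoc, mul_comm ((starRingEnd ℂ) z) z, Complex.mul_conj, Complex.normSq_eq_norm_sq,
        Complex.re_ofReal_mul]
      norm_cast
    have h2 : ‖(t : ℂ) * (starRingEnd ℂ z)‖ ^ 2 = t ^ 2 * ‖z‖ ^ 2 := by
      rw [norm_mul, mul_pow, Complex.norm_real, RCLike.norm_conj, Real.norm_eq_abs, sq_abs]
    rw [h1, h2] at h
    linarith
  have hsq : ‖z‖ ^ 2 ≤ P * R := by
    rcases hR0.eq_or_lt with h0 | h0
    · rw [← h0] at key ⊢
      have hk := key ((P + 1))
      by_contra hcon
      push Not at hcon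
      have hz0 : 0 < ‖z‖ ^ 2 := by nlinarith
      have hk2 := key ((P + 1) / ‖z‖ ^ 2)
      rw [mul_zero, add_zero] at hk2
      have : 2 * ((P + 1) / ‖z‖ ^ 2) * ‖z‖ ^ 2 = 2 * (P + 1) := by
        rw [mul_assoc, div_mul_cancel₀ _ hz0.ne']
      rw [this] at hk2
      linarith
    · have hk := key (1 / R)
      have : (1 / R) ^ 2 * ‖z‖ ^ 2 * R = (1 / R) * ‖z‖ ^ 2 := by field_simp
      rw [this] at hk
      have h2 : (1 / R) * ‖z‖ ^ 2 ≤ P := by linarith
      rw [one_div, inv_mul_le_iff₀ h0] at h2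
      linarith
  unfold n2
  rw [← hP, ← hR, ← Real.sqrt_mul hP0]
  exact Real.le_sqrt_of_sq_le hsq

theorem n2_sq (x : A) : n2 T x ^ 2 = (T.f (star x * x)).re := Real.sq_sqrt (pos_re T x)

theorem n2_nn (x : A) : 0 ≤ n2 T x := Real.sqrt_nonneg _

theorem tri (x y : A) : n2 T (x + y) ≤ n2 T x + n2 T y := by
  have h1 := n2_sq T (x + y)
  have h2 := n2_sq T x
  have h3 := n2_sq T y
  have h4 := cs T x y
  have h5 : (T.f (star x * y)).re ≤ ‖T.f (star x * y)‖ := Complex.re_le_norm _
  have e : star (x + y) * (x + y) = star x * x + star x * y + star (star x * y) + star y * y := by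
    rw [star_add, star_mul, star_star]; noncomm_ring
  rw [e, map_add, map_add, map_add, star_f] at h1
  simp only [Complex.add_re, Complex.conj_re] at h1
  have h6 : n2 T (x + y) ^ 2 ≤ (n2 T x + n2 T y) ^ 2 := by nlinarith
  exact le_of_sq_le_sq h6 (add_nonneg (n2_nn T x) (n2_nn T y))
where
  le_of_sq_le_sq {a b : ℝ} (h : a ^ 2 ≤ b ^ 2) (hb : 0 ≤ b) : a ≤ b :=
    le_of_sq_le_sq' h hb
  le_of_sq_le_sq' {a b : ℝ} (h : a ^ 2 ≤ b ^ 2) (hb : 0 ≤ b) : a ≤ b := by
    by_contra hc
    push Not at hc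
    nlinarith

theorem smul_n2 (c : ℂ) (x : A) : n2 T (c • x) = ‖c‖ * n2 T x := by
  unfold n2
  have e : star (c • x) * (c • x) = ((‖c‖ ^ 2 : ℝ) : ℂ) • (star x * x) := by
    rw [star_smul, smul_mul_assoc, mul_smul_comm, smul_smul]
    congr 1
    rw [Complex.star_def, mul_comm, Complex.mul_conj, Complex.normSq_eq_norm_sq]
  rw [e, map_smul, smul_eq_mul, Complex.re_ofReal_mul, Real.sqrt_mul (by positivity),
    Real.sqrt_sq (norm_nonneg c)]

theorem star_n2 (x : A) : n2 T (star x) = n2 T x := by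
  unfold n2
  rw [star_star, T.tr]

theorem nonneg_re (a : A) (ha : 0 ≤ a) : 0 ≤ (T.f a).re ∧ (T.f a).im = 0 := by
  obtain ⟨b, hb⟩ := CStarAlgebra.nonneg_iff_eq_star_mul_self.mp ha
  rw [hb]
  exact T.pos b

theorem mono (a b : A) (h : a ≤ b) : (T.f a).re ≤ (T.f b).re := by
  have := (nonneg_re T (b - a) (sub_nonneg.mpr h)).1
  rw [map_sub, Complex.sub_re] at this
  linarith

theorem mul_n2 (x y : A) : n2 T (x * y) ≤ ‖x‖ * n2 T y := by
  have h : star (x * y) * (x * y) ≤ ((‖x‖ ^ 2 : ℝ) : ℂ) • (star y * y) := by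
    have h1 : star x * x ≤ algebraMap ℝ A (‖x‖ ^ 2) := CStarAlgebra.star_mul_le_algebraMap_norm_sq
    have h2 := star_left_conjugate_le_conjugate h1 y
    have e1 : star y * (star x * x) * y = star (x * y) * (x * y) := by
      rw [star_mul]; noncomm_ring
    have e2 : star y * algebraMap ℝ A (‖x‖ ^ 2) * y = ((‖x‖ ^ 2 : ℝ) : ℂ) • (star y * y) := by
      rw [Algebra.algebraMap_eq_smul_one, mul_smul_comm, mul_one, smul_mul_assoc]
      exact (Complex.coe_smul _ _).symm
    rw [e1, e2] at h2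
    exact h2
  have h2 := mono T _ _ h
  rw [map_smul, smul_eq_mul, Complex.re_ofReal_mul] at h2
  unfold n2
  calc Real.sqrt (T.f (star (x * y) * (x * y))).re
      ≤ Real.sqrt (‖x‖ ^ 2 * (T.f (star y * y)).re) := Real.sqrt_le_sqrt h2
    _ = ‖x‖ * Real.sqrt (T.f (star y * y)).re := by
        rw [Real.sqrt_mul (by positivity), Real.sqrt_sq (norm_nonneg x)]

end TBaux

open TBaux

theorem t_TB : StTB.{u} := by
  intro A _ _ _ _ T hT
  have h1 : n2 T (1 : A) = 1 := by
    unfold n2
    have : T.f 1 = 1 := hT.1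
    rw [star_one, mul_one, this]; simp
  have hmul2 : ∀ x y : A, n2 T (x * y) ≤ n2 T x * ‖y‖ := by
    intro x y
    have := mul_n2 T (star y) (star x)
    rw [← star_mul, star_n2, star_n2, norm_star] at this
    rw [mul_comm (n2 T x)]
    exact this
  have hmul0 : ∀ a b : A, 0 ≤ a → 0 ≤ b → 0 ≤ re T (a * b) := by
    intro a b ha hb
    obtain ⟨c, hc⟩ := CStarAlgebra.nonneg_iff_eq_star_mul_self.mp ha
    obtain ⟨d, hd⟩ := CStarAlgebra.nonneg_iff_eq_star_mul_self.mp hb
    have e : T.f (a * b) = T.f (star (c * star d) * (c * star d)) := by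
      rw [hc, hd, star_mul, star_star]
      have e1 : star c * c * (star d * d) = (star c * c * star d) * d := by noncomm_ring
      have e2 : d * star c * (c * star d) = d * (star c * c * star d) := by noncomm_ring
      rw [e1, e2, T.tr]
    unfold re
    rw [e]
    exact (T.pos _).1
  refine ⟨n2_nn T, fun x => n2_sq T x, tri T, ?_, smul_n2 T, star_n2 T, mul_n2 T, hmul2, ?_, ?_,
    ?_, mono T, ?_, hmul0, sa_im T, ?_⟩
  · intro x y
    have := tri T x (-y)
    have e : n2 T (-y) = n2 T y := by unfold n2; rw [star_neg, neg_mul_neg]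
    rw [e, ← sub_eq_add_neg] at this
    exact this
  · intro x
    have := mul_n2 T x 1
    rwa [mul_one, h1, mul_one] at this
  · intro x
    have := cs T 1 x
    rwa [star_one, one_mul, h1, one_mul] at this
  · intro x y
    have := cs T (star x) y
    rwa [star_star, star_n2] at this
  · intro a ha
    refine ⟨(nonneg_re T a ha).1, (nonneg_re T a ha).2, ?_⟩
    intro y
    obtain ⟨b, hb⟩ := CStarAlgebra.nonneg_iff_eq_star_mul_self.mp ha
    have h2 := cs T b (b * y)
    have h3 := hmul2 b y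
    have h4 := n2_sq T b
    have e : star b * (b * y) = a * y := by rw [hb]; noncomm_ring
    rw [e] at h2
    unfold re
    rw [hb, ← h4, ← hb]
    nlinarith [n2_nn T b]
  · intro a b ha ha1 hb
    have := hmul0 (1 - a) b (sub_nonneg.mpr ha1) hb
    unfold re at this ⊢
    rw [sub_mul, one_mul, map_sub, Complex.sub_re] at this
    linarith

end Pool.Agent.H327R4.NU
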