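import Pool.Agent.H327R4.NU.Stubs

/-! Task CEN (helper196): approximately central elements from decomposable approximations. -/

set_option autoImplicit false

namespace Pool.Agent.H327R4.NU

open Filter Topology Pool.Agent.H327R4.Pure

universe u

namespace CENaux

section

variable {A : Type u} [CStarAlgebra A] [TrSet A]

theorem re_sub' (T : Tr A) (x y : A) : re T (x - y) = re T x - re T y := by simp [re]

theorem re_rsmul (T : Tr A) (r : ℝ) (x : A) : re T ((r : ℂ) • x) = r * re T x := by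
  simp [re]

theorem re_wsum (T : Tr A) {K : ℕ} (l : Fin K → ℝ) (x : Fin K → A) :
    re T (∑ k, (l k : ℂ) • x k) = ∑ k, l k * re T (x k) := by
  simp [re]

variable [PartialOrder A] [StarOrderedRing A]

theorem norm_le_one {V : A} (h : IsSelfAdjoint V) (h1 : -1 ≤ V) (h2 : V ≤ 1) : ‖V‖ ≤ 1 := by
  have e1 : ∀ x ∈ spectrum ℝ V, (-1 : ℝ) ≤ x := by
    have := (algebraMap_le_iff_le_spectrum (r := (-1 : ℝ)) (a := V) h).1 (by simpa using h1)
    exact this
  have e2 : ∀ x ∈ spectrum ℝ V, x ≤ 1 := by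
    have := (le_algebraMap_iff_spectrum_le (r := (1 : ℝ)) (a := V) h).1 (by simpa using h2)
    exact this
  have := norm_cfc_le (f := (id : ℝ → ℝ)) (a := V) (c := 1) (by norm_num) (by
    intro x hx
    rw [id, Real.norm_eq_abs, abs_le]
    exact ⟨e1 x hx, e2 x hx⟩)
  rwa [cfc_id ℝ V h] at this

theorem one_sub_sq {V : A} (h : IsSelfAdjoint V) (h1 : -1 ≤ V) (h2 : V ≤ 1) :
    0 ≤ 1 - V * V := by
  have e0 := norm_le_one h h1 h2
  have e1 : 0 ≤ V * V := by
    have := star_mul_self_nonneg V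
    rwa [h.star_eq] at this
  have e2 : ‖V * V‖ ≤ 1 := by
    calc ‖V * V‖ ≤ ‖V‖ * ‖V‖ := norm_mul_le _ _
      _ ≤ 1 * 1 := mul_le_mul e0 e0 (norm_nonneg _) (by norm_num)
      _ = 1 := by norm_num
  exact sub_nonneg.2 ((CStarAlgebra.norm_le_one_iff_of_nonneg (V * V) e1).1 e2)

theorem wsum_le (hTB : StTB.{u}) (T : Tr A) (hT : St T) {K : ℕ} (l : Fin K → ℝ) (x : Fin K → A)
    (r : ℝ) (h : ∑ k, (l k : ℂ) • x k ≤ ((r : ℝ) : ℂ) • (1 : A)) :
    ∑ k, l k * re T (x k) ≤ r := by
  obtain ⟨t0, tsq, tadd, tsub, tsmul, tstar, tml, tmr, tle, tf, tfm, tmono, tpos, tpp, tsa,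
    tcontr⟩ := hTB A T hT
  have := tmono _ _ h
  rw [re_wsum, re_rsmul] at this
  have e : re T 1 = 1 := by
    unfold re
    rw [hT.1]
    simp
  rwa [e, mul_one] at this

end

end CENaux

open CENaux in
theorem t_CEN (hTB : StTB.{u}) (hVAR : StVAR.{u}) (hVAR1 : StVAR1.{u}) (hSEQ : StSEQ.{u}) :
    StCEN.{u} := by
  intro A _ _ _ _ hCom hDec m a ε hε
  set b : Fin (m + m) → A := Fin.append (fun j => ((realPart (a j) : selfAdjoint A) : A))
    (fun j => ((imaginaryPart (a j) : selfAdjoint A) : A)) with hbdef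
  have hb : ∀ j, IsSelfAdjoint (b j) := by
    intro j
    refine Fin.addCases (fun i => ?_) (fun i => ?_) j
    · rw [hbdef, Fin.append_left]
      exact (realPart (a i)).2
    · rw [hbdef, Fin.append_right]
      exact (imaginaryPart (a i)).2
  set B : ℝ := ∑ j, ‖b j‖ with hB
  have hB0 : 0 ≤ B := Finset.sum_nonneg fun j _ => norm_nonneg _
  have hbB : ∀ j, ‖b j‖ ≤ B := fun j =>
    Finset.single_le_sum (f := fun j => ‖b j‖) (fun j _ => norm_nonneg _) (Finset.mem_univ j)
  set t : ℝ := min ε 1 with ht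
  have ht0 : 0 < t := lt_min hε one_pos
  have ht1 : t ≤ 1 := min_le_right _ _
  have htε : t ≤ ε := min_le_left _ _
  set e : ℝ := t ^ 2 / (100 * (1 + B)) with he
  have he0 : 0 < e := by positivity
  have heB : e * (100 * (1 + B)) = t ^ 2 := by
    rw [he]
    field_simp
  have htt : t ^ 2 ≤ t := by nlinarith
  have heB' : 0 ≤ e * B := mul_nonneg he0.le hB0
  have he1 : e ≤ t ^ 2 / 100 := by nlinarith
  have he2 : e ≤ 1 := by nlinarith
  obtain ⟨bb, n, ψ, K, l, φ, hψ, hl, hl1, hφ, happ⟩ := hDec _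
    (Fin.append (Fin.append b (fun j => star (b j) * b j)) (fun _ : Fin 1 => (1 : A))) e he0
  have a1 : ∀ j, ‖∑ k, (l k : ℂ) • φ k (ψ (b j)) - b j‖ ≤ e := by
    intro j
    have := happ (Fin.castAdd 1 (Fin.castAdd (m + m) j))
    simpa only [Fin.append_left] using this
  have a2 : ∀ j, ‖∑ k, (l k : ℂ) • φ k (ψ (star (b j) * b j)) - star (b j) * b j‖ ≤ e := by
    intro j
    have := happ (Fin.castAdd 1 (Fin.natAdd (m + m) j))
    simpa only [Fin.append_left, Fin.append_right] using this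
  have a3 : ‖∑ k, (l k : ℂ) • φ k (ψ 1) - 1‖ ≤ e := by
    have := happ (Fin.natAdd (m + m + (m + m)) 0)
    simpa only [Fin.append_right] using this
  have v2 := fun j => hVAR A bb n ψ K l φ (b j) e hψ hl hl1 hφ (a1 j) (a2 j)
  have v1 := hVAR1 A bb n ψ K l φ e hψ hl hl1 hφ a3
  obtain ⟨V, S, hV, hS, hmain⟩ := hSEQ A K l hl hl1 (m + m) b hb
    (fun k V => ∀ T : Tr A, St T → re T (1 - V * V) ≤ 4 * re T (1 - φ k 1) + e ∧
      ∀ j, n2 T (V * φ k (ψ (b j)) - φ k (ψ (b j)) * V) ≤ e) e he0 (by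
    intro k M Y ε' hε'
    obtain ⟨V, V1, V2, V3, V4⟩ := hCom bb n (φ k) (hφ k) ((m + m) + M)
      (Fin.append (fun j => ψ (b j)) (fun _ => 0)) (Fin.append (fun _ => 0) Y) (min ε' e)
      (lt_min hε' he0)
    refine ⟨V, V1, V2, V3, fun T hT => ⟨?_, fun j => ?_⟩, fun T hT j => ?_⟩
    · have := (V4 T hT).1
      have h2 := min_le_right ε' e
      linarith
    · have := ((V4 T hT).2 (Fin.castAdd M j)).1
      simp only [Fin.append_left] at this
      exact this.trans (min_le_right _ _)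
    · have := ((V4 T hT).2 (Fin.natAdd (m + m) j)).2
      simp only [Fin.append_right] at this
      exact this.trans (min_le_left _ _))
  refine ⟨S, hS, ?_⟩
  intro T hT
  obtain ⟨s4, sj⟩ := hmain T hT
  refine ⟨s4, ?_⟩
  obtain ⟨t0, tsq, tadd, tsub, tsmul, tstar, tml, tmr, tle, tf, tfm, tmono, tpos, tpp, tsa,
    tcontr⟩ := hTB A T hT
  -- the commutators
  have hcom : ∀ j, n2 T (S * b j - b j * S) ≤ ε / 2 := by
    intro j
    have w1 := (sj j).1
    have w2 : ∑ k, l k * n2 T (V k * b j - b j * V k) ^ 2 ≤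
        2 * e ^ 2 + 8 * (e * (1 + 2 * ‖b j‖)) := by
      have w3 := wsum_le hTB T hT l _ _ (v2 j)
      have w4 : ∀ k, l k * n2 T (V k * b j - b j * V k) ^ 2 ≤
          l k * (2 * e ^ 2) + 8 * (l k * re T (star (φ k (ψ (b j)) - b j) *
            (φ k (ψ (b j)) - b j))) := by
        intro k
        have hVn := norm_le_one (hV k).1 (hV k).2.1 (hV k).2.2.1
        have u1 := ((hV k).2.2.2 T hT).2 j
        have u2 : n2 T (V k * b j - b j * V k) ≤ e + 2 * n2 T (φ k (ψ (b j)) - b j) := by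
          have u3 : V k * b j - b j * V k = (V k * φ k (ψ (b j)) - φ k (ψ (b j)) * V k) -
              (V k * (φ k (ψ (b j)) - b j) - (φ k (ψ (b j)) - b j) * V k) := by noncomm_ring
          rw [u3]
          have u4 := tsub (V k * φ k (ψ (b j)) - φ k (ψ (b j)) * V k)
            (V k * (φ k (ψ (b j)) - b j) - (φ k (ψ (b j)) - b j) * V k)
          have u5 := tsub (V k * (φ k (ψ (b j)) - b j)) ((φ k (ψ (b j)) - b j) * V k)
          have u6 := tml (V k) (φ k (ψ (b j)) - b j)
          have u7 := tmr (φ k (ψ (b j)) - b j) (V k)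
          have u8 := t0 (φ k (ψ (b j)) - b j)
          have u9 : ‖V k‖ * n2 T (φ k (ψ (b j)) - b j) ≤ n2 T (φ k (ψ (b j)) - b j) := by
            nlinarith
          have u10 : n2 T (φ k (ψ (b j)) - b j) * ‖V k‖ ≤ n2 T (φ k (ψ (b j)) - b j) := by
            nlinarith
          linarith
        have u3 := t0 (V k * b j - b j * V k)
        have u4 : n2 T (V k * b j - b j * V k) ^ 2 ≤
            2 * e ^ 2 + 8 * n2 T (φ k (ψ (b j)) - b j) ^ 2 := by
          have u5 : n2 T (V k * b j - b j * V k) ^ 2 ≤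
            (e + 2 * n2 T (φ k (ψ (b j)) - b j)) ^ 2 := pow_le_pow_left₀ u3 u2 2
          have u6 := sq_nonneg (e - 2 * n2 T (φ k (ψ (b j)) - b j))
          nlinarith
        rw [tsq (φ k (ψ (b j)) - b j)] at u4
        have := mul_le_mul_of_nonneg_left u4 (hl k)
        linarith
      calc ∑ k, l k * n2 T (V k * b j - b j * V k) ^ 2
          ≤ ∑ k, (l k * (2 * e ^ 2) + 8 * (l k * re T (star (φ k (ψ (b j)) - b j) *
            (φ k (ψ (b j)) - b j)))) := Finset.sum_le_sum fun k _ => w4 k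
        _ = 2 * e ^ 2 + 8 * ∑ k, l k * re T (star (φ k (ψ (b j)) - b j) *
            (φ k (ψ (b j)) - b j)) := by
          rw [Finset.sum_add_distrib, ← Finset.sum_mul, hl1, ← Finset.mul_sum, one_mul]
        _ ≤ _ := by linarith
    have w5 : n2 T (S * b j - b j * S) ^ 2 ≤ (ε / 2) ^ 2 := by
      have w6 := hbB j
      have w7 : e * ‖b j‖ ≤ e * B := mul_le_mul_of_nonneg_left w6 he0.le
      have w8 : t ^ 2 ≤ ε ^ 2 := pow_le_pow_left₀ ht0.le htε 2
      have w9 : e ^ 2 ≤ e := by nlinarith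
      nlinarith
    exact (pow_le_pow_iff_left₀ (t0 _) (by positivity) (by norm_num)).1 w5
  have hetε : 2 * e ≤ ε := by nlinarith
  intro j
  have hbl : b (Fin.castAdd m j) = ((realPart (a j) : selfAdjoint A) : A) := by
    rw [hbdef, Fin.append_left]
  have hbr : b (Fin.natAdd m j) = ((imaginaryPart (a j) : selfAdjoint A) : A) := by
    rw [hbdef, Fin.append_right]
  have haj : a j = b (Fin.castAdd m j) + Complex.I • b (Fin.natAdd m j) := by
    rw [hbl, hbr]
    exact (realPart_add_I_smul_imaginaryPart (a j)).symm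
  refine ⟨?_, ?_, ?_⟩
  · have e1 : S * a j - a j * S = (S * b (Fin.castAdd m j) - b (Fin.castAdd m j) * S) +
        Complex.I • (S * b (Fin.natAdd m j) - b (Fin.natAdd m j) * S) := by
      rw [haj, mul_add, add_mul, mul_smul_comm, smul_mul_assoc, smul_sub]
      abel
    rw [e1]
    have e2 := tadd (S * b (Fin.castAdd m j) - b (Fin.castAdd m j) * S)
      (Complex.I • (S * b (Fin.natAdd m j) - b (Fin.natAdd m j) * S))
    rw [tsmul, Complex.norm_I, one_mul] at e2
    have e3 := hcom (Fin.castAdd m j)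
    have e4 := hcom (Fin.natAdd m j)
    linarith
  · have e1 : T.f (S * a j) = T.f (S * b (Fin.castAdd m j)) +
        Complex.I * T.f (S * b (Fin.natAdd m j)) := by
      rw [haj, mul_add, mul_smul_comm, map_add, map_smul, smul_eq_mul]
    rw [e1]
    have e2 := norm_add_le (T.f (S * b (Fin.castAdd m j)))
      (Complex.I * T.f (S * b (Fin.natAdd m j)))
    rw [norm_mul, Complex.norm_I, one_mul] at e2
    have e3 := (sj (Fin.castAdd m j)).2.1
    have e4 := (sj (Fin.natAdd m j)).2.1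
    linarith
  · intro hpos
    have e1 : b (Fin.castAdd m j) = a j := by
      rw [hbl]
      exact (IsSelfAdjoint.of_nonneg hpos).coe_realPart
    have e2 := (sj (Fin.castAdd m j)).2.2
    have hBj := hbB (Fin.castAdd m j)
    rw [e1] at e2 hBj
    have e3 := wsum_le hTB T hT l _ _ v1
    have e4 : ∀ k, l k * re T (a j) - ‖a j‖ * (4 * (l k * re T (1 - φ k 1)) + l k * e) ≤
        l k * re T (V k * V k * a j) := by
      intro k
      have u1 := one_sub_sq (hV k).1 (hV k).2.1 (hV k).2.2.1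
      have u2 := (tpos _ u1).2.2 (a j)
      have u3 : re T (V k * V k * a j) = re T (a j) - re T ((1 - V k * V k) * a j) := by
        rw [← re_sub']
        congr 1
        noncomm_ring
      have u4 : re T ((1 - V k * V k) * a j) ≤ re T (1 - V k * V k) * ‖a j‖ :=
        (Complex.re_le_norm _).trans u2
      have u5 := ((hV k).2.2.2 T hT).1
      have u6 : re T (1 - V k * V k) * ‖a j‖ ≤ (4 * re T (1 - φ k 1) + e) * ‖a j‖ :=
        mul_le_mul_of_nonneg_right u5 (norm_nonneg _)
      have u7 : re T (a j) - ‖a j‖ * (4 * re T (1 - φ k 1) + e) ≤ re T (V k * V k * a j) := by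
        rw [u3]
        linarith
      have := mul_le_mul_of_nonneg_left u7 (hl k)
      linarith
    have e5 : re T (a j) - ‖a j‖ * (4 * e + e) ≤ ∑ k, l k * re T (V k * V k * a j) := by
      calc re T (a j) - ‖a j‖ * (4 * e + e)
          ≤ re T (a j) - ‖a j‖ * (4 * ∑ k, l k * re T (1 - φ k 1) + e) := by
            have := mul_le_mul_of_nonneg_left (show 4 * ∑ k, l k * re T (1 - φ k 1) + e ≤
              4 * e + e by linarith) (norm_nonneg (a j))
            linarith
        _ = ∑ k, (l k * re T (a j) - ‖a j‖ * (4 * (l k * re T (1 - φ k 1)) + l k * e)) := by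
            rw [Finset.sum_sub_distrib, ← Finset.sum_mul, hl1, ← Finset.mul_sum,
              Finset.sum_add_distrib, ← Finset.mul_sum, ← Finset.sum_mul, hl1, one_mul, one_mul]
        _ ≤ _ := Finset.sum_le_sum fun k _ => e4 k
    have e6 := (abs_le.1 e2).1
    have e7 : ‖a j‖ * e ≤ B * e := mul_le_mul_of_nonneg_right hBj he0.le
    nlinarith

end Pool.Agent.H327R4.NU
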