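import Pool.Agent.H327R4.NU.Stubs

/-!
# Task COM: symmetries in the commutant of an order zero map
-/

set_option autoImplicit false
set_option linter.unusedSectionVars false
set_option maxHeartbeats 400000

namespace Pool.Agent.H327R4.NU

open Filter Topology Pool.Agent.H327R4.Pure

universe u

namespace COM

section mu

variable {b : ℕ} {n : Fin b → ℕ}

/-- matrix units -/
def E (i : Fin b) (s t : Fin (n i)) : FD n := Pi.single i (Matrix.single s t 1)

theorem E_apply_self (i : Fin b) (s t : Fin (n i)) : (E i s t : FD n) i = Matrix.single s t 1 := by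
  simp [E]

theorem E_apply_ne {i j : Fin b} (h : j ≠ i) (s t : Fin (n i)) : (E i s t : FD n) j = 0 := by
  simp [E, h]

theorem E_mul_same (i : Fin b) (s t u w : Fin (n i)) :
    (E i s t : FD n) * E i u w = if t = u then E i s w else 0 := by
  ext1 j
  by_cases hj : j = i
  · subst hj
    rw [Pi.mul_apply, E_apply_self, E_apply_self]
    split_ifs with h
    · subst h
      rw [E_apply_self, Matrix.single_mul_single_same]; simp
    · rw [Matrix.single_mul_single_of_ne _ _ _ _ h]; rfl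
  · rw [Pi.mul_apply, E_apply_ne hj]
    split_ifs with h
    · rw [E_apply_ne hj, E_apply_ne hj]; simp
    · simp

theorem E_mul_diff {i j : Fin b} (h : i ≠ j) (s t : Fin (n i)) (u w : Fin (n j)) :
    (E i s t : FD n) * E j u w = 0 := by
  ext1 k
  rw [Pi.mul_apply]
  by_cases hk : k = i
  · subst hk
    rw [E_apply_ne h]; simp
  · rw [E_apply_ne hk]; simp

theorem E_star (i : Fin b) (s t : Fin (n i)) : star (E i s t : FD n) = E i t s := by
  ext1 j
  rw [Pi.star_apply]
  by_cases hj : j = i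
  · subst hj
    rw [E_apply_self, E_apply_self, Matrix.star_eq_conjTranspose, Matrix.conjTranspose_single]
    simp
  · rw [E_apply_ne hj, E_apply_ne hj]; simp

theorem x_sum (x : FD n) :
    x = ∑ i : Fin b, ∑ s : Fin (n i), ∑ t : Fin (n i), x i s t • (E i s t : FD n) := by
  ext1 j
  rw [Finset.sum_apply]
  rw [Finset.sum_eq_single j]
  · simp only [Finset.sum_apply, Pi.smul_apply, E_apply_self]
    conv_lhs => rw [Matrix.matrix_eq_sum_single (x j)]
    simp
  · intro i _ hi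
    simp only [Finset.sum_apply, Pi.smul_apply, E_apply_ne (Ne.symm hi)]
    simp
  · simp

theorem one_sum : (1 : FD n) = ∑ i : Fin b, ∑ s : Fin (n i), (E i s s : FD n) := by
  conv_lhs => rw [x_sum (1 : FD n)]
  refine Finset.sum_congr rfl fun i _ => Finset.sum_congr rfl fun s _ => ?_
  rw [Finset.sum_eq_single s]
  · simp
  · intro t _ ht
    simp [Ne.symm ht]
  · simp

end mu

section oz

variable {A : Type u} [CStarAlgebra A] [PartialOrder A] [StarOrderedRing A] [TrSet A]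
  {b : ℕ} {n : Fin b → ℕ} (φ : FD n →ₗ[ℂ] A)

/-- the index `0` of a nonempty block -/
def oo {k : ℕ} (s : Fin k) : Fin k := ⟨0, lt_of_le_of_lt (Nat.zero_le _) s.isLt⟩

theorem oo_eq {k : ℕ} (s t : Fin k) : oo s = oo t := rfl

/-- first column -/
noncomputable def r (i : Fin b) (s : Fin (n i)) : A := φ (E i s (oo s))

/-- corner -/
noncomputable def G (i : Fin b) (s : Fin (n i)) : A := φ (E i (oo s) (oo s))

theorem G_eq (i : Fin b) (s t : Fin (n i)) : G φ i s = G φ i t := rfl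

variable (hφ : OZ φ)
include hφ

theorem star_r (i : Fin b) (s : Fin (n i)) : star (r φ i s) = φ (E i (oo s) s) := by
  rw [r, ← hφ.2.1, E_star]

theorem mulE (i : Fin b) (s t : Fin (n i)) (j : Fin b) (u w : Fin (n j)) :
    φ (E i s t) * φ (E j u w) = φ 1 * φ (E i s t * E j u w) := hφ.2.2.1 _ _

theorem h_comm (x : FD n) : φ 1 * φ x = φ x * φ 1 := by
  have h1 := hφ.2.2.1 1 x
  have h2 := hφ.2.2.1 x 1
  rw [h2, mul_one]

theorem star_r_mul_r_same (i : Fin b) (s t : Fin (n i)) :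
    star (r φ i s) * r φ i t = if s = t then G φ i s * G φ i s else 0 := by
  rw [star_r φ hφ, r, mulE φ hφ, E_mul_same]
  split_ifs with h
  · subst h
    rw [G, mulE φ hφ, E_mul_same, if_pos rfl]
  · rw [map_zero, mul_zero]

theorem star_r_mul_r_diff {i j : Fin b} (h : i ≠ j) (s : Fin (n i)) (t : Fin (n j)) :
    star (r φ i s) * r φ j t = 0 := by
  rw [star_r φ hφ, r, mulE φ hφ, E_mul_diff h, map_zero, mul_zero]

theorem r_mul_star_r (i : Fin b) (s : Fin (n i)) :
    r φ i s * star (r φ i s) = φ 1 * φ (E i s s) := by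
  rw [star_r φ hφ, r, mulE φ hφ, E_mul_same, if_pos rfl]

theorem one_eq : φ 1 = ∑ i : Fin b, ∑ s : Fin (n i), φ (E i s s) := by
  conv_lhs => rw [one_sum]
  rw [map_sum]
  refine Finset.sum_congr rfl fun i _ => ?_
  rw [map_sum]

theorem sum_r : ∑ i : Fin b, ∑ s : Fin (n i), r φ i s * star (r φ i s) = φ 1 * φ 1 := by
  simp only [r_mul_star_r φ hφ]
  calc _ = φ 1 * ∑ i : Fin b, ∑ s : Fin (n i), φ (E i s s) := by
        rw [Finset.mul_sum]
        refine Finset.sum_congr rfl fun i _ => ?_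
        rw [Finset.mul_sum]
    _ = φ 1 * φ 1 := by rw [← one_eq φ hφ]

theorem GG (i : Fin b) (s : Fin (n i)) : G φ i s * G φ i s = φ 1 * G φ i s := by
  rw [G, mulE φ hφ, E_mul_same, if_pos rfl]

theorem G_nonneg (i : Fin b) (s : Fin (n i)) : 0 ≤ G φ i s := by
  have := hφ.1 (E i (oo s) (oo s))
  rwa [E_star, E_mul_same, if_pos rfl] at this

theorem G_le_one (i : Fin b) (s : Fin (n i)) : G φ i s ≤ 1 := by
  have := hφ.1 (1 - E i (oo s) (oo s))
  rw [star_sub, star_one, E_star, sub_mul, mul_sub, mul_sub, E_mul_same, if_pos rfl] at this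
  simp only [one_mul, mul_one, sub_self, sub_zero, map_sub] at this
  exact (sub_nonneg.mp this).trans hφ.2.2.2

theorem h_nonneg : 0 ≤ φ 1 := by
  have := hφ.1 1
  simpa using this

/-- `V` commutes almost with matrix units -/
theorem star_r_mul_E_same (i : Fin b) (s u w : Fin (n i)) :
    star (r φ i s) * φ (E i u w) = if s = u then G φ i s * star (r φ i w) else 0 := by
  rw [star_r φ hφ, star_r φ hφ, G, mulE φ hφ, mulE φ hφ, E_mul_same, E_mul_same,
    if_pos (oo_eq s w)]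
  split_ifs with h
  · rfl
  · rw [map_zero, mul_zero]

theorem E_mul_r_same (i : Fin b) (s u w : Fin (n i)) :
    φ (E i u w) * r φ i s = if w = s then r φ i u * G φ i s else 0 := by
  rw [r, r, G, mulE φ hφ, mulE φ hφ, E_mul_same, E_mul_same, if_pos (oo_eq u s)]
  split_ifs with h
  · rfl
  · rw [map_zero, mul_zero]

theorem star_r_mul_E_diff {i j : Fin b} (h : i ≠ j) (s : Fin (n i)) (u w : Fin (n j)) :
    star (r φ i s) * φ (E j u w) = 0 := by
  rw [star_r φ hφ, mulE φ hφ, E_mul_diff h, map_zero, mul_zero]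

theorem E_mul_r_diff {i j : Fin b} (h : j ≠ i) (s : Fin (n i)) (u w : Fin (n j)) :
    φ (E j u w) * r φ i s = 0 := by
  rw [r, mulE φ hφ, E_mul_diff h, map_zero, mul_zero]

/-- the symmetry -/
noncomputable def VV (v : Fin b → A) : A :=
  ∑ i : Fin b, ∑ s : Fin (n i), r φ i s * v i * star (r φ i s)

omit hφ in
theorem VV_sa (v : Fin b → A) (hv : ∀ i, IsSelfAdjoint (v i)) : IsSelfAdjoint (VV φ v) := by
  unfold VV IsSelfAdjoint
  rw [star_sum]
  refine Finset.sum_congr rfl fun i _ => ?_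
  rw [star_sum]
  refine Finset.sum_congr rfl fun s _ => ?_
  rw [star_mul, star_mul, star_star, (hv i).star_eq, mul_assoc]

theorem VV_comm (v : Fin b → A) (i : Fin b) (u w : Fin (n i)) :
    VV φ v * φ (E i u w) - φ (E i u w) * VV φ v
      = r φ i u * (v i * G φ i u - G φ i u * v i) * star (r φ i w) := by
  have h1 : VV φ v * φ (E i u w) = r φ i u * v i * (G φ i u * star (r φ i w)) := by
    unfold VV
    rw [Finset.sum_mul, Finset.sum_eq_single i]
    · rw [Finset.sum_mul, Finset.sum_eq_single u]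
      · rw [mul_assoc, star_r_mul_E_same φ hφ, if_pos rfl]
      · intro s _ hs
        rw [mul_assoc, star_r_mul_E_same φ hφ, if_neg hs, mul_zero]
      · simp
    · intro j _ hj
      rw [Finset.sum_mul]
      refine Finset.sum_eq_zero fun s _ => ?_
      rw [mul_assoc, star_r_mul_E_diff φ hφ hj, mul_zero]
    · simp
  have h2 : φ (E i u w) * VV φ v = r φ i u * G φ i u * v i * star (r φ i w) := by
    unfold VV
    rw [Finset.mul_sum, Finset.sum_eq_single i]
    · rw [Finset.mul_sum, Finset.sum_eq_single w]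
      · rw [← mul_assoc, ← mul_assoc, E_mul_r_same φ hφ, if_pos rfl, G_eq φ i w u]
      · intro s _ hs
        rw [← mul_assoc, ← mul_assoc, E_mul_r_same φ hφ, if_neg (Ne.symm hs), zero_mul, zero_mul]
      · simp
    · intro j _ hj
      rw [Finset.mul_sum]
      refine Finset.sum_eq_zero fun s _ => ?_
      rw [← mul_assoc, ← mul_assoc, E_mul_r_diff φ hφ (Ne.symm hj), zero_mul, zero_mul]
    · simp
  rw [h1, h2]
  simp only [mul_sub, sub_mul, mul_assoc]

theorem VV_sq (v : Fin b → A) :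
    VV φ v * VV φ v = ∑ i : Fin b, ∑ s : Fin (n i),
      r φ i s * (v i * (G φ i s * G φ i s) * v i) * star (r φ i s) := by
  conv_lhs => rw [show VV φ v * VV φ v = (∑ i : Fin b, ∑ s : Fin (n i),
    r φ i s * v i * star (r φ i s)) * VV φ v from rfl]
  rw [Finset.sum_mul]
  refine Finset.sum_congr rfl fun i _ => ?_
  rw [Finset.sum_mul]
  refine Finset.sum_congr rfl fun s _ => ?_
  have : star (r φ i s) * VV φ v = G φ i s * G φ i s * v i * star (r φ i s) := by
    unfold VV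
    rw [Finset.mul_sum, Finset.sum_eq_single i]
    · rw [Finset.mul_sum, Finset.sum_eq_single s]
      · rw [← mul_assoc, ← mul_assoc, star_r_mul_r_same φ hφ, if_pos rfl]
      · intro t _ ht
        rw [← mul_assoc, ← mul_assoc, star_r_mul_r_same φ hφ, if_neg (Ne.symm ht), zero_mul,
          zero_mul]
      · simp
    · intro j _ hj
      rw [Finset.mul_sum]
      refine Finset.sum_eq_zero fun t _ => ?_
      rw [← mul_assoc, ← mul_assoc, star_r_mul_r_diff φ hφ (Ne.symm hj), zero_mul, zero_mul]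
    · simp
  rw [mul_assoc, this]
  simp only [mul_assoc]

omit hφ in
theorem sq_le_one (v : A) (h1 : -1 ≤ v) (h2 : v ≤ 1) : v * v ≤ 1 := by
  have ha : 0 ≤ 1 - v := sub_nonneg.mpr h2
  have hb : 0 ≤ 1 + v := by
    have := sub_nonneg.mpr h1
    rwa [sub_neg_eq_add, add_comm] at this
  have hc : Commute (1 - v) (1 + v) := by
    unfold Commute SemiconjBy; noncomm_ring
  have := hc.mul_nonneg ha hb
  have e : (1 - v) * (1 + v) = 1 - v * v := by noncomm_ring
  rw [e] at this
  exact sub_nonneg.mp this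

omit hφ in
theorem of_sq_le_one (v : A) (hv : IsSelfAdjoint v) (h : v * v ≤ 1) : -1 ≤ v ∧ v ≤ 1 := by
  have h0 : 0 ≤ v * v := by
    have := star_mul_self_nonneg v
    rwa [hv.star_eq] at this
  have h1 : ‖v * v‖ ≤ 1 := (CStarAlgebra.norm_le_one_iff_of_nonneg (v * v) h0).mpr h
  have h2 : ‖v‖ ≤ 1 := by
    have h3 := CStarRing.norm_star_mul_self (x := v)
    rw [hv.star_eq] at h3
    rw [h3] at h1
    nlinarith [norm_nonneg v]
  have h4 : algebraMap ℝ A ‖v‖ ≤ 1 := by
    rw [← map_one (algebraMap ℝ A)]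
    exact algebraMap_mono A h2
  exact ⟨(neg_le_neg h4).trans hv.neg_algebraMap_norm_le_self, hv.le_algebraMap_norm_self.trans h4⟩

theorem GG_le_one (i : Fin b) (s : Fin (n i)) : G φ i s * G φ i s ≤ 1 := by
  apply sq_le_one _ _ (G_le_one φ hφ i s)
  exact (neg_nonpos.mpr zero_le_one).trans (G_nonneg φ hφ i s)

theorem hh_le_one : φ 1 * φ 1 ≤ 1 := by
  apply sq_le_one _ _ hφ.2.2.2
  exact (neg_nonpos.mpr zero_le_one).trans (h_nonneg φ hφ)

theorem VV_sq_le (v : Fin b → A) (hv : ∀ i, IsSelfAdjoint (v i) ∧ -1 ≤ v i ∧ v i ≤ 1) :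
    VV φ v * VV φ v ≤ 1 := by
  rw [VV_sq φ hφ]
  refine le_trans ?_ (hh_le_one φ hφ)
  rw [← sum_r φ hφ]
  refine Finset.sum_le_sum fun i _ => Finset.sum_le_sum fun s _ => ?_
  have h1 : v i * (G φ i s * G φ i s) * v i ≤ 1 := by
    have := star_left_conjugate_le_conjugate (GG_le_one φ hφ i s) (v i)
    rw [(hv i).1.star_eq, mul_one] at this
    exact this.trans (sq_le_one _ (hv i).2.1 (hv i).2.2)
  have := star_right_conjugate_le_conjugate h1 (r φ i s)
  rwa [mul_one] at this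

omit hφ in
theorem norm_le_one (v : A) (hv : IsSelfAdjoint v) (h1 : -1 ≤ v) (h2 : v ≤ 1) : ‖v‖ ≤ 1 := by
  have h0 : 0 ≤ v * v := by
    have := star_mul_self_nonneg v
    rwa [hv.star_eq] at this
  have h1 : ‖v * v‖ ≤ 1 :=
    (CStarAlgebra.norm_le_one_iff_of_nonneg (v * v) h0).mpr (sq_le_one v h1 h2)
  have h3 := CStarRing.norm_star_mul_self (x := v)
  rw [hv.star_eq] at h3
  rw [h3] at h1
  nlinarith [norm_nonneg v]

theorem tr_VV_sq (T : Tr A) (v : Fin b → A) : re T (VV φ v * VV φ v) = ∑ i : Fin b, ∑ s : Fin (n i),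
    re T (v i * (G φ i s * G φ i s) * v i * (G φ i s * G φ i s)) := by
  rw [VV_sq φ hφ]
  simp only [re, map_sum, Complex.re_sum]
  refine Finset.sum_congr rfl fun i _ => Finset.sum_congr rfl fun s _ => ?_
  rw [T.tr, ← mul_assoc (star _), star_r_mul_r_same φ hφ, if_pos rfl, T.tr]

theorem tr_h4 (T : Tr A) : re T (φ 1 * φ 1 * (φ 1 * φ 1)) = ∑ i : Fin b, ∑ s : Fin (n i),
    re T (G φ i s * G φ i s * (G φ i s * G φ i s)) := by
  have e : φ 1 * φ 1 * (φ 1 * φ 1) = ∑ i : Fin b, ∑ s : Fin (n i),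
      φ 1 * φ 1 * (φ 1 * φ (E i s s)) := by
    calc φ 1 * φ 1 * (φ 1 * φ 1)
        = φ 1 * φ 1 * (φ 1 * ∑ i : Fin b, ∑ s : Fin (n i), φ (E i s s)) := by rw [← one_eq φ hφ]
      _ = _ := by
        rw [Finset.mul_sum, Finset.mul_sum]
        refine Finset.sum_congr rfl fun i _ => ?_
        rw [Finset.mul_sum, Finset.mul_sum]
  rw [e]
  simp only [re, map_sum, Complex.re_sum]
  refine Finset.sum_congr rfl fun i _ => Finset.sum_congr rfl fun s _ => ?_
  have hc : r φ i s * (φ 1 * φ 1) = φ 1 * φ 1 * r φ i s := by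
    unfold r
    rw [← mul_assoc, ← h_comm φ hφ, mul_assoc, ← h_comm φ hφ, mul_assoc]
  have hG : φ 1 * G φ i s = G φ i s * φ 1 := by
    unfold G
    exact h_comm φ hφ _
  have e2 : G φ i s * G φ i s * (G φ i s * G φ i s)
      = φ 1 * φ 1 * (star (r φ i s) * r φ i s) := by
    rw [star_r_mul_r_same φ hφ, if_pos rfl]
    conv_lhs => rw [GG φ hφ]
    rw [GG φ hφ i s]
    calc φ 1 * G φ i s * (φ 1 * G φ i s) = φ 1 * (G φ i s * φ 1) * G φ i s := by
          simp only [mul_assoc]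
      _ = φ 1 * (φ 1 * G φ i s) * G φ i s := by rw [hG]
      _ = φ 1 * φ 1 * (G φ i s * G φ i s) := by simp only [mul_assoc]
      _ = _ := by rw [GG φ hφ]
  have e3 : T.f (φ 1 * φ 1 * (star (r φ i s) * r φ i s))
      = T.f (φ 1 * φ 1 * (r φ i s * star (r φ i s))) := by
    rw [← mul_assoc, T.tr, ← mul_assoc, hc, mul_assoc (φ 1 * φ 1)]
  rw [e2, e3, r_mul_star_r φ hφ]

end oz

section tr

variable {A : Type u} [CStarAlgebra A] [PartialOrder A] [StarOrderedRing A] [TrSet A]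

theorem re_add (T : Tr A) (x y : A) : re T (x + y) = re T x + re T y := by simp [re]
theorem re_sub (T : Tr A) (x y : A) : re T (x - y) = re T x - re T y := by simp [re]

theorem abs_re_le (T : Tr A) (x : A) : |re T x| ≤ ‖T.f x‖ := Complex.abs_re_le_norm _

theorem nonneg_mul_self (g : A) (h : 0 ≤ g) : 0 ≤ g * g := by
  have := star_mul_self_nonneg g
  rwa [(IsSelfAdjoint.of_nonneg h).star_eq] at this

theorem one_sub_h4 (hTB : StTB.{u}) (T : Tr A) (hT : St T) (h : A) (h0 : 0 ≤ h) (h1 : h ≤ 1) :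
    re T 1 - re T (h * h * (h * h)) ≤ 4 * re T (1 - h) := by
  obtain ⟨-, -, -, -, -, -, -, -, -, -, -, -, -, -, -, t16⟩ := hTB A T hT
  have hs : IsSelfAdjoint h := IsSelfAdjoint.of_nonneg h0
  have hm : (-1 : A) ≤ h := (neg_nonpos.mpr zero_le_one).trans h0
  have a2 : 0 ≤ h * h := nonneg_mul_self h h0
  have b2 : h * h ≤ 1 := sq_le_one h hm h1
  have a3 : 0 ≤ h * h * h := Commute.mul_nonneg a2 h0 (by unfold Commute SemiconjBy; noncomm_ring)
  have b3 : h * h * h ≤ 1 := by
    have := star_left_conjugate_le_conjugate h1 h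
    rw [hs.star_eq, mul_one] at this
    exact this.trans b2
  have c0 : 0 ≤ 1 - h := sub_nonneg.mpr h1
  have d1 := t16 h (1 - h) h0 h1 c0
  have d2 := t16 (h * h) (1 - h) a2 b2 c0
  have d3 := t16 (h * h * h) (1 - h) a3 b3 c0
  have e : (1 : A) - h * h * (h * h) = (1 - h) + h * (1 - h) + h * h * (1 - h) + h * h * h * (1 - h) := by
    noncomm_ring
  rw [← re_sub, e, re_add, re_add, re_add]
  linarith

theorem tr_lower (hTB : StTB.{u}) (T : Tr A) (hT : St T) (v g : A) (hv : IsSelfAdjoint v)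
    (h1 : -1 ≤ v) (h2 : v ≤ 1) (g0 : 0 ≤ g) (g1 : g ≤ 1) :
    re T (g * g * (g * g)) - re T (1 - v * v) - 2 * n2 T (v * g - g * v)
      ≤ re T (v * (g * g) * v * (g * g)) := by
  obtain ⟨t1, t2, t3, t4, t5, t6, t7, t8, t9, t10, t11, t12, t13, t14, t15, t16⟩ := hTB A T hT
  have gs : IsSelfAdjoint g := IsSelfAdjoint.of_nonneg g0
  have gm : (-1 : A) ≤ g := (neg_nonpos.mpr zero_le_one).trans g0
  have a2 : 0 ≤ g * g := nonneg_mul_self g g0
  have b2 : g * g ≤ 1 := sq_le_one g gm g1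
  have a4 : 0 ≤ g * g * (g * g) := nonneg_mul_self _ a2
  have b4 : g * g * (g * g) ≤ 1 :=
    sq_le_one _ ((neg_nonpos.mpr zero_le_one).trans a2) b2
  have nv : ‖v‖ ≤ 1 := norm_le_one v hv h1 h2
  have ng : ‖g‖ ≤ 1 := norm_le_one g gs gm g1
  have ngg : ‖g * g‖ ≤ 1 := norm_le_one _ (IsSelfAdjoint.of_nonneg a2)
    ((neg_nonpos.mpr zero_le_one).trans a2) b2
  have c0 : 0 ≤ 1 - v * v := sub_nonneg.mpr (sq_le_one v h1 h2)
  set c : A := v * g - g * v with hc
  have e : v * (g * g) * v * (g * g)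
      = g * g * (g * g) - (1 - v * v) * (g * g * (g * g)) - v * (c * g + g * c) * (g * g) := by
    rw [hc]; noncomm_ring
  have e5 : re T (v * (g * g) * v * (g * g)) = re T (g * g * (g * g))
      - re T ((1 - v * v) * (g * g * (g * g))) - re T (v * (c * g + g * c) * (g * g)) := by
    rw [e, re_sub T (_ - _) (_ * _), re_sub T (_ * _) (_ * _)]
  rw [e5]
  have d1 : re T ((1 - v * v) * (g * g * (g * g))) ≤ re T (1 - v * v) := by
    have := t16 (g * g * (g * g)) (1 - v * v) a4 b4 c0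
    have e3 : re T ((1 - v * v) * (g * g * (g * g))) = re T (g * g * (g * g) * (1 - v * v)) := by
      unfold re; rw [T.tr]
    rw [e3]; exact this
  have d2 : re T (v * (c * g + g * c) * (g * g)) ≤ 2 * n2 T c := by
    calc re T (v * (c * g + g * c) * (g * g)) ≤ |re T (v * (c * g + g * c) * (g * g))| := le_abs_self _
      _ ≤ ‖T.f (v * (c * g + g * c) * (g * g))‖ := abs_re_le _ _
      _ ≤ n2 T (v * (c * g + g * c) * (g * g)) := t10 _
      _ ≤ n2 T (v * (c * g + g * c)) * ‖g * g‖ := t8 _ _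
      _ ≤ n2 T (v * (c * g + g * c)) * 1 := mul_le_mul_of_nonneg_left ngg (t1 _)
      _ = n2 T (v * (c * g + g * c)) := mul_one _
      _ ≤ ‖v‖ * n2 T (c * g + g * c) := t7 _ _
      _ ≤ 1 * n2 T (c * g + g * c) := mul_le_mul_of_nonneg_right nv (t1 _)
      _ = n2 T (c * g + g * c) := one_mul _
      _ ≤ n2 T (c * g) + n2 T (g * c) := t3 _ _
      _ ≤ n2 T c * ‖g‖ + ‖g‖ * n2 T c := add_le_add (t8 _ _) (t7 _ _)
      _ ≤ n2 T c * 1 + 1 * n2 T c :=
        add_le_add (mul_le_mul_of_nonneg_left ng (t1 _)) (mul_le_mul_of_nonneg_right ng (t1 _))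
      _ = 2 * n2 T c := by ring
  linarith

theorem n2_sum_le (hTB : StTB.{u}) (T : Tr A) (hT : St T) {ι : Type*} (S : Finset ι) (F : ι → A) :
    n2 T (∑ i ∈ S, F i) ≤ ∑ i ∈ S, n2 T (F i) := by
  classical
  obtain ⟨t1, t2, t3, t4, t5, t6, t7, t8, t9, t10, t11, t12, t13, t14, t15, t16⟩ := hTB A T hT
  induction S using Finset.induction_on with
  | empty => simp [n2]
  | insert i S hi ih =>
    rw [Finset.sum_insert hi, Finset.sum_insert hi]
    exact (t3 _ _).trans (add_le_add le_rfl ih)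

end tr

end COM

open COM in
theorem t_COM (hTB : StTB.{u}) : StCOM.{u} := by
  intro A _ _ _ _ hFOI b n φ hφ m x Y ε hε
  obtain ⟨N, hN⟩ : ∃ N : ℝ, N = ∑ i : Fin b, ∑ s : Fin (n i), (1 : ℝ) := ⟨_, rfl⟩
  obtain ⟨M, hM⟩ : ∃ M : Fin m → ℝ, ∀ j, M j = ∑ i : Fin b, ∑ s : Fin (n i), ∑ t : Fin (n i),
    ‖x j i s t‖ * (‖r φ i s‖ * ‖star (r φ i t)‖) := ⟨fun j => _, fun j => rfl⟩
  have hN0 : 0 ≤ N := by
    rw [hN]
    exact Finset.sum_nonneg fun i _ => Finset.sum_nonneg fun s _ => zero_le_one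
  have hM0 : ∀ j, 0 ≤ M j := fun j => by
    rw [hM]
    exact Finset.sum_nonneg fun i _ => Finset.sum_nonneg fun s _ => Finset.sum_nonneg fun t _ =>
      mul_nonneg (norm_nonneg _) (mul_nonneg (norm_nonneg _) (norm_nonneg _))
  obtain ⟨C, hC⟩ : ∃ C : ℝ, C = 3 * N + ∑ j, M j + b + 1 := ⟨_, rfl⟩
  have hS0 : 0 ≤ ∑ j, M j := Finset.sum_nonneg fun j _ => hM0 j
  have hb0 : (0 : ℝ) ≤ b := Nat.cast_nonneg b
  have hC0 : 0 < C := by rw [hC]; linarith
  obtain ⟨ε', hε'⟩ : ∃ e : ℝ, e = ε / C := ⟨_, rfl⟩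
  have he0 : 0 < ε' := by rw [hε']; exact div_pos hε hC0
  have heC : ε' * C = ε := by rw [hε']; field_simp
  have key : ∀ i : Fin b, ∃ v : A, (IsSelfAdjoint v ∧ -1 ≤ v ∧ v ≤ 1) ∧ ∀ T : Tr A, St T →
      (∀ s : Fin (n i), re T (1 - v * v) ≤ ε' ∧ n2 T (v * G φ i s - G φ i s * v) ≤ ε') ∧
      ∀ j, ‖T.f (v * ∑ s : Fin (n i), star (r φ i s) * Y j * r φ i s)‖ ≤ ε' := by
    intro i
    by_cases hi : 0 < n i
    · obtain ⟨v, h1, h2, h3, h4⟩ := hFOI m (fun j => ∑ s : Fin (n i), star (r φ i s) * Y j * r φ i s)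
        (G φ i ⟨0, hi⟩) ε' (G_nonneg φ hφ i _) (G_le_one φ hφ i _) he0
      exact ⟨v, ⟨h1, h2, h3⟩, fun T hT => ⟨fun s => ⟨(h4 T hT).1, (h4 T hT).2.1⟩, (h4 T hT).2.2⟩⟩
    · refine ⟨0, ⟨IsSelfAdjoint.zero _, neg_nonpos.mpr zero_le_one, zero_le_one⟩,
        fun T hT => ⟨fun s => absurd (lt_of_le_of_lt (Nat.zero_le _) s.isLt) hi, fun j => ?_⟩⟩
      rw [zero_mul, map_zero, norm_zero]
      exact he0.le
  choose v hv hvT using key
  have hsa : IsSelfAdjoint (VV φ v) := VV_sa φ v fun i => (hv i).1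
  have hle := of_sq_le_one (VV φ v) hsa (VV_sq_le φ hφ v hv)
  refine ⟨VV φ v, hsa, hle.1, hle.2, fun T hT => ⟨?_, fun j => ⟨?_, ?_⟩⟩⟩
  · have h4 := one_sub_h4 hTB T hT (φ 1) (h_nonneg φ hφ) hφ.2.2.2
    rw [tr_h4 φ hφ] at h4
    rw [re_sub, tr_VV_sq φ hφ]
    have h5 : ∑ i : Fin b, ∑ s : Fin (n i), (re T (G φ i s * G φ i s * (G φ i s * G φ i s)) - 3 * ε')
        ≤ ∑ i : Fin b, ∑ s : Fin (n i), re T (v i * (G φ i s * G φ i s) * v i * (G φ i s * G φ i s)) := by
      refine Finset.sum_le_sum fun i _ => Finset.sum_le_sum fun s _ => ?_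
      have := tr_lower hTB T hT (v i) (G φ i s) (hv i).1 (hv i).2.1 (hv i).2.2 (G_nonneg φ hφ i s)
        (G_le_one φ hφ i s)
      obtain ⟨q1, q2⟩ := (hvT i T hT).1 s
      linarith
    have h6 : ∑ i : Fin b, ∑ s : Fin (n i), (re T (G φ i s * G φ i s * (G φ i s * G φ i s)) - 3 * ε')
        = ∑ i : Fin b, ∑ s : Fin (n i), re T (G φ i s * G φ i s * (G φ i s * G φ i s)) - 3 * ε' * N := by
      rw [hN]
      simp only [Finset.sum_sub_distrib, Finset.mul_sum, mul_one]
    rw [h6] at h5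
    have h7 : 3 * ε' * N ≤ ε := by
      rw [← heC, hC]
      nlinarith
    linarith
  · have e : VV φ v * φ (x j) - φ (x j) * VV φ v = ∑ i : Fin b, ∑ s : Fin (n i), ∑ t : Fin (n i),
        x j i s t • (r φ i s * (v i * G φ i s - G φ i s * v i) * star (r φ i t)) := by
      conv_lhs => rw [x_sum (x j)]
      simp only [map_sum, map_smul, Finset.mul_sum, Finset.sum_mul, ← Finset.sum_sub_distrib]
      refine Finset.sum_congr rfl fun i _ => Finset.sum_congr rfl fun s _ =>
        Finset.sum_congr rfl fun t _ => ?_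
      rw [← VV_comm φ hφ, mul_smul_comm, smul_mul_assoc, smul_sub]
    rw [e]
    obtain ⟨t1, t2, t3, t4, t5, t6, t7, t8, t9, t10, t11, t12, t13, t14, t15, t16⟩ := hTB A T hT
    calc n2 T _ ≤ ∑ i : Fin b, ∑ s : Fin (n i), ∑ t : Fin (n i),
          n2 T (x j i s t • (r φ i s * (v i * G φ i s - G φ i s * v i) * star (r φ i t))) := by
          refine (n2_sum_le hTB T hT _ _).trans (Finset.sum_le_sum fun i _ => ?_)
          refine (n2_sum_le hTB T hT _ _).trans (Finset.sum_le_sum fun s _ => ?_)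
          exact n2_sum_le hTB T hT _ _
      _ ≤ ∑ i : Fin b, ∑ s : Fin (n i), ∑ t : Fin (n i),
          ε' * (‖x j i s t‖ * (‖r φ i s‖ * ‖star (r φ i t)‖)) := by
          refine Finset.sum_le_sum fun i _ => Finset.sum_le_sum fun s _ =>
            Finset.sum_le_sum fun t _ => ?_
          rw [t5]
          have q := ((hvT i T hT).1 s).2
          calc ‖x j i s t‖ * n2 T (r φ i s * (v i * G φ i s - G φ i s * v i) * star (r φ i t))
              ≤ ‖x j i s t‖ * (‖r φ i s‖ * ε' * ‖star (r φ i t)‖) := by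
                apply mul_le_mul_of_nonneg_left _ (norm_nonneg _)
                refine (t8 _ _).trans ?_
                apply mul_le_mul_of_nonneg_right _ (norm_nonneg _)
                refine (t7 _ _).trans ?_
                exact mul_le_mul_of_nonneg_left q (norm_nonneg _)
            _ = ε' * (‖x j i s t‖ * (‖r φ i s‖ * ‖star (r φ i t)‖)) := by ring
      _ = ε' * M j := by rw [hM]; simp only [Finset.mul_sum]
      _ ≤ ε := by
          have : M j ≤ ∑ j, M j := Finset.single_le_sum (fun j _ => hM0 j) (Finset.mem_univ j)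
          rw [← heC, hC]
          apply mul_le_mul_of_nonneg_left _ he0.le
          linarith
  · have e : T.f (VV φ v * Y j) = ∑ i : Fin b,
        T.f (v i * ∑ s : Fin (n i), star (r φ i s) * Y j * r φ i s) := by
      unfold VV
      rw [Finset.sum_mul, map_sum]
      refine Finset.sum_congr rfl fun i _ => ?_
      rw [Finset.sum_mul, map_sum, Finset.mul_sum, map_sum]
      refine Finset.sum_congr rfl fun s _ => ?_
      rw [mul_assoc, mul_assoc, T.tr, mul_assoc, mul_assoc]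
    rw [e]
    calc ‖_‖ ≤ ∑ i : Fin b, ‖T.f (v i * ∑ s : Fin (n i), star (r φ i s) * Y j * r φ i s)‖ :=
          norm_sum_le _ _
      _ ≤ ∑ i : Fin b, ε' := Finset.sum_le_sum fun i _ => (hvT i T hT).2 j
      _ = ε' * b := by simp [mul_comm]
      _ ≤ ε := by
          rw [← heC, hC]
          apply mul_le_mul_of_nonneg_left _ he0.le
          linarith

end Pool.Agent.H327R4.NU
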