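import Pool.Agent.H327R4.NU.Stubs

/-! CUT: uniform spectral cut by iteration of the walk. -/

set_option autoImplicit false

namespace Pool.Agent.H327R4.NU

open Filter Topology Pool.Agent.H327R4.Pure
open scoped ComplexOrder

universe u

namespace TCUTaux

variable {A : Type u} [CStarAlgebra A] [TrSet A]

theorem re_add (T : Tr A) (x y : A) : re T (x + y) = re T x + re T y := by
  simp [re]

theorem re_sub (T : Tr A) (x y : A) : re T (x - y) = re T x - re T y := by
  simp [re]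

theorem re_smul (T : Tr A) (c : ℝ) (x : A) : re T ((c : ℂ) • x) = c * re T x := by
  simp [re]

end TCUTaux

open TCUTaux in
theorem t_CUT (hTB : StTB.{u}) (hTWO : StTWO.{u}) (hHER : StHER.{u}) : StCUT.{u} := by
  intro A _ _ _ _ hDIV e ε he0 he1 hε
  have hesa : IsSelfAdjoint e := IsSelfAdjoint.of_nonneg he0
  obtain ⟨N, hN⟩ := exists_nat_gt (max 64 (16 / ε))
  have hN64 : (64 : ℝ) < N := lt_of_le_of_lt (le_max_left _ _) hN
  have hNε : 16 / ε < N := lt_of_le_of_lt (le_max_right _ _) hN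
  have hN64' : 64 ≤ N := by
    have : (64 : ℝ) ≤ N := hN64.le
    exact_mod_cast this
  have hNpos : (0 : ℝ) < N := by linarith
  have h32 : 32 / (N : ℝ) ≤ 2 * ε := by
    rw [div_lt_iff₀ hε] at hNε
    rw [div_le_iff₀ hNpos]
    nlinarith
  set c : ℝ := min (ε ^ 2 / (40 * (N : ℝ) ^ 2)) ε with hc
  have hcpos : 0 < c := by
    rw [hc]
    exact lt_min (by positivity) hε
  have hcε : c ≤ ε := min_le_right _ _
  have hc2 : c ≤ ε ^ 2 / (40 * (N : ℝ) ^ 2) := min_le_left _ _
  set X₀ : A := (2 : ℂ) • e - 1 with hX₀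
  have hX₀sa : IsSelfAdjoint X₀ := by
    rw [hX₀]
    refine IsSelfAdjoint.sub ?_ (IsSelfAdjoint.one A)
    rw [IsSelfAdjoint, star_smul, hesa.star_eq]
    congr 1
    simp
  have h2e : (2 : ℂ) • e = e + e := two_smul ℂ e
  have hX₀l : -1 ≤ X₀ := by
    rw [hX₀, h2e]
    have : (0 : A) ≤ e + e := add_nonneg he0 he0
    calc (-1 : A) = 0 - 1 := by simp
      _ ≤ e + e - 1 := sub_le_sub_right this 1
  have hX₀u : X₀ ≤ 1 := by
    rw [hX₀, h2e]
    have : e + e ≤ 1 + 1 := add_le_add he1 he1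
    calc e + e - 1 ≤ 1 + 1 - 1 := sub_le_sub_right this 1
      _ = 1 := by simp
  have key : ∀ j : ℕ, ∃ X : A, IsSelfAdjoint X ∧ -1 ≤ X ∧ X ≤ 1 ∧
      InHer (1 - X₀ * X₀) (X - X₀) ∧
      ∀ T : Tr A, St T → re T (1 - X * X) ≤ max (4 * ε) (1 - j * c) := by
    intro j
    induction j with
    | zero =>
      refine ⟨X₀, hX₀sa, hX₀l, hX₀u, ⟨fun k _ => by simp, fun k _ => by simp⟩, ?_⟩
      intro T hT
      obtain ⟨-, -, -, -, -, -, -, -, -, -, -, -, hpos, -, -, -⟩ := hTB A T hT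
      have h1 : 0 ≤ re T (X₀ * X₀) := by
        have h2 : (0 : A) ≤ X₀ * X₀ := by
          have := star_mul_self_nonneg X₀
          rwa [hX₀sa.star_eq] at this
        exact (hpos _ h2).1
      have h3 : re T (1 : A) = 1 := by
        unfold re
        rw [hT.1]
        simp
      rw [re_sub, h3]
      refine le_max_of_le_right ?_
      simp
      exact h1
    | succ j ih =>
      obtain ⟨X, hXsa, hXl, hXu, hXher, hXT⟩ := ih
      obtain ⟨X', hX'sa, hX'l, hX'u, hX'her, hX'T⟩ := hTWO A hDIV N hN64' X c hXsa hXl hXu hcpos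
      refine ⟨X', hX'sa, hX'l, hX'u, hHER A X₀ X X' hX₀sa hXsa hXher hX'her, ?_⟩
      intro T hT
      have h1 := hXT T hT
      have h2 := hX'T T hT
      set D := re T (1 - X * X) with hD
      set D' := re T (1 - X' * X') with hD'
      rcases le_or_gt D (3 * ε) with h3 | h3
      · refine le_max_of_le_left ?_
        have h4 : 0 ≤ (max 0 (D - 32 / N)) ^ 2 / (20 * (N : ℝ) ^ 2) := by positivity
        linarith
      · have h4 : ε ≤ max 0 (D - 32 / N) := le_max_of_le_right (by linarith)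
        have h5 : ε ^ 2 / (20 * (N : ℝ) ^ 2) ≤ (max 0 (D - 32 / N)) ^ 2 / (20 * (N : ℝ) ^ 2) := by
          gcongr
        have h6 : ε ^ 2 / (20 * (N : ℝ) ^ 2) = 2 * (ε ^ 2 / (40 * (N : ℝ) ^ 2)) := by
          field_simp
          norm_num
        have h7 : D' ≤ D - c := by linarith
        rcases le_max_iff.mp h1 with h8 | h8
        · exact le_max_of_le_left (by linarith)
        · refine le_max_of_le_right ?_
          push_cast
          linarith
  obtain ⟨J, hJ⟩ := exists_nat_gt (1 / c)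
  have hJc : 1 < J * c := by rwa [div_lt_iff₀ hcpos] at hJ
  obtain ⟨X, hXsa, hXl, hXu, hXher, hXT⟩ := key J
  have hEsub : (1 / 2 : ℂ) • (1 + X) - e = (1 / 2 : ℂ) • (X - X₀) := by
    rw [hX₀]
    module
  have hh : (1 / 2 : ℂ) = (((1 / 2 : ℝ) : ℝ) : ℂ) := by push_cast; rfl
  refine ⟨(1 / 2 : ℂ) • (1 + X), ?_, ?_, ?_, ?_⟩
  · have h1 : (0 : A) ≤ 1 + X := by
      have := sub_nonneg.mpr hXl
      have h2 : X - (-1) = 1 + X := by abel
      rwa [h2] at this
    have h2 : (0 : ℂ) ≤ 1 / 2 := by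
      rw [Complex.le_def]; constructor <;> norm_num
    exact smul_nonneg h2 h1
  · have h1 : (0 : A) ≤ 1 - X := sub_nonneg.mpr hXu
    have h2 : (0 : ℂ) ≤ 1 / 2 := by
      rw [Complex.le_def]; constructor <;> norm_num
    have h3 := smul_nonneg h2 h1
    have h4 : (1 : A) - (1 / 2 : ℂ) • (1 + X) = (1 / 2 : ℂ) • (1 - X) := by module
    rw [← sub_nonneg, h4]
    exact h3
  · rw [hEsub]
    have h1 : 1 - X₀ * X₀ = (4 : ℂ) • (e - e * e) := by
      have h5 : ((2 : ℂ) • e - 1) * ((2 : ℂ) • e - 1) =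
          (4 : ℂ) • (e * e) - (4 : ℂ) • e + 1 := by
        rw [sub_mul, mul_sub, smul_mul_smul_comm, mul_one, one_mul]
        module
      rw [hX₀, h5]
      module
    refine ⟨fun k hk => ?_, fun k hk => ?_⟩
    · rw [smul_mul_assoc, hXher.1 k ?_, smul_zero]
      rw [h1, smul_mul_assoc, hk, smul_zero]
    · rw [mul_smul_comm, hXher.2 k ?_, smul_zero]
      rw [h1, mul_smul_comm, hk, smul_zero]
  · intro T hT
    have h1 := hXT T hT
    have h2 : (1 / 2 : ℂ) • (1 + X) - (1 / 2 : ℂ) • (1 + X) * (1 / 2 : ℂ) • (1 + X) =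
        ((1 / 4 : ℝ) : ℂ) • (1 - X * X) := by
      have h5 : (1 + X) * (1 + X) = 1 + X + X + X * X := by noncomm_ring
      rw [smul_mul_smul_comm, h5]
      push_cast
      module
    rw [h2, re_smul]
    have h3 : max (4 * ε) (1 - J * c) = 4 * ε := by
      refine max_eq_left ?_
      linarith
    rw [h3] at h1
    linarith

end Pool.Agent.H327R4.NU
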