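import Pool.Agent.H327R4.NU.Stubs

set_option autoImplicit false
set_option linter.unusedSectionVars false
set_option linter.unusedVariables false

namespace Pool.Agent.H327R4.NU

open Filter Topology Pool.Agent.H327R4.Pure

universe u

namespace FOI1

/-- `f(t) = max 0 (2t-1)` -/
noncomputable def f0 (t : ℝ) : ℝ := max 0 (2 * t - 1)
/-- `q(t) = 1/max(t,1/2)` -/
noncomputable def q0 (t : ℝ) : ℝ := (max t (1/2))⁻¹

lemma f0_cont : Continuous f0 := by unfold f0; fun_prop
lemma max_pos' (t : ℝ) : 0 < max t (1/2) := lt_of_lt_of_le (by norm_num) (le_max_right _ _)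
lemma q0_cont : Continuous q0 := by
  unfold q0
  exact (continuous_id.max continuous_const).inv₀ (fun t => (max_pos' t).ne')

variable {A : Type u} [CStarAlgebra A] [PartialOrder A] [StarOrderedRing A] [TrSet A]

lemma spec01 {D : A} (h0 : 0 ≤ D) (h1 : D ≤ 1) : ∀ t ∈ spectrum ℝ D, 0 ≤ t ∧ t ≤ 1 := by
  intro t ht
  refine ⟨spectrum_nonneg_of_nonneg h0 ht, ?_⟩
  exact (le_algebraMap_iff_spectrum_le (R := ℝ) (a := D) (r := 1) (ha := h0.isSelfAdjoint)).1
    (by simpa using h1) t ht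

section fns

variable {D : A} (h0 : 0 ≤ D) (h1 : D ≤ 1)
include h0 h1

lemma k_nonneg : 0 ≤ cfc f0 D := cfc_nonneg (fun t _ => le_max_left _ _)

lemma k_le_one : cfc f0 D ≤ 1 := by
  apply cfc_le_one
  intro t ht
  have := spec01 h0 h1 t ht
  unfold f0
  exact max_le (by norm_num) (by linarith)

lemma q_norm : ‖cfc q0 D‖ ≤ 2 := by
  apply norm_cfc_le (by norm_num)
  intro t _
  unfold q0
  rw [Real.norm_eq_abs, abs_of_pos (inv_pos.2 (max_pos' t))]
  rw [inv_le_comm₀ (max_pos' t) (by norm_num)]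
  exact le_trans (by norm_num) (le_max_right _ _)

lemma G_eq : D * cfc q0 D = cfc (fun t => t * q0 t) D := by
  have hs : IsSelfAdjoint D := h0.isSelfAdjoint
  rw [cfc_mul (fun t : ℝ => t) q0 D (by fun_prop) (q0_cont.continuousOn), cfc_id' ℝ D]

lemma G_eq' : cfc q0 D * D = cfc (fun t => t * q0 t) D := by
  rw [← G_eq h0 h1]
  have hs : IsSelfAdjoint D := h0.isSelfAdjoint
  have := cfc_commute_cfc q0 (fun t : ℝ => t) D
  rw [cfc_id' ℝ D] at this
  exact this

lemma G_sa : IsSelfAdjoint (D * cfc q0 D) := by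
  rw [G_eq h0 h1]
  exact cfc_predicate _ _

lemma G_k : (1 - D * cfc q0 D) * cfc f0 D = 0 := by
  have hs : IsSelfAdjoint D := h0.isSelfAdjoint
  rw [G_eq h0 h1]
  have hc : Continuous (fun t : ℝ => t * q0 t) := continuous_id.mul q0_cont
  have e1 : (1 : A) - cfc (fun t => t * q0 t) D = cfc (fun t => 1 - t * q0 t) D := by
    rw [cfc_sub (fun _ : ℝ => (1:ℝ)) (fun t => t * q0 t) D (by fun_prop) hc.continuousOn]
    rw [cfc_const_one ℝ D]
  rw [e1, ← cfc_mul (fun t : ℝ => 1 - t * q0 t) f0 D ((continuous_const.sub hc).continuousOn)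
    f0_cont.continuousOn]
  have : (fun t : ℝ => (1 - t * q0 t) * f0 t) = fun _ => 0 := by
    funext t
    unfold q0 f0
    rcases le_total t (1/2) with h | h
    · rw [max_eq_left (by linarith : 2 * t - 1 ≤ 0)]; ring
    · rw [max_eq_left h, mul_inv_cancel₀ (by linarith)]; ring
  rw [this]; simp

lemma k_G : cfc f0 D * (1 - D * cfc q0 D) = 0 := by
  have h := congrArg star (G_k h0 h1)
  rw [star_mul, star_sub, star_one, (G_sa h0 h1).star_eq, star_zero,
    (cfc_predicate f0 D : IsSelfAdjoint (cfc f0 D)).star_eq] at h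
  exact h

lemma k_ge : D * D + D * D - D ≤ cfc f0 D := by
  have hs : IsSelfAdjoint D := h0.isSelfAdjoint
  have e1 : D * D + D * D - D = cfc (fun t : ℝ => t * t + t * t - t) D := by
    rw [cfc_sub (fun t : ℝ => t * t + t * t) (fun t => t) D (by fun_prop) (by fun_prop),
      cfc_add (a := D) (fun t : ℝ => t * t) (fun t => t * t) (by fun_prop) (by fun_prop),
      cfc_mul (fun t : ℝ => t) (fun t => t) D (by fun_prop) (by fun_prop), cfc_id' ℝ D]
  rw [e1]
  have hc1 : Continuous (fun t : ℝ => t * t + t * t - t) := by fun_prop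
  refine cfc_mono ?_ hc1.continuousOn f0_cont.continuousOn
  intro t ht
  have := spec01 h0 h1 t ht
  unfold f0
  rcases le_total t (1/2) with h | h
  · refine le_trans ?_ (le_max_left _ _)
    nlinarith [this.1, this.2]
  · refine le_trans ?_ (le_max_right _ _)
    nlinarith [this.1, this.2]

lemma G_sq : star ((1 - D) * (D * cfc q0 D)) * ((1 - D) * (D * cfc q0 D)) ≤
    (D - D * D) + (D - D * D) := by
  have hs : IsSelfAdjoint D := h0.isSelfAdjoint
  have hc : Continuous (fun t : ℝ => t * q0 t) := continuous_id.mul q0_cont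
  have e0 : (1 - D) * (D * cfc q0 D) = cfc (fun t : ℝ => (1 - t) * (t * q0 t)) D := by
    rw [cfc_mul (fun t : ℝ => 1 - t) (fun t => t * q0 t) D (by fun_prop) hc.continuousOn,
      cfc_sub (fun _ : ℝ => (1:ℝ)) (fun t => t) D (by fun_prop) (by fun_prop),
      cfc_const_one ℝ D, cfc_id' ℝ D, G_eq h0 h1]
  have hc2 : Continuous (fun t : ℝ => (1 - t) * (t * q0 t)) := by
    exact (continuous_const.sub continuous_id).mul hc
  rw [e0, (cfc_predicate (fun t : ℝ => (1 - t) * (t * q0 t)) D : IsSelfAdjoint _).star_eq,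
    ← cfc_mul _ _ D hc2.continuousOn hc2.continuousOn]
  have e1 : (D - D * D) + (D - D * D) = cfc (fun t : ℝ => (t - t * t) + (t - t * t)) D := by
    rw [cfc_add (a := D) (fun t : ℝ => t - t * t) (fun t => t - t * t) (by fun_prop) (by fun_prop),
      cfc_sub (fun t : ℝ => t) (fun t => t * t) D (by fun_prop) (by fun_prop),
      cfc_mul (fun t : ℝ => t) (fun t => t) D (by fun_prop) (by fun_prop), cfc_id' ℝ D]
  rw [e1]
  have hc3 : Continuous (fun t : ℝ => (t - t * t) + (t - t * t)) := by fun_prop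
  refine cfc_mono ?_ (hc2.mul hc2).continuousOn hc3.continuousOn
  · intro t ht
    obtain ⟨ht0, ht1⟩ := spec01 h0 h1 t ht
    have hq : 0 ≤ t * q0 t := mul_nonneg ht0 (inv_nonneg.2 (max_pos' t).le)
    have hq1 : t * q0 t ≤ 1 := by
      unfold q0
      rw [← div_eq_mul_inv, div_le_one (max_pos' t)]
      exact le_max_left _ _
    have hq2 : t * q0 t ≤ 2 * t := by
      have : q0 t ≤ 2 := by
        unfold q0
        rw [inv_le_comm₀ (max_pos' t) (by norm_num)]
        exact le_trans (by norm_num) (le_max_right _ _)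
      nlinarith
    have hsq : (t * q0 t) * (t * q0 t) ≤ 2 * t := by nlinarith
    have h3 : (1 - t) * (1 - t) ≤ 1 - t := by nlinarith
    calc (1 - t) * (t * q0 t) * ((1 - t) * (t * q0 t))
        = ((1 - t) * (1 - t)) * ((t * q0 t) * (t * q0 t)) := by ring
      _ ≤ (1 - t) * (2 * t) := by
          apply mul_le_mul h3 hsq (mul_nonneg hq hq) (by linarith)
      _ = _ := by ring

end fns

/-- orthogonal positive contractions -/
lemma orth_sum {N : ℕ} (p : Fin N → A) (h0 : ∀ i, 0 ≤ p i) (hs : ∀ i, p i * p i ≤ p i)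
    (ho : ∀ i j, i ≠ j → p i * p j = 0) :
    0 ≤ ∑ i, p i ∧ (∑ i, p i) * (∑ i, p i) = ∑ i, p i * p i ∧ ∑ i, p i ≤ 1 ∧
      ∑ i, p i * p i ≤ 1 := by
  have hP : 0 ≤ ∑ i, p i := Finset.sum_nonneg (fun i _ => h0 i)
  have hsq : (∑ i, p i) * (∑ i, p i) = ∑ i, p i * p i := by
    rw [Finset.sum_mul_sum]
    refine Finset.sum_congr rfl (fun i _ => ?_)
    rw [Finset.sum_eq_single i]
    · intro j _ hj; exact ho i j (Ne.symm hj)
    · simp
  have hle : ∑ i, p i * p i ≤ ∑ i, p i := Finset.sum_le_sum (fun i _ => hs i)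
  have hnorm : ‖∑ i, p i‖ ≤ 1 := by
    have hsa : IsSelfAdjoint (∑ i, p i) := hP.isSelfAdjoint
    have h1 : ‖∑ i, p i‖ * ‖∑ i, p i‖ = ‖(∑ i, p i) * (∑ i, p i)‖ := by
      conv_rhs => rw [← hsa.star_eq]
      conv_rhs => rw [hsa.star_eq]
      have := CStarRing.norm_star_mul_self (x := ∑ i, p i)
      rw [hsa.star_eq] at this
      exact this.symm
    have h2 : ‖(∑ i, p i) * (∑ i, p i)‖ ≤ ‖∑ i, p i‖ := by
      rw [hsq]
      refine CStarAlgebra.norm_le_norm_of_nonneg_of_le ?_ hle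
      rw [← hsq]
      conv_rhs => rw [← hsa.star_eq]
      rw [hsa.star_eq]
      nth_rewrite 1 [← hsa.star_eq]
      exact star_mul_self_nonneg _
    by_contra hcon
    push Not at hcon
    nlinarith
  have h1 : ∑ i, p i ≤ 1 := (CStarAlgebra.norm_le_one_iff_of_nonneg _ hP).1 hnorm
  exact ⟨hP, hsq, h1, hle.trans h1⟩

lemma sq_le_self {p : A} (h0 : 0 ≤ p) (h1 : p ≤ 1) : p * p ≤ p := by
  have hs : IsSelfAdjoint p := h0.isSelfAdjoint
  have e1 : p * p = cfc (fun t : ℝ => t * t) p := by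
    rw [cfc_mul (fun t : ℝ => t) (fun t => t) p (by fun_prop) (by fun_prop), cfc_id' ℝ p]
  rw [e1]
  conv_rhs => rw [← cfc_id' ℝ p]
  refine cfc_mono ?_ (by fun_prop) (by fun_prop)
  intro t ht
  obtain ⟨ht0, ht1⟩ := spec01 h0 h1 t ht
  nlinarith

section one

variable {D x : A} (h0 : 0 ≤ D) (h1 : D ≤ 1) (hx : x * x = 0) (hh : InHer (cfc f0 D) x)

/-- `V = x^*x - xx^*` -/
def VV (x : A) : A := star x * x - x * star x
/-- `p = x^*x + xx^*` -/
def PP (x : A) : A := star x * x + x * star x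

lemma VV_sa (x : A) : IsSelfAdjoint (VV x) := by
  unfold VV
  exact (IsSelfAdjoint.star_mul_self x).sub (IsSelfAdjoint.mul_star_self x)

lemma PP_nonneg (x : A) : 0 ≤ PP x := add_nonneg (star_mul_self_nonneg x) (mul_star_self_nonneg x)

include hx in
lemma VV_sq : VV x * VV x = PP x * PP x := by
  have hx' : star x * star x = 0 := by rw [← star_mul, hx, star_zero]
  have : VV x * VV x = PP x * PP x - 2 • (star x * (x * x) * star x)
      - 2 • (x * (star x * star x) * x) := by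
    unfold VV PP; noncomm_ring
  rw [this, hx, hx']; simp

include h0 h1 hh in
lemma xG : x * (1 - D * cfc q0 D) = 0 := hh.1 _ (k_G h0 h1)
include h0 h1 hh in
lemma Gx : (1 - D * cfc q0 D) * x = 0 := hh.2 _ (G_k h0 h1)
include h0 h1 hh in
lemma sxG : star x * (1 - D * cfc q0 D) = 0 := by
  have := congrArg star (Gx h0 h1 hh)
  rwa [star_mul, star_sub, star_one, (G_sa h0 h1).star_eq, star_zero] at this
include h0 h1 hh in
lemma Gsx : (1 - D * cfc q0 D) * star x = 0 := by
  have := congrArg star (xG h0 h1 hh)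
  rwa [star_mul, star_sub, star_one, (G_sa h0 h1).star_eq, star_zero] at this

include h0 h1 hh in
lemma VG : VV x * (D * cfc q0 D) = VV x := by
  have e : VV x * (1 - D * cfc q0 D) = 0 := by
    have : VV x * (1 - D * cfc q0 D) = star x * (x * (1 - D * cfc q0 D))
        - x * (star x * (1 - D * cfc q0 D)) := by unfold VV; noncomm_ring
    rw [this, xG h0 h1 hh, sxG h0 h1 hh]; simp
  rw [mul_sub, mul_one, sub_eq_zero] at e
  exact e.symm

include h0 h1 hh in
lemma GV : (D * cfc q0 D) * VV x = VV x := by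
  have := congrArg star (VG h0 h1 hh)
  rwa [star_mul, (G_sa h0 h1).star_eq, (VV_sa x).star_eq] at this

include h0 h1 hh in
lemma PG : PP x * (D * cfc q0 D) = PP x := by
  have e : PP x * (1 - D * cfc q0 D) = 0 := by
    have : PP x * (1 - D * cfc q0 D) = star x * (x * (1 - D * cfc q0 D))
        + x * (star x * (1 - D * cfc q0 D)) := by unfold PP; noncomm_ring
    rw [this, xG h0 h1 hh, sxG h0 h1 hh]; simp
  rw [mul_sub, mul_one, sub_eq_zero] at e
  exact e.symm

include h0 h1 hh in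
lemma GP : (D * cfc q0 D) * PP x = PP x := by
  have := congrArg star (PG h0 h1 hh)
  rwa [star_mul, (G_sa h0 h1).star_eq, (PP_nonneg x).isSelfAdjoint.star_eq] at this

end one

section two

variable {D D' x x' : A} (h0 : 0 ≤ D) (h1 : D ≤ 1) (hh : InHer (cfc f0 D) x)
  (h0' : 0 ≤ D') (h1' : D' ≤ 1) (hh' : InHer (cfc f0 D') x') (hD : D * D' = 0)
include h0 h1 hh h0' h1' hh' hD

lemma VV_orth : VV x * VV x' = 0 := by
  rw [← VG h0 h1 hh, ← GV h0' h1' hh', G_eq h0 h1, ← G_eq' h0 h1]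
  have : VV x * (cfc q0 D * D) * (D' * cfc q0 D' * VV x') =
      VV x * cfc q0 D * (D * D') * cfc q0 D' * VV x' := by noncomm_ring
  rw [this, hD]; simp

lemma PP_orth : PP x * PP x' = 0 := by
  rw [← PG h0 h1 hh, ← GP h0' h1' hh', G_eq h0 h1, ← G_eq' h0 h1]
  have : PP x * (cfc q0 D * D) * (D' * cfc q0 D' * PP x') =
      PP x * cfc q0 D * (D * D') * cfc q0 D' * PP x' := by noncomm_ring
  rw [this, hD]; simp

end two

lemma cs_sum {N : ℕ} (a b : Fin N → ℝ) (β : ℝ) (ha : ∑ i, a i ^ 2 ≤ 1) (hβ : 0 ≤ β)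
    (hb : ∑ i, b i ^ 2 ≤ β ^ 2) : ∑ i, a i * b i ≤ β := by
  have h := Real.sum_mul_le_sqrt_mul_sqrt Finset.univ a b
  have h1 : Real.sqrt (∑ i, a i ^ 2) ≤ 1 := by
    rw [Real.sqrt_le_one]; exact ha
  have h2 : Real.sqrt (∑ i, b i ^ 2) ≤ β := by
    rw [← Real.sqrt_sq hβ]; exact Real.sqrt_le_sqrt hb
  calc _ ≤ _ := h
    _ ≤ 1 * β := mul_le_mul h1 h2 (Real.sqrt_nonneg _) (by norm_num)
    _ = β := one_mul _

end FOI1

open FOI1 in
theorem t_FOI1 (hTB : StTB.{u}) : StFOI1.{u} := by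
  intro A _ _ _ _ hDIV hCell m y ε hy hε
  -- constants
  set s0 : ℝ := min 1 (ε / 13) with hs0
  have hs0p : 0 < s0 := lt_min one_pos (by positivity)
  have hs01 : s0 ≤ 1 := min_le_left _ _
  have hs0e : s0 ≤ ε / 13 := min_le_right _ _
  set δ : ℝ := s0 ^ 2 with hδ
  have hδp : 0 < δ := by positivity
  have hδs : δ ≤ s0 := by rw [hδ]; nlinarith
  obtain ⟨N, D, t, hD, hDo, hT⟩ := hCell m y δ hy hδp
  set ε' : ℝ := ε / (4 * (N + 1)) with hε'
  have hε'p : 0 < ε' := by positivity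
  have hD0 : ∀ i, 0 ≤ D i := fun i => (hD i).1
  have hD1 : ∀ i, D i ≤ 1 := fun i => (hD i).2.1
  have hx := fun i => hDIV (cfc f0 (D i)) ε' (k_nonneg (hD0 i) (hD1 i)) (k_le_one (hD0 i) (hD1 i)) hε'p
  choose x hxx hxh hxp hxT using hx
  have hVV : ∀ i, VV (x i) * VV (x i) = PP (x i) * PP (x i) := fun i => VV_sq (hxx i)
  have hVo : ∀ i j, i ≠ j → VV (x i) * VV (x j) = 0 := fun i j hij =>
    VV_orth (hD0 i) (hD1 i) (hxh i) (hD0 j) (hD1 j) (hxh j) (hDo i j hij)
  have hPo : ∀ i j, i ≠ j → PP (x i) * PP (x j) = 0 := fun i j hij =>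
    PP_orth (hD0 i) (hD1 i) (hxh i) (hD0 j) (hD1 j) (hxh j) (hDo i j hij)
  have hPsq : ∀ i, PP (x i) * PP (x i) ≤ PP (x i) := fun i => sq_le_self (PP_nonneg _) (hxp i)
  obtain ⟨hP0, hP1, hP2, hP3⟩ := orth_sum (fun i => PP (x i)) (fun i => PP_nonneg _) hPsq hPo
  set v : A := ∑ i, VV (x i) with hv
  have hvsa : IsSelfAdjoint v := by
    rw [hv]
    exact isSelfAdjoint_sum _ (fun i _ => VV_sa (x i))
  have hvsq : v * v = ∑ i, PP (x i) * PP (x i) := by
    rw [hv, Finset.sum_mul_sum]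
    refine Finset.sum_congr rfl (fun i _ => ?_)
    rw [Finset.sum_eq_single i]
    · exact hVV i
    · intro j _ hj; exact hVo i j (Ne.symm hj)
    · simp
  have hvn : ‖v‖ ≤ 1 := by
    have h1 : ‖v‖ * ‖v‖ = ‖v * v‖ := by
      have := CStarRing.norm_star_mul_self (x := v)
      rw [hvsa.star_eq] at this
      exact this.symm
    have h2 : ‖v * v‖ ≤ 1 := by
      have h3 : 0 ≤ v * v := by
        have := star_mul_self_nonneg v
        rwa [hvsa.star_eq] at this
      exact (CStarAlgebra.norm_le_one_iff_of_nonneg _ h3).2 (hvsq ▸ hP3)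
    nlinarith [norm_nonneg v]
  have hv1 : v ≤ 1 := by
    have := hvsa.le_algebraMap_norm_self
    refine this.trans ?_
    have h2 : algebraMap ℝ A ‖v‖ ≤ algebraMap ℝ A 1 := by
      exact algebraMap_mono A hvn
    simpa using h2
  have hv2 : -1 ≤ v := by
    have := hvsa.neg_algebraMap_norm_le_self
    refine le_trans ?_ this
    have h2 : algebraMap ℝ A ‖v‖ ≤ algebraMap ℝ A 1 := by
      exact algebraMap_mono A hvn
    simpa using h2
  refine ⟨v, hvsa, hv2, hv1, ?_⟩
  intro T hST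
  obtain ⟨tb1, tb2, tb3, tb4, tb5, tb6, tb7, tb8, tb9, tb10, tb11, tb12, tb13, tb14, tb15, tb16⟩ :=
    hTB A T hST
  obtain ⟨hT1, hT2⟩ := hT T hST
  have re_sum : ∀ (g : Fin N → A), re T (∑ i, g i) = ∑ i, re T (g i) := by
    intro g; unfold re; rw [map_sum, Complex.re_sum]
  have re_sub : ∀ a b : A, re T (a - b) = re T a - re T b := by
    intro a b; unfold re; rw [map_sub, Complex.sub_re]
  have re_add : ∀ a b : A, re T (a + b) = re T a + re T b := by
    intro a b; unfold re; rw [map_add, Complex.add_re]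
  have re_one : re T (1 : A) = 1 := by unfold re; rw [hST.1]; simp
  -- sum of traces of D
  obtain ⟨-, -, hDs, -⟩ := orth_sum D hD0 (fun i => sq_le_self (hD0 i) (hD1 i)) hDo
  have hDs' : ∑ i, re T (D i) ≤ 1 := by
    rw [← re_sum, ← re_one]; exact tb12 _ _ hDs
  have hn2V : ∀ i, n2 T (VV (x i)) ^ 2 = re T (PP (x i) * PP (x i)) := by
    intro i; rw [tb2, (VV_sa (x i)).star_eq, hVV]
  have hsumV : ∑ i, n2 T (VV (x i)) ^ 2 ≤ 1 := by
    rw [Finset.sum_congr rfl (fun i _ => hn2V i), ← re_sum, ← re_one]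
    exact tb12 _ _ hP3
  have hsumG : ∑ i, n2 T ((1 - D i) * (D i * cfc q0 (D i))) ^ 2 ≤ (2 * s0) ^ 2 := by
    have h1 : ∀ i, n2 T ((1 - D i) * (D i * cfc q0 (D i))) ^ 2 ≤
        2 * (re T (D i) - re T (D i * D i)) := by
      intro i
      rw [tb2]
      refine (tb12 _ _ (G_sq (hD0 i) (hD1 i))).trans (le_of_eq ?_)
      rw [re_add, re_sub]; ring
    refine (Finset.sum_le_sum (fun i _ => h1 i)).trans ?_
    rw [← Finset.mul_sum, Finset.sum_sub_distrib]
    nlinarith
  refine ⟨?_, ?_, ?_⟩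
  · -- trace of 1 - v v
    rw [re_sub, re_one, hvsq, re_sum]
    have h1 : ∀ i, 2 * re T (D i * D i) - re T (D i) - 2 * ε' ≤ re T (PP (x i) * PP (x i)) := by
      intro i
      have h2 := (hxT i T hST).1
      have h3 := (hxT i T hST).2
      have h4 := tb12 _ _ (k_ge (hD0 i) (hD1 i))
      rw [re_sub, re_add] at h4
      have h5 := abs_le.1 h2
      change re T (PP (x i)) - re T (PP (x i) * PP (x i)) ≤ ε' at h3
      change - ε' ≤ re T (PP (x i)) - re T (cfc f0 (D i)) ∧ _ at h5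
      linarith [h5.1]
    have h2 := Finset.sum_le_sum (fun i (_ : i ∈ Finset.univ) => h1 i)
    rw [Finset.sum_sub_distrib, Finset.sum_sub_distrib, ← Finset.mul_sum] at h2
    simp only [Finset.sum_const, Finset.card_univ, Fintype.card_fin, nsmul_eq_mul] at h2
    have h3 : (N : ℝ) * (2 * ε') ≤ ε / 2 := by
      rw [hε']
      rw [show (N : ℝ) * (2 * (ε / (4 * (N + 1)))) = (ε / 2) * (N / (N + 1)) by
        field_simp; ring]
      have : (N : ℝ) / (N + 1) ≤ 1 := by
        rw [div_le_one (by positivity)]; linarith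
      nlinarith
    linarith
  · -- commutator
    set z : Fin N → A := fun i => (y 0 - ((t i 0 : ℝ) : ℂ) • 1) * VV (x i) with hz
    have hy0 : IsSelfAdjoint (y 0) := (hy 0).1.isSelfAdjoint
    have hwsa : ∀ i, IsSelfAdjoint (y 0 - ((t i 0 : ℝ) : ℂ) • (1 : A)) := by
      intro i
      refine hy0.sub ?_
      rw [IsSelfAdjoint, star_smul, star_one]
      simp
    have hzs : ∀ i, star (z i) = VV (x i) * (y 0 - ((t i 0 : ℝ) : ℂ) • 1) := by
      intro i
      rw [hz]; simp only
      rw [star_mul, (hwsa i).star_eq, (VV_sa (x i)).star_eq]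
    have hcomm : v * y 0 - y 0 * v = star (∑ i, z i) - ∑ i, z i := by
      rw [star_sum, hv, Finset.sum_mul, Finset.mul_sum, ← Finset.sum_sub_distrib,
        ← Finset.sum_sub_distrib]
      refine Finset.sum_congr rfl (fun i _ => ?_)
      rw [hzs i, hz]; simp only
      rw [mul_sub, sub_mul, mul_smul_comm, smul_mul_assoc, mul_one, one_mul]
      abel
    have hzn : ∀ i, n2 T (z i) ^ 2 ≤ (2 * δ) ^ 2 * n2 T (VV (x i)) ^ 2 := by
      intro i
      have e : z i = ((y 0 - ((t i 0 : ℝ) : ℂ) • 1) * D i) * cfc q0 (D i) * VV (x i) := by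
        rw [hz]; simp only
        conv_lhs => rw [← GV (hD0 i) (hD1 i) (hxh i)]
        noncomm_ring
      have h1 : n2 T (z i) ≤ (2 * δ) * n2 T (VV (x i)) := by
        rw [e]
        refine (tb7 _ _).trans (mul_le_mul_of_nonneg_right ?_ (tb1 _))
        refine (norm_mul_le _ _).trans ?_
        have := (hD i).2.2.1
        have h2 := q_norm (hD0 i) (hD1 i)
        nlinarith [norm_nonneg (cfc q0 (D i)),
          norm_nonneg ((y 0 - ((t i 0 : ℝ) : ℂ) • 1) * D i)]
      have h3 := tb1 (z i)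
      rw [← mul_pow]
      exact pow_le_pow_left₀ h3 h1 2
    have hzo : ∀ i j, i ≠ j → T.f (star (z i) * z j) = 0 := by
      intro i j hij
      rw [hzs i, hz]; simp only
      have e : VV (x i) * (y 0 - ((t i 0 : ℝ) : ℂ) • 1) *
          ((y 0 - ((t j 0 : ℝ) : ℂ) • 1) * VV (x j)) =
          (VV (x i) * (y 0 - ((t i 0 : ℝ) : ℂ) • 1) * (y 0 - ((t j 0 : ℝ) : ℂ) • 1)) *
            VV (x j) := by simp only [mul_assoc]
      rw [e, T.tr]
      have e2 : VV (x j) * (VV (x i) * (y 0 - ((t i 0 : ℝ) : ℂ) • 1) *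
          (y 0 - ((t j 0 : ℝ) : ℂ) • 1)) = (VV (x j) * VV (x i)) *
            (y 0 - ((t i 0 : ℝ) : ℂ) • 1) * (y 0 - ((t j 0 : ℝ) : ℂ) • 1) := by
        simp only [mul_assoc]
      rw [e2, hVo j i (Ne.symm hij)]
      simp
    have hZ : n2 T (∑ i, z i) ^ 2 ≤ (2 * δ) ^ 2 := by
      rw [tb2, star_sum, Finset.sum_mul_sum]
      have e : re T (∑ i, ∑ j, star (z i) * z j) = ∑ i, n2 T (z i) ^ 2 := by
        rw [re_sum]
        refine Finset.sum_congr rfl (fun i _ => ?_)
        rw [re_sum, tb2, Finset.sum_eq_single i]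
        · intro j _ hj
          unfold re
          rw [hzo i j (Ne.symm hj)]; simp
        · simp
      rw [e]
      refine (Finset.sum_le_sum (fun i _ => hzn i)).trans ?_
      rw [← Finset.mul_sum]
      nlinarith [sq_nonneg (2 * δ)]
    have hZ' : n2 T (∑ i, z i) ≤ 2 * δ := by
      exact le_of_sq_le_sq hZ (by positivity)
    rw [hcomm]
    refine (tb4 _ _).trans ?_
    rw [tb6]
    linarith
  · -- traces
    intro j
    have hw : ∀ i, ‖y j - ((t i j : ℝ) : ℂ) • (1 : A)‖ ≤ 3 := by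
      intro i
      refine (norm_sub_le _ _).trans ?_
      have h1 : ‖y j‖ ≤ 1 := (CStarAlgebra.norm_le_one_iff_of_nonneg _ (hy j).1).2 (hy j).2
      have h2 : ‖((t i j : ℝ) : ℂ) • (1 : A)‖ ≤ 2 := by
        rw [norm_smul]
        have h3 : ‖((t i j : ℝ) : ℂ)‖ ≤ 2 := by
          rw [Complex.norm_real]; exact (hD i).2.2.2 j
        have h4 : ‖(1 : A)‖ ≤ 1 := by
          rcases subsingleton_or_nontrivial A with h | h
          · rw [Subsingleton.elim (1 : A) 0]; simp
          · simp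
        nlinarith [norm_nonneg (1 : A), norm_nonneg (((t i j : ℝ) : ℂ))]
      linarith
    have hcell : ∀ i, ‖T.f (VV (x i) * y j)‖ ≤
        n2 T (VV (x i)) * n2 T (D i * (y j - ((t i j : ℝ) : ℂ) • 1) * D i) +
        6 * (n2 T (VV (x i)) * n2 T ((1 - D i) * (D i * cfc q0 (D i)))) := by
      intro i
      set w : A := y j - ((t i j : ℝ) : ℂ) • (1 : A) with hwdef
      set V : A := VV (x i) with hVdef
      set G : A := D i * cfc q0 (D i) with hGdef
      have hTV : T.f V = 0 := by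
        rw [hVdef]; unfold VV
        rw [map_sub, T.tr (x i) (star (x i)), sub_self]
      have e0 : T.f (V * y j) = T.f (V * w) := by
        rw [hwdef, mul_sub, map_sub, mul_smul_comm, map_smul, mul_one, hTV]; simp
      have hVG : V * G = V := VG (hD0 i) (hD1 i) (hxh i)
      have hGV : G * V = V := GV (hD0 i) (hD1 i) (hxh i)
      have hGD : G * (1 - D i) = (1 - D i) * G := by
        rw [mul_sub, sub_mul, mul_one, one_mul, hGdef]
        congr 1
        rw [mul_assoc, G_eq' (hD0 i) (hD1 i), ← G_eq (hD0 i) (hD1 i)]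
      have e1 : V * w = D i * (V * (D i * w)) + (1 - D i) * G * (V * w)
          + D i * (V * (G * (1 - D i)) * w) := by
        have a1 : (1 - D i) * G * (V * w) = (1 - D i) * ((G * V) * w) := by
          simp only [mul_assoc]
        have a2 : D i * (V * (G * (1 - D i)) * w) = D i * ((V * G) * ((1 - D i) * w)) := by
          simp only [mul_assoc]
        rw [a1, a2, hGV, hVG]
        noncomm_ring
      rw [e0, e1, map_add, map_add]
      have b1 : ‖T.f (D i * (V * (D i * w)))‖ ≤ n2 T V * n2 T (D i * w * D i) := by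
        rw [T.tr]
        have : V * (D i * w) * D i = V * (D i * w * D i) := by simp only [mul_assoc]
        rw [this]; exact tb11 _ _
      have b2 : ‖T.f ((1 - D i) * G * (V * w))‖ ≤ 3 * (n2 T V * n2 T ((1 - D i) * G)) := by
        refine (tb11 _ _).trans ?_
        have := (tb8 V w)
        have h2 : n2 T (V * w) ≤ n2 T V * 3 :=
          this.trans (mul_le_mul_of_nonneg_left (hw i) (tb1 _))
        nlinarith [tb1 ((1 - D i) * G), tb1 (V * w)]
      have b3 : ‖T.f (D i * (V * (G * (1 - D i)) * w))‖ ≤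
          3 * (n2 T V * n2 T ((1 - D i) * G)) := by
        have c1 : D i * (V * (G * (1 - D i)) * w) = (D i * V) * ((G * (1 - D i)) * w) := by
          simp only [mul_assoc]
        rw [c1, T.tr]
        have c2 : (G * (1 - D i)) * w * (D i * V) = ((1 - D i) * G) * (w * D i * V) := by
          rw [hGD]; simp only [mul_assoc]
        rw [c2]
        refine (tb11 _ _).trans ?_
        have h1 : ‖D i‖ ≤ 1 := (CStarAlgebra.norm_le_one_iff_of_nonneg _ (hD0 i)).2 (hD1 i)
        have h2 : ‖w * D i‖ ≤ 3 := by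
          refine (norm_mul_le _ _).trans ?_
          nlinarith [norm_nonneg w, norm_nonneg (D i), hw i]
        have h3 : n2 T (w * D i * V) ≤ 3 * n2 T V :=
          (tb7 _ _).trans (mul_le_mul_of_nonneg_right h2 (tb1 _))
        nlinarith [tb1 ((1 - D i) * G), tb1 (w * D i * V)]
      calc _ ≤ ‖T.f (D i * (V * (D i * w)))‖ + ‖T.f ((1 - D i) * G * (V * w))‖ +
            ‖T.f (D i * (V * (G * (1 - D i)) * w))‖ := norm_add₃_le
        _ ≤ _ := by linarith
    have hsumW : ∑ i, n2 T (D i * (y j - ((t i j : ℝ) : ℂ) • 1) * D i) ^ 2 ≤ s0 ^ 2 := hT2 j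
    have e : T.f (v * y j) = ∑ i, T.f (VV (x i) * y j) := by
      rw [hv, Finset.sum_mul, map_sum]
    rw [e]
    refine (norm_sum_le _ _).trans ((Finset.sum_le_sum (fun i _ => hcell i)).trans ?_)
    rw [Finset.sum_add_distrib, ← Finset.mul_sum]
    have c1 := cs_sum (fun i => n2 T (VV (x i)))
      (fun i => n2 T (D i * (y j - ((t i j : ℝ) : ℂ) • 1) * D i)) s0 hsumV hs0p.le hsumW
    have c2 := cs_sum (fun i => n2 T (VV (x i)))
      (fun i => n2 T ((1 - D i) * (D i * cfc q0 (D i)))) (2 * s0) hsumV (by positivity) hsumG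
    linarith

end Pool.Agent.H327R4.NU
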