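import Pool.Agent.H327R4.NU.Stubs

set_option autoImplicit false

namespace Pool.Agent.H327R4.NU

open Filter Topology Pool.Agent.H327R4.Pure

universe u

theorem FOI2_half {A : Type u} [CStarAlgebra A] [PartialOrder A] [StarOrderedRing A] [TrSet A]
    (h : A) (c : ℝ) (hc : 0 < c) (hs : IsSelfAdjoint h) (hn : ‖h‖ ≤ c) :
    ∃ p : A, 0 ≤ p ∧ p ≤ 1 ∧ h = ((2 * c : ℝ) : ℂ) • p - ((c : ℝ) : ℂ) • (1 : A) := by
  have h1 : h ≤ ((c : ℝ) : ℂ) • (1 : A) := by
    have h2 : h ≤ algebraMap ℝ A ‖h‖ := IsSelfAdjoint.le_algebraMap_norm_self hs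
    have h3 : algebraMap ℝ A ‖h‖ ≤ algebraMap ℝ A c := algebraMap_mono A hn
    have h4 : algebraMap ℝ A c = ((c : ℝ) : ℂ) • (1 : A) := by
      rw [Algebra.algebraMap_eq_smul_one, Complex.coe_smul]
    rw [← h4]; exact h2.trans h3
  have h1' : -(((c : ℝ) : ℂ) • (1 : A)) ≤ h := by
    have h2 : -(algebraMap ℝ A ‖h‖) ≤ h := IsSelfAdjoint.neg_algebraMap_norm_le_self hs
    have h3 : algebraMap ℝ A ‖h‖ ≤ algebraMap ℝ A c := algebraMap_mono A hn
    have h4 : algebraMap ℝ A c = ((c : ℝ) : ℂ) • (1 : A) := by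
      rw [Algebra.algebraMap_eq_smul_one, Complex.coe_smul]
    rw [← h4]; exact (neg_le_neg h3).trans h2
  have hcne : ((c : ℝ) : ℂ) ≠ 0 := by exact_mod_cast hc.ne'
  have hk : (0 : ℝ) ≤ 1 / (2 * c) := by positivity
  refine ⟨((1 / (2 * c) : ℝ) : ℂ) • (h + ((c : ℝ) : ℂ) • (1 : A)), ?_, ?_, ?_⟩
  · rw [Complex.coe_smul]
    apply smul_nonneg hk
    have := sub_nonneg.2 h1'
    rwa [sub_neg_eq_add] at this
  · have h5 : h + ((c : ℝ) : ℂ) • (1 : A) ≤ ((2 * c : ℝ) : ℂ) • (1 : A) := by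
      have : ((2 * c : ℝ) : ℂ) • (1 : A) = ((c : ℝ) : ℂ) • (1 : A) + ((c : ℝ) : ℂ) • (1 : A) := by
        rw [← add_smul]; congr 1; push_cast; ring
      rw [this]
      gcongr
    have h6 : ((1 / (2 * c) : ℝ) : ℂ) • (h + ((c : ℝ) : ℂ) • (1 : A)) ≤
        ((1 / (2 * c) : ℝ) : ℂ) • (((2 * c : ℝ) : ℂ) • (1 : A)) := by
      rw [Complex.coe_smul, Complex.coe_smul (1 / (2 * c))]
      exact smul_le_smul_of_nonneg_left h5 hk
    refine h6.trans (le_of_eq ?_)
    rw [smul_smul]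
    have : (((1 / (2 * c) : ℝ) : ℂ) * ((2 * c : ℝ) : ℂ)) = 1 := by
      push_cast; field_simp
    rw [this, one_smul]
  · rw [smul_smul]
    have : (((2 * c : ℝ) : ℂ) * ((1 / (2 * c) : ℝ) : ℂ)) = 1 := by
      push_cast; field_simp
    rw [this, one_smul, add_sub_cancel_right]

theorem t_FOI2 : StFOI2.{u} := by
  intro A _ _ _ _ hF m Y g ε hg0 hg1 hε
  -- a common bound
  obtain ⟨c, hc, hcY⟩ : ∃ c : ℝ, 0 < c ∧ ∀ j, ‖Y j‖ ≤ c := by
    refine ⟨1 + ∑ j, ‖Y j‖, ?_, ?_⟩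
    · have : 0 ≤ ∑ j, ‖Y j‖ := Finset.sum_nonneg (fun j _ => norm_nonneg _)
      linarith
    · intro j
      have : ‖Y j‖ ≤ ∑ j, ‖Y j‖ := Finset.single_le_sum (f := fun j => ‖Y j‖) (fun j _ => norm_nonneg _) (Finset.mem_univ j)
      linarith
  have hre : ∀ j, ‖((realPart (Y j) : A))‖ ≤ c := fun j => (realPart.norm_le (Y j)).trans (hcY j)
  have him : ∀ j, ‖((imaginaryPart (Y j) : A))‖ ≤ c := fun j => (imaginaryPart.norm_le (Y j)).trans (hcY j)
  choose p hp0 hp1 hp using fun j => FOI2_half ((realPart (Y j) : A)) c hc (realPart (Y j)).2 (hre j)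
  choose q hq0 hq1 hq using fun j => FOI2_half ((imaginaryPart (Y j) : A)) c hc (imaginaryPart (Y j)).2 (him j)
  set y : Fin ((m + m) + 1 + 1) → A := Fin.cons g (Fin.cons 1 (Fin.append p q)) with hy
  have hy01 : ∀ j, 0 ≤ y j ∧ y j ≤ 1 := by
    intro j
    refine Fin.cases ?_ (fun j => ?_) j
    · simpa [hy] using ⟨hg0, hg1⟩
    · refine Fin.cases ?_ (fun j => ?_) j
      · simp [hy]
      · refine Fin.addCases (fun j => ?_) (fun j => ?_) j
        · simpa [hy] using ⟨hp0 j, hp1 j⟩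
        · have e : y (Fin.succ (Fin.succ (Fin.natAdd m j))) = q j := by
            simp only [hy, Fin.cons_succ, Fin.append_right]
          rw [e]
          exact ⟨hq0 j, hq1 j⟩
  obtain ⟨v, hv1, hv2, hv3, hv⟩ := hF _ y (min ε (ε / (6 * c))) hy01 (lt_min hε (by positivity))
  refine ⟨v, hv1, hv2, hv3, fun T hT => ?_⟩
  obtain ⟨ha, hb, hd⟩ := hv T hT
  refine ⟨ha.trans (min_le_left _ _), ?_, fun j => ?_⟩
  · have : y 0 = g := by simp [hy]
    rw [this] at hb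
    exact hb.trans (min_le_left _ _)
  · have e1 : ‖T.f (v * 1)‖ ≤ ε / (6 * c) := by
      have := hd (Fin.succ 0)
      simp only [hy, Fin.cons_succ, Fin.cons_zero] at this
      exact this.trans (min_le_right _ _)
    have ep : ‖T.f (v * p j)‖ ≤ ε / (6 * c) := by
      have := hd (Fin.succ (Fin.succ (Fin.castAdd m j)))
      simp only [hy, Fin.cons_succ, Fin.append_left] at this
      exact this.trans (min_le_right _ _)
    have eq : ‖T.f (v * q j)‖ ≤ ε / (6 * c) := by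
      have := hd (Fin.succ (Fin.succ (Fin.natAdd m j)))
      simp only [hy, Fin.cons_succ, Fin.append_right] at this
      exact this.trans (min_le_right _ _)
    have hYj : Y j = (((2 * c : ℝ) : ℂ) • p j - ((c : ℝ) : ℂ) • (1 : A)) +
        Complex.I • (((2 * c : ℝ) : ℂ) • q j - ((c : ℝ) : ℂ) • (1 : A)) := by
      rw [← hp j, ← hq j]
      exact (realPart_add_I_smul_imaginaryPart (Y j)).symm
    have hval : T.f (v * Y j) = (((2 * c : ℝ) : ℂ) * T.f (v * p j) - ((c : ℝ) : ℂ) * T.f (v * 1)) +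
        Complex.I * (((2 * c : ℝ) : ℂ) * T.f (v * q j) - ((c : ℝ) : ℂ) * T.f (v * 1)) := by
      rw [hYj]
      simp only [mul_add, mul_sub, mul_smul_comm, map_add, map_sub, map_smul, smul_eq_mul]
    rw [hval]
    have hcn : ‖((c : ℝ) : ℂ)‖ = c := by simp [abs_of_pos hc]
    have hcn2 : ‖((2 * c : ℝ) : ℂ)‖ = 2 * c := by
      rw [Complex.norm_real, Real.norm_of_nonneg (by positivity)]
    have b1 : ‖((2 * c : ℝ) : ℂ) * T.f (v * p j) - ((c : ℝ) : ℂ) * T.f (v * 1)‖ ≤ 2 * c * (ε / (6 * c)) + c * (ε / (6 * c)) := by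
      refine (norm_sub_le _ _).trans ?_
      rw [norm_mul, norm_mul, hcn, hcn2]
      gcongr
    have b2 : ‖Complex.I * (((2 * c : ℝ) : ℂ) * T.f (v * q j) - ((c : ℝ) : ℂ) * T.f (v * 1))‖ ≤ 2 * c * (ε / (6 * c)) + c * (ε / (6 * c)) := by
      rw [norm_mul, Complex.norm_I, one_mul]
      refine (norm_sub_le _ _).trans ?_
      rw [norm_mul, norm_mul, hcn, hcn2]
      gcongr
    refine (norm_add_le _ _).trans ((add_le_add b1 b2).trans (le_of_eq ?_))
    field_simp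
    ring

end Pool.Agent.H327R4.NU
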