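import Pool.Agent.H327R4.NU.Stubs

/-!
# HER: supports are transitive along the walk
-/

set_option autoImplicit false

namespace Pool.Agent.H327R4.NU

open Filter Topology Pool.Agent.H327R4.Pure

universe u

theorem t_HER : StHER.{u} := by
  intro A _ _ _ _ X₀ X₁ X₂ _ _ h1 h2
  constructor
  · intro k hk
    have e1 : (X₁ - X₀) * k = 0 := h1.1 k hk
    have e2 : X₀ * X₀ * k = k := by
      rw [sub_mul, one_mul, sub_eq_zero] at hk
      exact hk.symm
    have e3 : (1 - X₀ * X₀) * (X₀ * k) = 0 := by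
      have : (1 - X₀ * X₀) * (X₀ * k) = X₀ * ((1 - X₀ * X₀) * k) := by noncomm_ring
      rw [this, hk, mul_zero]
    have e4 : (X₁ - X₀) * (X₀ * k) = 0 := h1.1 _ e3
    have e5 : X₁ * k = X₀ * k := by
      rw [sub_mul, sub_eq_zero] at e1
      exact e1
    have e6 : X₁ * (X₀ * k) = X₀ * (X₀ * k) := by
      rw [sub_mul, sub_eq_zero] at e4
      exact e4
    have e7 : (1 - X₁ * X₁) * k = 0 := by
      rw [sub_mul, one_mul, sub_eq_zero, mul_assoc, e5, e6, ← mul_assoc, e2]
    have e8 : (X₂ - X₁) * k = 0 := h2.1 k e7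
    have : (X₂ - X₀) * k = (X₂ - X₁) * k + (X₁ - X₀) * k := by noncomm_ring
    rw [this, e8, e1, add_zero]
  · intro k hk
    have e1 : k * (X₁ - X₀) = 0 := h1.2 k hk
    have e2 : k * (X₀ * X₀) = k := by
      rw [mul_sub, mul_one, sub_eq_zero] at hk
      exact hk.symm
    have e3 : (k * X₀) * (1 - X₀ * X₀) = 0 := by
      have : (k * X₀) * (1 - X₀ * X₀) = (k * (1 - X₀ * X₀)) * X₀ := by noncomm_ring
      rw [this, hk, zero_mul]
    have e4 : (k * X₀) * (X₁ - X₀) = 0 := h1.2 _ e3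
    have e5 : k * X₁ = k * X₀ := by
      rw [mul_sub, sub_eq_zero] at e1
      exact e1
    have e6 : (k * X₀) * X₁ = (k * X₀) * X₀ := by
      rw [mul_sub, sub_eq_zero] at e4
      exact e4
    have e7 : k * (1 - X₁ * X₁) = 0 := by
      rw [mul_sub, mul_one, sub_eq_zero, ← mul_assoc, e5, e6, mul_assoc, e2]
    have e8 : k * (X₂ - X₁) = 0 := h2.2 k e7
    have : k * (X₂ - X₀) = k * (X₂ - X₁) + k * (X₁ - X₀) := by noncomm_ring
    rw [this, e8, e1, add_zero]

end Pool.Agent.H327R4.NU
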