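import Pool.Agent.H327R4.NU.Stubs

set_option autoImplicit false

namespace Pool.Agent.H327R4.NU

private noncomputable def KAP_set (N : ℕ) (j : Fin 2) : Finset ℤ :=
  (Finset.Icc (-(N : ℤ)) (N : ℤ)).filter (fun l => l % 2 = ((j : ℕ) : ℤ) ∧ |l| + 9 ≤ N)

private theorem KAP_mem {N : ℕ} {j : Fin 2} {l : ℤ} :
    l ∈ KAP_set N j ↔ l % 2 = ((j : ℕ) : ℤ) ∧ |l| + 9 ≤ N := by
  simp only [KAP_set, Finset.mem_filter, Finset.mem_Icc]
  constructor
  · exact fun h => h.2
  · intro h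
    refine ⟨?_, h⟩
    have := abs_le.1 (show |l| ≤ (N : ℤ) by have := h.2; omega)
    exact ⟨this.1, this.2⟩

private theorem KAP_eq (N : ℕ) (j : Fin 2) (t : ℝ) :
    kap N j t = ∑ l ∈ KAP_set N j, max 0 (1 - |(N : ℝ) * t - (l : ℝ)|) := rfl

private theorem KAP_B {N : ℕ} {j : Fin 2} (t : ℝ) {l : ℤ} (hl : l ∈ KAP_set N j) :
    1 - |(N : ℝ) * t - (l : ℝ)| ≤ kap N j t := by
  rw [KAP_eq]
  refine (le_max_right 0 _).trans ?_
  exact Finset.single_le_sum (f := fun l : ℤ => max 0 (1 - |(N : ℝ) * t - (l : ℝ)|))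
    (fun i _ => le_max_left _ _) hl

private theorem KAP_nonneg (N : ℕ) (j : Fin 2) (t : ℝ) : 0 ≤ kap N j t := by
  rw [KAP_eq]
  exact Finset.sum_nonneg fun i _ => le_max_left _ _

private theorem KAP_A (N : ℕ) (j : Fin 2) (t : ℝ) :
    kap N j t = 0 ∨ ∃ l ∈ KAP_set N j, kap N j t = 1 - |(N : ℝ) * t - (l : ℝ)| := by
  by_cases h : ∃ l ∈ KAP_set N j, |(N : ℝ) * t - (l : ℝ)| < 1
  · obtain ⟨l, hl, h1⟩ := h
    right
    refine ⟨l, hl, ?_⟩
    rw [KAP_eq, Finset.sum_eq_single_of_mem l hl]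
    · exact max_eq_right (by linarith)
    · intro b hb hbl
      apply max_eq_left
      have h2 := (KAP_mem.1 hb).1
      have h3 := (KAP_mem.1 hl).1
      have h4 : 2 ≤ |b - l| := by
        rcases abs_cases (b - l) with ⟨h5, _⟩ | ⟨h5, _⟩ <;> omega
      have h5 : (2 : ℝ) ≤ |(b : ℝ) - (l : ℝ)| := by exact_mod_cast h4
      have h6 : |(b : ℝ) - (l : ℝ)| ≤ |(N : ℝ) * t - (b : ℝ)| + |(N : ℝ) * t - (l : ℝ)| := by
        have h7 := abs_sub_le (b : ℝ) ((N : ℝ) * t) (l : ℝ)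
        rw [abs_sub_comm (b : ℝ) ((N : ℝ) * t)] at h7
        exact h7
      linarith
  · left
    push Not at h
    rw [KAP_eq]
    apply Finset.sum_eq_zero
    intro l hl
    exact max_eq_left (by have := h l hl; linarith)

private theorem KAP_lip (N : ℕ) (j : Fin 2) (s t : ℝ) :
    kap N j s - kap N j t ≤ N * |s - t| := by
  rcases KAP_A N j s with h | ⟨l, hl, h⟩
  · have := KAP_nonneg N j t
    have h2 : 0 ≤ (N : ℝ) * |s - t| := by positivity
    linarith
  · have h1 := KAP_B (N := N) (j := j) t hl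
    have h2 : |(N : ℝ) * t - (l : ℝ)| ≤ |(N : ℝ) * t - (N : ℝ) * s| + |(N : ℝ) * s - (l : ℝ)| :=
      abs_sub_le _ _ _
    have h3 : |(N : ℝ) * t - (N : ℝ) * s| = N * |s - t| := by
      rw [← mul_sub, abs_mul, abs_sub_comm t s, abs_of_nonneg (Nat.cast_nonneg N)]
    rw [h3] at h2
    linarith

theorem t_KAP : StKAP := by
  intro N hN
  have hN0 : (0 : ℝ) < N := by
    have : 0 < N := by omega
    exact_mod_cast this
  refine ⟨fun j t => ⟨KAP_nonneg N j t, ?_⟩, ?_, ?_, ?_⟩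
  · rcases KAP_A N j t with h | ⟨l, _, h⟩
    · rw [h]; norm_num
    · rw [h]; have := abs_nonneg ((N : ℝ) * t - (l : ℝ)); linarith
  · intro t ht
    set m : ℤ := ⌊(N : ℝ) * t⌋ with hm
    have m1 : (m : ℝ) ≤ (N : ℝ) * t := Int.floor_le _
    have m2 : (N : ℝ) * t < m + 1 := Int.lt_floor_add_one _
    by_cases hc : |m| + 9 ≤ (N : ℤ) ∧ |m + 1| + 9 ≤ (N : ℤ)
    · have a1 : |(N : ℝ) * t - (m : ℝ)| = (N : ℝ) * t - m := abs_of_nonneg (by linarith)
      have a2 : |(N : ℝ) * t - ((m + 1 : ℤ) : ℝ)| = (m : ℝ) + 1 - (N : ℝ) * t := by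
        push_cast
        rw [abs_of_nonpos (by linarith)]
        ring
      have key : 1 ≤ kap N 0 t + kap N 1 t := by
        rcases Int.emod_two_eq_zero_or_one m with h | h
        · have b1 := KAP_B (N := N) (j := 0) t (l := m) (KAP_mem.2 ⟨by simpa using h, hc.1⟩)
          have b2 := KAP_B (N := N) (j := 1) t (l := m + 1)
            (KAP_mem.2 ⟨by simp; omega, hc.2⟩)
          rw [a1] at b1; rw [a2] at b2
          linarith
        · have b1 := KAP_B (N := N) (j := 1) t (l := m) (KAP_mem.2 ⟨by simpa using h, hc.1⟩)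
          have b2 := KAP_B (N := N) (j := 0) t (l := m + 1)
            (KAP_mem.2 ⟨by simp; omega, hc.2⟩)
          rw [a1] at b1; rw [a2] at b2
          linarith
      have : 0 ≤ 32 / (N : ℝ) := by positivity
      nlinarith [sq_nonneg t]
    · have h9 : (N : ℝ) - 9 ≤ |(N : ℝ) * t| := by
        have h10 : (N : ℤ) - 8 ≤ |m| ∨ (N : ℤ) - 8 ≤ |m + 1| := by
          by_contra hcon
          push Not at hcon
          exact hc ⟨by omega, by omega⟩
        rcases h10 with h10 | h10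
        · have h11 : (N : ℝ) - 8 ≤ |(m : ℝ)| := by exact_mod_cast h10
          have h12 : |(m : ℝ)| ≤ |(m : ℝ) - (N : ℝ) * t| + |(N : ℝ) * t| := by
            have := abs_add_le ((m : ℝ) - (N : ℝ) * t) ((N : ℝ) * t)
            simpa using this
          have h13 : |(m : ℝ) - (N : ℝ) * t| ≤ 1 := abs_le.2 ⟨by linarith, by linarith⟩
          linarith
        · have h11 : (N : ℝ) - 8 ≤ |(m : ℝ) + 1| := by exact_mod_cast h10
          have h12 : |(m : ℝ) + 1| ≤ |(m : ℝ) + 1 - (N : ℝ) * t| + |(N : ℝ) * t| := by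
            have := abs_add_le ((m : ℝ) + 1 - (N : ℝ) * t) ((N : ℝ) * t)
            simpa using this
          have h13 : |(m : ℝ) + 1 - (N : ℝ) * t| ≤ 1 := abs_le.2 ⟨by linarith, by linarith⟩
          linarith
      rw [abs_mul, abs_of_nonneg hN0.le] at h9
      have k0 := KAP_nonneg N 0 t
      have k1 := KAP_nonneg N 1 t
      have hfin : 1 - t ^ 2 ≤ 18 / N := by
        rw [le_div_iff₀ hN0]
        have e1 : t ^ 2 = |t| ^ 2 := (sq_abs t).symm
        rw [e1]
        have e2 : 0 ≤ |t| := abs_nonneg t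
        nlinarith
      have : (18 : ℝ) / N ≤ 32 / N := by
        apply div_le_div_of_nonneg_right _ hN0.le
        norm_num
      linarith
  · intro j s t
    rw [abs_le]
    constructor
    · have := KAP_lip N j t s
      rw [abs_sub_comm t s] at this
      linarith
    · exact KAP_lip N j s t
  · intro j t ht
    rw [KAP_eq]
    apply Finset.sum_eq_zero
    intro l hl
    apply max_eq_left
    have h1 := (KAP_mem.1 hl).2
    have h2 : |(l : ℝ)| + 9 ≤ N := by exact_mod_cast h1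
    have h3 : (N : ℝ) - 8 ≤ |(N : ℝ) * t| := by
      rw [abs_mul, abs_of_nonneg hN0.le]
      have h4 : (N : ℝ) * (1 - 8 / N) ≤ N * |t| := mul_le_mul_of_nonneg_left ht hN0.le
      have h5 : (N : ℝ) * (1 - 8 / N) = N - 8 := by
        field_simp
      linarith
    have h6 : |(N : ℝ) * t| - |(l : ℝ)| ≤ |(N : ℝ) * t - (l : ℝ)| := abs_sub_abs_le_abs_sub _ _
    linarith

end Pool.Agent.H327R4.NU
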