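import Pool.Agent.H327R4.NU.Stubs

set_option autoImplicit false

namespace Pool.Agent.H327R4.NU

open Filter Topology Pool.Agent.H327R4.Pure

universe u

/-- hat function at `i / n` -/
noncomputable def LIP_hat (n : ℕ) (i : ℤ) (t : ℝ) : ℝ := max 0 (1 - |(n : ℝ) * t - i|)

theorem LIP_hat_nonneg (n : ℕ) (i : ℤ) (t : ℝ) : 0 ≤ LIP_hat n i t := le_max_left _ _

theorem LIP_hat_cont (n : ℕ) (i : ℤ) : Continuous (LIP_hat n i) := by
  unfold LIP_hat
  fun_prop

theorem LIP_hat_zero (n : ℕ) (i : ℤ) (t : ℝ) (h : 1 ≤ |(n : ℝ) * t - i|) : LIP_hat n i t = 0 := by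
  unfold LIP_hat
  exact max_eq_left (by linarith)

theorem LIP_sum (n : ℕ) (M : ℤ) (t : ℝ) (ht : |(n : ℝ) * t| ≤ M) :
    ∑ i ∈ Finset.Icc (-M) (M + 1), LIP_hat n i t = 1 := by
  set m : ℤ := ⌊(n : ℝ) * t⌋ with hm
  have h1 : (m : ℝ) ≤ (n : ℝ) * t := Int.floor_le _
  have h2 : (n : ℝ) * t < m + 1 := Int.lt_floor_add_one _
  have h3 := abs_le.1 ht
  have hsub : ({m, m + 1} : Finset ℤ) ⊆ Finset.Icc (-M) (M + 1) := by
    intro i hi
    have ha : -M ≤ m := by
      rw [hm, Int.le_floor]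
      push_cast
      linarith
    have hb : m ≤ M := by
      have : (m : ℝ) ≤ (M : ℝ) := by linarith
      exact_mod_cast this
    simp only [Finset.mem_insert, Finset.mem_singleton] at hi
    rw [Finset.mem_Icc]
    rcases hi with rfl | rfl
    · exact ⟨ha, by omega⟩
    · exact ⟨by omega, by omega⟩
  rw [← Finset.sum_subset hsub]
  · rw [Finset.sum_pair (by omega)]
    unfold LIP_hat
    rw [abs_of_nonneg (by linarith : (0 : ℝ) ≤ (n : ℝ) * t - m)]
    rw [abs_of_nonpos (by push_cast; linarith : (n : ℝ) * t - ((m + 1 : ℤ) : ℝ) ≤ 0)]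
    rw [max_eq_right (by linarith), max_eq_right (by push_cast; linarith)]
    push_cast
    ring
  · intro i _ hi
    simp only [Finset.mem_insert, Finset.mem_singleton, not_or] at hi
    apply LIP_hat_zero
    rcases lt_trichotomy i m with h | h | h
    · have : (i : ℝ) + 1 ≤ m := by exact_mod_cast h
      rw [abs_of_nonneg (by linarith)]
      linarith
    · exact absurd h hi.1
    · have h4 : m + 2 ≤ i := by
        rcases hi with ⟨_, hi2⟩
        omega
      have : (m : ℝ) + 2 ≤ i := by exact_mod_cast h4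
      rw [abs_of_nonpos (by linarith)]
      linarith

/-- piecewise linear interpolation -/
noncomputable def LIP_int (R : ℕ) (F : ℝ → ℝ) (n : ℕ) (t : ℝ) : ℝ :=
  ∑ i ∈ Finset.Icc (-((n * R : ℕ) : ℤ)) (((n * R : ℕ) : ℤ) + 1), F (i / n) * LIP_hat n i t

theorem LIP_unif (R : ℕ) (F : ℝ → ℝ) (hF : Continuous F) :
    TendstoUniformlyOn (fun n t => LIP_int R F n t) F atTop (Set.Icc (-(R : ℝ)) R) := by
  rw [Metric.tendstoUniformlyOn_iff]
  intro ε hε
  have hc : IsCompact (Set.Icc (-((R : ℝ) + 1)) ((R : ℝ) + 1)) := isCompact_Icc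
  have hu := hc.uniformContinuousOn_of_continuous hF.continuousOn
  rw [Metric.uniformContinuousOn_iff] at hu
  obtain ⟨δ, hδ, hu⟩ := hu (ε / 2) (by positivity)
  obtain ⟨N, hN⟩ := exists_nat_gt (1 / δ)
  filter_upwards [eventually_ge_atTop (max N 1)] with n hn t ht
  have hn1 : 1 ≤ n := le_trans (le_max_right _ _) hn
  have hnN : N ≤ n := le_trans (le_max_left _ _) hn
  have hnpos : (0 : ℝ) < n := by exact_mod_cast hn1
  have hn1' : (1 : ℝ) ≤ n := by exact_mod_cast hn1
  have hnδ : 1 < δ * n := by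
    have : (N : ℝ) ≤ n := by exact_mod_cast hnN
    have h5 : 1 / δ < n := lt_of_lt_of_le hN this
    rw [div_lt_iff₀ hδ] at h5
    linarith
  have hsum : ∑ i ∈ Finset.Icc (-((n * R : ℕ) : ℤ)) (((n * R : ℕ) : ℤ) + 1), LIP_hat n i t = 1 := by
    apply LIP_sum
    rw [abs_mul, abs_of_pos hnpos]
    push_cast
    exact mul_le_mul_of_nonneg_left (abs_le.2 ht) hnpos.le
  have hdiff : LIP_int R F n t - F t = ∑ i ∈ Finset.Icc (-((n * R : ℕ) : ℤ)) (((n * R : ℕ) : ℤ) + 1),
      (F (i / n) - F t) * LIP_hat n i t := by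
    unfold LIP_int
    simp only [sub_mul, Finset.sum_sub_distrib]
    rw [← Finset.mul_sum, hsum, mul_one]
  rw [dist_comm, Real.dist_eq, hdiff]
  have hle : ∀ i ∈ Finset.Icc (-((n * R : ℕ) : ℤ)) (((n * R : ℕ) : ℤ) + 1),
      |(F (i / n) - F t) * LIP_hat n i t| ≤ ε / 2 * LIP_hat n i t := by
    intro i _
    rw [abs_mul, abs_of_nonneg (LIP_hat_nonneg n i t)]
    by_cases h : 1 ≤ |(n : ℝ) * t - i|
    · rw [LIP_hat_zero n i t h]
      simp
    · push Not at h
      have e1 : (n : ℝ) * t - i = n * (t - i / n) := by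
        field_simp
      rw [e1, abs_mul, abs_of_pos hnpos] at h
      have h6 : |t - i / n| < δ := by
        by_contra h7
        push Not at h7
        have := mul_le_mul_of_nonneg_left h7 hnpos.le
        linarith
      have h8 : |t - i / n| < 1 := by
        by_contra h7
        push Not at h7
        have := mul_le_mul_of_nonneg_left h7 hnpos.le
        linarith
      have h9 := abs_lt.1 h8
      refine mul_le_mul_of_nonneg_right ?_ (LIP_hat_nonneg n i t)
      have := hu (i / n) ⟨by linarith [ht.1, ht.2], by linarith [ht.1, ht.2]⟩ t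
        ⟨by linarith [ht.1, ht.2], by linarith [ht.1, ht.2]⟩
        (by rw [Real.dist_eq, abs_sub_comm]; exact h6)
      rw [Real.dist_eq] at this
      exact this.le
  calc |∑ i ∈ Finset.Icc (-((n * R : ℕ) : ℤ)) (((n * R : ℕ) : ℤ) + 1), (F (i / n) - F t) * LIP_hat n i t|
      ≤ ∑ i ∈ Finset.Icc (-((n * R : ℕ) : ℤ)) (((n * R : ℕ) : ℤ) + 1),
        |(F (i / n) - F t) * LIP_hat n i t| := Finset.abs_sum_le_sum_abs _ _
    _ ≤ ∑ i ∈ Finset.Icc (-((n * R : ℕ) : ℤ)) (((n * R : ℕ) : ℤ) + 1), ε / 2 * LIP_hat n i t :=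
        Finset.sum_le_sum hle
    _ = ε / 2 := by rw [← Finset.mul_sum, hsum, mul_one]
    _ < ε := by linarith

section alg

variable {A : Type u} [CStarAlgebra A] [TrSet A]

theorem LIP_re_smul (T : Tr A) (r : ℝ) (x : A) : re T (r • x) = r * re T x := by
  unfold re
  rw [← Complex.coe_smul, map_smul, smul_eq_mul, Complex.re_ofReal_mul]

theorem LIP_re_add (T : Tr A) (x y : A) : re T (x + y) = re T x + re T y := by
  unfold re
  rw [map_add, Complex.add_re]

theorem LIP_re_sub (T : Tr A) (x y : A) : re T (x - y) = re T x - re T y := by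
  unfold re
  rw [map_sub, Complex.sub_re]

theorem LIP_re_sum {ι : Type*} (T : Tr A) (s : Finset ι) (x : ι → A) :
    re T (∑ i ∈ s, x i) = ∑ i ∈ s, re T (x i) := by
  unfold re
  rw [map_sum, Complex.re_sum]

theorem LIP_re_comm (T : Tr A) (x y : A) : re T (x * y) = re T (y * x) := by
  unfold re
  rw [T.tr]

end alg

section alg2

variable {A : Type u} [CStarAlgebra A] [PartialOrder A] [StarOrderedRing A] [TrSet A]

theorem LIP_cfc_int (R : ℕ) (F : ℝ → ℝ) (n : ℕ) (X : A) :
    cfc (LIP_int R F n) X = ∑ i ∈ Finset.Icc (-((n * R : ℕ) : ℤ)) (((n * R : ℕ) : ℤ) + 1),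
      F (i / n) • cfc (LIP_hat n i) X := by
  have h1 : LIP_int R F n = ∑ i ∈ Finset.Icc (-((n * R : ℕ) : ℤ)) (((n * R : ℕ) : ℤ) + 1),
      fun t => F (i / n) * LIP_hat n i t := by
    funext t
    rw [Finset.sum_apply]
    rfl
  rw [h1, cfc_sum _ _ _ (fun i _ => ((LIP_hat_cont n i).const_mul _).continuousOn)]
  refine Finset.sum_congr rfl fun i _ => ?_
  rw [cfc_const_mul _ _ _ (LIP_hat_cont n i).continuousOn]

theorem LIP_bdd (X : A) : ∃ R : ℕ, spectrum ℝ X ⊆ Set.Icc (-(R : ℝ)) R := by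
  obtain ⟨R, hR⟩ := exists_nat_gt (‖X‖ * ‖(1 : A)‖)
  refine ⟨R, fun t ht => ?_⟩
  have := spectrum.norm_le_norm_mul_of_mem ht
  rw [Real.norm_eq_abs] at this
  exact abs_le.1 (this.trans hR.le)

theorem LIP_tend (R : ℕ) (F : ℝ → ℝ) (hF : Continuous F) (X : A)
    (hR : spectrum ℝ X ⊆ Set.Icc (-(R : ℝ)) R) :
    Tendsto (fun n => cfc (LIP_int R F n) X) atTop (𝓝 (cfc F X)) := by
  refine tendsto_cfc_fun ((LIP_unif R F hF).mono hR) ?_
  refine Eventually.of_forall fun n => Continuous.continuousOn ?_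
  unfold LIP_int
  refine continuous_finsetSum _ fun i _ => (LIP_hat_cont n i).const_mul _

theorem LIP_pos (hTB : StTB.{u}) (T : Tr A) (hT : St T) (X Y a : A)
    (m : ℕ) (c : Fin m → ℝ) (F G : Fin m → ℝ → ℝ) (hF : ∀ k, Continuous (F k))
    (hG : ∀ k, Continuous (G k)) (h : ∀ s t, 0 ≤ ∑ k, c k * (F k s * G k t)) :
    0 ≤ ∑ k, c k * re T (star a * cfc (F k) X * a * cfc (G k) Y) := by
  obtain ⟨R1, hR1⟩ := LIP_bdd X
  obtain ⟨R2, hR2⟩ := LIP_bdd Y
  obtain ⟨R, hRX, hRY⟩ : ∃ R : ℕ, spectrum ℝ X ⊆ Set.Icc (-(R : ℝ)) R ∧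
      spectrum ℝ Y ⊆ Set.Icc (-(R : ℝ)) R := by
    refine ⟨max R1 R2, hR1.trans ?_, hR2.trans ?_⟩
    · have : (R1 : ℝ) ≤ ((max R1 R2 : ℕ) : ℝ) := by exact_mod_cast le_max_left _ _
      exact Set.Icc_subset_Icc (by linarith) this
    · have : (R2 : ℝ) ≤ ((max R1 R2 : ℕ) : ℝ) := by exact_mod_cast le_max_right _ _
      exact Set.Icc_subset_Icc (by linarith) this
  have hlim : Tendsto (fun n : ℕ => ∑ k, c k * re T (star a * cfc (LIP_int R (F k) n) X * a *
      cfc (LIP_int R (G k) n) Y)) atTop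
      (𝓝 (∑ k, c k * re T (star a * cfc (F k) X * a * cfc (G k) Y))) := by
    refine tendsto_finsetSum _ fun k _ => Tendsto.const_mul _ ?_
    have h1 := LIP_tend R (F k) (hF k) X hRX
    have h2 := LIP_tend R (G k) (hG k) Y hRY
    have h3 := ((h1.const_mul (star a)).mul_const a).mul h2
    unfold re
    exact (Complex.continuous_re.tendsto _).comp ((T.f.continuous.tendsto _).comp h3)
  refine ge_of_tendsto' hlim fun n => ?_
  set S := Finset.Icc (-((n * R : ℕ) : ℤ)) (((n * R : ℕ) : ℤ) + 1) with hS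
  have hterm : ∀ k, c k * re T (star a * cfc (LIP_int R (F k) n) X * a *
      cfc (LIP_int R (G k) n) Y) = ∑ i ∈ S, ∑ j ∈ S, c k * (F k (i / n) * G k (j / n)) *
        re T (star a * cfc (LIP_hat n i) X * a * cfc (LIP_hat n j) Y) := by
    intro k
    rw [LIP_cfc_int, LIP_cfc_int, ← hS, Finset.mul_sum S _ (star a), Finset.sum_mul S _ a,
      Finset.sum_mul S, LIP_re_sum, Finset.mul_sum S _ (c k)]
    refine Finset.sum_congr rfl fun i _ => ?_
    rw [Finset.mul_sum, LIP_re_sum, Finset.mul_sum]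
    refine Finset.sum_congr rfl fun j _ => ?_
    rw [mul_smul_comm, mul_smul_comm, smul_mul_assoc, smul_mul_assoc, LIP_re_smul, LIP_re_smul]
    ring
  rw [Finset.sum_congr rfl fun k _ => hterm k, Finset.sum_comm]
  refine Finset.sum_nonneg fun i _ => ?_
  rw [Finset.sum_comm]
  refine Finset.sum_nonneg fun j _ => ?_
  rw [← Finset.sum_mul]
  refine mul_nonneg (h _ _) ?_
  obtain ⟨-, -, -, -, -, -, -, -, -, -, -, -, -, hpp, -, -⟩ := hTB A T hT
  refine hpp _ _ ?_ ?_
  · have hP : 0 ≤ cfc (LIP_hat n i) X := cfc_nonneg fun t _ => LIP_hat_nonneg n i t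
    exact star_left_conjugate_nonneg hP a
  · exact cfc_nonneg fun t _ => LIP_hat_nonneg n j t

theorem LIP_key (hTB : StTB.{u}) (T : Tr A) (hT : St T) (X Y a : A) (g : ℝ → ℝ)
    (hg : Continuous g) (hX : IsSelfAdjoint X) (hY : IsSelfAdjoint Y) :
    n2 T (cfc g X * a - a * cfc g Y) ^ 2 =
      re T (star a * cfc (fun s => g s * g s) X * a * cfc (fun _ => (1 : ℝ)) Y) -
      2 * re T (star a * cfc g X * a * cfc g Y) +
      re T (star a * cfc (fun _ => (1 : ℝ)) X * a * cfc (fun s => g s * g s) Y) := by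
  obtain ⟨-, hn2, -⟩ := hTB A T hT
  have hsX : star (cfc g X) = cfc g X := (IsSelfAdjoint.cfc (f := g) (a := X)).star_eq
  have hsY : star (cfc g Y) = cfc g Y := (IsSelfAdjoint.cfc (f := g) (a := Y)).star_eq
  rw [hn2, cfc_mul g g X hg.continuousOn hg.continuousOn, cfc_mul g g Y hg.continuousOn hg.continuousOn,
    cfc_const_one ℝ X, cfc_const_one ℝ Y]
  set P := cfc g X
  set Q := cfc g Y
  have e1 : star (P * a - a * Q) * (P * a - a * Q) =
      star a * (P * P) * a - star a * P * a * Q - Q * (star a * P * a) + Q * (star a * a * Q) := by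
    rw [star_sub, star_mul, star_mul, hsX, hsY]
    noncomm_ring
  rw [e1, LIP_re_add, LIP_re_sub, LIP_re_sub, LIP_re_comm T Q (star a * P * a),
    LIP_re_comm T Q (star a * a * Q)]
  simp only [mul_one, mul_assoc]
  ring

end alg2

theorem t_LIP (hTB : StTB.{u}) : StLIP.{u} := by
  intro A _ _ _ _ T hT f L hL hf X Y a hX hY
  have hfc : Continuous f := by
    have : LipschitzWith (Real.toNNReal L) f := by
      refine LipschitzWith.of_dist_le_mul fun s t => ?_
      rw [Real.dist_eq, Real.dist_eq, Real.coe_toNNReal L hL]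
      exact hf s t
    exact this.continuous
  have k1 := LIP_key hTB T hT X Y a f hfc hX hY
  have k2 := LIP_key hTB T hT X Y a (fun s => s) continuous_id hX hY
  rw [cfc_id' ℝ X, cfc_id' ℝ Y] at k2
  have hp := LIP_pos hTB T hT X Y a 6 ![L ^ 2, -2 * L ^ 2, L ^ 2, -1, 2, -1]
    ![fun s => s * s, fun s => s, fun _ => 1, fun s => f s * f s, f, fun _ => 1]
    ![fun _ => 1, fun s => s, fun s => s * s, fun _ => 1, f, fun s => f s * f s]
    (by
      intro k
      fin_cases k
      · exact continuous_id.mul continuous_id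
      · exact continuous_id
      · exact continuous_const
      · exact hfc.mul hfc
      · exact hfc
      · exact continuous_const)
    (by
      intro k
      fin_cases k
      · exact continuous_const
      · exact continuous_id
      · exact continuous_id.mul continuous_id
      · exact continuous_const
      · exact hfc
      · exact hfc.mul hfc)
    (by
      intro s t
      simp only [Fin.sum_univ_succ, Matrix.cons_val_zero, Matrix.cons_val_succ, Fin.sum_univ_zero]
      have h1 := hf s t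
      have h2 : (f s - f t) ^ 2 ≤ (L * (s - t)) ^ 2 := by
        rw [← sq_abs (f s - f t), ← sq_abs (L * (s - t)), abs_mul, abs_of_nonneg hL]
        exact pow_le_pow_left₀ (abs_nonneg _) h1 2
      nlinarith [h2])
  simp only [Fin.sum_univ_succ, Matrix.cons_val_zero, Matrix.cons_val_succ, Fin.sum_univ_zero] at hp
  rw [cfc_id' ℝ X, cfc_id' ℝ Y] at hp
  obtain ⟨h0, -⟩ := hTB A T hT
  have hfin : n2 T (cfc f X * a - a * cfc f Y) ^ 2 ≤ (L * n2 T (X * a - a * Y)) ^ 2 := by
    rw [mul_pow, k1, k2]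
    linarith
  exact (pow_le_pow_iff_left₀ (h0 _) (mul_nonneg hL (h0 _)) two_ne_zero).1 hfin

end Pool.Agent.H327R4.NU
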