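import Pool.Agent.H327R4.NU.Stubs

/-!
# REFA: cells from spectral cuts
-/

set_option autoImplicit false

namespace Pool.Agent.H327R4.NU

open Filter Topology Pool.Agent.H327R4.Pure

universe u

namespace REFAaux

/-! ### ramps and bumps -/

theorem rp_cont (a b : ℝ) : Continuous (rp a b) := by
  unfold rp
  fun_prop

theorem rp_nonneg (a b t : ℝ) : 0 ≤ rp a b t := le_max_left _ _

theorem rp_le_one (a b t : ℝ) : rp a b t ≤ 1 := by
  unfold rp
  exact max_le zero_le_one (min_le_left _ _)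

theorem rp_zero {a b t : ℝ} (hab : a < b) (h : t ≤ a) : rp a b t = 0 := by
  unfold rp
  apply max_eq_left
  refine (min_le_right _ _).trans ?_
  exact div_nonpos_of_nonpos_of_nonneg (by linarith) (by linarith)

theorem rp_one {a b t : ℝ} (hab : a < b) (h : b ≤ t) : rp a b t = 1 := by
  unfold rp
  have h1 : 1 ≤ (t - a) / (b - a) := by
    rw [le_div_iff₀ (by linarith)]
    linarith
  rw [min_eq_left h1]
  exact max_eq_right zero_le_one

/-- `max 0 (2t - 1)` -/
noncomputable def ff (t : ℝ) : ℝ := max 0 (2 * t - 1)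

/-- `max 0 (1 - 2t)` -/
noncomputable def hh (t : ℝ) : ℝ := max 0 (1 - 2 * t)

/-- `ff t / t` -/
noncomputable def ft (t : ℝ) : ℝ := max 0 (2 * t - 1) / max t (1 / 2)

/-- `hh t / (1 - t)` -/
noncomputable def ht (t : ℝ) : ℝ := max 0 (1 - 2 * t) / max (1 - t) (1 / 2)

theorem ff_cont : Continuous ff := by unfold ff; fun_prop

theorem hh_cont : Continuous hh := by unfold hh; fun_prop

theorem ft_cont : Continuous ft := by
  unfold ft
  refine Continuous.div (by fun_prop) (by fun_prop) (fun t => ?_)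
  have : (0 : ℝ) < max t (1 / 2) := lt_max_of_lt_right (by norm_num)
  exact this.ne'

theorem ht_cont : Continuous ht := by
  unfold ht
  refine Continuous.div (by fun_prop) (by fun_prop) (fun t => ?_)
  have : (0 : ℝ) < max (1 - t) (1 / 2) := lt_max_of_lt_right (by norm_num)
  exact this.ne'

theorem ff_eq (t : ℝ) : ff t = t * ft t := by
  unfold ff ft
  rcases le_total t (1 / 2) with h | h
  · rw [max_eq_left (by linarith : 2 * t - 1 ≤ 0)]
    simp
  · rw [max_eq_right (by linarith : 0 ≤ 2 * t - 1), max_eq_left h]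
    field_simp

theorem hh_eq (t : ℝ) : hh t = (1 - t) * ht t := by
  unfold hh ht
  rcases le_total (1 / 2) t with h | h
  · rw [max_eq_left (by linarith : 1 - 2 * t ≤ 0)]
    simp
  · rw [max_eq_right (by linarith : 0 ≤ 1 - 2 * t), max_eq_left (by linarith : 1 / 2 ≤ 1 - t)]
    have : (1 - t) ≠ 0 := by
      have : 0 < 1 - t := by linarith
      exact this.ne'
    field_simp

theorem hh_ff (t : ℝ) : hh t * ff t = 0 := by
  unfold hh ff
  rcases le_total (1 / 2) t with h | h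
  · rw [max_eq_left (by linarith : 1 - 2 * t ≤ 0), zero_mul]
  · rw [max_eq_left (by linarith : 2 * t - 1 ≤ 0), mul_zero]

theorem ff_bd {t : ℝ} (h0 : 0 ≤ t) (h1 : t ≤ 1) : 0 ≤ ff t ∧ ff t ≤ 1 ∧ 0 ≤ t - ff t * ff t ∧
    t - ff t * ff t ≤ 6 * (t - t * t) := by
  unfold ff
  rcases le_total t (1 / 2) with h | h
  · rw [max_eq_left (by linarith : 2 * t - 1 ≤ 0)]
    refine ⟨le_rfl, by norm_num, by linarith, by nlinarith⟩
  · rw [max_eq_right (by linarith : 0 ≤ 2 * t - 1)]
    refine ⟨by linarith, by linarith, by nlinarith, by nlinarith⟩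

theorem hh_bd {t : ℝ} (h0 : 0 ≤ t) (h1 : t ≤ 1) : 0 ≤ hh t ∧ hh t ≤ 1 ∧
    0 ≤ (1 - t) - hh t * hh t ∧ (1 - t) - hh t * hh t ≤ 6 * (t - t * t) := by
  have h := ff_bd (t := 1 - t) (by linarith) (by linarith)
  have e : ff (1 - t) = hh t := by
    unfold ff hh
    congr 1
    ring
  rw [e] at h
  refine ⟨h.1, h.2.1, h.2.2.1, ?_⟩
  nlinarith [h.2.2.2]

/-! ### functional calculus -/

variable {A : Type u} [CStarAlgebra A] [PartialOrder A] [StarOrderedRing A] [TrSet A]

theorem cm (x : A) {f g : ℝ → ℝ} (hf : Continuous f) (hg : Continuous g) :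
    cfc f x * cfc g x = cfc (fun t => f t * g t) x :=
  (cfc_mul f g x hf.continuousOn hg.continuousOn).symm

theorem cm_zero (x : A) {f g : ℝ → ℝ} (hf : Continuous f) (hg : Continuous g)
    (h : ∀ t ∈ spectrum ℝ x, f t * g t = 0) : cfc f x * cfc g x = 0 := by
  rw [cm x hf hg, cfc_congr (g := fun _ => (0 : ℝ)) (fun t ht => h t ht)]
  exact cfc_const_zero ℝ x

theorem one_sub (x : A) (hx : IsSelfAdjoint x) {f : ℝ → ℝ} (hf : Continuous f) :
    1 - cfc f x = cfc (fun t => 1 - f t) x := by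
  rw [cfc_sub (fun _ => (1 : ℝ)) f x continuousOn_const hf.continuousOn, cfc_const_one ℝ x]

theorem her_left {e E k : A} (H : InHer (e - e * e) (E - e)) (hk : k * (e - e * e) = 0) :
    k * E = k * e := by
  have h := H.2 k hk
  rw [mul_sub, sub_eq_zero] at h
  exact h

theorem her_right {e E k : A} (H : InHer (e - e * e) (E - e)) (hk : (e - e * e) * k = 0) :
    E * k = e * k := by
  have h := H.1 k hk
  rw [sub_mul, sub_eq_zero] at h
  exact h

theorem spec01 {x : A} (h0 : 0 ≤ x) (h1 : x ≤ 1) : ∀ t ∈ spectrum ℝ x, 0 ≤ t ∧ t ≤ 1 := by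
  intro t ht
  refine ⟨spectrum_nonneg_of_nonneg h0 ht, ?_⟩
  exact (le_algebraMap_iff_spectrum_le (R := ℝ) (r := 1) (a := x)
    (IsSelfAdjoint.of_nonneg h0)).1 (by simpa using h1) t ht

theorem ff_op {x : A} (h0 : 0 ≤ x) : cfc ff x = x * cfc ft x ∧ cfc ff x = cfc ft x * x := by
  have hx := IsSelfAdjoint.of_nonneg h0
  have e1 : cfc ff x = cfc (fun t : ℝ => t * ft t) x := by
    congr 1
    funext t
    exact ff_eq t
  have e2 : cfc ff x = x * cfc ft x := by
    rw [e1, cfc_mul (fun t : ℝ => t) ft x continuousOn_id ft_cont.continuousOn, cfc_id' ℝ x]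
  refine ⟨e2, ?_⟩
  rw [e2]
  have h := cfc_commute_cfc (fun t : ℝ => t) ft x
  rw [cfc_id' ℝ x] at h
  exact h

theorem hh_op {x : A} (h0 : 0 ≤ x) : cfc hh x = (1 - x) * cfc ht x ∧
    cfc hh x = cfc ht x * (1 - x) := by
  have hx := IsSelfAdjoint.of_nonneg h0
  have e0 : cfc (fun t : ℝ => 1 - t) x = 1 - x := by
    rw [cfc_sub (fun _ => (1 : ℝ)) (fun t => t) x continuousOn_const continuousOn_id,
      cfc_const_one ℝ x, cfc_id' ℝ x]
  have e1 : cfc hh x = cfc (fun t : ℝ => (1 - t) * ht t) x := by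
    congr 1
    funext t
    exact hh_eq t
  have e2 : cfc hh x = (1 - x) * cfc ht x := by
    rw [e1, cfc_mul (fun t : ℝ => 1 - t) ht x (by fun_prop) ht_cont.continuousOn, e0]
  refine ⟨e2, ?_⟩
  rw [e2]
  have h := cfc_commute_cfc (fun t : ℝ => 1 - t) ht x
  rw [e0] at h
  exact h

theorem ff_ineq {x : A} (h0 : 0 ≤ x) (h1 : x ≤ 1) : 0 ≤ cfc ff x ∧ cfc ff x ≤ 1 ∧
    0 ≤ x - cfc ff x * cfc ff x ∧ x - cfc ff x * cfc ff x ≤ (6 : ℝ) • (x - x * x) := by
  have hx := IsSelfAdjoint.of_nonneg h0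
  have hs := spec01 h0 h1
  have e1 : x - cfc ff x * cfc ff x = cfc (fun t : ℝ => t - ff t * ff t) x := by
    rw [cm x ff_cont ff_cont, cfc_sub (fun t : ℝ => t) (fun t => ff t * ff t) x
      continuousOn_id (ff_cont.mul ff_cont).continuousOn, cfc_id' ℝ x]
  have e2 : (6 : ℝ) • (x - x * x) = cfc (fun t : ℝ => 6 * (t - t * t)) x := by
    rw [cfc_const_mul (6 : ℝ) (fun t : ℝ => t - t * t) x (by fun_prop),
      cfc_sub (fun t : ℝ => t) (fun t => t * t) x continuousOn_id (by fun_prop), cfc_id' ℝ x,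
      cfc_mul (fun t : ℝ => t) (fun t => t) x continuousOn_id continuousOn_id, cfc_id' ℝ x]
  refine ⟨cfc_nonneg fun t ht => (ff_bd (hs t ht).1 (hs t ht).2).1,
    cfc_le_one ff x fun t ht => (ff_bd (hs t ht).1 (hs t ht).2).2.1, ?_, ?_⟩
  · rw [e1]
    exact cfc_nonneg fun t ht => (ff_bd (hs t ht).1 (hs t ht).2).2.2.1
  · rw [e1, e2]
    have hc := ff_cont
    exact cfc_mono (fun t ht => (ff_bd (hs t ht).1 (hs t ht).2).2.2.2)
      (continuousOn_id.sub (ff_cont.mul ff_cont).continuousOn) (by fun_prop)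

theorem hh_ineq {x : A} (h0 : 0 ≤ x) (h1 : x ≤ 1) : 0 ≤ cfc hh x ∧ cfc hh x ≤ 1 ∧
    0 ≤ (1 - x) - cfc hh x * cfc hh x ∧
    (1 - x) - cfc hh x * cfc hh x ≤ (6 : ℝ) • (x - x * x) := by
  have hx := IsSelfAdjoint.of_nonneg h0
  have hs := spec01 h0 h1
  have e0 : cfc (fun t : ℝ => 1 - t) x = 1 - x := by
    rw [cfc_sub (fun _ => (1 : ℝ)) (fun t => t) x continuousOn_const continuousOn_id,
      cfc_const_one ℝ x, cfc_id' ℝ x]
  have e1 : (1 - x) - cfc hh x * cfc hh x = cfc (fun t : ℝ => (1 - t) - hh t * hh t) x := by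
    rw [cm x hh_cont hh_cont, cfc_sub (fun t : ℝ => 1 - t) (fun t => hh t * hh t) x
      (by fun_prop) (hh_cont.mul hh_cont).continuousOn, e0]
  have e2 : (6 : ℝ) • (x - x * x) = cfc (fun t : ℝ => 6 * (t - t * t)) x := by
    rw [cfc_const_mul (6 : ℝ) (fun t : ℝ => t - t * t) x (by fun_prop),
      cfc_sub (fun t : ℝ => t) (fun t => t * t) x continuousOn_id (by fun_prop), cfc_id' ℝ x,
      cfc_mul (fun t : ℝ => t) (fun t => t) x continuousOn_id continuousOn_id, cfc_id' ℝ x]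
  refine ⟨cfc_nonneg fun t ht => (hh_bd (hs t ht).1 (hs t ht).2).1,
    cfc_le_one hh x fun t ht => (hh_bd (hs t ht).1 (hs t ht).2).2.1, ?_, ?_⟩
  · rw [e1]
    exact cfc_nonneg fun t ht => (hh_bd (hs t ht).1 (hs t ht).2).2.2.1
  · rw [e1, e2]
    exact cfc_mono (fun t ht => (hh_bd (hs t ht).1 (hs t ht).2).2.2.2)
      ((continuousOn_const.sub continuousOn_id).sub (hh_cont.mul hh_cont).continuousOn)
      (by fun_prop)

theorem comm_prod {a b : A} (ha0 : 0 ≤ a) (ha1 : a ≤ 1) (hb0 : 0 ≤ b) (hb1 : b ≤ 1)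
    (h : Commute a b) : 0 ≤ a * b ∧ a * b ≤ 1 := by
  refine ⟨h.mul_nonneg ha0 hb0, ?_⟩
  have h1 : 0 ≤ a * (1 - b) :=
    Commute.mul_nonneg ha0 (sub_nonneg.2 hb1) ((Commute.one_right a).sub_right h)
  have h2 : a * b ≤ a := by
    rw [mul_sub, mul_one] at h1
    exact sub_nonneg.1 h1
  exact h2.trans ha1

theorem re_sub (T : Tr A) (x y : A) : re T (x - y) = re T x - re T y := by
  unfold re; rw [map_sub, Complex.sub_re]

theorem re_add (T : Tr A) (x y : A) : re T (x + y) = re T x + re T y := by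
  unfold re; rw [map_add, Complex.add_re]

theorem re_six (T : Tr A) (x : A) : re T ((6 : ℝ) • x) = 6 * re T x := by
  unfold re
  have h : (6 : ℝ) • x = ((6 : ℝ) : ℂ) • x := (Complex.coe_smul (6 : ℝ) x).symm
  rw [h, map_smul, smul_eq_mul, Complex.re_ofReal_mul]

/-- the trace estimate for one cell -/
theorem cell_est (hTB : StTB.{u}) (T : Tr A) (hT : St T) {a b : A} (ha0 : 0 ≤ a) (ha1 : a ≤ 1)
    (hb0 : 0 ≤ b) (hb1 : b ≤ 1) (hab : a * b = b) (hba : b * a = b) (η : ℝ)
    (h1 : re T (a - a * a) ≤ η) (h2 : re T (b - b * b) ≤ η) :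
    re T a - re T b - re T ((cfc ff a * cfc hh b) * (cfc ff a * cfc hh b)) ≤ 12 * η := by
  obtain ⟨-, -, -, -, -, -, -, -, -, -, -, hmono, -, -, -, hcon⟩ := hTB A T hT
  obtain ⟨f1, f2, f3, f4⟩ := ff_ineq ha0 ha1
  obtain ⟨g1, g2, g3, g4⟩ := hh_ineq hb0 hb1
  have hc : Commute a b := hab.trans hba.symm
  have c1 : Commute (cfc ff a) b := hc.cfc_real ff
  have c2 : Commute (cfc ff a) (cfc hh b) := (c1.symm.cfc_real hh).symm
  have hP : 0 ≤ cfc ff a * cfc ff a ∧ cfc ff a * cfc ff a ≤ 1 :=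
    comm_prod f1 f2 f1 f2 (Commute.refl _)
  have e1 : (cfc ff a * cfc hh b) * (cfc ff a * cfc hh b) =
      (cfc ff a * cfc ff a) * (cfc hh b * cfc hh b) := by
    rw [mul_assoc, ← mul_assoc (cfc hh b), ← c2.eq]
    simp only [mul_assoc]
  have e2 : b * (cfc ff a * cfc ff a) = (cfc ff a * cfc ff a) * b := by
    rw [← mul_assoc, ← c1.eq, mul_assoc, ← c1.eq, mul_assoc]
  have e3 : a - b - (cfc ff a * cfc hh b) * (cfc ff a * cfc hh b) =
      (1 - b) * (a - cfc ff a * cfc ff a) +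
        (cfc ff a * cfc ff a) * ((1 - b) - cfc hh b * cfc hh b) := by
    rw [e1, mul_sub (1 - b), sub_mul 1 b a, one_mul, hba, sub_mul 1 b, one_mul, e2,
      mul_sub (cfc ff a * cfc ff a) (1 - b), mul_sub (cfc ff a * cfc ff a) 1, mul_one]
    abel
  have e4 : re T a - re T b - re T ((cfc ff a * cfc hh b) * (cfc ff a * cfc hh b)) =
      re T ((1 - b) * (a - cfc ff a * cfc ff a)) +
        re T ((cfc ff a * cfc ff a) * ((1 - b) - cfc hh b * cfc hh b)) := by
    rw [← re_add, ← e3, re_sub, re_sub]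
  rw [e4]
  have i1 := hcon (1 - b) (a - cfc ff a * cfc ff a) (sub_nonneg.2 hb1)
    (sub_le_self 1 hb0) f3
  have i2 := hmono _ _ f4
  have i3 := hcon (cfc ff a * cfc ff a) ((1 - b) - cfc hh b * cfc hh b) hP.1 hP.2 g3
  have i4 := hmono _ _ g4
  rw [re_six] at i2 i4
  linarith

end REFAaux

open REFAaux in
theorem t_REFA (hTB : StTB.{u}) : StREFA.{u} := by
  intro A _ _ _ _ hcut D y δ ε hD0 hD1 hy0 hy1 hδ hε
  have hDs : IsSelfAdjoint D := IsSelfAdjoint.of_nonneg hD0
  have h1y : 0 ≤ 1 + y := add_nonneg zero_le_one hy0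
  generalize hxdef : D * (1 + y) * D = x
  have hx0 : 0 ≤ x := by
    have h := star_left_conjugate_nonneg h1y D
    rw [hDs.star_eq, hxdef] at h
    exact h
  have hxs : IsSelfAdjoint x := IsSelfAdjoint.of_nonneg hx0
  have hx2 : ∀ t ∈ spectrum ℝ x, t ≤ 2 := by
    have h1 := star_left_conjugate_nonneg (sub_nonneg.2 hy1) D
    rw [hDs.star_eq] at h1
    have h2 := (comm_prod hD0 hD1 hD0 hD1 (Commute.refl D)).2
    have h3 : algebraMap ℝ A 2 - x = (1 - D * D) + (1 - D * D) + D * (1 - y) * D := by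
      rw [← hxdef, map_ofNat, ← one_add_one_eq_two, mul_sub, mul_add, sub_mul, add_mul, mul_one]
      abel
    have h4 : x ≤ algebraMap ℝ A 2 := by
      rw [← sub_nonneg, h3]
      exact add_nonneg (add_nonneg (sub_nonneg.2 h2) (sub_nonneg.2 h2)) h1
    exact (le_algebraMap_iff_spectrum_le (R := ℝ) (a := x) hxs).1 h4
  obtain ⟨h, hh0, hh1, hhδ⟩ : ∃ h : ℝ, 0 < h ∧ h ≤ 1 / 10 ∧ h ≤ δ :=
    ⟨min (1 / 10) δ, lt_min (by norm_num) hδ, min_le_left _ _, min_le_right _ _⟩
  obtain ⟨N, hN1, hN2⟩ : ∃ N : ℕ, 7 / 4 ≤ (N : ℝ) * h ∧ (N : ℝ) * h ≤ 2 := by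
    refine ⟨⌈(7 / 4) / h⌉₊, ?_, ?_⟩
    · have := Nat.le_ceil ((7 / 4) / h)
      rwa [div_le_iff₀ hh0] at this
    · have h1 := Nat.ceil_lt_add_one (show 0 ≤ (7 / 4) / h by positivity)
      have h2 : (⌈(7 / 4) / h⌉₊ : ℝ) * h < ((7 / 4) / h + 1) * h :=
        mul_lt_mul_of_pos_right h1 hh0
      rw [add_mul, div_mul_cancel₀ _ hh0.ne'] at h2
      linarith
  obtain ⟨s, hs⟩ : ∃ s : ℕ → ℝ, ∀ l, s l = 1 / 4 + (l : ℝ) * h := ⟨_, fun l => rfl⟩
  have hs1 : ∀ l, s (l + 1) = s l + h := by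
    intro l
    rw [hs, hs]
    push_cast
    ring
  have hslt : ∀ l, s l < s (l + 1) := fun l => by rw [hs1]; linarith
  have hsm : Monotone s := monotone_nat_of_le_succ fun l => (hslt l).le
  have hs0 : s 0 = 1 / 4 := by rw [hs]; simp
  have hsN : 2 ≤ s N ∧ s N ≤ 9 / 4 := by rw [hs]; constructor <;> linarith
  obtain ⟨e, he⟩ : ∃ e : ℕ → A, ∀ l, e l = cfc (rp (s l) (s (l + 1))) x := ⟨_, fun l => rfl⟩
  have he0 : ∀ l, 0 ≤ e l := fun l => by
    rw [he]
    exact cfc_nonneg fun t _ => rp_nonneg _ _ t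
  have he1 : ∀ l, e l ≤ 1 := fun l => by
    rw [he]
    exact cfc_le_one _ _ fun t _ => rp_le_one _ _ t
  have hεN : 0 < ε / (12 * ((N : ℝ) + 1)) := by positivity
  have hch := fun l => hcut (e l) (ε / (12 * ((N : ℝ) + 1))) (he0 l) (he1 l) hεN
  choose E hE0 hE1 hEH hET using hch
  have hEs : ∀ l, star (E l) = E l := fun l => (IsSelfAdjoint.of_nonneg (hE0 l)).star_eq
  -- the basic relations
  have hpre : ∀ (w : ℝ → ℝ) (l : ℕ), Continuous w →
      (∀ t ∈ spectrum ℝ x, w t * rp (s l) (s (l + 1)) t = 0) →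
      cfc w x * E l = 0 ∧ cfc w x * e l = 0 := by
    intro w l hw h1
    have h2 : cfc w x * e l = 0 := by
      rw [he]
      exact cm_zero x hw (rp_cont _ _) h1
    refine ⟨?_, h2⟩
    rw [her_left (hEH l) (by rw [mul_sub, ← mul_assoc, h2, zero_mul, sub_zero]), h2]
  have hpre' : ∀ (w : ℝ → ℝ) (l : ℕ), Continuous w →
      (∀ t ∈ spectrum ℝ x, w t * (1 - rp (s l) (s (l + 1)) t) = 0) →
      cfc w x * (1 - E l) = 0 := by
    intro w l hw h1
    have h2 : cfc w x * (1 - e l) = 0 := by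
      rw [he, one_sub x hxs (rp_cont _ _)]
      exact cm_zero x hw (continuous_const.sub (rp_cont _ _)) h1
    have h3 : cfc w x * e l = cfc w x := by
      rw [mul_sub, mul_one, sub_eq_zero] at h2
      exact h2.symm
    have h4 : cfc w x * E l = cfc w x * e l :=
      her_left (hEH l) (by rw [mul_sub, ← mul_assoc, h3, h3, sub_self])
    rw [mul_sub, mul_one, h4, h3, sub_self]
  have hle : ∀ l m, l < m → E l * E m = E m := by
    intro l m hlm
    have h1 : (1 - e l) * E m = 0 := by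
      rw [he l, one_sub x hxs (rp_cont _ _)]
      refine (hpre (fun t => 1 - rp (s l) (s (l + 1)) t) m
        (continuous_const.sub (rp_cont _ _)) (fun t _ => ?_)).1
      rcases le_total t (s m) with h2 | h2
      · rw [rp_zero (hslt m) h2, mul_zero]
      · rw [rp_one (hslt l) ((hsm hlm).trans h2), sub_self, zero_mul]
    have h2 : e l * E m = E m := by
      rw [sub_mul, one_mul, sub_eq_zero] at h1
      exact h1.symm
    rw [her_right (hEH l) (by rw [sub_mul, mul_assoc, h2, h2, sub_self]), h2]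
  have hge : ∀ l m, l < m → E m * E l = E m := by
    intro l m hlm
    have h1 := congrArg star (hle l m hlm)
    rwa [star_mul, hEs, hEs] at h1
  have hEN : E N = 0 := by
    have h1 : e N = 0 := by
      rw [he, cfc_congr (g := fun _ => (0 : ℝ)) (fun t ht =>
        rp_zero (hslt N) ((hx2 t ht).trans hsN.1))]
      exact cfc_const_zero ℝ x
    have h2 := her_left (k := 1) (hEH N) (by rw [h1]; simp)
    rw [one_mul, one_mul, h1] at h2
    exact h2
  -- the cells
  obtain ⟨G, hG⟩ : ∃ G : ℕ → A, ∀ l, G l = cfc ff (E l) * cfc hh (E (l + 1)) :=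
    ⟨_, fun l => rfl⟩
  have hcom : ∀ l, Commute (cfc ff (E l)) (cfc hh (E (l + 1))) := by
    intro l
    have h1 : Commute (E l) (E (l + 1)) :=
      (hle l (l + 1) (Nat.lt_succ_self l)).trans (hge l (l + 1) (Nat.lt_succ_self l)).symm
    exact ((h1.cfc_real ff).symm.cfc_real hh).symm
  have hG01 : ∀ l, 0 ≤ G l ∧ G l ≤ 1 := by
    intro l
    rw [hG]
    obtain ⟨f1, f2, -, -⟩ := ff_ineq (hE0 l) (hE1 l)
    obtain ⟨g1, g2, -, -⟩ := hh_ineq (hE0 (l + 1)) (hE1 (l + 1))
    exact comm_prod f1 f2 g1 g2 (hcom l)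
  have hGn : ∀ l, ‖G l‖ ≤ 1 := fun l =>
    (CStarAlgebra.norm_le_one_iff_of_nonneg (G l) (hG01 l).1).2 (hG01 l).2
  have hGl : ∀ (w : ℝ → ℝ) (l : ℕ), cfc w x * E l = 0 → cfc w x * G l = 0 := by
    intro w l h1
    rw [hG, (ff_op (hE0 l)).1, mul_assoc, ← mul_assoc, h1, zero_mul]
  have hGr : ∀ (w : ℝ → ℝ) (l : ℕ), cfc w x * (1 - E (l + 1)) = 0 → cfc w x * G l = 0 := by
    intro w l h1
    rw [hG, (hcom l).eq, (hh_op (hE0 (l + 1))).1, mul_assoc, ← mul_assoc, h1, zero_mul]
  have hG1 : ∀ l, cfc (rp (1/8) (1/4)) x * G l = G l := by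
    intro l
    have h1 : (1 - cfc (rp (1/8) (1/4)) x) * G l = 0 := by
      rw [one_sub x hxs (rp_cont _ _)]
      refine hGl _ l (hpre (fun t => 1 - rp (1/8) (1/4) t) l
        (continuous_const.sub (rp_cont _ _)) (fun t _ => ?_)).1
      rcases le_total t (s l) with h2 | h2
      · rw [rp_zero (hslt l) h2, mul_zero]
      · have h3 : s 0 ≤ s l := hsm (Nat.zero_le l)
        rw [rp_one (by norm_num) (by linarith), sub_self, zero_mul]
    rw [sub_mul, one_mul, sub_eq_zero] at h1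
    exact h1.symm
  have hGx : ∀ l, ‖(x - ((s (l + 1) : ℝ) : ℂ) • 1) * G l‖ ≤ δ := by
    intro l
    have c1 : Continuous (fun t : ℝ => max (-h) (min h (t - s (l + 1)))) := by fun_prop
    have c2 : Continuous (fun t : ℝ => min 0 (t - s l)) := by fun_prop
    have c3 : Continuous (fun t : ℝ => max 0 (t - s (l + 1 + 1))) := by fun_prop
    have e1 : x - ((s (l + 1) : ℝ) : ℂ) • (1 : A) =
        cfc (fun t : ℝ => max (-h) (min h (t - s (l + 1)))) x +
          cfc (fun t : ℝ => min 0 (t - s l)) x +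
          cfc (fun t : ℝ => max 0 (t - s (l + 1 + 1))) x := by
      rw [← cfc_add (a := x) _ _ c1.continuousOn c2.continuousOn,
        ← cfc_add (a := x) (fun t : ℝ => max (-h) (min h (t - s (l + 1))) + min 0 (t - s l))
          (fun t : ℝ => max 0 (t - s (l + 1 + 1))) (c1.add c2).continuousOn c3.continuousOn]
      have e2 : x - ((s (l + 1) : ℝ) : ℂ) • (1 : A) = cfc (fun t : ℝ => t - s (l + 1)) x := by
        rw [cfc_sub (fun t : ℝ => t) (fun _ => s (l + 1)) x continuousOn_id continuousOn_const,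
          cfc_id' ℝ x, cfc_const (s (l + 1)) x, Algebra.algebraMap_eq_smul_one,
          Complex.coe_smul]
      rw [e2]
      congr 1
      funext t
      have h1 := hs1 l
      have h2 := hs1 (l + 1)
      rcases le_total t (s l) with h3 | h3
      · rw [min_eq_right (by linarith : t - s l ≤ 0),
          max_eq_left (by linarith : t - s (l + 1 + 1) ≤ 0),
          min_eq_right (by linarith : t - s (l + 1) ≤ h), max_eq_left (by linarith)]
        linarith
      · rcases le_total t (s (l + 1 + 1)) with h4 | h4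
        · rw [min_eq_left (by linarith : (0 : ℝ) ≤ t - s l),
            max_eq_left (by linarith : t - s (l + 1 + 1) ≤ 0),
            min_eq_right (by linarith : t - s (l + 1) ≤ h), max_eq_right (by linarith)]
          linarith
        · rw [min_eq_left (by linarith : (0 : ℝ) ≤ t - s l),
            max_eq_right (by linarith : (0 : ℝ) ≤ t - s (l + 1 + 1)),
            min_eq_left (by linarith : h ≤ t - s (l + 1)), max_eq_right (by linarith)]
          linarith
    have e3 : cfc (fun t : ℝ => min 0 (t - s l)) x * G l = 0 := by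
      refine hGl _ l (hpre _ l c2 (fun t _ => ?_)).1
      rcases le_total t (s l) with h3 | h3
      · rw [rp_zero (hslt l) h3, mul_zero]
      · rw [min_eq_left (by linarith : (0 : ℝ) ≤ t - s l), zero_mul]
    have e4 : cfc (fun t : ℝ => max 0 (t - s (l + 1 + 1))) x * G l = 0 := by
      refine hGr _ l (hpre' _ (l + 1) c3 (fun t _ => ?_))
      rcases le_total t (s (l + 1 + 1)) with h3 | h3
      · rw [max_eq_left (by linarith : t - s (l + 1 + 1) ≤ 0), zero_mul]
      · rw [rp_one (hslt (l + 1)) h3, sub_self, mul_zero]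
    rw [e1, add_mul, add_mul, e3, e4, add_zero, add_zero]
    have e5 : ‖cfc (fun t : ℝ => max (-h) (min h (t - s (l + 1)))) x‖ ≤ h := by
      refine norm_cfc_le hh0.le (fun t _ => ?_)
      rw [Real.norm_eq_abs, abs_le]
      exact ⟨le_max_left _ _, max_le (by linarith) (min_le_left _ _)⟩
    calc _ ≤ ‖cfc (fun t : ℝ => max (-h) (min h (t - s (l + 1)))) x‖ * ‖G l‖ := norm_mul_le _ _
      _ ≤ h * 1 := mul_le_mul e5 (hGn l) (norm_nonneg _) hh0.le
      _ ≤ δ := by linarith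
  have horth : ∀ l m, l < m → G l * G m = 0 := by
    intro l m hlm
    have h1 : cfc hh (E (l + 1)) * cfc ff (E m) = 0 := by
      rcases Nat.lt_or_ge (l + 1) m with h2 | h2
      · rw [(hh_op (hE0 (l + 1))).2, (ff_op (hE0 m)).1, mul_assoc, ← mul_assoc (1 - E (l + 1)),
          sub_mul, one_mul, hle (l + 1) m h2, sub_self, zero_mul, mul_zero]
      · have h3 : m = l + 1 := by omega
        rw [h3]
        exact cm_zero _ hh_cont ff_cont (fun t _ => hh_ff t)
    rw [hG l, hG m, mul_assoc, ← mul_assoc (cfc hh (E (l + 1))), h1, zero_mul, mul_zero]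
  refine ⟨N, fun l => G l, fun l => s (l + 1) - 1, ?_, ?_, ?_⟩
  · intro l
    refine ⟨(hG01 l).1, (hG01 l).2, hG1 l, ?_, ?_⟩
    · rw [show (1 + (s ((l : ℕ) + 1) - 1) : ℝ) = s ((l : ℕ) + 1) by ring]
      exact hGx l
    · have h1 : s 0 ≤ s ((l : ℕ) + 1) := hsm (Nat.zero_le _)
      have h2 : s ((l : ℕ) + 1) ≤ s N := hsm (by have := l.2; omega)
      rw [abs_le]
      constructor <;> linarith [hsN.2]
  · intro l m hlm
    rcases lt_trichotomy (l : ℕ) (m : ℕ) with h1 | h1 | h1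
    · exact horth l m h1
    · exact absurd (Fin.ext h1) hlm
    · have h2 := congrArg star (horth m l h1)
      rw [star_mul, (IsSelfAdjoint.of_nonneg (hG01 l).1).star_eq,
        (IsSelfAdjoint.of_nonneg (hG01 m).1).star_eq, star_zero] at h2
      exact h2
  · intro T hT
    have hmono := (hTB A T hT).2.2.2.2.2.2.2.2.2.2.2.1
    -- the support of the function is under `E 0`
    have h1 : cfc (rp (2/5) (1/2)) x ≤ E 0 := by
      have k1 : cfc (rp (2/5) (1/2)) x * (1 - E 0) = 0 := by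
        refine hpre' _ 0 (rp_cont _ _) (fun t _ => ?_)
        rcases le_total t (2/5) with h2 | h2
        · rw [rp_zero (by norm_num) h2, zero_mul]
        · rw [rp_one (hslt 0) (by rw [hs1, hs0]; linarith), sub_self, mul_zero]
      have k2 : cfc (rp (2/5) (1/2)) x * E 0 = cfc (rp (2/5) (1/2)) x := by
        rw [mul_sub, mul_one, sub_eq_zero] at k1
        exact k1.symm
      have k3 : E 0 * cfc (rp (2/5) (1/2)) x = cfc (rp (2/5) (1/2)) x := by
        have k4 := congrArg star k2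
        rwa [star_mul, hEs, (cfc_predicate (rp (2/5) (1/2)) x : IsSelfAdjoint _).star_eq] at k4
      have k4 : 0 ≤ E 0 * (1 - cfc (rp (2/5) (1/2)) x) := by
        refine Commute.mul_nonneg (hE0 0) (sub_nonneg.2 (cfc_le_one _ _ fun t _ =>
          rp_le_one _ _ t)) ((Commute.one_right _).sub_right (k3.trans k2.symm))
      rw [mul_sub, mul_one, k3] at k4
      exact sub_nonneg.1 k4
    have h2 := hmono _ _ h1
    have h3 : ∀ l : ℕ, re T (E l) - re T (E (l + 1)) - re T (G l * G l) ≤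
        12 * (ε / (12 * ((N : ℝ) + 1))) := by
      intro l
      rw [hG]
      exact cell_est hTB T hT (hE0 l) (hE1 l) (hE0 (l + 1)) (hE1 (l + 1))
        (hle l (l + 1) (Nat.lt_succ_self l)) (hge l (l + 1) (Nat.lt_succ_self l)) _
        (hET l T hT) (hET (l + 1) T hT)
    have h4 : ∑ l ∈ Finset.range N, (re T (E l) - re T (E (l + 1))) = re T (E 0) := by
      rw [Finset.sum_range_sub' (fun l => re T (E l)) N, hEN]
      simp [re]
    have h5 : ∑ l : Fin N, re T (G l * G l) = ∑ l ∈ Finset.range N, re T (G l * G l) :=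
      Fin.sum_univ_eq_sum_range (fun l => re T (G l * G l)) N
    rw [h5]
    have h6 : re T (E 0) - ∑ l ∈ Finset.range N, re T (G l * G l) ≤
        ∑ l ∈ Finset.range N, 12 * (ε / (12 * ((N : ℝ) + 1))) := by
      rw [← h4, ← Finset.sum_sub_distrib]
      exact Finset.sum_le_sum fun l _ => h3 l
    rw [Finset.sum_const, Finset.card_range, nsmul_eq_mul] at h6
    have h7 : (N : ℝ) * (12 * (ε / (12 * ((N : ℝ) + 1)))) ≤ ε := by
      have h8 : (N : ℝ) * (12 * (ε / (12 * ((N : ℝ) + 1)))) = ε * ((N : ℝ) / ((N : ℝ) + 1)) := by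
        field_simp
      rw [h8]
      have h9 : (N : ℝ) / ((N : ℝ) + 1) ≤ 1 := by
        rw [div_le_one (by positivity)]
        linarith
      nlinarith
    linarith

end Pool.Agent.H327R4.NU
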