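import Pool.Agent.H327R4.NU.Stubs

set_option autoImplicit false

namespace Pool.Agent.H327R4.NU

open Filter Topology Pool.Agent.H327R4.Pure

universe u

/-- cut-off function for `REFB` -/
noncomputable def refb_h (t : ℝ) : ℝ := max 0 (min 1 (7 - 10 * t))

theorem refb_h_cont : Continuous refb_h := by
  unfold refb_h
  fun_prop

theorem refb_h_nonneg (t : ℝ) : 0 ≤ refb_h t := le_max_left _ _

theorem refb_h_le (t : ℝ) : refb_h t ≤ 1 := max_le zero_le_one (min_le_left _ _)

theorem refb_h_zero (t : ℝ) (ht : 7 / 10 ≤ t) : refb_h t = 0 := by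
  unfold refb_h
  rw [max_eq_left]
  exact (min_le_right _ _).trans (by linarith)

theorem refb_h_one (t : ℝ) (ht : t ≤ 6 / 10) : refb_h t = 1 := by
  unfold refb_h
  rw [min_eq_left (by linarith), max_eq_right zero_le_one]

theorem refb_h_lip (s t : ℝ) : |refb_h s - refb_h t| ≤ 10 * |s - t| := by
  unfold refb_h
  have h1 : |max 0 (min 1 (7 - 10 * s)) - max 0 (min 1 (7 - 10 * t))| ≤
      |min 1 (7 - 10 * s) - min 1 (7 - 10 * t)| := by
    have := abs_max_sub_max_le_abs (min 1 (7 - 10 * s)) (min 1 (7 - 10 * t)) 0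
    rwa [max_comm (min 1 (7 - 10 * s)) 0, max_comm (min 1 (7 - 10 * t)) 0] at this
  have h2 : |min 1 (7 - 10 * s) - min 1 (7 - 10 * t)| ≤ |(7 - 10 * s) - (7 - 10 * t)| := by
    have := abs_min_sub_min_le_max 1 (7 - 10 * s) 1 (7 - 10 * t)
    rw [sub_self, abs_zero, max_eq_right (abs_nonneg _)] at this
    exact this
  have h3 : (7 - 10 * s) - (7 - 10 * t) = 10 * (t - s) := by ring
  rw [h3, abs_mul, abs_of_pos (by norm_num : (0 : ℝ) < 10), abs_sub_comm t s] at h2
  exact h1.trans h2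

theorem refb_rp_cont : Continuous (rp (2/5) (1/2)) := by
  unfold rp
  fun_prop

theorem refb_rp_nonneg (t : ℝ) : 0 ≤ rp (2/5) (1/2) t := le_max_left _ _

theorem refb_rp_one (t : ℝ) (ht : 1 / 2 ≤ t) : rp (2/5) (1/2) t = 1 := by
  unfold rp
  have h : 1 ≤ (t - 2 / 5) / (1 / 2 - 2 / 5) := by
    rw [le_div_iff₀ (by norm_num)]
    linarith
  rw [min_eq_left h, max_eq_right zero_le_one]

theorem refb_cmp (t : ℝ) : 0 ≤ refb_h t * refb_h t - (1 - rp (2/5) (1/2) t) := by
  rcases le_total t (1/2) with h | h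
  · rw [refb_h_one t (by linarith)]
    have := refb_rp_nonneg t
    linarith
  · rw [refb_rp_one t h]
    have := mul_self_nonneg (refb_h t)
    linarith

theorem refb_cmp2 (t : ℝ) :
    0 ≤ 7 / 10 * (refb_h t * refb_h t) - refb_h t * t * refb_h t := by
  rcases le_total t (7/10) with h | h
  · have := mul_self_nonneg (refb_h t)
    nlinarith
  · rw [refb_h_zero t h]
    norm_num

theorem refb_arith (a η δ : ℝ) (ha : 0 ≤ a) (hη : 0 ≤ η) (hηδ : η ^ 2 ≤ δ)
    (h : ∀ b : ℝ, 0 ≤ b → a - 41 * η ≤ b → b ^ 2 ≤ 7 / 10 * a ^ 2 → a ≤ 252 * η) :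
    (∃ b : ℝ, 0 ≤ b ∧ a - 41 * η ≤ b ∧ b ^ 2 ≤ 7 / 10 * a ^ 2) → a ^ 2 ≤ 10 ^ 5 * δ := by
  rintro ⟨b, h0, h1, h2⟩
  have h3 := h b h0 h1 h2
  have h4 : a ^ 2 ≤ (252 * η) ^ 2 := pow_le_pow_left₀ ha h3 2
  nlinarith

theorem refb_arith2 (a η b : ℝ) (ha : 0 ≤ a) (hη : 0 ≤ η) (hb : 0 ≤ b)
    (h1 : a - 41 * η ≤ b) (h2 : b ^ 2 ≤ 7 / 10 * a ^ 2) : a ≤ 252 * η := by
  by_contra hcon
  rw [not_le] at hcon
  have h3 : 211 / 252 * a < a - 41 * η := by linarith
  have h4 : 211 / 252 * a < b := lt_of_lt_of_le h3 h1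
  have h5 : 0 < a := lt_of_le_of_lt (by positivity) hcon
  have h6 : (211 / 252 * a) ^ 2 < b ^ 2 := pow_lt_pow_left₀ h4 (by positivity) (by norm_num)
  nlinarith [sq_nonneg a, mul_pos h5 h5]

theorem t_REFB (hTB : StTB.{u}) (hLIP : StLIP.{u}) : StREFB.{u} := by
  intro A _ _ _ _ D y T hD0 hD1 hy0 hy1 hT
  obtain ⟨c1, c2, c3, c4, c5, c6, c7, c8, c9, c10, c11, c12, c13, c14, c15, c16⟩ := hTB A T hT
  have resub : ∀ a b : A, re T (a - b) = re T a - re T b := by
    intro a b
    simp [re, map_sub, Complex.sub_re]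
  have hDs : IsSelfAdjoint D := IsSelfAdjoint.of_nonneg hD0
  have hys : IsSelfAdjoint y := IsSelfAdjoint.of_nonneg hy0
  have h1y : (0 : A) ≤ 1 + y := add_nonneg zero_le_one hy0
  have h1ys : IsSelfAdjoint (1 + y) := IsSelfAdjoint.of_nonneg h1y
  have hnD : ‖D‖ ≤ 1 := (CStarAlgebra.norm_le_one_iff_of_nonneg D hD0).2 hD1
  have hny : ‖y‖ ≤ 1 := (CStarAlgebra.norm_le_one_iff_of_nonneg y hy0).2 hy1
  have hn1 : ‖(1 : A)‖ ≤ 1 := (CStarAlgebra.norm_le_one_iff_of_nonneg (1 : A) zero_le_one).2 le_rfl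
  have hn1y : ‖1 + y‖ ≤ 2 := (norm_add_le _ _).trans (by linarith)
  set x : A := D * (1 + y) * D with hx
  have hx0 : 0 ≤ x := hDs.conjugate_nonneg h1y
  have hxs : IsSelfAdjoint x := IsSelfAdjoint.of_nonneg hx0
  set h : A := cfc refb_h x with hh
  have hhs : IsSelfAdjoint h := cfc_predicate refb_h x
  have hhn : ‖h‖ ≤ 1 := by
    apply norm_cfc_le zero_le_one
    intro t _
    rw [Real.norm_eq_abs, abs_of_nonneg (refb_h_nonneg t)]
    exact refb_h_le t
  set F : A := cfc (rp (2/5) (1/2)) x with hF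
  have hF0 : 0 ≤ F := cfc_nonneg (fun t _ => refb_rp_nonneg t)
  have hhc : ContinuousOn refb_h (spectrum ℝ x) := refb_h_cont.continuousOn
  have hrc : ContinuousOn (rp (2/5) (1/2)) (spectrum ℝ x) := refb_rp_cont.continuousOn
  have hhh : h * h = cfc (fun t => refb_h t * refb_h t) x := by
    rw [hh, ← cfc_mul refb_h refb_h x hhc hhc]
  have hhxh : h * x * h = cfc (fun t => refb_h t * t * refb_h t) x := by
    have e1 : h * x = cfc (fun t => refb_h t * t) x := by
      conv_lhs => rw [hh]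
      nth_rewrite 2 [← cfc_id' ℝ x]
      rw [← cfc_mul refb_h (fun t => t) x hhc continuousOn_id]
    rw [e1, hh, ← cfc_mul (fun t => refb_h t * t) refb_h x (hhc.mul continuousOn_id) hhc]
  -- the two operator inequalities
  have op1 : 0 ≤ h * h - (1 - F) := by
    have e1 : h * h - (1 - F) =
        cfc (fun t => refb_h t * refb_h t - (1 - rp (2/5) (1/2) t)) x := by
      rw [cfc_sub (fun t => refb_h t * refb_h t) (fun t => 1 - rp (2/5) (1/2) t) x
        (hhc.mul hhc) (continuousOn_const.sub hrc), hhh]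
      rw [cfc_sub (fun _ => (1 : ℝ)) (rp (2/5) (1/2)) x continuousOn_const hrc, cfc_const_one ℝ x]
    rw [e1]
    exact cfc_nonneg (fun t _ => refb_cmp t)
  have op2 : 0 ≤ (7 / 10 : ℝ) • (h * h) - h * x * h := by
    have e1 : (7 / 10 : ℝ) • (h * h) - h * x * h =
        cfc (fun t => (7 / 10 : ℝ) * (refb_h t * refb_h t) - refb_h t * t * refb_h t) x := by
      rw [cfc_sub (fun t => (7 / 10 : ℝ) * (refb_h t * refb_h t)) (fun t => refb_h t * t * refb_h t) x
        (continuousOn_const.mul (hhc.mul hhc)) ((hhc.mul continuousOn_id).mul hhc), hhxh, hhh]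
      rw [cfc_const_mul (7 / 10 : ℝ) (fun t => refb_h t * refb_h t) x (hhc.mul hhc)]
    rw [e1]
    exact cfc_nonneg (fun t _ => refb_cmp2 t)
  -- positivity facts
  have hDD0 : 0 ≤ D * D := by
    have := star_mul_self_nonneg D
    rwa [hDs.star_eq] at this
  have hDcfc : D - D * D = cfc (fun t : ℝ => t - t * t) D := by
    rw [cfc_sub (fun t : ℝ => t) (fun t : ℝ => t * t) D continuousOn_id
      (continuousOn_id.mul continuousOn_id), cfc_mul (fun t : ℝ => t) (fun t : ℝ => t) D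
      continuousOn_id continuousOn_id, cfc_id' ℝ D]
  have hspec : ∀ t ∈ spectrum ℝ D, 0 ≤ t ∧ t ≤ 1 := by
    intro t ht
    exact ⟨spectrum_nonneg_of_nonneg hD0 ht, (CFC.le_one_iff D).1 hD1 t ht⟩
  have hQ0 : 0 ≤ D - D * D := by
    rw [hDcfc]
    exact cfc_nonneg (fun t ht => by
      have := hspec t ht
      nlinarith [this.1, this.2])
  have hQ1 : D - D * D ≤ 1 := by
    rw [hDcfc]
    apply cfc_le_one
    intro t ht
    have := hspec t ht
    nlinarith [this.1, this.2]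
  have hDD1 : D * D ≤ 1 := by
    have : D * D ≤ D := sub_nonneg.1 hQ0
    exact this.trans hD1
  set η : ℝ := n2 T (D - D * D) with hη
  have hη0 : 0 ≤ η := c1 _
  have hQs : IsSelfAdjoint (D - D * D) := IsSelfAdjoint.of_nonneg hQ0
  have hηδ : η ^ 2 ≤ re T (D - D * D) := by
    rw [hη, c2, hQs.star_eq]
    exact c16 _ _ hQ0 hQ1 hQ0
  -- the commutator of x and D
  have hcom : n2 T (x * D - D * x) ≤ 4 * η := by
    have e1 : x * D - D * x = (D - D * D) * ((1 + y) * D) - (D * (1 + y)) * (D - D * D) := by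
      rw [hx]
      noncomm_ring
    rw [e1]
    refine (c4 _ _).trans ?_
    have e2 : n2 T ((D - D * D) * ((1 + y) * D)) ≤ η * 2 := by
      refine (c8 _ _).trans ?_
      apply mul_le_mul_of_nonneg_left _ hη0
      refine (norm_mul_le _ _).trans ?_
      calc ‖1 + y‖ * ‖D‖ ≤ 2 * 1 := mul_le_mul hn1y hnD (norm_nonneg _) (by norm_num)
        _ = 2 := by norm_num
    have e3 : n2 T ((D * (1 + y)) * (D - D * D)) ≤ 2 * η := by
      refine (c7 _ _).trans ?_
      apply mul_le_mul_of_nonneg_right _ hη0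
      refine (norm_mul_le _ _).trans ?_
      calc ‖D‖ * ‖1 + y‖ ≤ 1 * 2 := mul_le_mul hnD hn1y (norm_nonneg _) (by norm_num)
        _ = 2 := by norm_num
    linarith
  have hcomh : n2 T (h * D - D * h) ≤ 40 * η := by
    have := hLIP A T hT refb_h 10 (by norm_num) refb_h_lip x x D hxs hxs
    rw [← hh] at this
    linarith
  -- a = n2 (h D), b = n2 (D h D)
  set a : ℝ := n2 T (h * D) with ha
  have ha0 : 0 ≤ a := c1 _
  set b : ℝ := n2 T (D * h * D) with hb
  have hb0 : 0 ≤ b := c1 _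
  have hab : a - 41 * η ≤ b := by
    have e1 : h * D = D * h * D + (h * D - D * h) * D + h * (D - D * D) := by
      noncomm_ring
    have e2 : n2 T (h * D) ≤ n2 T (D * h * D) + n2 T ((h * D - D * h) * D) +
        n2 T (h * (D - D * D)) := by
      conv_lhs => rw [e1]
      exact (c3 _ _).trans (add_le_add_left (c3 _ _) _)
    have e3 : n2 T ((h * D - D * h) * D) ≤ 40 * η := by
      refine (c8 _ _).trans ?_
      calc n2 T (h * D - D * h) * ‖D‖ ≤ (40 * η) * 1 :=
            mul_le_mul hcomh hnD (norm_nonneg _) (by positivity)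
        _ = 40 * η := by ring
    have e4 : n2 T (h * (D - D * D)) ≤ η := by
      refine (c7 _ _).trans ?_
      calc ‖h‖ * n2 T (D - D * D) ≤ 1 * η := mul_le_mul_of_nonneg_right hhn hη0
        _ = η := one_mul _
    linarith
  have tr1 : re T (D * D * (h * h)) = a ^ 2 := by
    rw [ha, c2, star_mul, hDs.star_eq, hhs.star_eq]
    unfold re
    have e1 : D * D * (h * h) = D * (D * (h * h)) := by rw [mul_assoc]
    have e2 : D * h * (h * D) = (D * (h * h)) * D := by simp only [mul_assoc]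
    rw [e1, e2, T.tr]
  have tr2 : re T (D * D * (h * (D * D) * h)) = b ^ 2 := by
    rw [hb, c2, star_mul, star_mul, hDs.star_eq, hhs.star_eq]
    unfold re
    have e1 : D * D * (h * (D * D) * h) = D * (D * (h * (D * D) * h)) := by rw [mul_assoc]
    have e2 : D * (h * D) * (D * h * D) = (D * (h * (D * D) * h)) * D := by simp only [mul_assoc]
    rw [e1, e2, T.tr]
  have ineq1 : re T (D * D * (h * x * h)) ≤ 7 / 10 * a ^ 2 := by
    have e1 := c14 _ _ hDD0 op2
    rw [mul_sub, resub] at e1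
    have e2 : re T (D * D * ((7 / 10 : ℝ) • (h * h))) = 7 / 10 * re T (D * D * (h * h)) := by
      unfold re
      rw [mul_smul_comm]
      have e3 : ((7 / 10 : ℝ) • (D * D * (h * h)) : A) =
          (((7 / 10 : ℝ) : ℂ)) • (D * D * (h * h)) := by
        rw [Complex.coe_smul]
      rw [e3, map_smul, smul_eq_mul, Complex.re_ofReal_mul]
    rw [e2, tr1] at e1
    linarith
  have ineq2 : b ^ 2 ≤ re T (D * D * (h * x * h)) := by
    have e0 : 0 ≤ h * x * h - h * (D * D) * h := by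
      have e1 : h * x * h - h * (D * D) * h = h * (D * y * D) * h := by
        rw [hx]
        noncomm_ring
      rw [e1]
      exact hhs.conjugate_nonneg (hDs.conjugate_nonneg hy0)
    have e1 := c14 _ _ hDD0 e0
    rw [mul_sub, resub, tr2] at e1
    linarith
  have hb2 : b ^ 2 ≤ 7 / 10 * a ^ 2 := ineq2.trans ineq1
  have ha2 : a ^ 2 ≤ 10 ^ 5 * re T (D - D * D) := by
    have e1 := refb_arith2 a η b ha0 hη0 hb0 hab hb2
    have e2 : a ^ 2 ≤ (252 * η) ^ 2 := pow_le_pow_left₀ ha0 e1 2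
    nlinarith [sq_nonneg η]
  -- conclusion
  have f1 : re T (D * D * F) ≤ re T F := c16 _ _ hDD0 hDD1 hF0
  have f2 := c14 _ _ hDD0 op1
  rw [mul_sub, resub, mul_sub, resub, mul_one, tr1] at f2
  linarith

end Pool.Agent.H327R4.NU
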