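import Pool.Agent.H327R4.NU.Stubs

/-!
# Task REFC (helper840): from the cells of `RefA` to the refinement `Ref`
-/

set_option autoImplicit false

namespace Pool.Agent.H327R4.NU

open Filter Topology Pool.Agent.H327R4.Pure

universe u

namespace REFC

/-- `r(s)/s` -/
noncomputable def q (s : ℝ) : ℝ := rp (1/8) (1/4) s / max s (1/16)

theorem rp_cont (a b : ℝ) : Continuous (rp a b) := by
  unfold rp
  fun_prop

theorem q_cont : Continuous q := by
  unfold q
  refine (rp_cont _ _).div (by fun_prop) ?_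
  intro s
  have : (0:ℝ) < max s (1/16) := lt_max_of_lt_right (by norm_num)
  exact this.ne'

theorem rp_zero {s : ℝ} (h : s ≤ 1/8) : rp (1/8) (1/4) s = 0 := by
  unfold rp
  have : (s - 1/8) / (1/4 - 1/8) ≤ 0 := by
    apply div_nonpos_of_nonpos_of_nonneg <;> linarith
  rw [max_eq_left]
  exact (min_le_right _ _).trans this

theorem rp_nonneg (a b s : ℝ) : 0 ≤ rp a b s := le_max_left _ _

theorem rp_le_one (a b s : ℝ) : rp a b s ≤ 1 := max_le zero_le_one (min_le_left _ _)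

theorem s_mul_q (s : ℝ) : s * q s = rp (1/8) (1/4) s := by
  unfold q
  rcases le_or_gt s (1/8) with h | h
  · rw [rp_zero h]; simp
  · rw [max_eq_left (by linarith)]
    field_simp

theorem q_nonneg (s : ℝ) : 0 ≤ q s :=
  div_nonneg (rp_nonneg _ _ _) ((by norm_num : (0:ℝ) ≤ 1/16).trans (le_max_right _ _))

theorem q_le (s : ℝ) : q s ≤ 8 := by
  unfold q
  rcases le_or_gt s (1/8) with h | h
  · rw [rp_zero h]; simp
  · rw [max_eq_left (by linarith), div_le_iff₀ (by linarith)]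
    have := rp_le_one (1/8) (1/4) s
    linarith

section alg

variable {A : Type u} [CStarAlgebra A] [PartialOrder A] [StarOrderedRing A] [TrSet A]

theorem nrm {a : A} (h0 : 0 ≤ a) (h1 : a ≤ 1) : ‖a‖ ≤ 1 :=
  (CStarAlgebra.norm_le_one_iff_of_nonneg a h0).mpr h1

theorem nrm_one_add {y : A} (h0 : 0 ≤ y) (h1 : y ≤ 1) : ‖1 + y‖ ≤ 2 := by
  have e1 : ‖(1:A)‖ ≤ 1 := nrm zero_le_one le_rfl
  have e2 := nrm h0 h1
  calc ‖1 + y‖ ≤ ‖(1:A)‖ + ‖y‖ := norm_add_le _ _
    _ ≤ 2 := by linarith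

/-- orthogonal positive contractions -/
theorem sum_sq_le {N : ℕ} (D' : Fin N → A) (h0 : ∀ l, 0 ≤ D' l) (h1 : ∀ l, D' l ≤ 1)
    (ho : ∀ l m, l ≠ m → D' l * D' m = 0) :
    0 ≤ ∑ l, D' l * D' l ∧ ∑ l, D' l * D' l ≤ 1 := by
  have hsa : ∀ l, star (D' l) = D' l := fun l => (IsSelfAdjoint.of_nonneg (h0 l)).star_eq
  have hsq : ∀ l, 0 ≤ D' l * D' l := fun l => by
    have := star_mul_self_nonneg (D' l)
    rwa [hsa l] at this
  have hQ0 : 0 ≤ ∑ l, D' l * D' l := Finset.sum_nonneg fun l _ => hsq l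
  refine ⟨hQ0, ?_⟩
  set Q := ∑ l, D' l * D' l with hQ
  have hsq1 : ∀ l, D' l * D' l ≤ 1 := fun l => by
    have h : D' l * D' l ≤ D' l := by
      have e := star_left_conjugate_nonneg (c := CFC.sqrt (D' l)) (sub_nonneg.mpr (h1 l))
      have hs0 : 0 ≤ CFC.sqrt (D' l) := CFC.sqrt_nonneg _
      have hss : star (CFC.sqrt (D' l)) = CFC.sqrt (D' l) :=
        (IsSelfAdjoint.of_nonneg hs0).star_eq
      have hmul : CFC.sqrt (D' l) * CFC.sqrt (D' l) = D' l := CFC.sqrt_mul_sqrt_self _ (h0 l)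
      rw [hss] at e
      have e2 : CFC.sqrt (D' l) * (1 - D' l) * CFC.sqrt (D' l) = D' l - D' l * D' l := by
        have hc : CFC.sqrt (D' l) * D' l = D' l * CFC.sqrt (D' l) := by
          generalize CFC.sqrt (D' l) = S at hmul
          calc S * D' l = S * (S * S) := by rw [hmul]
            _ = (S * S) * S := by rw [mul_assoc]
            _ = D' l * S := by rw [hmul]
        calc CFC.sqrt (D' l) * (1 - D' l) * CFC.sqrt (D' l)
            = CFC.sqrt (D' l) * CFC.sqrt (D' l) - (CFC.sqrt (D' l) * D' l) * CFC.sqrt (D' l) := by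
              noncomm_ring
          _ = D' l - D' l * (CFC.sqrt (D' l) * CFC.sqrt (D' l)) := by rw [hc, hmul, mul_assoc]
                                                                      rw [hmul]
          _ = D' l - D' l * D' l := by rw [hmul]
      rw [e2] at e
      exact sub_nonneg.mp e
    exact h.trans (h1 l)
  have hQQ : Q * Q ≤ Q := by
    have e : Q * Q = ∑ l, D' l * (D' l * D' l) * D' l := by
      rw [hQ, Finset.sum_mul]
      refine Finset.sum_congr rfl fun l _ => ?_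
      rw [Finset.mul_sum, Finset.sum_eq_single l]
      · noncomm_ring
      · intro m _ hm
        calc D' l * D' l * (D' m * D' m) = D' l * (D' l * D' m) * D' m := by noncomm_ring
          _ = 0 := by rw [ho l m (Ne.symm hm)]; simp
      · simp
    rw [e, hQ]
    refine Finset.sum_le_sum fun l _ => ?_
    have h := star_left_conjugate_nonneg (c := D' l) (sub_nonneg.mpr (hsq1 l))
    rw [hsa l] at h
    have e3 : D' l * (1 - D' l * D' l) * D' l = D' l * D' l - D' l * (D' l * D' l) * D' l := by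
      noncomm_ring
    rw [e3] at h
    exact sub_nonneg.mp h
  have hQs : IsSelfAdjoint Q := IsSelfAdjoint.of_nonneg hQ0
  have hQQ0 : 0 ≤ Q * Q := by
    have := star_mul_self_nonneg Q
    rwa [hQs.star_eq] at this
  have hn : ‖Q * Q‖ ≤ ‖Q‖ := CStarAlgebra.norm_le_norm_of_nonneg_of_le hQQ0 hQQ
  have hn2 : ‖Q * Q‖ = ‖Q‖ * ‖Q‖ := by
    have := CStarRing.norm_star_mul_self (x := Q)
    rwa [hQs.star_eq] at this
  rw [← CStarAlgebra.norm_le_one_iff_of_nonneg Q hQ0]
  by_contra hcon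
  push Not at hcon
  have hp : 0 < ‖Q‖ := by linarith
  rw [hn2] at hn
  nlinarith

theorem sq_nonneg' {a : A} (h : IsSelfAdjoint a) : 0 ≤ a * a := by
  have := star_mul_self_nonneg a
  rwa [h.star_eq] at this

theorem sub_sq_nonneg {a : A} (h0 : 0 ≤ a) (h1 : a ≤ 1) : 0 ≤ a - a * a := by
  have e := star_left_conjugate_nonneg (c := CFC.sqrt a) (sub_nonneg.mpr h1)
  have hs0 : 0 ≤ CFC.sqrt a := CFC.sqrt_nonneg _
  have hss : star (CFC.sqrt a) = CFC.sqrt a := (IsSelfAdjoint.of_nonneg hs0).star_eq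
  have hmul : CFC.sqrt a * CFC.sqrt a = a := CFC.sqrt_mul_sqrt_self _ h0
  rw [hss] at e
  have e2 : CFC.sqrt a * (1 - a) * CFC.sqrt a = a - a * a := by
    generalize CFC.sqrt a = S at hmul
    calc S * (1 - a) * S = S * S - S * a * S := by noncomm_ring
      _ = S * S - S * (S * S) * S := by rw [hmul]
      _ = S * S - (S * S) * (S * S) := by noncomm_ring
      _ = a - a * a := by rw [hmul]
  rwa [e2] at e

theorem QR (x : A) (hx : IsSelfAdjoint x) :
    cfc (rp (1/8) (1/4)) x = x * cfc q x ∧ ‖cfc q x‖ ≤ 8 ∧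
      star (cfc (rp (1/8) (1/4)) x) = cfc (rp (1/8) (1/4)) x := by
  refine ⟨?_, ?_, ?_⟩
  · have h1 : cfc (fun s : ℝ => s * q s) x = cfc (fun s : ℝ => s) x * cfc q x :=
      cfc_mul (fun s : ℝ => s) q x (by fun_prop) q_cont.continuousOn
    rw [cfc_id' ℝ x hx] at h1
    rw [← h1]
    congr 1
    funext s
    exact (s_mul_q s).symm
  · refine norm_cfc_le (by norm_num) fun s _ => ?_
    rw [Real.norm_eq_abs, abs_of_nonneg (q_nonneg s)]
    exact q_le s
  · exact (cfc_predicate (p := IsSelfAdjoint) (rp (1/8) (1/4)) x).star_eq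

theorem main (hTB : StTB.{u}) (hREFB : StREFB.{u}) (hA : RefA A) : Ref A := by
  intro D y δ ε hD0 hD1 hy0 hy1 hδ hε
  obtain ⟨N, D', t, h1, h2, h3⟩ :=
    hA D y (min δ (1/2)) ε hD0 hD1 hy0 hy1 (lt_min hδ (by norm_num)) hε
  have hDs : star D = D := (IsSelfAdjoint.of_nonneg hD0).star_eq
  have hys : star y = y := (IsSelfAdjoint.of_nonneg hy0).star_eq
  have hD's : ∀ l, star (D' l) = D' l := fun l => (IsSelfAdjoint.of_nonneg (h1 l).1).star_eq
  have hxs : IsSelfAdjoint (D * (1 + y) * D) := by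
    rw [IsSelfAdjoint, star_mul, star_mul, star_add, hDs, hys, star_one, mul_assoc]
  have hxdef : ∃ x : A, x = D * (1 + y) * D := ⟨_, rfl⟩
  obtain ⟨x, hx⟩ := hxdef
  rw [← hx] at hxs
  rw [← hx] at h1 h3
  obtain ⟨hR, hQn, hRs⟩ := QR x hxs
  have hDn : ‖D‖ ≤ 1 := nrm hD0 hD1
  have hyn : ‖1 + y‖ ≤ 2 := nrm_one_add hy0 hy1
  have hD'n : ∀ l, ‖D' l‖ ≤ 1 := fun l => nrm (h1 l).1 (h1 l).2.1
  obtain ⟨hS0, hS1⟩ := sum_sq_le D' (fun l => (h1 l).1) (fun l => (h1 l).2.1) h2
  have hRD : ∀ l, cfc (rp (1/8) (1/4)) x * D' l = D' l := fun l => (h1 l).2.2.1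
  have hDR : ∀ l, D' l * cfc (rp (1/8) (1/4)) x = D' l := fun l => by
    have := congrArg star (hRD l)
    rwa [star_mul, hRs, hD's l] at this
  have hyD : ∀ l, ‖(1 + y) * D' l‖ ≤ 2 := fun l =>
    calc ‖(1 + y) * D' l‖ ≤ ‖1 + y‖ * ‖D' l‖ := norm_mul_le _ _
      _ ≤ 2 * 1 := mul_le_mul hyn (hD'n l) (norm_nonneg _) (by norm_num)
      _ = 2 := by norm_num
  have hDDy : ∀ l, ‖D' l * D * (1 + y)‖ ≤ 2 := fun l =>
    calc ‖D' l * D * (1 + y)‖ ≤ ‖D' l * D‖ * ‖1 + y‖ := norm_mul_le _ _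
      _ ≤ (‖D' l‖ * ‖D‖) * ‖1 + y‖ := mul_le_mul_of_nonneg_right (norm_mul_le _ _) (norm_nonneg _)
      _ ≤ (1 * 1) * 2 := mul_le_mul (mul_le_mul (hD'n l) hDn (norm_nonneg _) zero_le_one) hyn
          (norm_nonneg _) (by norm_num)
      _ = 2 := by norm_num
  have hyD1 : ‖(1 + y) * D‖ ≤ 2 :=
    calc ‖(1 + y) * D‖ ≤ ‖1 + y‖ * ‖D‖ := norm_mul_le _ _
      _ ≤ 2 * 1 := mul_le_mul hyn hDn (norm_nonneg _) (by norm_num)
      _ = 2 := by norm_num
  have hP0 : 0 ≤ D - D * D := sub_sq_nonneg hD0 hD1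
  have hP1 : D - D * D ≤ 1 :=
    (sub_le_self _ (sq_nonneg' (IsSelfAdjoint.of_nonneg hD0))).trans hD1
  refine ⟨N, D', fun l => (1 + y) * D * cfc q x * D' l, t, ?_, h2, ?_⟩
  · intro l
    refine ⟨(h1 l).1, (h1 l).2.1, ?_, ?_, ?_, (h1 l).2.2.2.2⟩
    · calc D' l = cfc (rp (1/8) (1/4)) x * D' l := (hRD l).symm
        _ = x * cfc q x * D' l := by rw [hR]
        _ = D * ((1 + y) * D * cfc q x * D' l) := by
            rw [hx]
            simp only [mul_assoc]
    · calc ‖(1 + y) * D * cfc q x * D' l‖ ≤ ‖(1 + y) * D * cfc q x‖ * ‖D' l‖ := norm_mul_le _ _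
        _ ≤ (‖(1 + y) * D‖ * ‖cfc q x‖) * ‖D' l‖ :=
            mul_le_mul_of_nonneg_right (norm_mul_le _ _) (norm_nonneg _)
        _ ≤ (2 * 8) * 1 := mul_le_mul (mul_le_mul hyD1 hQn (norm_nonneg _) (by norm_num)) (hD'n l)
            (norm_nonneg _) (by norm_num)
        _ = 16 := by norm_num
    · rw [← hx]
      exact (h1 l).2.2.2.1.trans (min_le_left _ _)
  · intro T hT
    obtain ⟨tb1, tb2, tb3, tb4, tb5, tb6, tb7, tb8, tb9, tb10, tb11, tb12, tb13, tb14, tb15,
      tb16⟩ := hTB A T hT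
    have hreadd : ∀ a b : A, re T (a + b) = re T a + re T b := fun a b => by
      simp [re]
    have hresum : ∀ f : Fin N → A, re T (∑ l, f l) = ∑ l, re T (f l) := fun f => by
      simp [re]
    have hP : 0 ≤ re T (D - D * D) := (tb13 _ hP0).1
    -- the second estimate
    have hED : n2 T ((1 - D) * D) ^ 2 ≤ re T (D - D * D) := by
      have e : (1 - D) * D = D - D * D := by noncomm_ring
      rw [e, tb2, (IsSelfAdjoint.of_nonneg hP0).star_eq]
      exact tb16 _ _ hP0 hP1 hP0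
    have hER : n2 T ((1 - D) * cfc (rp (1/8) (1/4)) x) ^ 2 ≤ 256 * re T (D - D * D) := by
      have e : (1 - D) * cfc (rp (1/8) (1/4)) x = ((1 - D) * D) * ((1 + y) * D) * cfc q x := by
        rw [hR, hx]
        simp only [mul_assoc]
      have e1 : n2 T ((1 - D) * cfc (rp (1/8) (1/4)) x) ≤ 16 * n2 T ((1 - D) * D) := by
        rw [e]
        calc n2 T (((1 - D) * D) * ((1 + y) * D) * cfc q x)
            ≤ n2 T (((1 - D) * D) * ((1 + y) * D)) * ‖cfc q x‖ := tb8 _ _
          _ ≤ (n2 T ((1 - D) * D) * ‖(1 + y) * D‖) * ‖cfc q x‖ :=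
              mul_le_mul_of_nonneg_right (tb8 _ _) (norm_nonneg _)
          _ ≤ (n2 T ((1 - D) * D) * 2) * 8 :=
              mul_le_mul (mul_le_mul_of_nonneg_left hyD1 (tb1 _)) hQn (norm_nonneg _)
                (mul_nonneg (tb1 _) (by norm_num))
          _ = 16 * n2 T ((1 - D) * D) := by ring
      have e2 := tb1 ((1 - D) * cfc (rp (1/8) (1/4)) x)
      have e3 := tb1 ((1 - D) * D)
      nlinarith
    have hEs : star (1 - D) = 1 - D := by rw [star_sub, star_one, hDs]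
    have hterm : ∀ l, re T (D' l * (1 - D) * (1 - D) * D' l) =
        re T ((D' l * D' l) * (star ((1 - D) * cfc (rp (1/8) (1/4)) x) *
          ((1 - D) * cfc (rp (1/8) (1/4)) x))) := fun l => by
      have e : D' l * (1 - D) * (1 - D) * D' l =
          (D' l * (star ((1 - D) * cfc (rp (1/8) (1/4)) x) *
          ((1 - D) * cfc (rp (1/8) (1/4)) x))) * D' l := by
        rw [star_mul, hRs, hEs]
        calc D' l * (1 - D) * (1 - D) * D' l
            = (D' l * cfc (rp (1/8) (1/4)) x) * (1 - D) * (1 - D) *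
              (cfc (rp (1/8) (1/4)) x * D' l) := by rw [hRD, hDR]
          _ = _ := by simp only [mul_assoc]
      rw [e]
      unfold re
      rw [T.tr, ← mul_assoc]
    have h22 : ∑ l, re T (D' l * (1 - D) * (1 - D) * D' l) ≤ 256 * re T (D - D * D) := by
      calc ∑ l, re T (D' l * (1 - D) * (1 - D) * D' l)
          = re T ((∑ l, D' l * D' l) * (star ((1 - D) * cfc (rp (1/8) (1/4)) x) *
          ((1 - D) * cfc (rp (1/8) (1/4)) x))) := by
            rw [Finset.sum_mul, hresum]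
            exact Finset.sum_congr rfl fun l _ => hterm l
        _ ≤ re T (star ((1 - D) * cfc (rp (1/8) (1/4)) x) *
          ((1 - D) * cfc (rp (1/8) (1/4)) x)) := tb16 _ _ hS0 hS1 (star_mul_self_nonneg _)
        _ = n2 T ((1 - D) * cfc (rp (1/8) (1/4)) x) ^ 2 := (tb2 _).symm
        _ ≤ _ := hER
    refine ⟨?_, ?_, ?_⟩
    · have e1 := hREFB A D y T hD0 hD1 hy0 hy1 hT
      have e2 := h3 T hT
      rw [← hx] at e1
      have e3 : (10:ℝ) ^ 5 * re T (D - D * D) ≤ 10 ^ 6 * re T (D - D * D) :=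
        mul_le_mul_of_nonneg_right (by norm_num) hP
      linarith
    · refine h22.trans (mul_le_mul_of_nonneg_right (by norm_num) hP)
    · have hu : ∑ l, n2 T (D' l) ^ 2 ≤ 1 := by
        calc ∑ l, n2 T (D' l) ^ 2 = re T (∑ l, D' l * D' l) := by
              rw [hresum]
              refine Finset.sum_congr rfl fun l _ => ?_
              rw [tb2, hD's l]
          _ ≤ re T 1 := tb12 _ _ hS1
          _ = 1 := by
              unfold re
              rw [hT.1]
              simp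
      have hv : ∑ l, n2 T ((1 - D) * D' l) ^ 2 ≤ 256 * re T (D - D * D) := by
        refine le_trans (le_of_eq ?_) h22
        refine Finset.sum_congr rfl fun l _ => ?_
        rw [tb2, star_mul, hEs, hD's l]
        simp only [mul_assoc]
      have hw : ∀ l, n2 T (D' l * (y - ((t l : ℝ) : ℂ) • 1) * D' l) ^ 2 ≤
          2 * (min δ (1/2)) ^ 2 * n2 T (D' l) ^ 2 + 32 * n2 T ((1 - D) * D' l) ^ 2 := fun l => by
        have hδ1 : 0 ≤ min δ (1/2) := (lt_min hδ (by norm_num)).le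
        have e : D' l * (y - ((t l : ℝ) : ℂ) • 1) * D' l =
            D' l * ((x - ((1 + t l : ℝ) : ℂ) • 1) * D' l) +
              (D' l * (1 - D)) * ((1 + y) * D' l) +
              (D' l * D * (1 + y)) * ((1 - D) * D' l) := by
          rw [hx]
          push_cast
          rw [add_smul, one_smul]
          generalize ((t l : ℝ) : ℂ) • (1 : A) = c
          noncomm_ring
        have a1 : n2 T (D' l * ((x - ((1 + t l : ℝ) : ℂ) • 1) * D' l)) ≤
            min δ (1/2) * n2 T (D' l) :=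
          calc n2 T (D' l * ((x - ((1 + t l : ℝ) : ℂ) • 1) * D' l))
              ≤ n2 T (D' l) * ‖(x - ((1 + t l : ℝ) : ℂ) • 1) * D' l‖ := tb8 _ _
            _ ≤ n2 T (D' l) * min δ (1/2) :=
                mul_le_mul_of_nonneg_left (h1 l).2.2.2.1 (tb1 _)
            _ = _ := mul_comm _ _
        have a2 : n2 T ((D' l * (1 - D)) * ((1 + y) * D' l)) ≤ 2 * n2 T ((1 - D) * D' l) :=
          calc n2 T ((D' l * (1 - D)) * ((1 + y) * D' l))
              ≤ n2 T (D' l * (1 - D)) * ‖(1 + y) * D' l‖ := tb8 _ _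
            _ ≤ n2 T (D' l * (1 - D)) * 2 := mul_le_mul_of_nonneg_left (hyD l) (tb1 _)
            _ = 2 * n2 T ((1 - D) * D' l) := by
                rw [← tb6 (D' l * (1 - D)), star_mul, hEs, hD's l, mul_comm]
        have a3 : n2 T ((D' l * D * (1 + y)) * ((1 - D) * D' l)) ≤ 2 * n2 T ((1 - D) * D' l) :=
          calc n2 T ((D' l * D * (1 + y)) * ((1 - D) * D' l))
              ≤ ‖D' l * D * (1 + y)‖ * n2 T ((1 - D) * D' l) := tb7 _ _
            _ ≤ 2 * n2 T ((1 - D) * D' l) := mul_le_mul_of_nonneg_right (hDDy l) (tb1 _)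
        have a4 : n2 T (D' l * (y - ((t l : ℝ) : ℂ) • 1) * D' l) ≤
            min δ (1/2) * n2 T (D' l) + 4 * n2 T ((1 - D) * D' l) := by
          rw [e]
          refine (tb3 _ _).trans ?_
          have := tb3 (D' l * ((x - ((1 + t l : ℝ) : ℂ) • 1) * D' l))
            ((D' l * (1 - D)) * ((1 + y) * D' l))
          linarith
        have b0 := tb1 (D' l * (y - ((t l : ℝ) : ℂ) • 1) * D' l)
        have b1 : 0 ≤ min δ (1/2) * n2 T (D' l) := mul_nonneg hδ1 (tb1 _)
        have b2 := tb1 ((1 - D) * D' l)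
        generalize n2 T (D' l * (y - ((t l : ℝ) : ℂ) • 1) * D' l) = W at *
        have b3 : W ^ 2 ≤ (min δ (1/2) * n2 T (D' l) + 4 * n2 T ((1 - D) * D' l)) ^ 2 :=
          pow_le_pow_left₀ b0 a4 2
        have b4 := sq_nonneg (min δ (1/2) * n2 T (D' l) - 4 * n2 T ((1 - D) * D' l))
        nlinarith
      have hδ1 : 0 ≤ min δ (1/2) := (lt_min hδ (by norm_num)).le
      have hδ2 : min δ (1/2) ≤ 1/2 := min_le_right _ _
      have hδ3 : min δ (1/2) ≤ δ := min_le_left _ _
      have hδ4 : 2 * (min δ (1/2)) ^ 2 ≤ δ := by nlinarith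
      calc ∑ l, n2 T (D' l * (y - ((t l : ℝ) : ℂ) • 1) * D' l) ^ 2
          ≤ ∑ l, (2 * (min δ (1/2)) ^ 2 * n2 T (D' l) ^ 2 + 32 * n2 T ((1 - D) * D' l) ^ 2) :=
            Finset.sum_le_sum fun l _ => hw l
        _ = 2 * (min δ (1/2)) ^ 2 * ∑ l, n2 T (D' l) ^ 2 +
            32 * ∑ l, n2 T ((1 - D) * D' l) ^ 2 := by
            rw [Finset.sum_add_distrib, Finset.mul_sum, Finset.mul_sum]
        _ ≤ 2 * (min δ (1/2)) ^ 2 * 1 + 32 * (256 * re T (D - D * D)) := by
            refine add_le_add (mul_le_mul_of_nonneg_left hu (by positivity))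
              (mul_le_mul_of_nonneg_left hv (by norm_num))
        _ ≤ δ + 10 ^ 6 * re T (D - D * D) := by nlinarith

end alg

end REFC

/-- Task REFC. -/
theorem t_REFC (hTB : StTB.{u}) (hREFB : StREFB.{u}) : StREFC.{u} := by
  intro A _ _ _ _ hA
  exact REFC.main hTB hREFB hA

end Pool.Agent.H327R4.NU
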