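import Pool.Agent.H327R4.NU.Stubs

/-!
Sequential choice of the summands.
-/

set_option autoImplicit false

namespace Pool.Agent.H327R4.NU

open Filter Topology Pool.Agent.H327R4.Pure

universe u

namespace SEQ

variable {A : Type u} [CStarAlgebra A] [PartialOrder A] [StarOrderedRing A] [TrSet A]

omit [StarOrderedRing A] in
/-- the oracle for families indexed by finite types -/
theorem oracle (Q : A → Prop)
    (h : ∀ (M : ℕ) (Y : Fin M → A) (ε : ℝ), 0 < ε → ∃ V : A, IsSelfAdjoint V ∧ -1 ≤ V ∧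
      V ≤ 1 ∧ Q V ∧ ∀ T : Tr A, St T → ∀ j, ‖T.f (V * Y j)‖ ≤ ε)
    {ι : Type} [Fintype ι] (Y : ι → A) (ε : ℝ) (hε : 0 < ε) :
    ∃ V : A, IsSelfAdjoint V ∧ -1 ≤ V ∧ V ≤ 1 ∧ Q V ∧
      ∀ T : Tr A, St T → ∀ j, ‖T.f (V * Y j)‖ ≤ ε := by
  obtain ⟨V, h1, h2, h3, h4, h5⟩ :=
    h (Fintype.card ι) (fun i => Y ((Fintype.equivFin ι).symm i)) ε hε
  refine ⟨V, h1, h2, h3, h4, fun T hT j => ?_⟩
  have h6 := h5 T hT (Fintype.equivFin ι j)
  rwa [Equiv.symm_apply_apply] at h6

omit [PartialOrder A] [StarOrderedRing A] in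
theorem re_one (T : Tr A) (hT : St T) : re T 1 = 1 := by
  unfold re
  rw [hT.1]
  rfl

theorem re_sq_le (hTB : StTB.{u}) (T : Tr A) (hT : St T) (V : A) (h1 : -1 ≤ V) (h2 : V ≤ 1) :
    re T (V * V) ≤ 1 := by
  obtain ⟨-, -, -, -, -, -, -, -, -, -, -, -, -, h, -⟩ := hTB A T hT
  have h3 := h (1 - V) (1 + V) (sub_nonneg.2 h2) (by
    have := add_le_add_left h1 1
    rw [add_comm] at this
    simpa [add_comm] using this)
  have h4 : (1 - V) * (1 + V) = 1 - V * V := by noncomm_ring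
  rw [h4] at h3
  have h5 : re T (1 - V * V) = re T 1 - re T (V * V) := by
    unfold re
    rw [map_sub, Complex.sub_re]
  rw [h5, re_one T hT] at h3
  linarith

/-- the family of test elements -/
def tests {m : ℕ} (a : Fin m → A) (X : A) : Fin m ⊕ (Fin m ⊕ (Fin m ⊕ Bool)) → A
  | Sum.inl j => (X * a j - a j * X) * a j - a j * (X * a j - a j * X)
  | Sum.inr (Sum.inl j) => X * a j + a j * X
  | Sum.inr (Sum.inr (Sum.inl j)) => a j
  | Sum.inr (Sum.inr (Sum.inr true)) => X * X * X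
  | Sum.inr (Sum.inr (Sum.inr false)) => X * 1 + 1 * X

theorem main (hTB : StTB.{u}) (hONE : StONE.{u}) (K : ℕ) (l : Fin K → ℝ) (hl : ∀ k, 0 ≤ l k)
    (hs : ∑ k, l k = 1) (m : ℕ) (a : Fin m → A) (ha : ∀ j, IsSelfAdjoint (a j))
    (P : Fin K → A → Prop) (δ : ℝ) (hδ : 0 < δ) (hKδ : (K : ℝ) * δ ≤ 1 / 100)
    (h : ∀ (k : Fin K) (M : ℕ) (Y : Fin M → A) (ε : ℝ), 0 < ε → ∃ V : A, IsSelfAdjoint V ∧
      -1 ≤ V ∧ V ≤ 1 ∧ P k V ∧ ∀ T : Tr A, St T → ∀ j, ‖T.f (V * Y j)‖ ≤ ε)
    (s : Finset (Fin K)) :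
    ∃ (V : Fin K → A) (X : A), (∀ k ∈ s, IsSelfAdjoint (V k) ∧ -1 ≤ V k ∧ V k ≤ 1 ∧ P k (V k)) ∧
      IsSelfAdjoint X ∧ ∀ T : Tr A, St T →
        re T (X * X) ≤ ∑ k ∈ s, l k + s.card * δ ∧
        re T (X * X * (X * X)) ≤ 11.2 * ∑ k ∈ s, l k + s.card * δ ∧
        ∀ j, n2 T (X * a j - a j * X) ^ 2 ≤
            ∑ k ∈ s, l k * n2 T (V k * a j - a j * V k) ^ 2 + s.card * δ ∧
          ‖T.f (X * a j)‖ ≤ s.card * δ ∧
          |re T (X * X * a j) - ∑ k ∈ s, l k * re T (V k * V k * a j)| ≤ s.card * δ := by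
  classical
  induction s using Finset.induction_on with
  | empty =>
    refine ⟨fun _ => 0, 0, fun k hk => absurd hk (Finset.notMem_empty k), IsSelfAdjoint.zero A,
      fun T hT => ?_⟩
    have h0 : re T 0 = 0 := by unfold re; simp
    have h1 : n2 T 0 = 0 := by unfold n2; simp
    simp [h0, h1]
  | insert k₀ s hk ih =>
    obtain ⟨V, X, hV, hX, hT⟩ := ih
    obtain ⟨V0, v1, v2, v3, v4, v5⟩ := oracle (P k₀) (h k₀) (tests a X) (δ / 4) (by positivity)
    set μ : ℝ := Real.sqrt (l k₀) with hμ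
    have hμ0 : 0 ≤ μ := Real.sqrt_nonneg _
    have hμ2 : μ ^ 2 = l k₀ := Real.sq_sqrt (hl k₀)
    have hcard : (s.card : ℝ) ≤ K := by
      have := Finset.card_le_univ s
      rw [Fintype.card_fin] at this
      exact_mod_cast this
    have hsum : ∑ k ∈ s, l k ≤ 1 := by
      rw [← hs]
      exact Finset.sum_le_sum_of_subset_of_nonneg (Finset.subset_univ s) fun k _ _ => hl k
    have hl1 : l k₀ ≤ 1 := by
      rw [← hs]
      exact Finset.single_le_sum (fun k _ => hl k) (Finset.mem_univ k₀)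
    have hμ1 : μ ≤ 1 := by
      rw [hμ]
      exact Real.sqrt_le_one.2 hl1
    have hsδ : (s.card : ℝ) * δ ≤ 1 / 100 :=
      (mul_le_mul_of_nonneg_right hcard hδ.le).trans hKδ
    refine ⟨Function.update V k₀ V0, X + (μ : ℂ) • V0, ?_, ?_, ?_⟩
    · intro k hk'
      by_cases hkk : k = k₀
      · subst hkk
        rw [Function.update_self]
        exact ⟨v1, v2, v3, v4⟩
      · rw [Function.update_of_ne hkk]
        exact hV k ((Finset.mem_insert.1 hk').resolve_left hkk)
    · refine hX.add ?_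
      rw [isSelfAdjoint_iff, star_smul, v1.star_eq]
      simp
    · intro T hST
      obtain ⟨b1, b2, b3⟩ := hT T hST
      have hVV : re T (V0 * V0) ≤ 1 := re_sq_le hTB T hST V0 v2 v3
      have hcard' : ((insert k₀ s).card : ℝ) = s.card + 1 := by
        rw [Finset.card_insert_of_notMem hk]
        push_cast
        ring
      rw [Finset.sum_insert hk, hcard']
      have hn2 : n2 T X ≤ 1.01 := by
        have e1 : n2 T X ^ 2 = re T (star X * X) := (hTB A T hST).2.1 X
        rw [hX.star_eq] at e1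
        have e2 : n2 T X ^ 2 ≤ 1.01 := by
          rw [e1]
          norm_num at hsδ ⊢
          linarith
        have e3 : 0 ≤ n2 T X := (hTB A T hST).1 X
        nlinarith
      have hn0 : 0 ≤ n2 T X := (hTB A T hST).1 X
      have hsa1 : IsSelfAdjoint (1 : A) := IsSelfAdjoint.one A
      refine ⟨?_, ?_, fun j => ⟨?_, ?_, ?_⟩⟩
      · obtain ⟨-, c2, -⟩ := hONE A T hST X V0 1 μ hμ0 hX v1 v2 v3 hsa1
        have t := v5 T hST (Sum.inr (Sum.inr (Sum.inr false)))
        change ‖T.f (V0 * (X * 1 + 1 * X))‖ ≤ δ / 4 at t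
        simp only [mul_one] at c2
        have c3 := (abs_le.1 c2).2
        simp only [mul_one] at t c3
        have c4 : μ * ‖T.f (V0 * (X + 1 * X))‖ ≤ 1 * (δ / 4) :=
          mul_le_mul hμ1 t (norm_nonneg _) zero_le_one
        have c5 : μ ^ 2 * re T (V0 * V0) ≤ l k₀ := by
          rw [hμ2]
          nlinarith [hl k₀]
        linarith
      · obtain ⟨-, -, c3⟩ := hONE A T hST X V0 1 μ hμ0 hX v1 v2 v3 hsa1
        have t := v5 T hST (Sum.inr (Sum.inr (Sum.inr true)))
        change ‖T.f (V0 * (X * X * X))‖ ≤ δ / 4 at t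
        have c4 : μ * ‖T.f (V0 * (X * X * X))‖ ≤ 1 * (δ / 4) :=
          mul_le_mul hμ1 t (norm_nonneg _) zero_le_one
        have c5 : μ ^ 2 * re T (X * X) ≤ l k₀ * 1.01 := by
          rw [hμ2]
          refine mul_le_mul_of_nonneg_left ?_ (hl k₀)
          norm_num at hsδ ⊢
          linarith
        have c6 : μ ^ 3 * n2 T X ≤ l k₀ * 1.01 := by
          have e1 : μ ^ 3 ≤ l k₀ := by
            rw [← hμ2]
            nlinarith [sq_nonneg μ]
          exact mul_le_mul e1 hn2 hn0 (hl k₀)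
        have c7 : μ ^ 4 ≤ l k₀ := by
          have : μ ^ 4 = l k₀ * l k₀ := by
            rw [← hμ2]
            ring
          rw [this]
          nlinarith [hl k₀]
        refine c3.trans ?_
        norm_num at b2 c5 c6 ⊢
        linarith [hl k₀]
      · obtain ⟨c1, -, -⟩ := hONE A T hST X V0 (a j) μ hμ0 hX v1 v2 v3 (ha j)
        have t := v5 T hST (Sum.inl j)
        change ‖T.f (V0 * ((X * a j - a j * X) * a j - a j * (X * a j - a j * X)))‖ ≤ δ / 4 at t
        have c4 := mul_le_mul hμ1 t (norm_nonneg _) zero_le_one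
        rw [Finset.sum_insert hk, Function.update_self]
        have e1 : ∑ k ∈ s, l k * n2 T (Function.update V k₀ V0 k * a j -
            a j * Function.update V k₀ V0 k) ^ 2 =
            ∑ k ∈ s, l k * n2 T (V k * a j - a j * V k) ^ 2 := by
          refine Finset.sum_congr rfl fun k hks => ?_
          rw [Function.update_of_ne (fun hh => hk (by rw [← hh]; exact hks))]
        rw [e1, ← hμ2]
        have b4 := (b3 j).1
        linarith
      · have t := v5 T hST (Sum.inr (Sum.inr (Sum.inl j)))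
        change ‖T.f (V0 * a j)‖ ≤ δ / 4 at t
        have c4 := mul_le_mul hμ1 t (norm_nonneg _) zero_le_one
        have e1 : (X + (μ : ℂ) • V0) * a j = X * a j + (μ : ℂ) • (V0 * a j) := by
          rw [add_mul, smul_mul_assoc]
        rw [e1, map_add, map_smul]
        have e2 : ‖(μ : ℂ) • T.f (V0 * a j)‖ = μ * ‖T.f (V0 * a j)‖ := by
          rw [norm_smul, Complex.norm_real, Real.norm_of_nonneg hμ0]
        have e3 := norm_add_le (T.f (X * a j)) ((μ : ℂ) • T.f (V0 * a j))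
        rw [e2] at e3
        have b4 := (b3 j).2.1
        linarith
      · obtain ⟨-, c2, -⟩ := hONE A T hST X V0 (a j) μ hμ0 hX v1 v2 v3 (ha j)
        have t := v5 T hST (Sum.inr (Sum.inl j))
        change ‖T.f (V0 * (X * a j + a j * X))‖ ≤ δ / 4 at t
        have c4 := mul_le_mul hμ1 t (norm_nonneg _) zero_le_one
        rw [Finset.sum_insert hk, Function.update_self]
        have e1 : ∑ k ∈ s, l k * re T (Function.update V k₀ V0 k *
            Function.update V k₀ V0 k * a j) = ∑ k ∈ s, l k * re T (V k * V k * a j) := by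
          refine Finset.sum_congr rfl fun k hks => ?_
          rw [Function.update_of_ne (fun hh => hk (by rw [← hh]; exact hks))]
        rw [e1, ← hμ2]
        have b4 := abs_le.1 (b3 j).2.2
        have c5 := abs_le.1 c2
        rw [abs_le]
        constructor <;> linarith [b4.1, b4.2, c5.1, c5.2]

end SEQ

theorem t_SEQ (hTB : StTB.{u}) (hONE : StONE.{u}) : StSEQ.{u} := by
  intro A _ _ _ _ K l hl hs m a ha P η hη h
  have hK : (0 : ℝ) ≤ K := Nat.cast_nonneg K
  set δ : ℝ := min η (1 / 100) / ((K : ℝ) + 1) with hδd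
  have hm : 0 < min η (1 / 100) := lt_min hη (by norm_num)
  have hδ : 0 < δ := by positivity
  have hKδ : (K : ℝ) * δ ≤ min η (1 / 100) := by
    have h1 : δ * ((K : ℝ) + 1) = min η (1 / 100) := by
      rw [hδd]
      field_simp
    nlinarith
  obtain ⟨V, X, h1, h2, h3⟩ := SEQ.main hTB hONE K l hl hs m a ha P δ hδ
    (hKδ.trans (min_le_right _ _)) h Finset.univ
  refine ⟨V, X, fun k => h1 k (Finset.mem_univ k), h2, fun T hT => ?_⟩
  obtain ⟨-, b2, b3⟩ := h3 T hT
  rw [Finset.card_univ, Fintype.card_fin] at b2 b3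
  rw [hs] at b2
  refine ⟨?_, fun j => ⟨?_, ?_, ?_⟩⟩
  · have := hKδ.trans (min_le_right _ _)
    norm_num at b2 this ⊢
    linarith
  · have := hKδ.trans (min_le_left _ _)
    linarith [(b3 j).1]
  · have := hKδ.trans (min_le_left _ _)
    linarith [(b3 j).2.1]
  · have := hKδ.trans (min_le_left _ _)
    linarith [(b3 j).2.2]

end Pool.Agent.H327R4.NU
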