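import Pool.Agent.H327R4.NU.Stubs

set_option autoImplicit false

namespace Pool.Agent.H327R4.NU

open Filter Topology Pool.Agent.H327R4.Pure

universe u

namespace TRUNCaux

/-- the truncation -/
noncomputable def hh (L t : ℝ) : ℝ := max (-1) (min 1 (t / L))

theorem hh_cont (L : ℝ) : Continuous (hh L) := by
  unfold hh
  fun_prop

theorem hh_lip (L : ℝ) (hL : 1 ≤ L) (s t : ℝ) : |hh L s - hh L t| ≤ (1 / L) * |s - t| := by
  have h0 : (0:ℝ) < L := by linarith
  unfold hh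
  calc |max (-1) (min 1 (s / L)) - max (-1) (min 1 (t / L))|
      ≤ |min 1 (s / L) - min 1 (t / L)| := by
        have := abs_max_sub_max_le_abs (min 1 (s / L)) (min 1 (t / L)) (-1)
        rwa [max_comm (-1), max_comm (-1)]
    _ ≤ |s / L - t / L| := by
        have := abs_min_sub_min_le_max 1 (s / L) 1 (t / L)
        simpa using this
    _ = (1 / L) * |s - t| := by
        rw [← sub_div, abs_div, abs_of_pos h0]
        ring

theorem hh_small (L t : ℝ) (hL : 1 ≤ L) (ht : |t| ≤ L) : hh L t = t / L := by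
  have h0 : (0:ℝ) < L := by linarith
  obtain ⟨h1, h2⟩ := abs_le.1 ht
  unfold hh
  rw [min_eq_right, max_eq_right]
  · rw [le_div_iff₀ h0]; linarith
  · rw [div_le_iff₀ h0]; linarith

theorem hh_big (L t : ℝ) (hL : 1 ≤ L) (ht : L ≤ t) : hh L t = 1 := by
  have h0 : (0:ℝ) < L := by linarith
  unfold hh
  rw [min_eq_left, max_eq_right]
  · linarith
  · rw [le_div_iff₀ h0]; linarith

theorem hh_neg (L t : ℝ) (hL : 1 ≤ L) (ht : t ≤ -L) : hh L t = -1 := by
  have h0 : (0:ℝ) < L := by linarith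
  unfold hh
  rw [max_eq_left]
  refine (min_le_right _ _).trans ?_
  rw [div_le_iff₀ h0]; linarith

theorem hh_one (L t : ℝ) : |hh L t| ≤ 1 := by
  unfold hh
  rw [abs_le]
  exact ⟨le_max_left _ _, max_le (by norm_num) (min_le_left _ _)⟩

theorem pow_bound (L t : ℝ) (hL : 1 ≤ L) (ht : L ≤ |t|) : |t| ≤ t ^ 4 / L ^ 3 := by
  have h0 : (0:ℝ) < L := by linarith
  rw [le_div_iff₀ (by positivity)]
  have h1 : t ^ 4 = |t| * |t| ^ 3 := by
    have h2 : (0:ℝ) ≤ t ^ (3 + 1) := Even.pow_nonneg (by decide) t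
    rw [← pow_succ', ← abs_pow, abs_of_nonneg h2]
  rw [h1]
  have : L ^ 3 ≤ |t| ^ 3 := by gcongr
  exact mul_le_mul_of_nonneg_left this (abs_nonneg _)

theorem key1 (L t : ℝ) (hL : 1 ≤ L) : |t - L * hh L t| ≤ t ^ 4 / L ^ 3 := by
  have h0 : (0:ℝ) < L := by linarith
  rcases le_total |t| L with h | h
  · rw [hh_small L t hL h, mul_div_cancel₀ _ h0.ne', sub_self, abs_zero]
    positivity
  · have h2 := pow_bound L t hL h
    rcases le_total 0 t with h3 | h3
    · rw [abs_of_nonneg h3] at h h2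
      rw [hh_big L t hL h, mul_one, abs_of_nonneg (by linarith)]
      linarith
    · rw [abs_of_nonpos h3] at h h2
      rw [hh_neg L t hL (by linarith), mul_neg_one, abs_of_nonpos (by linarith)]
      linarith

theorem key2 (L t : ℝ) (hL : 1 ≤ L) : 0 ≤ t ^ 2 / L ^ 2 - hh L t ^ 2 ∧
    t ^ 2 / L ^ 2 - hh L t ^ 2 ≤ t ^ 4 / L ^ 4 := by
  have h0 : (0:ℝ) < L := by linarith
  rcases le_total |t| L with h | h
  · rw [hh_small L t hL h, div_pow, sub_self]
    exact ⟨le_rfl, by positivity⟩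
  · have h1 : hh L t ^ 2 = 1 := by
      rcases le_total 0 t with h3 | h3
      · rw [abs_of_nonneg h3] at h
        rw [hh_big L t hL h]; norm_num
      · rw [abs_of_nonpos h3] at h
        rw [hh_neg L t hL (by linarith)]; norm_num
    rw [h1]
    have h2 : (1:ℝ) ≤ t ^ 2 / L ^ 2 := by
      rw [le_div_iff₀ (by positivity), one_mul, ← sq_abs t]
      gcongr
    have h3 : t ^ 4 / L ^ 4 = (t ^ 2 / L ^ 2) ^ 2 := by
      rw [div_pow]; ring
    rw [h3]
    constructor
    · linarith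
    · nlinarith

end TRUNCaux

open TRUNCaux in
theorem t_TRUNC (hTB : StTB.{u}) (hLIP : StLIP.{u}) : StTRUNC.{u} := by
  intro A _ _ _ _ hC L hL m a ε hε
  have h0 : (0:ℝ) < L := by linarith
  obtain ⟨S0, hS0, hS⟩ := hC m a ε hε
  have hc := hh_cont L
  set S : A := cfc (hh L) S0 with hSdef
  have hP4 : cfc (fun t : ℝ => t ^ 4 / L ^ 3) S0 = ((1 / L ^ 3 : ℝ)) • (S0 * S0 * (S0 * S0)) := by
    have h1 : (fun t : ℝ => t ^ 4 / L ^ 3) = fun t => (1 / L ^ 3) * (t ^ 4) := by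
      funext t; ring
    rw [h1, cfc_const_mul (1 / L ^ 3 : ℝ) (fun t : ℝ => t ^ 4) S0, cfc_pow_id S0 4]
    congr 1
    noncomm_ring
  have hQ4 : cfc (fun t : ℝ => t ^ 4 / L ^ 4) S0 = ((1 / L ^ 4 : ℝ)) • (S0 * S0 * (S0 * S0)) := by
    have h1 : (fun t : ℝ => t ^ 4 / L ^ 4) = fun t => (1 / L ^ 4) * (t ^ 4) := by
      funext t; ring
    rw [h1, cfc_const_mul (1 / L ^ 4 : ℝ) (fun t : ℝ => t ^ 4) S0, cfc_pow_id S0 4]
    congr 1
    noncomm_ring
  set P : A := cfc (fun t : ℝ => max 0 (t - L * hh L t)) S0 with hPdef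
  set Q : A := cfc (fun t : ℝ => max 0 (L * hh L t - t)) S0 with hQdef
  set R : A := cfc (fun t : ℝ => t ^ 2 / L ^ 2 - hh L t ^ 2) S0 with hRdef
  have hP0 : 0 ≤ P := cfc_nonneg (fun t _ => le_max_left _ _)
  have hQ0 : 0 ≤ Q := cfc_nonneg (fun t _ => le_max_left _ _)
  have hR0 : 0 ≤ R := cfc_nonneg (fun t _ => (key2 L t hL).1)
  have hPQ : P + Q ≤ ((1 / L ^ 3 : ℝ)) • (S0 * S0 * (S0 * S0)) := by
    rw [← hP4, hPdef, hQdef, ← cfc_add (a := S0) _ _ (by fun_prop) (by fun_prop)]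
    refine cfc_mono (fun t _ => ?_) (by fun_prop) (by fun_prop)
    have h1 := key1 L t hL
    have h2 : max 0 (t - L * hh L t) + max 0 (L * hh L t - t) = |t - L * hh L t| := by
      rcases le_total 0 (t - L * hh L t) with h | h
      · rw [max_eq_right h, max_eq_left (by linarith), abs_of_nonneg h, add_zero]
      · rw [max_eq_left h, max_eq_right (by linarith), abs_of_nonpos h]
        ring
    linarith
  have hR4 : R ≤ ((1 / L ^ 4 : ℝ)) • (S0 * S0 * (S0 * S0)) := by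
    rw [← hQ4, hRdef]
    exact cfc_mono (fun t _ => (key2 L t hL).2) (by fun_prop) (by fun_prop)
  have hdec : S0 = L • S + (P - Q) := by
    rw [hSdef, hPdef, hQdef, ← cfc_const_mul L (hh L) S0 (by fun_prop),
      ← cfc_sub (a := S0) _ _ (by fun_prop) (by fun_prop), ← cfc_add (a := S0) _ _ (by fun_prop) (by fun_prop)]
    conv_lhs => rw [← cfc_id' ℝ S0]
    refine cfc_congr (fun t _ => ?_)
    show t = _
    rcases le_total 0 (t - L * hh L t) with h | h
    · rw [max_eq_right h, max_eq_left (by linarith)]; ring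
    · rw [max_eq_left h, max_eq_right (by linarith)]; ring
  have hsq : ((1 / L ^ 2 : ℝ)) • (S0 * S0) = S * S + R := by
    rw [hSdef, hRdef, ← cfc_mul (a := S0) _ _ (by fun_prop) (by fun_prop),
      ← cfc_add (a := S0) _ _ (by fun_prop) (by fun_prop), ← pow_two S0, ← cfc_pow_id (R := ℝ) S0 2,
      ← cfc_const_mul (1 / L ^ 2 : ℝ) (fun t : ℝ => t ^ 2) S0 (by fun_prop)]
    refine cfc_congr (fun t _ => ?_)
    show (1 / L ^ 2) * t ^ 2 = _
    ring
  have hSsa : IsSelfAdjoint S := cfc_predicate (hh L) S0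
  refine ⟨S, hSsa, ?_, ?_, fun T hT j => ?_⟩
  · have h1 : cfc (fun _ : ℝ => (-1 : ℝ)) S0 ≤ S :=
      cfc_mono (fun t _ => (abs_le.1 (hh_one L t)).1) (by fun_prop) (by fun_prop)
    rw [cfc_const (-1 : ℝ) S0] at h1
    simpa using h1
  · have h1 : S ≤ cfc (fun _ : ℝ => (1 : ℝ)) S0 :=
      cfc_mono (fun t _ => (abs_le.1 (hh_one L t)).2) (by fun_prop) (by fun_prop)
    rw [cfc_const (1 : ℝ) S0] at h1
    simpa using h1
  obtain ⟨h12, hSj⟩ := hS T hT
  obtain ⟨hj1, hj2, hj3⟩ := hSj j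
  obtain ⟨hn0, hn2, hadd, hsub, hsmul, hstar, hml, hmr, hnn, hfn, hcs, hmono, hpos, hpp, him, hle⟩
    := hTB A T hT
  have hrs : ∀ (r : ℝ) (x : A), re T (r • x) = r * re T x := by
    intro r x
    unfold re
    rw [T.f.map_smul_of_tower]
    simp
  have hra : ∀ x y : A, re T (x + y) = re T x + re T y := by
    intro x y
    unfold re
    rw [map_add, Complex.add_re]
  have hL1 : 1 / L ≤ 1 := by
    rw [div_le_one h0]; exact hL
  have hPQ' : re T P + re T Q ≤ 12 / L ^ 3 := by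
    rw [← hra]
    refine (hmono _ _ hPQ).trans ?_
    rw [hrs]
    calc 1 / L ^ 3 * re T (S0 * S0 * (S0 * S0)) ≤ 1 / L ^ 3 * 12 := by gcongr
      _ = 12 / L ^ 3 := by ring
  have hR' : re T R ≤ 12 / L ^ 4 := by
    refine (hmono _ _ hR4).trans ?_
    rw [hrs]
    calc 1 / L ^ 4 * re T (S0 * S0 * (S0 * S0)) ≤ 1 / L ^ 4 * 12 := by gcongr
      _ = 12 / L ^ 4 := by ring
  refine ⟨?_, ?_, ?_⟩
  · have h1 := hLIP A T hT (hh L) (1 / L) (by positivity) (hh_lip L hL) S0 S0 (a j) hS0 hS0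
    calc n2 T (S * a j - a j * S) ≤ 1 / L * n2 T (S0 * a j - a j * S0) := h1
      _ ≤ 1 / L * ε := by gcongr
      _ ≤ 1 * ε := by gcongr
      _ = ε := one_mul _
  · have h1 : T.f (S0 * a j) = L • T.f (S * a j) + (T.f (P * a j) - T.f (Q * a j)) := by
      have h2 : S0 * a j = L • (S * a j) + (P * a j - Q * a j) := by
        conv_lhs => rw [hdec]
        rw [add_mul, smul_mul_assoc, sub_mul]
      rw [h2, map_add, map_sub, T.f.map_smul_of_tower]
    have h2 : T.f (S * a j) = ((1 / L : ℝ) : ℂ) * (T.f (S0 * a j) - T.f (P * a j) + T.f (Q * a j)) := by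
      rw [h1]
      have hLc : (L : ℂ) ≠ 0 := by exact_mod_cast h0.ne'
      rw [Complex.real_smul]
      push_cast
      field_simp
      ring
    rw [h2, norm_mul, Complex.norm_real, Real.norm_of_nonneg (by positivity)]
    have h3 : ‖T.f (S0 * a j) - T.f (P * a j) + T.f (Q * a j)‖ ≤ ε + 12 / L ^ 3 * ‖a j‖ := by
      calc ‖T.f (S0 * a j) - T.f (P * a j) + T.f (Q * a j)‖
          ≤ ‖T.f (S0 * a j)‖ + ‖T.f (P * a j)‖ + ‖T.f (Q * a j)‖ := by
            refine (norm_add_le _ _).trans ?_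
            gcongr
            exact norm_sub_le _ _
        _ ≤ ε + re T P * ‖a j‖ + re T Q * ‖a j‖ := by
            gcongr
            · exact (hpos P hP0).2.2 _
            · exact (hpos Q hQ0).2.2 _
        _ = ε + (re T P + re T Q) * ‖a j‖ := by ring
        _ ≤ ε + 12 / L ^ 3 * ‖a j‖ := by gcongr
    calc 1 / L * ‖T.f (S0 * a j) - T.f (P * a j) + T.f (Q * a j)‖
        ≤ 1 / L * (ε + 12 / L ^ 3 * ‖a j‖) := by gcongr
      _ = 1 / L * ε + 12 / L ^ 4 * ‖a j‖ := by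
          field_simp
      _ ≤ 1 * ε + 24 / L ^ 4 * ‖a j‖ := by
          gcongr
          norm_num
      _ = 24 / L ^ 4 * ‖a j‖ + ε := by ring
  · intro hja
    have h1 : re T (S * S * a j) = 1 / L ^ 2 * re T (S0 * S0 * a j) - re T (R * a j) := by
      have h2 : (1 / L ^ 2 : ℝ) • (S0 * S0 * a j) = S * S * a j + R * a j := by
        rw [← add_mul, ← hsq, smul_mul_assoc]
      have h3 := congrArg (re T) h2
      rw [hrs, hra] at h3
      linarith
    have h2 : re T (R * a j) ≤ 12 / L ^ 4 * ‖a j‖ := by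
      refine ((Complex.re_le_norm _).trans ((hpos R hR0).2.2 _)).trans ?_
      gcongr
    have h3 := hj3 hja
    have h4 : 1 / L ^ 2 * (re T (a j) - ε) ≤ 1 / L ^ 2 * re T (S0 * S0 * a j) := by gcongr
    have h5 : (re T (a j) - 12 / L ^ 2 * ‖a j‖) / L ^ 2 = 1 / L ^ 2 * re T (a j) - 12 / L ^ 4 * ‖a j‖ := by
      field_simp
    have h6 : 1 / L ^ 2 * ε ≤ ε := by
      have : 1 / L ^ 2 ≤ 1 := by
        rw [div_le_one (by positivity)]
        nlinarith
      nlinarith
    rw [h5, h1]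
    nlinarith

end Pool.Agent.H327R4.NU
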