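import Pool.Agent.H327R4.NU.Stubs

/-!
# Two steps of the walk
-/

set_option autoImplicit false

namespace Pool.Agent.H327R4.NU

open Filter Topology Pool.Agent.H327R4.Pure

universe u

/-- the real inequality -/
theorem two_real (N w a b c0 c1 x μ : ℝ) (hN : 64 ≤ N) (hw0 : 0 ≤ w) (hw1 : w ≤ 1)
    (ha : a ^ 2 = c0) (hb : b ^ 2 = c1) (hμ : 0 ≤ μ) (hμ1 : μ ≤ 1)
    (h : w ≤ 9 * a + b + N * μ) (hx : x = 32 / N ^ 2 * (c0 + c1)) :
    w ^ 2 / (20 * N ^ 2) - 3 * μ ≤ x - 2 * μ ^ 2 := by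
  have hN0 : 0 < N := by linarith
  have h1 : w ^ 2 / 82 - N * μ / 41 ≤ c0 + c1 := by
    have h2 : w ^ 2 ≤ w * (9 * a + b) + N * μ := by
      have h3 : w * w ≤ w * (9 * a + b + N * μ) := mul_le_mul_of_nonneg_left h hw0
      have h4 : w * (N * μ) ≤ 1 * (N * μ) := mul_le_mul_of_nonneg_right hw1 (by positivity)
      nlinarith
    have h5 : w * (9 * a + b) ≤ w ^ 2 / 2 + 41 * (a ^ 2 + b ^ 2) := by
      nlinarith [sq_nonneg (w - (9 * a + b)), sq_nonneg (a - 9 * b)]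
    rw [ha, hb] at h5
    linarith
  have h6 : 32 / N ^ 2 * (w ^ 2 / 82 - N * μ / 41) ≤ 32 / N ^ 2 * (c0 + c1) :=
    mul_le_mul_of_nonneg_left h1 (by positivity)
  have h7 : 32 / N ^ 2 * (w ^ 2 / 82 - N * μ / 41) =
      (32 / 82) * (w ^ 2 / N ^ 2) - (32 / 41) * (μ / N) := by
    field_simp
  have h8 : w ^ 2 / (20 * N ^ 2) = (1 / 20) * (w ^ 2 / N ^ 2) := by
    field_simp
  have h9 : 0 ≤ w ^ 2 / N ^ 2 := by positivity
  have h10 : μ / N ≤ μ := div_le_self hμ (by linarith)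
  have h11 : μ ^ 2 ≤ μ := by nlinarith
  rw [h8, hx]
  rw [h7] at h6
  have h12 : 0 ≤ μ / N := by positivity
  nlinarith

theorem t_TWO (hSTEP : StSTEP.{u}) (hTB : StTB.{u}) (hLIP : StLIP.{u}) (hKAP : StKAP)
    (hHER : StHER.{u}) : StTWO.{u} := by
  intro A _ _ _ _ hD N hN X η hX hX1 hX2 hη
  obtain ⟨hk1, hk2, hk3, -⟩ := hKAP N hN
  have hNr : (64 : ℝ) ≤ N := by exact_mod_cast hN
  have hN0 : (0 : ℝ) < N := by linarith
  set μ : ℝ := min 1 (η / 3) with hμdef
  have hμ0 : 0 < μ := lt_min one_pos (by positivity)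
  have hμ1 : μ ≤ 1 := min_le_left _ _
  have hμη : 3 * μ ≤ η := by
    have := min_le_right (1 : ℝ) (η / 3)
    rw [← hμdef] at this
    linarith
  obtain ⟨X1, hs1, hl1, hu1, hh1, hT1⟩ := hSTEP A hD N hN 0 X (μ ^ 2) hX hX1 hX2 (by positivity)
  obtain ⟨X2, hs2, hl2, hu2, hh2, hT2⟩ := hSTEP A hD N hN 1 X1 (μ ^ 2) hs1 hl1 hu1 (by positivity)
  refine ⟨X2, hs2, hl2, hu2, hHER A X X1 X2 hX hs1 hh1 hh2, fun T hT => ?_⟩
  obtain ⟨hn0, hnsq, -, -, -, -, -, -, -, hfn, -, hmono, -, -, -, -⟩ := hTB A T hT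
  obtain ⟨h1, h2⟩ := hT1 T hT
  obtain ⟨h3, -⟩ := hT2 T hT
  -- continuity
  have hcont : ∀ j : Fin 2, Continuous (kap N j) := by
    intro j
    refine (LipschitzWith.of_dist_le_mul (K := (N : NNReal)) fun s t => ?_).continuous
    rw [Real.dist_eq, Real.dist_eq]
    simpa using hk3 j s t
  have hadd : ∀ x y : A, re T (x + y) = re T x + re T y := fun x y => by simp [re]
  have hsub : ∀ x y : A, re T (x - y) = re T x - re T y := fun x y => by simp [re]
  have hone : re T (1 : A) = 1 := by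
    unfold re
    rw [show T.f (1 : A) = 1 from hT.1]
    simp
  have hzero : re T (0 : A) = 0 := by simp [re]
  have hk01 : ∀ (j : Fin 2) (Y : A), 0 ≤ re T (cfc (kap N j) Y) ∧ re T (cfc (kap N j) Y) ≤ 1 := by
    intro j Y
    constructor
    · have := hmono 0 (cfc (kap N j) Y) (cfc_nonneg fun x _ => (hk1 j x).1)
      rwa [hzero] at this
    · have := hmono (cfc (kap N j) Y) 1 (cfc_le_one _ _ fun x _ => (hk1 j x).2)
      rwa [hone] at this
  obtain ⟨c0n, c01⟩ := hk01 0 X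
  obtain ⟨c1n, c11⟩ := hk01 1 X1
  set c0 := re T (cfc (kap N 0) X) with hc0
  set c1 := re T (cfc (kap N 1) X1) with hc1
  -- Lipschitz estimate
  have hlip : re T (cfc (kap N 1) X) - c1 ≤ N * n2 T (X1 - X) := by
    have h4 := hLIP A T hT (kap N 1) N (by positivity) (fun s t => hk3 1 s t) X1 X 1 hs1 hX
    rw [mul_one, mul_one, one_mul, one_mul] at h4
    have h5 := hfn (cfc (kap N 1) X1 - cfc (kap N 1) X)
    have h6 : re T (cfc (kap N 1) X) - c1 ≤ ‖T.f (cfc (kap N 1) X1 - cfc (kap N 1) X)‖ := by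
      have h7 := Complex.abs_re_le_norm (T.f (cfc (kap N 1) X1 - cfc (kap N 1) X))
      have h8 : (T.f (cfc (kap N 1) X1 - cfc (kap N 1) X)).re = c1 - re T (cfc (kap N 1) X) := by
        rw [hc1, ← hsub]
        rfl
      rw [h8] at h7
      have := neg_abs_le (c1 - re T (cfc (kap N 1) X))
      linarith
    linarith
  -- the spectrum
  have hspec : ∀ t ∈ spectrum ℝ X, |t| ≤ 1 := by
    intro t ht
    have h4 := (le_algebraMap_iff_spectrum_le (r := (1 : ℝ)) (a := X) hX).mp (by simpa using hX2) t ht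
    have h5 := (algebraMap_le_iff_le_spectrum (r := (-1 : ℝ)) (a := X) hX).mp
      (by simpa using hX1) t ht
    exact abs_le.mpr ⟨h5, h4⟩
  have hcov : re T (1 - X * X) ≤ c0 + re T (cfc (kap N 1) X) + 32 / N := by
    have h4 : cfc (fun t : ℝ => 1 - t ^ 2) X = 1 - X * X := by
      rw [cfc_sub (fun _ : ℝ => (1 : ℝ)) (fun t => t ^ 2) X, cfc_const_one ℝ X, cfc_pow_id X 2,
        sq]
    have h5 : cfc (fun t : ℝ => kap N 0 t + kap N 1 t + 32 / N) X =
        cfc (kap N 0) X + cfc (kap N 1) X + algebraMap ℝ A (32 / N) := by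
      rw [cfc_add (a := X) (fun t => kap N 0 t + kap N 1 t) (fun _ => 32 / (N : ℝ))
        (((hcont 0).add (hcont 1)).continuousOn) continuousOn_const,
        cfc_add (a := X) (kap N 0) (kap N 1) (hcont 0).continuousOn (hcont 1).continuousOn,
        cfc_const (32 / (N : ℝ)) X hX]
    have h6 : cfc (fun t : ℝ => 1 - t ^ 2) X ≤
        cfc (fun t : ℝ => kap N 0 t + kap N 1 t + 32 / N) X :=
      cfc_mono (fun t ht => hk2 t (hspec t ht)) (by fun_prop)
        ((((hcont 0).add (hcont 1)).add continuous_const).continuousOn)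
    have h7 := hmono _ _ h6
    rw [h4, h5, hadd, hadd] at h7
    have h8 : re T (algebraMap ℝ A (32 / N)) = 32 / N := by
      have h9 : T.f (algebraMap ℝ A (32 / N)) = ((32 / (N : ℝ) : ℝ) : ℂ) := by
        have h10 : (algebraMap ℝ A (32 / N)) = ((32 / (N : ℝ) : ℝ) : ℂ) • (1 : A) := by
          rw [Algebra.algebraMap_eq_smul_one]
          norm_cast
        rw [h10, map_smul, show T.f (1 : A) = 1 from hT.1, smul_eq_mul, mul_one]
      unfold re
      rw [h9, Complex.ofReal_re]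
    rw [h8] at h7
    exact h7
  -- assembly
  have hXX : re T (1 - X * X) = 1 - re T (X * X) := by rw [hsub, hone]
  have hXX2 : re T (1 - X2 * X2) = 1 - re T (X2 * X2) := by rw [hsub, hone]
  have hXXn : 0 ≤ re T (X * X) := by
    have h4 := hnsq X
    rw [hX.star_eq] at h4
    rw [← h4]
    positivity
  set w : ℝ := max 0 (re T (1 - X * X) - 32 / N) with hw
  have hw0 : 0 ≤ w := le_max_left _ _
  have h32 : 0 ≤ 32 / (N : ℝ) := by positivity
  have hw1 : w ≤ 1 := max_le zero_le_one (by rw [hXX]; linarith)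
  set a : ℝ := Real.sqrt c0 with hadef
  set b : ℝ := Real.sqrt c1 with hbdef
  have ha0 : 0 ≤ a := Real.sqrt_nonneg _
  have hb0 : 0 ≤ b := Real.sqrt_nonneg _
  have ha2 : a ^ 2 = c0 := Real.sq_sqrt c0n
  have hb2 : b ^ 2 = c1 := Real.sq_sqrt c1n
  have ha1 : a ≤ 1 := Real.sqrt_le_one.mpr c01
  have hb1 : b ≤ 1 := Real.sqrt_le_one.mpr c11
  have hn : N * n2 T (X1 - X) ≤ 8 * a + N * μ := by
    have h4 : n2 T (X1 - X) ^ 2 ≤ (8 / N * a + μ) ^ 2 := by
      have h5 : (8 / N * a + μ) ^ 2 = 64 / N ^ 2 * a ^ 2 + 2 * (8 / N * a * μ) + μ ^ 2 := by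
        ring
      rw [h5, ha2]
      have h6 : 0 ≤ 8 / (N : ℝ) * a * μ := by positivity
      linarith
    have h5 : n2 T (X1 - X) ≤ 8 / N * a + μ := by
      have h6 : 0 ≤ 8 / (N : ℝ) * a + μ := by positivity
      exact (pow_le_pow_iff_left₀ (hn0 _) h6 two_ne_zero).mp h4
    calc N * n2 T (X1 - X) ≤ N * (8 / N * a + μ) := mul_le_mul_of_nonneg_left h5 hN0.le
      _ = 8 * a + N * μ := by field_simp
  have hwle : w ≤ 9 * a + b + N * μ := by
    refine max_le (by positivity) ?_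
    have h4 : c0 ≤ a := by
      rw [← ha2, sq]
      exact mul_le_of_le_one_left ha0 ha1
    have h5 : c1 ≤ b := by
      rw [← hb2, sq]
      exact mul_le_of_le_one_left hb0 hb1
    linarith
  have hfin := two_real N w a b c0 c1 (32 / (N : ℝ) ^ 2 * (c0 + c1)) μ hNr hw0 hw1 ha2 hb2 hμ0.le
    hμ1 hwle rfl
  rw [hXX2, hXX]
  have h13 : 32 / (N : ℝ) ^ 2 * (c0 + c1) = 32 / (N : ℝ) ^ 2 * c0 + 32 / (N : ℝ) ^ 2 * c1 := by ring
  linarith

end Pool.Agent.H327R4.NU
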