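import Pool.Agent.H327R4.NU.Stubs

set_option autoImplicit false

namespace Pool.Agent.H327R4.NU

open Filter Topology Pool.Agent.H327R4.Pure

universe u

namespace VARaux

/-- `ψ` preserves adjoints -/
theorem star_map {A : Type u} [CStarAlgebra A] [TrSet A] {b : ℕ} {n : Fin b → ℕ} (ψ : A →ₗ[ℂ] FD n)
    (h : CPC ψ) (a : A) : star (ψ a) = ψ (star a) := by
  have hpos : ∀ z : A, star (ψ (star z * z)) = ψ (star z * z) := by
    intro z
    obtain ⟨c, hc⟩ := h.1 1 (fun _ => z) (fun _ => 1)
    simp only [Finset.univ_unique, Finset.sum_singleton, star_one, one_mul, mul_one] at hc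
    rw [hc, star_mul, star_star]
  have h1 := hpos (1 + a)
  have h2 := hpos a
  have h3 := hpos 1
  have h4 := hpos (1 + Complex.I • a)
  have e1 : star (1 + a) * (1 + a) = 1 + a + star a + star a * a := by
    rw [star_add, star_one]; noncomm_ring
  have e4 : star (1 + Complex.I • a) * (1 + Complex.I • a) =
      1 + Complex.I • a - Complex.I • star a + star a * a := by
    rw [star_add, star_one, star_smul, add_mul, mul_add, mul_add, one_mul, one_mul, mul_one,
      smul_mul_smul_comm]
    have : (star Complex.I * Complex.I : ℂ) = 1 := by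
      simp [Complex.star_def, Complex.conj_I]
    rw [this, one_smul]
    have h : (star Complex.I : ℂ) = - Complex.I := by simp [Complex.star_def, Complex.conj_I]
    rw [h, neg_smul]
    abel
  simp only [star_one, one_mul] at h3
  rw [e1, map_add, map_add, map_add, star_add, star_add, star_add, h2, h3] at h1
  rw [e4, map_add, map_sub, map_add, map_smul, map_smul, star_add, star_sub, star_add, h2, h3,
    star_smul, star_smul] at h4
  have hI : (star Complex.I : ℂ) = - Complex.I := by simp [Complex.star_def, Complex.conj_I]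
  rw [hI] at h4
  set P := ψ a
  set Q := ψ (star a)
  have h5 : star P + star Q = P + Q := by
    have := congrArg (fun z => z - ψ (star a * a) - ψ 1) h1
    calc star P + star Q = ψ 1 + star P + star Q + ψ (star a * a) - ψ (star a * a) - ψ 1 := by abel
      _ = ψ 1 + P + Q + ψ (star a * a) - ψ (star a * a) - ψ 1 := this
      _ = P + Q := by abel
  have h6 : Complex.I • (star Q - star P) = Complex.I • (P - Q) := by
    rw [smul_sub, smul_sub]
    have := congrArg (fun z => z - ψ (star a * a) - ψ 1) h4
    simp only [neg_smul] at this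
    calc Complex.I • star Q - Complex.I • star P
        = ψ 1 + -(Complex.I • star P) - -(Complex.I • star Q) + ψ (star a * a)
          - ψ (star a * a) - ψ 1 := by abel
      _ = ψ 1 + Complex.I • P - Complex.I • Q + ψ (star a * a) - ψ (star a * a) - ψ 1 := this
      _ = _ := by abel
  have h7 : star Q - star P = P - Q := smul_right_injective _ Complex.I_ne_zero h6
  have h8 : (2 : ℂ) • star P = (2 : ℂ) • Q := by
    rw [two_smul, two_smul]
    calc star P + star P = (star P + star Q) - (star Q - star P) := by abel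
      _ = (P + Q) - (P - Q) := by rw [h5, h7]
      _ = Q + Q := by abel
  exact smul_right_injective _ (two_ne_zero) h8

/-- the Schwarz inequality for `ψ`, as a sum of squares -/
theorem schwarz {A : Type u} [CStarAlgebra A] [TrSet A] {b : ℕ} {n : Fin b → ℕ} (ψ : A →ₗ[ℂ] FD n)
    (h : CPC ψ) (a : A) : ∃ c d : FD n,
      ψ (star a * a) = star (ψ a) * ψ a + star c * c + star d * d := by
  obtain ⟨c, hc⟩ := h.1 2 ![1, a] ![- ψ a, 1]
  obtain ⟨d, hd⟩ := h.2
  refine ⟨c, d * ψ a, ?_⟩
  simp only [Fin.sum_univ_two, Matrix.cons_val_zero, Matrix.cons_val_one, star_one, one_mul,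
    mul_one, star_neg] at hc
  rw [← star_map ψ h a] at hc
  have e : star (d * ψ a) * (d * ψ a) = star (ψ a) * (star d * d) * ψ a := by
    rw [star_mul, mul_assoc, mul_assoc, mul_assoc]
  rw [← hc, e, ← hd]
  noncomm_ring

variable {A : Type u} [CStarAlgebra A] [PartialOrder A] [StarOrderedRing A] [TrSet A]

theorem mul_le_of_comm {h g : A} (hh : h ≤ 1) (hg : 0 ≤ g) (hc : Commute h g) : h * g ≤ g := by
  have h1 : 0 ≤ (1 - h) * g := by
    apply Commute.mul_nonneg
    · exact sub_nonneg.2 hh
    · exact hg
    · exact (Commute.one_left g).sub_left hc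
  have h2 : g - h * g = (1 - h) * g := by noncomm_ring
  rw [← sub_nonneg, h2]
  exact h1

theorem oz_schwarz {b : ℕ} {n : Fin b → ℕ} (φ : FD n →ₗ[ℂ] A) (h : OZ φ) (x : FD n) :
    star (φ x) * φ x ≤ φ (star x * x) := by
  obtain ⟨h1, h2, h3, h4⟩ := h
  have h5 : star (φ x) * φ x = φ 1 * φ (star x * x) := by
    rw [← h2, h3]
  rw [h5]
  apply mul_le_of_comm h4 (h1 x)
  have h6 : star (φ 1 * φ (star x * x)) = φ 1 * φ (star x * x) := by
    rw [← h5, star_mul, star_star]
  have h7 : star (φ 1) = φ 1 := by rw [← h2, star_one]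
  have h8 : star (φ (star x * x)) = φ (star x * x) := by rw [← h2, star_mul, star_star]
  rw [star_mul, h7, h8] at h6
  exact h6.symm

end VARaux

open VARaux

theorem t_VAR : StVAR.{u} := by
  intro A _ _ _ _ b n ψ K l φ a ε hψ hl hsum hφ h1 h2
  have hε : 0 ≤ ε := (norm_nonneg _).trans h1
  set P := ψ a with hP
  obtain ⟨c, d, hcd⟩ := schwarz ψ hψ a
  -- termwise
  have hterm : ∀ k, star (φ k P) * φ k P ≤ φ k (ψ (star a * a)) := by
    intro k
    obtain ⟨g1, g2, g3, g4⟩ := hφ k
    rw [hcd, map_add, map_add]
    calc star (φ k P) * φ k P ≤ φ k (star P * P) := oz_schwarz (φ k) (hφ k) P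
      _ ≤ φ k (star P * P) + φ k (star c * c) := le_add_of_nonneg_right (g1 c)
      _ ≤ φ k (star P * P) + φ k (star c * c) + φ k (star d * d) :=
          le_add_of_nonneg_right (g1 d)
  set W := ∑ k, (l k : ℂ) • φ k P with hW
  set Z := ∑ k, (l k : ℂ) • φ k (ψ (star a * a)) with hZ
  have hstarl : ∀ k, star (l k : ℂ) = (l k : ℂ) := fun k => by
    rw [Complex.star_def, Complex.conj_ofReal]
  have hsumC : ∑ k, (l k : ℂ) = 1 := by exact_mod_cast hsum
  have hexp : ∑ k, (l k : ℂ) • (star (φ k P - a) * (φ k P - a)) =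
      ∑ k, (l k : ℂ) • (star (φ k P) * φ k P) - star W * a - star a * W + star a * a := by
    have e1 : star W = ∑ k, (l k : ℂ) • star (φ k P) := by
      rw [hW, star_sum]
      refine Finset.sum_congr rfl fun k _ => ?_
      rw [star_smul, hstarl]
    have e2 : star W * a = ∑ k, (l k : ℂ) • (star (φ k P) * a) := by
      rw [e1, Finset.sum_mul]
      refine Finset.sum_congr rfl fun k _ => ?_
      rw [smul_mul_assoc]
    have e3 : star a * W = ∑ k, (l k : ℂ) • (star a * φ k P) := by
      rw [hW, Finset.mul_sum]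
      refine Finset.sum_congr rfl fun k _ => ?_
      rw [mul_smul_comm]
    have e4 : star a * a = ∑ k, (l k : ℂ) • (star a * a) := by
      rw [← Finset.sum_smul, hsumC, one_smul]
    rw [e2, e3, e4, ← Finset.sum_sub_distrib, ← Finset.sum_sub_distrib, ← Finset.sum_add_distrib]
    refine Finset.sum_congr rfl fun k _ => ?_
    rw [← smul_sub, ← smul_sub, ← smul_add]
    congr 1
    rw [star_sub]
    noncomm_ring
  have hle : ∑ k, (l k : ℂ) • (star (φ k P) * φ k P) ≤ Z := by
    rw [hZ]
    refine Finset.sum_le_sum fun k _ => ?_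
    rw [Complex.coe_smul, Complex.coe_smul]
    exact smul_le_smul_of_nonneg_left (hterm k) (hl k)
  -- the error
  have hZsa : star Z = Z := by
    rw [hZ, star_sum]
    refine Finset.sum_congr rfl fun k _ => ?_
    rw [star_smul, hstarl, ← (hφ k).2.1, star_map ψ hψ, star_mul, star_star]
  set e := W - a with he
  set e' := Z - star a * a with he'
  have hfin : ∑ k, (l k : ℂ) • (star (φ k P - a) * (φ k P - a)) ≤ e' - star e * a - star a * e := by
    rw [hexp]
    have : e' - star e * a - star a * e = Z - star W * a - star a * W + star a * a := by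
      rw [he, he', star_sub]
      noncomm_ring
    rw [this]
    gcongr
  have hsa : IsSelfAdjoint (e' - star e * a - star a * e) := by
    rw [isSelfAdjoint_iff, star_sub, star_sub, star_mul, star_mul, star_star, star_star, he',
      star_sub, hZsa, star_mul, star_star]
    abel
  have hn : ‖e' - star e * a - star a * e‖ ≤ ε * (1 + 2 * ‖a‖) := by
    calc ‖e' - star e * a - star a * e‖ ≤ ‖e'‖ + ‖star e * a‖ + ‖star a * e‖ :=
          (norm_sub_le _ _).trans (by gcongr; exact norm_sub_le _ _)
      _ ≤ ε + ε * ‖a‖ + ‖a‖ * ε := by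
          gcongr
          · exact (norm_mul_le _ _).trans (by rw [norm_star]; gcongr)
          · exact (norm_mul_le _ _).trans (by rw [norm_star]; gcongr)
      _ = _ := by ring
  refine hfin.trans ?_
  have h5 := hsa.le_algebraMap_norm_self
  refine h5.trans ?_
  have h6 : (((ε * (1 + 2 * ‖a‖) : ℝ) : ℂ) • (1 : A)) = algebraMap ℝ A (ε * (1 + 2 * ‖a‖)) := by
    rw [Algebra.algebraMap_eq_smul_one, Complex.coe_smul]
  rw [h6]
  exact algebraMap_mono A hn

end Pool.Agent.H327R4.NU
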