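import Pool.Agent.H327R4.NU.Stubs

set_option autoImplicit false

namespace Pool.Agent.H327R4.NU

open Filter Topology Pool.Agent.H327R4.Pure

universe u

theorem t_VAR1 : StVAR1.{u} := by
  intro A _ _ _ _ b n ψ K l φ ε hψ hl hsum hφ hle
  obtain ⟨-, c, hc⟩ := hψ
  -- the element `y = 1 - ∑ l_k φ_k(ψ 1)`
  have h1 : ∀ k, φ k (ψ 1) ≤ φ k 1 := by
    intro k
    have h2 := (hφ k).1 c
    rw [← hc, map_sub] at h2
    exact sub_nonneg.1 h2
  have hsa : ∀ k, IsSelfAdjoint (φ k (ψ 1)) := by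
    intro k
    have h2 : ψ 1 = 1 - star c * c := by
      rw [← hc, sub_sub_cancel]
    have h3 : star (ψ 1) = ψ 1 := by
      rw [h2, star_sub, star_one, star_mul, star_star]
    have h4 := (hφ k).2.1 (ψ 1)
    rw [h3] at h4
    exact h4.symm
  have hy : IsSelfAdjoint (1 - ∑ k, (l k : ℂ) • φ k (ψ 1)) := by
    refine (IsSelfAdjoint.one A).sub ?_
    rw [isSelfAdjoint_iff, star_sum]
    refine Finset.sum_congr rfl fun k _ => ?_
    rw [star_smul, (hsa k).star_eq]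
    simp
  have hyle : 1 - ∑ k, (l k : ℂ) • φ k (ψ 1) ≤ ((ε : ℝ) : ℂ) • (1 : A) := by
    have h2 := hy.le_algebraMap_norm_self
    have h3 : ‖1 - ∑ k, (l k : ℂ) • φ k (ψ 1)‖ ≤ ε := by
      rw [norm_sub_rev]
      exact hle
    refine h2.trans ?_
    rw [Algebra.algebraMap_eq_smul_one]
    have h4 : ((ε : ℝ) : ℂ) • (1 : A) = ε • (1 : A) := by
      rw [Complex.coe_smul]
    rw [h4]
    exact smul_le_smul_of_nonneg_right h3 zero_le_one
  refine le_trans ?_ hyle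
  have h5 : (1 : A) = ∑ k, (l k : ℂ) • (1 : A) := by
    rw [← Finset.sum_smul, ← Complex.ofReal_sum, hsum, Complex.ofReal_one, one_smul]
  have h6 : 1 - ∑ k, (l k : ℂ) • φ k (ψ 1) = ∑ k, (l k : ℂ) • (1 - φ k (ψ 1)) := by
    simp only [smul_sub]
    rw [Finset.sum_sub_distrib, ← h5]
  rw [h6]
  refine Finset.sum_le_sum fun k _ => ?_
  have h7 : ((l k : ℝ) : ℂ) • (1 - φ k 1) = l k • (1 - φ k 1) := by rw [Complex.coe_smul]
  have h8 : ((l k : ℝ) : ℂ) • (1 - φ k (ψ 1)) = l k • (1 - φ k (ψ 1)) := by rw [Complex.coe_smul]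
  rw [h7, h8]
  exact smul_le_smul_of_nonneg_left (sub_le_sub_left (h1 k) 1) (hl k)

end Pool.Agent.H327R4.NU
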