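import Pool.Agent.H327R4.NU.Stubs

/-!
# Toms-Winter project: one step of the second walk (helper918)
-/

set_option autoImplicit false

namespace Pool.Agent.H327R4.NU

open Filter Topology Pool.Agent.H327R4.Pure

universe u

namespace W2Aaux

section alg

variable {A : Type u} [CStarAlgebra A] [PartialOrder A] [StarOrderedRing A] [TrSet A]

theorem h_nonneg (X : A) (h1 : -1 ≤ X) (h2 : X ≤ 1) : 0 ≤ 1 - X * X := by
  have e : 1 - X * X = (1 - X) * (1 + X) := by noncomm_ring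
  rw [e]
  apply Commute.mul_nonneg (sub_nonneg.2 h2)
  · have := sub_nonneg.2 h1
    have e2 : X - -1 = 1 + X := by abel
    rwa [e2] at this
  · show (1 - X) * (1 + X) = (1 + X) * (1 - X)
    noncomm_ring

theorem sq_nonneg' (X : A) (hX : IsSelfAdjoint X) : 0 ≤ X * X := by
  have := star_mul_self_nonneg X
  rwa [hX.star_eq] at this

theorem norm_le_one' (X : A) (hX : IsSelfAdjoint X) (h1 : -1 ≤ X) (h2 : X ≤ 1) : ‖X‖ ≤ 1 := by
  have a1 : X * X ≤ 1 := sub_nonneg.1 (h_nonneg X h1 h2)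
  have a2 : ‖X * X‖ ≤ 1 :=
    (CStarAlgebra.norm_le_one_iff_of_nonneg (X * X) (sq_nonneg' X hX)).2 a1
  have a3 : ‖star X * X‖ = ‖X‖ * ‖X‖ := CStarRing.norm_star_mul_self
  rw [hX.star_eq] at a3
  rw [a3] at a2
  nlinarith [norm_nonneg X]

theorem up (X ρ : A) (hX : IsSelfAdjoint X) (h1 : -1 ≤ X) (h2 : X ≤ 1)
    (hρ : ρ + ρ = 1 - X * X) : X + ρ * ρ ≤ 1 := by
  have p0 : 0 ≤ 1 - X := sub_nonneg.2 h2
  have q0 : 0 ≤ 1 + X := by
    have := sub_nonneg.2 h1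
    have e2 : X - -1 = 1 + X := by abel
    rwa [e2] at this
  have c0 : 0 ≤ X * (1 + X) * X := by
    have := star_left_conjugate_nonneg q0 X
    rwa [hX.star_eq] at this
  have t0 : (0 : A) ≤ 1 + 1 := by
    have : (0 : A) ≤ 1 := zero_le_one
    exact add_nonneg this this
  have m0 : 0 ≤ (1 - X) * (X * (1 + X) * X + (1 + 1) + (1 - X)) := by
    apply Commute.mul_nonneg p0 (add_nonneg (add_nonneg c0 t0) p0)
    show (1 - X) * (X * (1 + X) * X + (1 + 1) + (1 - X)) =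
      (X * (1 + X) * X + (1 + 1) + (1 - X)) * (1 - X)
    noncomm_ring
  have e : (4 : ℕ) • (1 - (X + ρ * ρ)) = (1 - X) * (X * (1 + X) * X + (1 + 1) + (1 - X)) := by
    calc (4 : ℕ) • (1 - (X + ρ * ρ)) =
        (4 : ℕ) • (1 : A) - (4 : ℕ) • X - (ρ + ρ) * (ρ + ρ) := by noncomm_ring
      _ = (4 : ℕ) • (1 : A) - (4 : ℕ) • X - (1 - X * X) * (1 - X * X) := by rw [hρ]
      _ = (1 - X) * (X * (1 + X) * X + (1 + 1) + (1 - X)) := by noncomm_ring
  rw [← e] at m0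
  have m1 : 0 ≤ (4⁻¹ : ℝ) • ((4 : ℕ) • (1 - (X + ρ * ρ))) := smul_nonneg (by norm_num) m0
  have m2 : (4⁻¹ : ℝ) • ((4 : ℕ) • (1 - (X + ρ * ρ))) = 1 - (X + ρ * ρ) := by
    rw [← Nat.cast_smul_eq_nsmul ℝ, smul_smul]; norm_num
  rw [m2] at m1
  exact sub_nonneg.1 m1

end alg

end W2Aaux

open W2Aaux

theorem slem' (A : Type u) [CStarAlgebra A] [PartialOrder A] [StarOrderedRing A] [TrSet A] (h : SLem A)
    (L : ℝ) (hL : 1 ≤ L) (s : List A) (ε : ℝ) (hε : 0 < ε) :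
    ∃ S : A, IsSelfAdjoint S ∧ -1 ≤ S ∧ S ≤ 1 ∧ ∀ T : Tr A, St T → ∀ x ∈ s,
      n2 T (S * x - x * S) ≤ ε ∧ ‖T.f (S * x)‖ ≤ 24 / L ^ 4 * ‖x‖ + ε ∧
      (0 ≤ x → (re T x - 12 / L ^ 2 * ‖x‖) / L ^ 2 - ε ≤ re T (S * S * x)) := by
  obtain ⟨S, h1, h2, h3, h4⟩ := h L hL s.length s.get ε hε
  refine ⟨S, h1, h2, h3, fun T hT x hx => ?_⟩
  obtain ⟨i, rfl⟩ := List.get_of_mem hx
  exact h4 T hT i

theorem t_W2A (hTB : StTB.{u}) : StW2A.{u} := by
  intro A _ _ _ _ hS L hL m a X ε hX hX1 hX2 hε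
  have hL0 : 0 < L := by linarith
  set ρ : A := (2⁻¹ : ℝ) • (1 - X * X) with hρdef
  have h0 : 0 ≤ 1 - X * X := h_nonneg X hX1 hX2
  have hρ : ρ + ρ = 1 - X * X := by
    rw [hρdef, ← add_smul]; norm_num
  have hρ0 : 0 ≤ ρ := smul_nonneg (by norm_num) h0
  have hρs : IsSelfAdjoint ρ := IsSelfAdjoint.of_nonneg hρ0
  have hnX : ‖X‖ ≤ 1 := norm_le_one' X hX hX1 hX2
  have hnh : ‖1 - X * X‖ ≤ 1 := by
    rw [CStarAlgebra.norm_le_one_iff_of_nonneg _ h0]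
    have := sq_nonneg' X hX
    exact sub_le_self 1 this
  have hnρ : ‖ρ‖ ≤ 1 / 2 := by
    rw [hρdef, norm_smul]
    norm_num
    linarith
  have hcX : X * ρ = ρ * X := by
    rw [hρdef]; simp only [mul_smul_comm, smul_mul_assoc]; congr 1; noncomm_ring
  set ε' : ℝ := ε / 8 with hε'
  have hε'0 : 0 < ε' := by positivity
  obtain ⟨S, hSs, hS1, hS2, hSl⟩ := slem' A hS L hL
    ([ρ * ρ, ρ * ρ * (ρ * ρ), ρ * X * ρ] ++ List.ofFn a ++ List.ofFn (fun j => ρ * a j * ρ))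
    ε' hε'0
  have hnS : ‖S‖ ≤ 1 := norm_le_one' S hSs hS1 hS2
  have hsρSρ : IsSelfAdjoint (ρ * S * ρ) := by
    rw [isSelfAdjoint_iff]; simp [hρs.star_eq, hSs.star_eq, mul_assoc]
  have hup : ρ * S * ρ ≤ ρ * ρ := by
    have := hρs.conjugate_le_conjugate hS2
    simpa using this
  have hlo : -(ρ * ρ) ≤ ρ * S * ρ := by
    have := hρs.conjugate_le_conjugate hS1
    simpa using this
  have hX'1 : -1 ≤ X + ρ * S * ρ := by
    have h := up (-X) ρ hX.neg (neg_le_neg hX2) (by simpa using neg_le_neg hX1)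
      (by rw [hρ]; noncomm_ring)
    have h2 : -1 ≤ X - ρ * ρ := by
      have h3 := neg_le_neg h
      have e : -(-X + ρ * ρ) = X - ρ * ρ := by abel
      rwa [e] at h3
    have h4 : X - ρ * ρ ≤ X + ρ * S * ρ := by
      rw [sub_eq_add_neg]; exact add_le_add_right hlo X
    exact h2.trans h4
  have hX'2 : X + ρ * S * ρ ≤ 1 :=
    (add_le_add_right hup X).trans (up X ρ hX hX1 hX2 hρ)
  refine ⟨X + ρ * S * ρ, hX.add hsρSρ, hX'1, hX'2, fun T hT => ?_⟩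
  obtain ⟨n0, nsq, nadd, nsub, nsmul, nstar, nmulL, nmulR, nle, fle, fmul, mono, posf, posmul,
    imz, mulle⟩ := hTB A T hT
  have hSl' := hSl T hT
  have hneg : ∀ x, n2 T (-x) = n2 T x := by
    intro x
    have := nsmul (-1) x
    simpa using this
  constructor
  · -- the trace inequality
    obtain ⟨r1, -, -⟩ := hSl' (ρ * ρ) (by simp)
    obtain ⟨-, -, r2⟩ := hSl' (ρ * ρ * (ρ * ρ)) (by simp)
    obtain ⟨-, r3, -⟩ := hSl' (ρ * X * ρ) (by simp)
    have hRs : IsSelfAdjoint (ρ * ρ) := by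
      rw [isSelfAdjoint_iff]; simp [hρs.star_eq]
    have r2' := r2 (sq_nonneg' _ hRs)
    have t1 : T.f (X * (ρ * S * ρ)) = T.f (S * (ρ * X * ρ)) := by
      have : X * (ρ * S * ρ) = (X * ρ) * (S * ρ) := by noncomm_ring
      rw [this, T.tr]; congr 1; noncomm_ring
    have t2 : T.f (ρ * S * ρ * X) = T.f (S * (ρ * X * ρ)) := by
      have : ρ * S * ρ * X = ρ * (S * ρ * X) := by noncomm_ring
      rw [this, T.tr]; congr 1; noncomm_ring
    have t3 : T.f (ρ * S * ρ * (ρ * S * ρ)) = T.f (S * S * (ρ * ρ * (ρ * ρ)))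
        - T.f (S * ((S * (ρ * ρ) - (ρ * ρ) * S) * (ρ * ρ))) := by
      have : ρ * S * ρ * (ρ * S * ρ) = ρ * (S * ρ * ρ * S * ρ) := by noncomm_ring
      rw [this, T.tr, ← map_sub]; congr 1; noncomm_ring
    have t4 : T.f (1 - (X + ρ * S * ρ) * (X + ρ * S * ρ)) = T.f (1 - X * X)
        - 2 * T.f (S * (ρ * X * ρ)) - T.f (S * S * (ρ * ρ * (ρ * ρ)))
        + T.f (S * ((S * (ρ * ρ) - (ρ * ρ) * S) * (ρ * ρ))) := by
      have : 1 - (X + ρ * S * ρ) * (X + ρ * S * ρ) = (1 - X * X) - X * (ρ * S * ρ)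
        - ρ * S * ρ * X - ρ * S * ρ * (ρ * S * ρ) := by noncomm_ring
      rw [this, map_sub, map_sub, map_sub, t1, t2, t3]; ring
    have hnR : ‖ρ * ρ‖ ≤ 1 / 4 := by
      have := norm_mul_le ρ ρ
      nlinarith [norm_nonneg ρ]
    have b1 : ‖T.f (S * ((S * (ρ * ρ) - (ρ * ρ) * S) * (ρ * ρ)))‖ ≤ ε' := by
      have c1 := fle (S * ((S * (ρ * ρ) - (ρ * ρ) * S) * (ρ * ρ)))
      have c2 := nmulL S ((S * (ρ * ρ) - (ρ * ρ) * S) * (ρ * ρ))
      have c3 := nmulR (S * (ρ * ρ) - (ρ * ρ) * S) (ρ * ρ)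
      have c4 := n0 ((S * (ρ * ρ) - (ρ * ρ) * S) * (ρ * ρ))
      have c5 := n0 (S * (ρ * ρ) - (ρ * ρ) * S)
      have c6 : ‖S‖ * n2 T ((S * (ρ * ρ) - (ρ * ρ) * S) * (ρ * ρ)) ≤
          n2 T ((S * (ρ * ρ) - (ρ * ρ) * S) * (ρ * ρ)) := by
        nlinarith [norm_nonneg S]
      have c7 : n2 T (S * (ρ * ρ) - (ρ * ρ) * S) * ‖ρ * ρ‖ ≤
          n2 T (S * (ρ * ρ) - (ρ * ρ) * S) := by
        nlinarith [norm_nonneg (ρ * ρ)]
      linarith
    have hnρXρ : ‖ρ * X * ρ‖ ≤ 1 / 4 := by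
      have c1 := norm_mul_le (ρ * X) ρ
      have c2 := norm_mul_le ρ X
      have c3 : ‖ρ * X‖ ≤ 1 / 2 := by nlinarith [norm_nonneg ρ, norm_nonneg X]
      nlinarith [norm_nonneg ρ, norm_nonneg (ρ * X)]
    have hnRR : ‖ρ * ρ * (ρ * ρ)‖ ≤ 1 / 16 := by
      have c1 := norm_mul_le (ρ * ρ) (ρ * ρ)
      nlinarith [norm_nonneg (ρ * ρ)]
    -- Cauchy-Schwarz
    have k1 : (re T ρ) ^ 2 ≤ re T (ρ * ρ) := by
      have c1 := fle ρ
      have c2 := nsq ρ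
      rw [hρs.star_eq] at c2
      have c3 : |re T ρ| ≤ ‖T.f ρ‖ := Complex.abs_re_le_norm _
      rw [← c2, ← sq_abs]
      exact pow_le_pow_left₀ (abs_nonneg _) (c3.trans c1) 2
    have k2 : (re T (ρ * ρ)) ^ 2 ≤ re T (ρ * ρ * (ρ * ρ)) := by
      have c1 := fle (ρ * ρ)
      have c2 := nsq (ρ * ρ)
      rw [hRs.star_eq] at c2
      have c3 : |re T (ρ * ρ)| ≤ ‖T.f (ρ * ρ)‖ := Complex.abs_re_le_norm _
      rw [← c2, ← sq_abs]
      exact pow_le_pow_left₀ (abs_nonneg _) (c3.trans c1) 2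
    have k3 : (re T ρ) ^ 4 ≤ re T (ρ * ρ * (ρ * ρ)) := by
      have c1 : ((re T ρ) ^ 2) ^ 2 ≤ (re T (ρ * ρ)) ^ 2 :=
        pow_le_pow_left₀ (sq_nonneg _) k1 2
      calc (re T ρ) ^ 4 = ((re T ρ) ^ 2) ^ 2 := by ring
        _ ≤ _ := c1.trans k2
    have k4 : re T (1 - X * X) = 2 * re T ρ := by
      rw [← hρ]; simp [re]; ring
    have k5 : re T (1 - (X + ρ * S * ρ) * (X + ρ * S * ρ)) = re T (1 - X * X)
        - 2 * re T (S * (ρ * X * ρ)) - re T (S * S * (ρ * ρ * (ρ * ρ)))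
        + re T (S * ((S * (ρ * ρ) - (ρ * ρ) * S) * (ρ * ρ))) := by
      have := congrArg Complex.re t4
      simpa [re] using this
    have k6 : |re T (S * (ρ * X * ρ))| ≤ 24 / L ^ 4 * ‖ρ * X * ρ‖ + ε' :=
      (Complex.abs_re_le_norm _).trans r3
    have k7 : |re T (S * ((S * (ρ * ρ) - (ρ * ρ) * S) * (ρ * ρ)))| ≤ ε' :=
      (Complex.abs_re_le_norm _).trans b1
    have k8 : 24 / L ^ 4 * ‖ρ * X * ρ‖ ≤ 6 / L ^ 4 := by
      have : 24 / L ^ 4 * ‖ρ * X * ρ‖ ≤ 24 / L ^ 4 * (1 / 4) :=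
        mul_le_mul_of_nonneg_left hnρXρ (by positivity)
      calc _ ≤ _ := this
        _ = 6 / L ^ 4 := by ring
    have k9 : (re T ρ) ^ 4 / L ^ 2 - 1 / L ^ 4 - ε' ≤ re T (S * S * (ρ * ρ * (ρ * ρ))) := by
      have c1 : 12 / L ^ 2 * ‖ρ * ρ * (ρ * ρ)‖ ≤ 12 / L ^ 2 * (1 / 16) :=
        mul_le_mul_of_nonneg_left hnRR (by positivity)
      have c2 : ((re T ρ) ^ 4 - 12 / L ^ 2 * (1 / 16)) / L ^ 2 ≤
          (re T (ρ * ρ * (ρ * ρ)) - 12 / L ^ 2 * ‖ρ * ρ * (ρ * ρ)‖) / L ^ 2 := by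
        apply div_le_div_of_nonneg_right _ (by positivity)
        linarith
      have c3 : ((re T ρ) ^ 4 - 12 / L ^ 2 * (1 / 16)) / L ^ 2 =
          (re T ρ) ^ 4 / L ^ 2 - (3 / 4) / L ^ 4 := by
        field_simp
        ring
      have c4 : (3 / 4) / L ^ 4 ≤ 1 / L ^ 4 := by
        apply div_le_div_of_nonneg_right _ (by positivity)
        norm_num
      linarith
    have k10 : (re T (1 - X * X)) ^ 4 / (16 * L ^ 2) = (re T ρ) ^ 4 / L ^ 2 := by
      rw [k4]; field_simp; ring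
    rw [k10, k5]
    have k11 := abs_le.1 k6
    have k12 := abs_le.1 k7
    have k13 : 0 < 1 / L ^ 4 := by positivity
    have k14 : 6 / L ^ 4 = 6 * (1 / L ^ 4) := by ring
    have k15 : 60 / L ^ 4 = 60 * (1 / L ^ 4) := by ring
    rw [k15]
    rw [k14] at k8
    linarith [k11.1, k11.2, k12.1, k12.2]
  · intro j
    constructor
    · obtain ⟨r1, -, -⟩ := hSl' (a j) (by simp)
      have e1 : (X + ρ * S * ρ) * a j - a j * (X + ρ * S * ρ) =
          (X * a j - a j * X) + ((ρ * a j - a j * ρ) * (S * ρ) + (ρ * (S * a j - a j * S)) * ρ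
            + (ρ * S) * (ρ * a j - a j * ρ)) := by noncomm_ring
      have e2 : (ρ * a j - a j * ρ) + (ρ * a j - a j * ρ) =
          -(X * (X * a j - a j * X) + (X * a j - a j * X) * X) := by
        calc (ρ * a j - a j * ρ) + (ρ * a j - a j * ρ) = (ρ + ρ) * a j - a j * (ρ + ρ) := by
              noncomm_ring
          _ = (1 - X * X) * a j - a j * (1 - X * X) := by rw [hρ]
          _ = _ := by noncomm_ring
      have e3 : 2 * n2 T (ρ * a j - a j * ρ) = n2 T ((ρ * a j - a j * ρ) + (ρ * a j - a j * ρ)) := by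
        have := nsmul 2 (ρ * a j - a j * ρ)
        rw [two_smul] at this
        rw [this]; norm_num
      have e4 : n2 T (ρ * a j - a j * ρ) ≤ n2 T (X * a j - a j * X) := by
        rw [e2, hneg] at e3
        have c1 := nadd (X * (X * a j - a j * X)) ((X * a j - a j * X) * X)
        have c2 := nmulL X (X * a j - a j * X)
        have c3 := nmulR (X * a j - a j * X) X
        have c4 := n0 (X * a j - a j * X)
        have c5 : ‖X‖ * n2 T (X * a j - a j * X) ≤ n2 T (X * a j - a j * X) := by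
          nlinarith [norm_nonneg X]
        have c6 : n2 T (X * a j - a j * X) * ‖X‖ ≤ n2 T (X * a j - a j * X) := by
          nlinarith [norm_nonneg X]
        linarith
      have d1 := nadd (X * a j - a j * X) ((ρ * a j - a j * ρ) * (S * ρ)
        + (ρ * (S * a j - a j * S)) * ρ + (ρ * S) * (ρ * a j - a j * ρ))
      have d2 := nadd ((ρ * a j - a j * ρ) * (S * ρ) + (ρ * (S * a j - a j * S)) * ρ)
        ((ρ * S) * (ρ * a j - a j * ρ))
      have d3 := nadd ((ρ * a j - a j * ρ) * (S * ρ)) ((ρ * (S * a j - a j * S)) * ρ)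
      have hSρ : ‖S * ρ‖ ≤ 1 / 2 := by
        have := norm_mul_le S ρ
        nlinarith [norm_nonneg S, norm_nonneg ρ]
      have hρS : ‖ρ * S‖ ≤ 1 / 2 := by
        have := norm_mul_le ρ S
        nlinarith [norm_nonneg S, norm_nonneg ρ]
      have d4 := nmulR (ρ * a j - a j * ρ) (S * ρ)
      have d5 := nmulR (ρ * (S * a j - a j * S)) ρ
      have d6 := nmulL ρ (S * a j - a j * S)
      have d7 := nmulL (ρ * S) (ρ * a j - a j * ρ)
      have g1 := n0 (ρ * a j - a j * ρ)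
      have g2 := n0 (S * a j - a j * S)
      have g3 := n0 (ρ * (S * a j - a j * S))
      have f4 : n2 T (ρ * a j - a j * ρ) * ‖S * ρ‖ ≤ n2 T (ρ * a j - a j * ρ) * (1 / 2) :=
        mul_le_mul_of_nonneg_left hSρ g1
      have f7 : ‖ρ * S‖ * n2 T (ρ * a j - a j * ρ) ≤ (1 / 2) * n2 T (ρ * a j - a j * ρ) :=
        mul_le_mul_of_nonneg_right hρS g1
      have f5 : n2 T (ρ * (S * a j - a j * S)) * ‖ρ‖ ≤ n2 T (ρ * (S * a j - a j * S)) := by
        nlinarith [norm_nonneg ρ]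
      have f6 : ‖ρ‖ * n2 T (S * a j - a j * S) ≤ n2 T (S * a j - a j * S) := by
        nlinarith [norm_nonneg ρ]
      rw [e1]
      linarith
    · obtain ⟨-, r1, -⟩ := hSl' (ρ * a j * ρ) (by simp)
      have e1 : T.f ((X + ρ * S * ρ) * a j) - T.f (X * a j) = T.f (S * (ρ * a j * ρ)) := by
        rw [← map_sub]
        have : (X + ρ * S * ρ) * a j - X * a j = ρ * (S * ρ * a j) := by noncomm_ring
        rw [this, T.tr]; congr 1; noncomm_ring
      rw [e1]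
      refine r1.trans ?_
      have c1 : ‖ρ * a j * ρ‖ ≤ ‖a j‖ := by
        have d1 := norm_mul_le (ρ * a j) ρ
        have d2 := norm_mul_le ρ (a j)
        have d3 : ‖ρ‖ * ‖a j‖ ≤ ‖a j‖ := by nlinarith [norm_nonneg ρ, norm_nonneg (a j)]
        have d4 : ‖ρ * a j‖ * ‖ρ‖ ≤ ‖ρ * a j‖ := by nlinarith [norm_nonneg ρ, norm_nonneg (ρ * a j)]
        linarith
      have c2 : 24 / L ^ 4 * ‖ρ * a j * ρ‖ ≤ 24 / L ^ 4 * ‖a j‖ :=
        mul_le_mul_of_nonneg_left c1 (by positivity)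
      linarith

end Pool.Agent.H327R4.NU
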