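import Pool.Agent.H327R4.NU.TCELL
import Pool.Agent.H327R4.NU.TCEN
import Pool.Agent.H327R4.NU.TCOM
import Pool.Agent.H327R4.NU.TCUT
import Pool.Agent.H327R4.NU.TFOI1
import Pool.Agent.H327R4.NU.TFOI2
import Pool.Agent.H327R4.NU.THER
import Pool.Agent.H327R4.NU.TKAP
import Pool.Agent.H327R4.NU.TLIP
import Pool.Agent.H327R4.NU.TREFA
import Pool.Agent.H327R4.NU.TREFB
import Pool.Agent.H327R4.NU.TREFC
import Pool.Agent.H327R4.NU.TSEQ
import Pool.Agent.H327R4.NU.TSTEP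
import Pool.Agent.H327R4.NU.TTB
import Pool.Agent.H327R4.NU.TTRUNC
import Pool.Agent.H327R4.NU.TTWO
import Pool.Agent.H327R4.NU.TVAR
import Pool.Agent.H327R4.NU.TVAR1
import Pool.Agent.H327R4.NU.TW2A

/-!
# Assembly of the finished parts
-/

set_option autoImplicit false

namespace Pool.Agent.H327R4.NU

open Pool.Agent.H327R4.Pure

universe u

theorem a_LIP : StLIP.{u} := t_LIP t_TB
theorem a_STEP : StSTEP.{u} := t_STEP t_TB
theorem a_TWO : StTWO.{u} := t_TWO a_STEP t_TB a_LIP t_KAP t_HER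
theorem a_CUT : StCUT.{u} := t_CUT t_TB a_TWO t_HER
theorem a_REFA : StREFA.{u} := t_REFA t_TB
theorem a_REFB : StREFB.{u} := t_REFB t_TB a_LIP
theorem a_REFC : StREFC.{u} := t_REFC t_TB a_REFB
theorem a_CELL : StCELL.{u} := t_CELL t_TB
theorem a_FOI1 : StFOI1.{u} := t_FOI1 t_TB
theorem a_COM : StCOM.{u} := t_COM t_TB
theorem a_CEN (hONE : StONE.{u}) : StCEN.{u} := t_CEN t_TB t_VAR t_VAR1 (t_SEQ t_TB hONE)
theorem a_TRUNC : StTRUNC.{u} := t_TRUNC t_TB a_LIP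
theorem a_W2A : StW2A.{u} := t_W2A t_TB

theorem cell_of_div (A : Type u) [CStarAlgebra A] [PartialOrder A] [StarOrderedRing A] [TrSet A]
    (hD : DIV A) : Cell A := a_CELL A (a_REFC A (a_REFA A (a_CUT A hD)))

theorem foi_of_div (A : Type u) [CStarAlgebra A] [PartialOrder A] [StarOrderedRing A] [TrSet A]
    (hD : DIV A) : FOI A := t_FOI2 A (a_FOI1 A hD (cell_of_div A hD))

theorem main_rest (hDIV : StDIV.{u}) (hONE : StONE.{u}) (hW2B : StW2B.{u}) : StMAIN.{u} :=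
  main_of hDIV a_CUT a_REFA a_REFC a_CELL a_FOI1 t_FOI2 a_COM (a_CEN hONE) a_TRUNC a_W2A hW2B

end Pool.Agent.H327R4.NU
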