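import Pool.Agent.H327R4.NU.Stubs

set_option autoImplicit false

namespace Pool.Agent.H327R4.NU

open Filter Topology Pool.Agent.H327R4.Pure

universe u

theorem ONE_norm {A : Type u} [CStarAlgebra A] [PartialOrder A] [StarOrderedRing A] [TrSet A] (V : A)
    (hV : IsSelfAdjoint V) (h1 : -1 ≤ V) (h2 : V ≤ 1) : ‖V‖ ≤ 1 := by
  have e : cfc (id : ℝ → ℝ) V = V := cfc_id ℝ V
  rw [← e]
  refine norm_cfc_le zero_le_one ?_
  intro x hx
  have h3 : ∀ x ∈ spectrum ℝ V, x ≤ 1 := by
    rw [← le_algebraMap_iff_spectrum_le]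
    rw [map_one]; exact h2
  have h4 : ∀ x ∈ spectrum ℝ V, -1 ≤ x := by
    rw [← algebraMap_le_iff_le_spectrum]
    rw [map_neg, map_one]; exact h1
  rw [id, Real.norm_eq_abs, abs_le]
  exact ⟨h4 x hx, h3 x hx⟩

theorem ONE_rot {A : Type u} [CStarAlgebra A] [TrSet A] (T : Tr A) (x y z w : A) :
    T.f (x * (y * (z * w))) = T.f (y * (z * (w * x))) := by
  rw [T.tr]; simp only [mul_assoc]

theorem ONE_four {A : Type u} [CStarAlgebra A] [TrSet A] (T : Tr A) (X W : A) :
    T.f ((X + W) * (X + W) * ((X + W) * (X + W))) = T.f (X * X * (X * X)) +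
      4 * T.f (W * (X * X * X)) + T.f ((X * W + W * X) * (X * W + W * X)) +
      2 * T.f (W * X * (X * W)) + 4 * T.f (X * (W * (W * W))) + T.f (W * W * (W * W)) := by
  have e : (X + W) * (X + W) * ((X + W) * (X + W)) =
      X * (X * (X * X)) + X * (X * (X * W)) + X * (X * (W * X)) + X * (X * (W * W)) +
      X * (W * (X * X)) + X * (W * (X * W)) + X * (W * (W * X)) + X * (W * (W * W)) +
      W * (X * (X * X)) + W * (X * (X * W)) + W * (X * (W * X)) + W * (X * (W * W)) +
      W * (W * (X * X)) + W * (W * (X * W)) + W * (W * (W * X)) + W * (W * (W * W)) := by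
    noncomm_ring
  have e2 : (X * W + W * X) * (X * W + W * X) = X * (W * (X * W)) + X * (W * (W * X)) +
      W * (X * (X * W)) + W * (X * (W * X)) := by noncomm_ring
  rw [e, e2]
  simp only [map_add, mul_assoc]
  have r1 := ONE_rot T X X X W
  have r2 := ONE_rot T X X W X
  have r3 := ONE_rot T X W X X
  have s1 := ONE_rot T X X W W
  have s2 := ONE_rot T X W W X
  have s3 := ONE_rot T W W X X
  have q1 := ONE_rot T X W W W
  have q2 := ONE_rot T W X W W
  have q3 := ONE_rot T W W X W
  linear_combination r1 + 2 * r2 + 3 * r3 + s1 + s2 + 2 * s3 - q1 + 2 * q2 + q3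

theorem t_ONE (hTB : StTB.{u}) : StONE.{u} := by
  intro A _ _ _ _ T hT X V a μ hμ hX hV hV1 hV2 ha
  obtain ⟨t1, t2, t3, t4, t5, t6, t7, t8, t9, t10, t11, t12, t13, t14, t15, t16⟩ := hTB A T hT
  have hVn := ONE_norm V hV hV1 hV2
  set W : A := (μ : ℂ) • V with hW
  have hWs : star W = W := by
    rw [hW, star_smul, hV.star_eq, Complex.star_def, Complex.conj_ofReal]
  have hXs : star X = X := hX.star_eq
  have has : star a = a := ha.star_eq
  have hn : ‖((μ : ℝ) : ℂ)‖ = μ := by rw [Complex.norm_real, Real.norm_eq_abs, abs_of_nonneg hμ]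
  refine ⟨?_, ?_, ?_⟩
  · -- commutators
    have e0 : (X + W) * a - a * (X + W) = (X * a - a * X) + (W * a - a * W) := by noncomm_ring
    set C : A := X * a - a * X with hC
    set E : A := W * a - a * W with hE
    have hCs : star C = -C := by
      rw [hC, star_sub, star_mul, star_mul, hXs, has]; abel
    have hEs : star E = -E := by
      rw [hE, star_sub, star_mul, star_mul, hWs, has]; abel
    have hEn : n2 T E ^ 2 = μ ^ 2 * n2 T (V * a - a * V) ^ 2 := by
      have : E = (μ : ℂ) • (V * a - a * V) := by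
        rw [hE, hW, smul_mul_assoc, mul_smul_comm, smul_sub]
      rw [this, t5, hn, mul_pow]
    have hcross : T.f (star C * E) + T.f (star E * C)
        = 2 * ((μ : ℂ) * T.f (V * (C * a - a * C))) := by
      have k1 : T.f (W * (C * a - a * C)) = (μ : ℂ) * T.f (V * (C * a - a * C)) := by
        rw [hW, smul_mul_assoc, map_smul, smul_eq_mul]
      rw [← k1, hCs, hEs, neg_mul, neg_mul, map_neg, map_neg, T.tr C E]
      have k2 : E * C = W * (a * C) - a * (W * C) := by rw [hE]; noncomm_ring
      have k3 : T.f (a * (W * C)) = T.f (W * (C * a)) := by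
        rw [T.tr a (W * C), mul_assoc]
      have k4 : T.f (W * (C * a - a * C)) = T.f (W * (C * a)) - T.f (W * (a * C)) := by
        rw [← map_sub]
        congr 1
        exact mul_sub _ _ _
      have k5 : T.f (E * C) = T.f (W * (a * C)) - T.f (a * (W * C)) := by
        rw [← map_sub, ← k2]
      rw [k4, k5, k3]
      ring
    have hexp : n2 T (C + E) ^ 2 = n2 T C ^ 2 + n2 T E ^ 2
        + 2 * (μ * (T.f (V * (C * a - a * C))).re) := by
      rw [t2, t2, t2]
      unfold re
      have : star (C + E) * (C + E) = star C * C + star E * E + (star C * E + star E * C) := by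
        rw [star_add]; noncomm_ring
      rw [this, map_add, map_add, map_add, hcross]
      simp only [Complex.add_re, Complex.mul_re, Complex.ofReal_re, Complex.ofReal_im,
        Complex.re_ofNat, Complex.im_ofNat, zero_mul, sub_zero]
    rw [e0, hexp, hEn]
    have h5 : (T.f (V * (C * a - a * C))).re ≤ ‖T.f (V * (C * a - a * C))‖ :=
      Complex.re_le_norm _
    have h6 := mul_le_mul_of_nonneg_left h5 hμ
    linarith
  · -- second moments
    have e0 : (X + W) * (X + W) * a = X * X * a + (X * (W * a) + W * (X * a)) + W * W * a := by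
      noncomm_ring
    have e1 : T.f (X * (W * a)) + T.f (W * (X * a)) = (μ : ℂ) * T.f (V * (X * a + a * X)) := by
      have k1 : T.f (W * (X * a + a * X)) = (μ : ℂ) * T.f (V * (X * a + a * X)) := by
        rw [hW, smul_mul_assoc, map_smul, smul_eq_mul]
      rw [← k1, T.tr X (W * a), mul_add, map_add, mul_assoc]
      ring
    have e2 : T.f (W * W * a) = (μ : ℂ) ^ 2 * T.f (V * V * a) := by
      rw [hW]
      simp only [smul_mul_assoc, mul_smul_comm, smul_smul, map_smul, smul_eq_mul]
      ring
    have e3 : re T ((X + W) * (X + W) * a) - re T (X * X * a) - μ ^ 2 * re T (V * V * a)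
        = μ * (T.f (V * (X * a + a * X))).re := by
      unfold re
      rw [e0, map_add, map_add, map_add, e1, e2]
      have : ((μ : ℂ) ^ 2 * T.f (V * V * a)).re = μ ^ 2 * (T.f (V * V * a)).re := by
        rw [← Complex.ofReal_pow, Complex.re_ofReal_mul]
      rw [Complex.add_re, Complex.add_re, this, Complex.re_ofReal_mul]
      ring
    rw [e3, abs_mul, abs_of_nonneg hμ]
    exact mul_le_mul_of_nonneg_left (Complex.abs_re_le_norm _) hμ
  · -- fourth moments
    have hX2 : re T (X * X) = n2 T X ^ 2 := by rw [t2, hXs]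
    have k1 : re T (W * (X * X * X)) ≤ μ * ‖T.f (V * (X * X * X))‖ := by
      have : T.f (W * (X * X * X)) = (μ : ℂ) * T.f (V * (X * X * X)) := by
        rw [hW, smul_mul_assoc, map_smul, smul_eq_mul]
      unfold re
      rw [this, Complex.re_ofReal_mul]
      exact mul_le_mul_of_nonneg_left (Complex.re_le_norm _) hμ
    have hWn : n2 T (X * W) ≤ μ * n2 T X := by
      have h1 := t8 X W
      have h2 : ‖W‖ ≤ μ := by
        rw [hW, norm_smul, hn]
        calc μ * ‖V‖ ≤ μ * 1 := mul_le_mul_of_nonneg_left hVn hμ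
          _ = μ := mul_one μ
      calc n2 T (X * W) ≤ n2 T X * ‖W‖ := h1
        _ ≤ n2 T X * μ := mul_le_mul_of_nonneg_left h2 (t1 X)
        _ = μ * n2 T X := by ring
    have hWn' : n2 T (W * X) ≤ μ * n2 T X := by
      have h1 := t6 (X * W)
      rw [star_mul, hWs, hXs] at h1
      rw [h1]; exact hWn
    have k2 : re T ((X * W + W * X) * (X * W + W * X)) ≤ 4 * μ ^ 2 * re T (X * X) := by
      have h1 : re T ((X * W + W * X) * (X * W + W * X)) = n2 T (X * W + W * X) ^ 2 := by
        rw [t2]
        congr 2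
        rw [star_add, star_mul, star_mul, hWs, hXs]
        abel
      rw [h1, hX2]
      have h2 := t3 (X * W) (W * X)
      have h3 : n2 T (X * W + W * X) ≤ 2 * μ * n2 T X := by linarith
      have h4 := pow_le_pow_left₀ (t1 _) h3 2
      calc n2 T (X * W + W * X) ^ 2 ≤ (2 * μ * n2 T X) ^ 2 := h4
        _ = 4 * μ ^ 2 * n2 T X ^ 2 := by ring
    have k3 : re T (W * X * (X * W)) ≤ μ ^ 2 * re T (X * X) := by
      have h1 : re T (W * X * (X * W)) = n2 T (X * W) ^ 2 := by
        rw [t2, star_mul, hWs, hXs]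
      rw [h1, hX2]
      have h4 := pow_le_pow_left₀ (t1 _) hWn 2
      calc n2 T (X * W) ^ 2 ≤ (μ * n2 T X) ^ 2 := h4
        _ = μ ^ 2 * n2 T X ^ 2 := by ring
    have hV3 : n2 T (V * (V * V)) ≤ 1 := by
      refine (t9 _).trans ?_
      calc ‖V * (V * V)‖ ≤ ‖V‖ * ‖V * V‖ := norm_mul_le _ _
        _ ≤ ‖V‖ * (‖V‖ * ‖V‖) := mul_le_mul_of_nonneg_left (norm_mul_le _ _) (norm_nonneg _)
        _ ≤ 1 * (1 * 1) := by
          apply mul_le_mul hVn (mul_le_mul hVn hVn (norm_nonneg _) zero_le_one)
            (by positivity) zero_le_one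
        _ = 1 := by norm_num
    have k4 : re T (X * (W * (W * W))) ≤ μ ^ 3 * n2 T X := by
      have h1 : T.f (X * (W * (W * W))) = ((μ ^ 3 : ℝ) : ℂ) * T.f (X * (V * (V * V))) := by
        rw [hW]
        simp only [smul_mul_assoc, mul_smul_comm, smul_smul, map_smul, smul_eq_mul]
        push_cast
        ring
      unfold re
      rw [h1, Complex.re_ofReal_mul]
      have h2 : (T.f (X * (V * (V * V)))).re ≤ n2 T X := by
        calc (T.f (X * (V * (V * V)))).re ≤ ‖T.f (X * (V * (V * V)))‖ := Complex.re_le_norm _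
          _ ≤ n2 T X * n2 T (V * (V * V)) := t11 _ _
          _ ≤ n2 T X * 1 := mul_le_mul_of_nonneg_left hV3 (t1 X)
          _ = n2 T X := mul_one _
      exact mul_le_mul_of_nonneg_left h2 (by positivity)
    have k5 : re T (W * W * (W * W)) ≤ μ ^ 4 := by
      have h1 : T.f (W * W * (W * W)) = ((μ ^ 4 : ℝ) : ℂ) * T.f (V * (V * (V * V))) := by
        rw [hW]
        simp only [smul_mul_assoc, mul_smul_comm, smul_smul, map_smul, smul_eq_mul, mul_assoc]
        push_cast
        ring
      unfold re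
      rw [h1, Complex.re_ofReal_mul]
      have h2 : (T.f (V * (V * (V * V)))).re ≤ 1 := by
        calc (T.f (V * (V * (V * V)))).re ≤ ‖T.f (V * (V * (V * V)))‖ := Complex.re_le_norm _
          _ ≤ n2 T V * n2 T (V * (V * V)) := t11 _ _
          _ ≤ 1 * 1 := mul_le_mul ((t9 V).trans hVn) hV3 (t1 _) zero_le_one
          _ = 1 := by norm_num
      calc μ ^ 4 * (T.f (V * (V * (V * V)))).re ≤ μ ^ 4 * 1 :=
            mul_le_mul_of_nonneg_left h2 (by positivity)
        _ = μ ^ 4 := mul_one _
    have k6 : re T ((X + W) * (X + W) * ((X + W) * (X + W))) = re T (X * X * (X * X)) +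
      4 * re T (W * (X * X * X)) + re T ((X * W + W * X) * (X * W + W * X)) +
      2 * re T (W * X * (X * W)) + 4 * re T (X * (W * (W * W))) + re T (W * W * (W * W)) := by
      unfold re
      rw [ONE_four]
      simp only [Complex.add_re, Complex.mul_re, Complex.re_ofNat, Complex.im_ofNat, zero_mul,
        sub_zero]
    rw [k6]
    linarith

end Pool.Agent.H327R4.NU
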