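import Pool.Agent.H327R4.NU.Stubs

set_option autoImplicit false

namespace Pool.Agent.H327R4.NU

open Filter Topology Pool.Agent.H327R4.Pure

universe u

theorem W2B_iter {A : Type u} [CStarAlgebra A] [PartialOrder A] [StarOrderedRing A] [TrSet A]
    (hTB : StTB.{u}) (h : W2 A) (L : ℝ) (hL : 1 ≤ L) (m : ℕ) (a : Fin m → A) (ε' t δ : ℝ)
    (hε' : 0 < ε') (ht : 0 < t) (hδ : 60 / L ^ 4 + ε' ≤ δ) (J : ℕ) (hJ : 1 ≤ J)
    (htδ : δ + 1 / J ≤ t ^ 4 / (16 * L ^ 2)) (j : ℕ) :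
    ∃ X : A, IsSelfAdjoint X ∧ -1 ≤ X ∧ X ≤ 1 ∧ ∀ T : Tr A, St T →
      (re T (1 - X * X) ≤ t + j * δ ∨ re T (1 - X * X) ≤ 1 - j / J) ∧
      ∀ i, n2 T (X * a i - a i * X) ≤ (2 ^ j - 1) * ε' ∧
        ‖T.f (X * a i)‖ ≤ j * (24 / L ^ 4 * ‖a i‖ + ε') := by
  have hδ0 : 0 < δ := by
    have : 0 ≤ 60 / L ^ 4 := by positivity
    linarith
  have hJr : (0 : ℝ) < J := by exact_mod_cast hJ
  induction j with
  | zero =>
    refine ⟨0, IsSelfAdjoint.zero A, ?_, zero_le_one, ?_⟩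
    · exact neg_nonpos.mpr zero_le_one
    · intro T hT
      obtain ⟨t1, t2, t3, t4, t5, t6, t7, t8, t9, t10, -⟩ := hTB A T hT
      refine ⟨Or.inr ?_, ?_⟩
      · have : re T (1 - 0 * 0) = 1 := by
          unfold re
          rw [mul_zero, sub_zero]
          have : T.f 1 = 1 := hT.1
          rw [this]; simp
        rw [this]; simp
      · intro i
        constructor
        · have h0 : n2 T (0 * a i - a i * 0) ≤ 0 := by
            have := t9 (0 * a i - a i * 0)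
            simpa using this
          simpa using h0
        · simp
  | succ j ih =>
    obtain ⟨X, hX, hX1, hX2, hXT⟩ := ih
    obtain ⟨X', hX', hX1', hX2', hXT'⟩ := h L hL m a X ε' hX hX1 hX2 hε'
    refine ⟨X', hX', hX1', hX2', ?_⟩
    intro T hT
    obtain ⟨p1, p2⟩ := hXT T hT
    obtain ⟨q1, q2⟩ := hXT' T hT
    refine ⟨?_, ?_⟩
    · have hf4 : 0 ≤ re T (1 - X * X) ^ 4 / (16 * L ^ 2) := by positivity
      rcases p1 with p1 | p1
      · left
        push_cast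
        linarith
      · rcases le_or_gt (re T (1 - X * X)) t with hle | hgt
        · left
          have hj : 0 ≤ (j : ℝ) * δ := by positivity
          push_cast
          linarith
        · right
          have h5 : t ^ 4 / (16 * L ^ 2) ≤ re T (1 - X * X) ^ 4 / (16 * L ^ 2) := by
            apply div_le_div_of_nonneg_right _ (by positivity)
            exact pow_le_pow_left₀ ht.le hgt.le 4
          have e : ((j + 1 : ℕ) : ℝ) / J = j / J + 1 / J := by push_cast; ring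
          rw [e]
          linarith
    · intro i
      obtain ⟨a1, a2⟩ := p2 i
      obtain ⟨b1, b2⟩ := q2 i
      constructor
      · have e : ((2 : ℝ) ^ (j + 1) - 1) * ε' = 2 * ((2 ^ j - 1) * ε') + ε' := by ring
        rw [e]
        linarith
      · have h5 : ‖T.f (X' * a i)‖ ≤ ‖T.f (X' * a i) - T.f (X * a i)‖ + ‖T.f (X * a i)‖ := by
          have := norm_add_le (T.f (X' * a i) - T.f (X * a i)) (T.f (X * a i))
          rwa [sub_add_cancel] at this
        push_cast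
        linarith

theorem t_W2B (hTB : StTB.{u}) : StW2B.{u} := by
  intro A _ _ _ _ h m a ε hε
  set B : ℝ := ∑ i, ‖a i‖ with hB
  have hB0 : 0 ≤ B := Finset.sum_nonneg fun i _ => norm_nonneg _
  have hBi : ∀ i, ‖a i‖ ≤ B := fun i =>
    Finset.single_le_sum (f := fun i => ‖a i‖) (fun i _ => norm_nonneg _) (Finset.mem_univ i)
  obtain ⟨M, hM⟩ := exists_nat_gt (992 / ε ^ 4 + (61 + 24 * B) / ε + 1)
  have hp1 : 0 ≤ 992 / ε ^ 4 := by positivity
  have hp2 : 0 ≤ (61 + 24 * B) / ε := by positivity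
  have hM1 : (1 : ℝ) ≤ M := by linarith
  have hM0 : (0 : ℝ) < M := by linarith
  have hMn : 1 ≤ M := by exact_mod_cast hM1
  have hMa : 992 / ε ^ 4 ≤ M := by linarith
  have hMb : (61 + 24 * B) / ε ≤ M := by linarith
  set L : ℝ := (M : ℝ) ^ 2 with hL
  set J : ℕ := M ^ 7 with hJ
  have hL1 : 1 ≤ L := one_le_pow₀ hM1
  have hJ1 : 1 ≤ J := Nat.one_le_pow _ _ hMn
  have hJr : (J : ℝ) = (M : ℝ) ^ 7 := by rw [hJ]; push_cast; rfl
  set ε' : ℝ := 1 / ((M : ℝ) ^ 8 * 2 ^ J) with hε'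
  have hε'0 : 0 < ε' := by positivity
  have h2J : (1 : ℝ) ≤ 2 ^ J := one_le_pow₀ (by norm_num)
  have hε'1 : ε' ≤ 1 / (M : ℝ) ^ 8 := by
    rw [hε']
    apply one_div_le_one_div_of_le (by positivity)
    have : (0 : ℝ) < (M : ℝ) ^ 8 := by positivity
    nlinarith
  set δ : ℝ := 61 / (M : ℝ) ^ 8 with hδ
  have hδ1 : 60 / L ^ 4 + ε' ≤ δ := by
    have e1 : L ^ 4 = (M : ℝ) ^ 8 := by rw [hL]; ring
    rw [e1, hδ]
    have : (61 : ℝ) / (M : ℝ) ^ 8 = 60 / (M : ℝ) ^ 8 + 1 / (M : ℝ) ^ 8 := by ring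
    linarith
  have hM3 : (M : ℝ) ≤ (M : ℝ) ^ 3 := by nlinarith [mul_nonneg (by linarith : (0:ℝ) ≤ M - 1) hM0.le, mul_nonneg (mul_nonneg (by linarith : (0:ℝ) ≤ M - 1) hM0.le) hM0.le]
  have htδ : δ + 1 / J ≤ ε ^ 4 / (16 * L ^ 2) := by
    rw [hδ, hJr, hL]
    have h1 : 61 / (M : ℝ) ^ 8 + 1 / (M : ℝ) ^ 7 ≤ 62 / (M : ℝ) ^ 7 := by
      have : 61 / (M : ℝ) ^ 8 ≤ 61 / (M : ℝ) ^ 7 := by
        apply div_le_div_of_nonneg_left (by norm_num) (by positivity)
        exact pow_le_pow_right₀ hM1 (by norm_num)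
      have e : (62 : ℝ) / (M : ℝ) ^ 7 = 61 / (M : ℝ) ^ 7 + 1 / (M : ℝ) ^ 7 := by ring
      linarith
    refine h1.trans ?_
    rw [div_le_div_iff₀ (by positivity) (by positivity)]
    have h2 : 992 ≤ ε ^ 4 * (M : ℝ) ^ 3 := by
      rw [div_le_iff₀ (by positivity)] at hMa
      have h4 : (0 : ℝ) ≤ ε ^ 4 := by positivity
      calc (992 : ℝ) ≤ M * ε ^ 4 := hMa
        _ ≤ (M : ℝ) ^ 3 * ε ^ 4 := mul_le_mul_of_nonneg_right hM3 h4
        _ = ε ^ 4 * (M : ℝ) ^ 3 := by ring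
    have h3 : (0 : ℝ) ≤ (M : ℝ) ^ 4 := by positivity
    calc 62 * (16 * ((M : ℝ) ^ 2) ^ 2) = 992 * (M : ℝ) ^ 4 := by ring
      _ ≤ (ε ^ 4 * (M : ℝ) ^ 3) * (M : ℝ) ^ 4 := mul_le_mul_of_nonneg_right h2 h3
      _ = ε ^ 4 * (M : ℝ) ^ 7 := by ring
  obtain ⟨X, hX, hX1, hX2, hXT⟩ := W2B_iter hTB h L hL1 m a ε' ε δ hε'0 hε hδ1 J hJ1 htδ J
  -- consequences
  have hJδ : (J : ℝ) * δ ≤ ε := by
    rw [hJr, hδ]
    have e : (M : ℝ) ^ 7 * (61 / (M : ℝ) ^ 8) = 61 / M := by field_simp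
    rw [e, div_le_iff₀ hM0]
    rw [div_le_iff₀ hε] at hMb
    nlinarith
  have hcom : ((2 : ℝ) ^ J - 1) * ε' ≤ ε := by
    have h1 : ((2 : ℝ) ^ J - 1) * ε' ≤ 2 ^ J * ε' := by nlinarith
    have h2 : (2 : ℝ) ^ J * ε' = 1 / (M : ℝ) ^ 8 := by
      rw [hε']; field_simp
    have h3 : 1 / (M : ℝ) ^ 8 ≤ 1 / M := by
      apply one_div_le_one_div_of_le hM0
      calc (M : ℝ) = (M : ℝ) ^ 1 := (pow_one _).symm
        _ ≤ (M : ℝ) ^ 8 := pow_le_pow_right₀ hM1 (by norm_num)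
    have h4 : 1 / (M : ℝ) ≤ ε := by
      rw [div_le_iff₀ hM0]
      rw [div_le_iff₀ hε] at hMb
      nlinarith
    linarith
  have htr : ∀ i, (J : ℝ) * (24 / L ^ 4 * ‖a i‖ + ε') ≤ ε := by
    intro i
    have e1 : L ^ 4 = (M : ℝ) ^ 8 := by rw [hL]; ring
    rw [e1, hJr]
    have h1 : 24 / (M : ℝ) ^ 8 * ‖a i‖ + ε' ≤ (24 * B + 1) / (M : ℝ) ^ 8 := by
      have h2 : 24 / (M : ℝ) ^ 8 * ‖a i‖ ≤ 24 / (M : ℝ) ^ 8 * B :=
        mul_le_mul_of_nonneg_left (hBi i) (by positivity)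
      have e2 : (24 * B + 1) / (M : ℝ) ^ 8 = 24 / (M : ℝ) ^ 8 * B + 1 / (M : ℝ) ^ 8 := by ring
      rw [e2]
      linarith
    have h3 : (M : ℝ) ^ 7 * (24 / (M : ℝ) ^ 8 * ‖a i‖ + ε')
        ≤ (M : ℝ) ^ 7 * ((24 * B + 1) / (M : ℝ) ^ 8) :=
      mul_le_mul_of_nonneg_left h1 (by positivity)
    refine h3.trans ?_
    have e : (M : ℝ) ^ 7 * ((24 * B + 1) / (M : ℝ) ^ 8) = (24 * B + 1) / M := by field_simp
    rw [e, div_le_iff₀ hM0]
    rw [div_le_iff₀ hε] at hMb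
    nlinarith
  set e : A := (1 / 2 : ℂ) • (1 + X) with he
  have hereal : e = (1 / 2 : ℝ) • (1 + X) := by
    rw [he, ← Complex.coe_smul]
    norm_num
  refine ⟨e, ?_, ?_, ?_⟩
  · rw [hereal]
    apply smul_nonneg (by norm_num)
    have := add_le_add_right hX1 1
    have h0 : (0 : A) ≤ X + 1 := by
      have h1 : (-1 : A) + 1 ≤ X + 1 := by gcongr
      rwa [neg_add_cancel] at h1
    rwa [add_comm] at h0
  · rw [← sub_nonneg]
    have e1 : (1 : A) - e = (1 / 2 : ℝ) • (1 - X) := by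
      rw [hereal]
      have : (1 : A) = (1 / 2 : ℝ) • (1 + 1 : A) := by
        rw [← two_smul ℝ (1 : A), smul_smul]; norm_num
      nth_rw 1 [this]
      rw [← smul_sub]
      congr 1
      abel
    rw [e1]
    apply smul_nonneg (by norm_num)
    exact sub_nonneg.mpr hX2
  · intro T hT
    obtain ⟨t1, t2, t3, t4, t5, t6, t7, t8, t9, t10, -⟩ := hTB A T hT
    obtain ⟨p1, p2⟩ := hXT T hT
    refine ⟨?_, ?_⟩
    · have e1 : e - e * e = (1 / 4 : ℂ) • (1 - X * X) := by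
        rw [he, smul_mul_assoc, mul_smul_comm, smul_smul]
        have e2 : (1 + X) * (1 + X) = 1 + (2 : ℂ) • X + X * X := by
          rw [two_smul]; noncomm_ring
        rw [e2]
        simp only [smul_add, smul_sub, smul_smul]
        module
      have e3 : re T (e - e * e) = 1 / 4 * re T (1 - X * X) := by
        unfold re
        rw [e1, map_smul, smul_eq_mul]
        have : (1 / 4 : ℂ) = ((1 / 4 : ℝ) : ℂ) := by push_cast; rfl
        rw [this, Complex.re_ofReal_mul]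
      rw [e3]
      have hJJ : (J : ℝ) / J = 1 := div_self (by rw [hJr]; positivity)
      rcases p1 with p1 | p1
      · linarith
      · rw [hJJ] at p1
        linarith
    · intro i
      obtain ⟨a1, a2⟩ := p2 i
      constructor
      · have e1 : e * a i - a i * e = (1 / 2 : ℂ) • (X * a i - a i * X) := by
          rw [he, smul_mul_assoc, mul_smul_comm, ← smul_sub]
          congr 1
          noncomm_ring
        rw [e1, t5]
        have h5 : ‖(1 / 2 : ℂ)‖ = 1 / 2 := by norm_num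
        rw [h5]
        have := t1 (X * a i - a i * X)
        linarith
      · have e1 : T.f (e * a i) - (1 / 2 : ℂ) * T.f (a i) = (1 / 2 : ℂ) * T.f (X * a i) := by
          rw [he, smul_mul_assoc, map_smul, add_mul, one_mul, map_add, smul_eq_mul]
          ring
        rw [e1, norm_mul]
        have h5 : ‖(1 / 2 : ℂ)‖ = 1 / 2 := by norm_num
        rw [h5]
        have h6 := htr i
        have h7 := norm_nonneg (T.f (X * a i))
        linarith

end Pool.Agent.H327R4.NU
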