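import Pool.Agent.H327R4.Pure.Stubs2

/-!
# Uniform property Gamma for nuclear C*-algebras with strict comparison: definitions

`Tr A` (bounded positive traces), `SC A` (strict comparison by tracial states) and `SimpleC A`
(simple) are from `Pool.Agent.H327R4.Pure.Defs` / `Stubs2`.
-/

set_option autoImplicit false

namespace Pool.Agent.H327R4.NU

open Filter Topology Pool.Agent.H327R4.Pure

universe u

/-- a set of tracial states -/
class TrSet (A : Type u) [CStarAlgebra A] where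
  /-- the predicate -/
  P : Tr A → Prop

section basics

variable {A : Type u} [CStarAlgebra A]

/-- real part of the value of a trace -/
noncomputable def re (T : Tr A) (x : A) : ℝ := (T.f x).re

/-- the 2-norm of a trace -/
noncomputable def n2 (T : Tr A) (x : A) : ℝ := Real.sqrt (T.f (star x * x)).re

/-- a tracial state -/
def St [TrSet A] (T : Tr A) : Prop := T.f 1 = 1 ∧ TrSet.P T

/-- `x` lives under the (left and right) supports of `c` -/
def InHer (c x : A) : Prop := (∀ k : A, c * k = 0 → x * k = 0) ∧ (∀ k : A, k * c = 0 → k * x = 0)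

end basics

section order

variable (A : Type u) [CStarAlgebra A] [PartialOrder A] [StarOrderedRing A] [TrSet A]

/-- divisibility: under every positive contraction `k` there is a sum `p = x^*x + xx^*` of two
orthogonal equivalent elements which is, uniformly in the tracial states, almost a projection and
has almost the trace of `k`. -/
def DIV : Prop := ∀ (k : A) (ε : ℝ), 0 ≤ k → k ≤ 1 → 0 < ε →
  ∃ x : A, x * x = 0 ∧ InHer k x ∧ star x * x + x * star x ≤ 1 ∧
    ∀ T : Tr A, St T → |re T (star x * x + x * star x) - re T k| ≤ ε ∧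
      re T (star x * x + x * star x) -
        re T ((star x * x + x * star x) * (star x * x + x * star x)) ≤ ε

/-- the finite-dimensional C*-algebra `M_{n_0} ⊕ ... ⊕ M_{n_{b-1}}` -/
abbrev FD {b : ℕ} (n : Fin b → ℕ) : Type := ∀ i : Fin b, Matrix (Fin (n i)) (Fin (n i)) ℂ

variable {A}

/-- completely positive contractive maps `A → F` into a finite-dimensional C*-algebra `F`
(in `F` the positive elements are the elements `star c * c`). -/
def CPC {b : ℕ} {n : Fin b → ℕ} (ψ : A →ₗ[ℂ] FD n) : Prop :=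
  (∀ (m : ℕ) (a : Fin m → A) (x : Fin m → FD n),
    ∃ c : FD n, ∑ i, ∑ j, star (x i) * ψ (star (a i) * a j) * x j = star c * c) ∧
  ∃ c : FD n, 1 - ψ 1 = star c * c

/-- completely positive contractive order zero maps `F → A`: positive maps with
`φ(x) φ(y) = φ(1) φ(x y)` and `φ(1) ≤ 1`. -/
def OZ {b : ℕ} {n : Fin b → ℕ} (φ : FD n →ₗ[ℂ] A) : Prop :=
  (∀ x : FD n, 0 ≤ φ (star x * x)) ∧ (∀ x : FD n, φ (star x) = star (φ x)) ∧
    (∀ x y : FD n, φ x * φ y = φ 1 * φ (x * y)) ∧ φ 1 ≤ 1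

variable (A)

/-- decomposable approximations (Hirshberg, Kirchberg, White: every nuclear C*-algebra has them):
the identity of `A` is a point-norm limit of maps `∑_k l_k φ_k ψ`, `ψ : A → F` completely positive
contractive, `F` finite-dimensional, `φ_k : F → A` completely positive contractive of order zero,
`l_k ≥ 0` and `∑ l_k = 1`. -/
def Decomp : Prop := ∀ (m : ℕ) (a : Fin m → A) (ε : ℝ), 0 < ε →
  ∃ (b : ℕ) (n : Fin b → ℕ) (ψ : A →ₗ[ℂ] FD n) (K : ℕ) (l : Fin K → ℝ)
    (φ : Fin K → (FD n →ₗ[ℂ] A)), CPC ψ ∧ (∀ k, 0 ≤ l k) ∧ ∑ k, l k = 1 ∧ (∀ k, OZ (φ k)) ∧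
      ∀ j, ‖∑ k, (l k : ℂ) • φ k (ψ (a j)) - a j‖ ≤ ε

/-- uniform property Gamma: there are almost projections, almost commuting with finitely many
elements in the uniform 2-norm, which cut every trace in half. -/
def UGamma : Prop := ∀ (m : ℕ) (a : Fin m → A) (ε : ℝ), 0 < ε →
  ∃ e : A, 0 ≤ e ∧ e ≤ 1 ∧ ∀ T : Tr A, St T → re T (e - e * e) ≤ ε ∧
    ∀ j, n2 T (e * a j - a j * e) ≤ ε ∧ ‖T.f (e * a j) - (1 / 2 : ℂ) * T.f (a j)‖ ≤ ε

/-- symmetries with prescribed vanishing traces -/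
def FOI : Prop := ∀ (m : ℕ) (Y : Fin m → A) (g : A) (ε : ℝ), 0 ≤ g → g ≤ 1 → 0 < ε →
  ∃ v : A, IsSelfAdjoint v ∧ -1 ≤ v ∧ v ≤ 1 ∧ ∀ T : Tr A, St T → re T (1 - v * v) ≤ ε ∧
    n2 T (v * g - g * v) ≤ ε ∧ ∀ j, ‖T.f (v * Y j)‖ ≤ ε

/-- approximately central elements of mean zero with a lower bound for the variance -/
def SLem : Prop := ∀ (L : ℝ), 1 ≤ L → ∀ (m : ℕ) (a : Fin m → A) (ε : ℝ), 0 < ε →
  ∃ S : A, IsSelfAdjoint S ∧ -1 ≤ S ∧ S ≤ 1 ∧ ∀ T : Tr A, St T → ∀ j,
    n2 T (S * a j - a j * S) ≤ ε ∧ ‖T.f (S * a j)‖ ≤ 24 / L ^ 4 * ‖a j‖ + ε ∧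
    (0 ≤ a j → (re T (a j) - 12 / L ^ 2 * ‖a j‖) / L ^ 2 - ε ≤ re T (S * S * a j))

end order

end Pool.Agent.H327R4.NU
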