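import Pool.Agent.H327R4.NU.Stubs

/-!
# StCELL : Ref A -> Cell A (cells for finitely many elements), helper88
-/

set_option autoImplicit false

namespace Pool.Agent.H327R4.NU

open Filter Topology Pool.Agent.H327R4.Pure

universe u

namespace CELL

variable {A : Type u} [CStarAlgebra A] [PartialOrder A] [StarOrderedRing A] [TrSet A]

omit [PartialOrder A] [StarOrderedRing A] in
theorem re_add (T : Tr A) (x y : A) : re T (x + y) = re T x + re T y := by simp [re]
omit [PartialOrder A] [StarOrderedRing A] in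
theorem re_sub (T : Tr A) (x y : A) : re T (x - y) = re T x - re T y := by simp [re]
omit [PartialOrder A] [StarOrderedRing A] in
theorem re_sum (T : Tr A) {ι : Type*} (s : Finset ι) (x : ι → A) :
    re T (∑ i ∈ s, x i) = ∑ i ∈ s, re T (x i) := by simp [re]
omit [PartialOrder A] [StarOrderedRing A] in
theorem re_comm (T : Tr A) (x y : A) : re T (x * y) = re T (y * x) := by simp [re, T.tr x y]

theorem sq_le_self {D : A} (h0 : 0 ≤ D) (h1 : D ≤ 1) : D * D ≤ D := by
  have hs : IsSelfAdjoint D := IsSelfAdjoint.of_nonneg h0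
  have hs' : IsSelfAdjoint (1 - D) := (IsSelfAdjoint.one A).sub hs
  have a1 : 0 ≤ D * (1 - D) * D := hs.conjugate_nonneg (sub_nonneg.2 h1)
  have a2 : 0 ≤ (1 - D) * D * (1 - D) := hs'.conjugate_nonneg h0
  have : D - D * D = D * (1 - D) * D + (1 - D) * D * (1 - D) := by noncomm_ring
  rw [← sub_nonneg, this]
  exact add_nonneg a1 a2

theorem sum_le_one {ι : Type*} [Fintype ι] (D : ι → A) (h : ∀ i, 0 ≤ D i ∧ D i ≤ 1)
    (ho : ∀ i i', i ≠ i' → D i * D i' = 0) : ∑ i, D i ≤ 1 := by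
  classical
  set S := ∑ i, D i with hS
  have hS0 : 0 ≤ S := Finset.sum_nonneg fun i _ => (h i).1
  have hSS : S * S = ∑ i, D i * D i := by
    rw [hS, Finset.sum_mul_sum]
    refine Finset.sum_congr rfl fun i _ => ?_
    rw [Finset.sum_eq_single i]
    · intro b _ hb
      exact ho i b (Ne.symm hb)
    · intro hi
      exact absurd (Finset.mem_univ i) hi
  have hle : S * S ≤ S := by
    rw [hSS, hS]
    exact Finset.sum_le_sum fun i _ => sq_le_self (h i).1 (h i).2
  have hsa : IsSelfAdjoint S := IsSelfAdjoint.of_nonneg hS0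
  have h0 : 0 ≤ S * S := by
    have := star_mul_self_nonneg S
    rwa [hsa.star_eq] at this
  have hn : ‖S * S‖ ≤ ‖S‖ := CStarAlgebra.norm_le_norm_of_nonneg_of_le h0 hle
  have hn2 : ‖S * S‖ = ‖S‖ * ‖S‖ := by
    have := CStarRing.norm_star_mul_self (x := S)
    rwa [hsa.star_eq] at this
  have hS1 : ‖S‖ ≤ 1 := by
    rw [hn2] at hn
    by_contra hcon
    push Not at hcon
    nlinarith [norm_nonneg S]
  exact (CStarAlgebra.norm_le_one_iff_of_nonneg S hS0).1 hS1

theorem norm_le_one' {D : A} (h0 : 0 ≤ D) (h1 : D ≤ 1) : ‖D‖ ≤ 1 :=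
  (CStarAlgebra.norm_le_one_iff_of_nonneg D h0).2 h1

/-- estimate for one refined cell -/
theorem one_cell (hTB : StTB.{u}) (T : Tr A) (hT : St T) {ι : Type} [Fintype ι] (D : A)
    (D' : ι → A) (w : A) (hD0 : 0 ≤ D) (hD1 : D ≤ 1) (hw : ‖w‖ ≤ 3)
    (h : ∀ l, 0 ≤ D' l ∧ D' l ≤ 1) (ho : ∀ i i', i ≠ i' → D' i * D' i' = 0) :
    ∑ l, n2 T (D' l * w * D' l) ^ 2 ≤ 3 * n2 T (D * w * D) ^ 2 +
      54 * ∑ l, re T (D' l * (1 - D) * (1 - D) * D' l) := by
  classical
  obtain ⟨t0, tsq, tadd, tsub, tsm, tstar, tml, tmr, tle, tfle, tcs, tmono, tpos, tpp, tsa, tlast⟩ :=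
    hTB A T hT
  have hDs : IsSelfAdjoint D := IsSelfAdjoint.of_nonneg hD0
  have hD1s : IsSelfAdjoint (1 - D) := (IsSelfAdjoint.one A).sub hDs
  have hDn : ‖D‖ ≤ 1 := norm_le_one' hD0 hD1
  have hs : ∀ l, IsSelfAdjoint (D' l) := fun l => IsSelfAdjoint.of_nonneg (h l).1
  have hn : ∀ l, ‖D' l‖ ≤ 1 := fun l => norm_le_one' (h l).1 (h l).2
  set W := D * w * D with hW
  -- squares of one-sided pieces
  have e1 : ∀ l, n2 T (D' l * (1 - D)) ^ 2 = re T (D' l * (1 - D) * (1 - D) * D' l) := by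
    intro l
    rw [tsq, star_mul, (hs l).star_eq, hD1s.star_eq]
    have : (1 - D) * D' l * (D' l * (1 - D)) = ((1 - D) * D' l) * (D' l * (1 - D)) := rfl
    rw [this, re_comm]
    congr 1
    noncomm_ring
  have e2 : ∀ l, n2 T ((1 - D) * D' l) ^ 2 = re T (D' l * (1 - D) * (1 - D) * D' l) := by
    intro l
    rw [tsq, star_mul, (hs l).star_eq, hD1s.star_eq]
    congr 1
    noncomm_ring
  have e3 : ∀ l, n2 T (W * D' l) ^ 2 = re T (D' l * D' l * (star W * W)) := by
    intro l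
    rw [tsq, star_mul, (hs l).star_eq]
    have : D' l * star W * (W * D' l) = (D' l * (star W * W)) * D' l := by noncomm_ring
    rw [this, re_comm]
    congr 1
    noncomm_ring
  have b1 : ∀ l, n2 T (D' l * (1 - D) * w * D' l) ≤ 3 * n2 T (D' l * (1 - D)) := by
    intro l
    have : D' l * (1 - D) * w * D' l = (D' l * (1 - D)) * (w * D' l) := by noncomm_ring
    rw [this]
    have h1 := tmr (D' l * (1 - D)) (w * D' l)
    have h2 : ‖w * D' l‖ ≤ 3 := (norm_mul_le _ _).trans (by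
      nlinarith [hn l, hw, norm_nonneg w, norm_nonneg (D' l)])
    nlinarith [t0 (D' l * (1 - D))]
  have b2 : ∀ l, n2 T (D' l * D * w * (1 - D) * D' l) ≤ 3 * n2 T ((1 - D) * D' l) := by
    intro l
    have : D' l * D * w * (1 - D) * D' l = (D' l * D * w) * ((1 - D) * D' l) := by noncomm_ring
    rw [this]
    have h1 := tml (D' l * D * w) ((1 - D) * D' l)
    have h3 : ‖D' l * D‖ ≤ 1 := (norm_mul_le _ _).trans (by
      nlinarith [hn l, hDn, norm_nonneg D, norm_nonneg (D' l)])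
    have h2 : ‖D' l * D * w‖ ≤ 3 := (norm_mul_le _ _).trans (by
      nlinarith [hw, norm_nonneg w, norm_nonneg (D' l * D)])
    nlinarith [t0 ((1 - D) * D' l)]
  have b3 : ∀ l, n2 T (D' l * W * D' l) ≤ n2 T (W * D' l) := by
    intro l
    have : D' l * W * D' l = D' l * (W * D' l) := by noncomm_ring
    rw [this]
    have h1 := tml (D' l) (W * D' l)
    nlinarith [t0 (W * D' l), hn l]
  have key : ∀ l, n2 T (D' l * w * D' l) ^ 2 ≤ 3 * re T (D' l * D' l * (star W * W)) +
      54 * re T (D' l * (1 - D) * (1 - D) * D' l) := by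
    intro l
    have hdec : D' l * w * D' l = D' l * W * D' l + (D' l * (1 - D) * w * D' l +
        D' l * D * w * (1 - D) * D' l) := by
      rw [hW]; noncomm_ring
    have h1 : n2 T (D' l * w * D' l) ≤ n2 T (W * D' l) + (3 * n2 T (D' l * (1 - D)) +
        3 * n2 T ((1 - D) * D' l)) := by
      rw [hdec]
      refine (tadd _ _).trans (add_le_add (b3 l) ((tadd _ _).trans (add_le_add (b1 l) (b2 l))))
    have h2 : n2 T (D' l * w * D' l) ^ 2 ≤ (n2 T (W * D' l) + (3 * n2 T (D' l * (1 - D)) +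
        3 * n2 T ((1 - D) * D' l))) ^ 2 := by
      have := t0 (D' l * w * D' l)
      nlinarith
    have h3 : (n2 T (W * D' l) + (3 * n2 T (D' l * (1 - D)) +
        3 * n2 T ((1 - D) * D' l))) ^ 2 ≤ 3 * n2 T (W * D' l) ^ 2 +
        27 * n2 T (D' l * (1 - D)) ^ 2 + 27 * n2 T ((1 - D) * D' l) ^ 2 := by
      nlinarith [sq_nonneg (n2 T (W * D' l) - 3 * n2 T (D' l * (1 - D))),
        sq_nonneg (n2 T (W * D' l) - 3 * n2 T ((1 - D) * D' l)),
        sq_nonneg (3 * n2 T (D' l * (1 - D)) - 3 * n2 T ((1 - D) * D' l))]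
    rw [e1, e2, e3] at h3
    linarith
  have hsum : ∑ l, re T (D' l * D' l * (star W * W)) ≤ n2 T W ^ 2 := by
    rw [← re_sum, ← Finset.sum_mul, tsq]
    have hle : ∑ l, D' l * D' l ≤ 1 :=
      (Finset.sum_le_sum fun l _ => sq_le_self (h l).1 (h l).2).trans (sum_le_one D' h ho)
    have h0 : 0 ≤ ∑ l, D' l * D' l := Finset.sum_nonneg fun l _ => by
      have := star_mul_self_nonneg (D' l)
      rwa [(hs l).star_eq] at this
    exact tlast _ _ h0 hle (star_mul_self_nonneg W)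
  calc ∑ l, n2 T (D' l * w * D' l) ^ 2 ≤ ∑ l, (3 * re T (D' l * D' l * (star W * W)) +
      54 * re T (D' l * (1 - D) * (1 - D) * D' l)) := Finset.sum_le_sum fun l _ => key l
    _ = 3 * ∑ l, re T (D' l * D' l * (star W * W)) +
      54 * ∑ l, re T (D' l * (1 - D) * (1 - D) * D' l) := by
        rw [Finset.sum_add_distrib, Finset.mul_sum, Finset.mul_sum]
    _ ≤ _ := by linarith

/-- cells with a general finite index type -/
def CellF (A : Type u) [CStarAlgebra A] [PartialOrder A] [StarOrderedRing A] [TrSet A] (m : ℕ)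
    (y : Fin (m + 1) → A) (δ : ℝ) : Prop :=
  ∃ (ι : Type) (_ : Fintype ι) (D : ι → A) (t : ι → Fin (m + 1) → ℝ),
    (∀ i, 0 ≤ D i ∧ D i ≤ 1 ∧ ‖(y 0 - ((t i 0 : ℝ) : ℂ) • 1) * D i‖ ≤ δ ∧
      ∀ j, |t i j| ≤ 2) ∧
    (∀ i i', i ≠ i' → D i * D i' = 0) ∧
    ∀ T : Tr A, St T → 1 - ∑ i, re T (D i * D i) ≤ δ ∧
      ∀ j, ∑ i, n2 T (D i * (y j - ((t i j : ℝ) : ℂ) • 1) * D i) ^ 2 ≤ δ

theorem cellF (hTB : StTB.{u}) (hR : Ref A) : ∀ (m : ℕ) (y : Fin (m + 1) → A) (δ : ℝ),
    (∀ j, 0 ≤ y j ∧ y j ≤ 1) → 0 < δ → CellF A m y δ := by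
  intro m
  induction m with
  | zero =>
    intro y δ hy hδ
    obtain ⟨N, D', B, t, h1, h2, h3⟩ := hR 1 (y 0) δ δ zero_le_one le_rfl (hy 0).1 (hy 0).2 hδ hδ
    refine ⟨Fin N, inferInstance, D', fun l _ => t l, ?_, h2, ?_⟩
    · intro i
      obtain ⟨a1, a2, a3, a4, a5, a6⟩ := h1 i
      refine ⟨a1, a2, ?_, fun j => a6⟩
      have : (1 : A) * (1 + y 0) * 1 - ((1 + t i : ℝ) : ℂ) • 1 = y 0 - ((t i : ℝ) : ℂ) • 1 := by
        push_cast
        rw [add_smul, one_smul, one_mul, mul_one]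
        abel
      rw [this] at a5
      exact a5
    · intro T hT
      obtain ⟨b1, b2, b3⟩ := h3 T hT
      have hz : re T ((1 : A) - 1 * 1) = 0 := by simp [re]
      have h11 : re T ((1 : A) * 1) = 1 := by
        have : T.f 1 = 1 := hT.1
        simp [re, this]
      rw [hz] at b1 b3
      rw [h11] at b1
      refine ⟨by linarith, fun j => ?_⟩
      have hj : j = 0 := Fin.ext (by have := j.isLt; simp only [Fin.val_zero]; omega)
      subst hj
      linarith
  | succ m ih =>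
    intro y δ hy hδ
    have hδ' : 0 < δ / 10 ^ 9 := by positivity
    obtain ⟨ι, hι, D, t, c1, c2, c3⟩ := ih (fun j => y j.castSucc) (δ / 10 ^ 9)
      (fun j => hy _) hδ'
    set n : ℝ := (Fintype.card ι : ℝ) + 1 with hn
    have hn0 : 0 < n := by positivity
    set e : ℝ := δ / (4 * n) with he
    have he0 : 0 < e := by positivity
    have hne : (Fintype.card ι : ℝ) * e ≤ δ / 4 := by
      rw [he, hn]
      rw [mul_div_assoc', div_le_div_iff₀ (by positivity) (by norm_num)]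
      nlinarith
    have hch : ∀ i : ι, ∃ (N : ℕ) (D' B : Fin N → A) (s : Fin N → ℝ),
        (∀ l, 0 ≤ D' l ∧ D' l ≤ 1 ∧ D' l = D i * B l ∧ ‖B l‖ ≤ 16 ∧
          ‖(D i * (1 + y (Fin.last _)) * D i - ((1 + s l : ℝ) : ℂ) • 1) * D' l‖ ≤ e ∧
            |s l| ≤ 2) ∧
        (∀ l m, l ≠ m → D' l * D' m = 0) ∧
        ∀ T : Tr A, St T →
          re T (D i * D i) - ∑ l, re T (D' l * D' l) ≤ 10 ^ 6 * re T (D i - D i * D i) + e ∧
          ∑ l, re T (D' l * (1 - D i) * (1 - D i) * D' l) ≤ 10 ^ 6 * re T (D i - D i * D i) ∧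
          ∑ l, n2 T (D' l * (y (Fin.last _) - ((s l : ℝ) : ℂ) • 1) * D' l) ^ 2 ≤
            e + 10 ^ 6 * re T (D i - D i * D i) := by
      intro i
      obtain ⟨a1, a2, a3, a4⟩ := c1 i
      exact hR (D i) (y (Fin.last _)) e e a1 a2 (hy _).1 (hy _).2 he0 he0
    choose N D' B s g1 g2 g3 using hch
    refine ⟨Σ i : ι, Fin (N i), inferInstance, fun p => D' p.1 p.2,
      fun p => Fin.snoc (α := fun _ => ℝ) (t p.1) (s p.1 p.2), ?_, ?_, ?_⟩
    · rintro ⟨i, l⟩
      obtain ⟨a1, a2, a3, a4, a5, a6⟩ := g1 i l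
      obtain ⟨d1, d2, d3, d4⟩ := c1 i
      refine ⟨a1, a2, ?_, ?_⟩
      · have h0 : (Fin.snoc (α := fun _ => ℝ) (t i) (s i l)) 0 = t i 0 :=
          Fin.snoc_castSucc (α := fun _ => ℝ) (i := (0 : Fin (m + 1))) (p := t i) (x := s i l)
        have hd3 : ‖(y 0 - ((t i 0 : ℝ) : ℂ) • 1) * D i‖ ≤ δ / 10 ^ 9 := d3
        show ‖(y 0 - (((Fin.snoc (α := fun _ => ℝ) (t i) (s i l)) 0 : ℝ) : ℂ) • 1) * D' i l‖ ≤ δ
        rw [h0, a3, ← mul_assoc]
        refine (norm_mul_le _ _).trans ?_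
        have := norm_nonneg (B i l)
        have h2 := norm_nonneg ((y 0 - ((t i 0 : ℝ) : ℂ) • 1) * D i)
        calc _ ≤ (δ / 10 ^ 9) * 16 := mul_le_mul hd3 a4 this hδ'.le
          _ ≤ δ := by linarith
      · intro j
        refine Fin.lastCases ?_ (fun j => ?_) j
        · show |(Fin.snoc (α := fun _ => ℝ) (t i) (s i l)) (Fin.last _)| ≤ 2
          rw [Fin.snoc_last]; exact a6
        · show |(Fin.snoc (α := fun _ => ℝ) (t i) (s i l)) j.castSucc| ≤ 2
          rw [Fin.snoc_castSucc]; exact d4 j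
    · rintro ⟨i, l⟩ ⟨i', l'⟩ hne'
      show D' i l * D' i' l' = 0
      by_cases hi : i = i'
      · subst hi
        exact g2 i l l' (fun h => hne' (by rw [h]))
      · have hs : IsSelfAdjoint (D' i l) := IsSelfAdjoint.of_nonneg (g1 i l).1
        have hDs : IsSelfAdjoint (D i) := IsSelfAdjoint.of_nonneg (c1 i).1
        have e1 : D' i l = star (B i l) * D i := by
          rw [← hs.star_eq, (g1 i l).2.2.1, star_mul, hDs.star_eq]
        rw [e1, (g1 i' l').2.2.1, mul_assoc, ← mul_assoc (D i), c2 i i' hi, zero_mul, mul_zero]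
    · intro T hT
      obtain ⟨k1, k2⟩ := c3 T hT
      have htb := hTB A T hT
      obtain ⟨t0, tsq, tadd, tsub, tsm, tstar, tml, tmr, tle, tfle, tcs, tmono, tpos, tpp, tsa,
        tlast⟩ := htb
      have hT1 : re T 1 = 1 := by
        have : T.f 1 = 1 := hT.1
        simp [re, this]
      have hsum1 : ∑ i, re T (D i) ≤ 1 := by
        rw [← re_sum, ← hT1]
        exact tmono _ _ (sum_le_one D (fun i => ⟨(c1 i).1, (c1 i).2.1⟩) c2)
      have hdef : ∑ i, re T (D i - D i * D i) ≤ δ / 10 ^ 9 := by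
        simp only [re_sub, Finset.sum_sub_distrib]
        linarith
      have hcard : ∑ _i : ι, e ≤ δ / 4 := by
        rw [Finset.sum_const, nsmul_eq_mul, Finset.card_univ]
        exact hne
      refine ⟨?_, ?_⟩
      · rw [Fintype.sum_sigma]
        have h1 : ∑ i, (re T (D i * D i) - ∑ l, re T (D' i l * D' i l)) ≤
            ∑ i, (10 ^ 6 * re T (D i - D i * D i) + e) :=
          Finset.sum_le_sum fun i _ => (g3 i T hT).1
        rw [Finset.sum_sub_distrib, Finset.sum_add_distrib, ← Finset.mul_sum] at h1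
        show 1 - ∑ i, ∑ l, re T (D' i l * D' i l) ≤ δ
        linarith
      · intro j
        rw [Fintype.sum_sigma]
        refine Fin.lastCases ?_ (fun j => ?_) j
        · show ∑ i, ∑ l, n2 T (D' i l * (y (Fin.last _) -
            (((Fin.snoc (α := fun _ => ℝ) (t i) (s i l)) (Fin.last _) : ℝ) : ℂ) • 1) *
              D' i l) ^ 2 ≤ δ
          simp only [Fin.snoc_last]
          have h1 : ∑ i, ∑ l, n2 T (D' i l * (y (Fin.last _) - ((s i l : ℝ) : ℂ) • 1) *
              D' i l) ^ 2 ≤ ∑ i, (e + 10 ^ 6 * re T (D i - D i * D i)) :=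
            Finset.sum_le_sum fun i _ => (g3 i T hT).2.2
          rw [Finset.sum_add_distrib, ← Finset.mul_sum] at h1
          linarith
        · show ∑ i, ∑ l, n2 T (D' i l * (y j.castSucc -
            (((Fin.snoc (α := fun _ => ℝ) (t i) (s i l)) j.castSucc : ℝ) : ℂ) • 1) *
              D' i l) ^ 2 ≤ δ
          simp only [Fin.snoc_castSucc]
          have h1 : ∑ i, ∑ l, n2 T (D' i l * (y j.castSucc - ((t i j : ℝ) : ℂ) • 1) *
              D' i l) ^ 2 ≤ ∑ i, (3 * n2 T (D i * (y j.castSucc - ((t i j : ℝ) : ℂ) • 1) *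
                D i) ^ 2 + 54 * (10 ^ 6 * re T (D i - D i * D i))) := by
            refine Finset.sum_le_sum fun i _ => ?_
            have hw : ‖y j.castSucc - ((t i j : ℝ) : ℂ) • (1 : A)‖ ≤ 3 := by
              refine (norm_sub_le _ _).trans ?_
              have h1 : ‖y j.castSucc‖ ≤ 1 := norm_le_one' (hy _).1 (hy _).2
              have h2 : ‖((t i j : ℝ) : ℂ) • (1 : A)‖ ≤ 2 := by
                rw [norm_smul, Complex.norm_real, Real.norm_eq_abs]
                have := (c1 i).2.2.2 j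
                have h11 : ‖(1 : A)‖ ≤ 1 := norm_le_one' zero_le_one le_rfl
                nlinarith [abs_nonneg (t i j), norm_nonneg (1 : A)]
              linarith
            have := one_cell hTB T hT (D i) (D' i) _ (c1 i).1 (c1 i).2.1 hw
              (fun l => ⟨(g1 i l).1, (g1 i l).2.1⟩) (g2 i)
            refine this.trans ?_
            have h3 := (g3 i T hT).2.1
            linarith
          rw [Finset.sum_add_distrib, ← Finset.mul_sum, ← Finset.mul_sum, ← Finset.mul_sum] at h1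
          have h2 := k2 j
          linarith

end CELL

theorem t_CELL (hTB : StTB.{u}) : StCELL.{u} := by
  intro A _ _ _ _ hR m y δ hy hδ
  classical
  obtain ⟨ι, hι, D, t, h1, h2, h3⟩ := CELL.cellF hTB hR m y δ hy hδ
  let e := Fintype.equivFin ι
  refine ⟨Fintype.card ι, fun i => D (e.symm i), fun i => t (e.symm i), fun i => h1 _, ?_, ?_⟩
  · intro i i' hne
    exact h2 _ _ (fun h => hne (e.symm.injective h))
  · intro T hT
    obtain ⟨a, b⟩ := h3 T hT
    refine ⟨?_, fun j => ?_⟩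
    · rw [Equiv.sum_comp e.symm (fun i => re T (D i * D i))]
      exact a
    · rw [Equiv.sum_comp e.symm (fun i => n2 T (D i * (y j - ((t i j : ℝ) : ℂ) • 1) * D i) ^ 2)]
      exact b j

end Pool.Agent.H327R4.NU
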