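import Pool.Agent.H327R4.NU.Stubs

/-!
# One step of the walk (task STEP)
-/

set_option autoImplicit false

namespace Pool.Agent.H327R4.NU

open Filter Topology Pool.Agent.H327R4.Pure

universe u

namespace STEPh

/-! ### bump functions -/

/-- one bump -/
noncomputable def bmp (N : ℕ) (l : ℤ) (t : ℝ) : ℝ := max 0 (1 - |(N : ℝ) * t - (l : ℝ)|)

/-- the indices of the bumps -/
noncomputable def Ls (N : ℕ) (j : Fin 2) : Finset ℤ :=
  (Finset.Icc (-(N : ℤ)) (N : ℤ)).filter (fun l => l % 2 = ((j : ℕ) : ℤ) ∧ |l| + 9 ≤ N)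

theorem cont_bmp (N : ℕ) (l : ℤ) : Continuous (bmp N l) := by
  unfold bmp
  fun_prop

theorem bmp_nonneg (N : ℕ) (l : ℤ) (t : ℝ) : 0 ≤ bmp N l t := le_max_left _ _

theorem bmp_le_one (N : ℕ) (l : ℤ) (t : ℝ) : bmp N l t ≤ 1 := by
  unfold bmp
  apply max_le (by norm_num)
  have := abs_nonneg ((N : ℝ) * t - (l : ℝ))
  linarith

theorem bmp_pos {N : ℕ} {l : ℤ} {t : ℝ} (h : bmp N l t ≠ 0) : |(N : ℝ) * t - (l : ℝ)| < 1 := by
  by_contra hc
  apply h
  unfold bmp
  push Not at hc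
  rw [max_eq_left]
  linarith

theorem bmp_mul {N : ℕ} {l l' : ℤ} (h : 2 ≤ |l - l'|) (t : ℝ) : bmp N l t * bmp N l' t = 0 := by
  by_contra hc
  have h1 := bmp_pos (left_ne_zero_of_mul hc)
  have h2 := bmp_pos (right_ne_zero_of_mul hc)
  have h3 : |((l : ℝ) - (l' : ℝ))| < 2 := by
    rw [abs_lt] at h1 h2 ⊢
    constructor <;> linarith
  have h4 : (2 : ℝ) ≤ |((l : ℝ) - (l' : ℝ))| := by exact_mod_cast h
  linarith

theorem Ls_sep {N : ℕ} {j : Fin 2} {l l' : ℤ} (hl : l ∈ Ls N j) (hl' : l' ∈ Ls N j) (h : l ≠ l') :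
    2 ≤ |l - l'| := by
  simp only [Ls, Finset.mem_filter] at hl hl'
  have h1 := hl.2.1
  have h2 := hl'.2.1
  rcases abs_cases (l - l') with ⟨e, _⟩ | ⟨e, _⟩ <;> rw [e] <;> omega

theorem Ls_lt {N : ℕ} {j : Fin 2} {l : ℤ} (hl : l ∈ Ls N j) {t : ℝ} (h : bmp N l t ≠ 0) :
    (N : ℝ) * |t| ≤ N - 8 := by
  simp only [Ls, Finset.mem_filter] at hl
  have h1 : |l| + 9 ≤ (N : ℤ) := hl.2.2
  have h2 : |(l : ℝ)| + 9 ≤ N := by exact_mod_cast h1
  have h3 := bmp_pos h
  have h4 : |(N : ℝ) * t| ≤ |(N : ℝ) * t - (l : ℝ)| + |(l : ℝ)| := by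
    calc |(N : ℝ) * t| = |((N : ℝ) * t - (l : ℝ)) + (l : ℝ)| := by ring_nf
      _ ≤ _ := abs_add_le _ _
  rw [abs_mul, Nat.abs_cast] at h4
  linarith

section alg

variable {A : Type u} [CStarAlgebra A] [TrSet A]

/-! ### hereditary elements -/

theorem her_star {k x : A} (hk : IsSelfAdjoint k) (h : InHer k x) : InHer k (star x) := by
  constructor
  · intro m hm
    have h1 : star m * k = 0 := by
      have := congrArg star hm
      rwa [star_mul, hk.star_eq, star_zero] at this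
    have h2 := congrArg star (h.2 (star m) h1)
    rwa [star_mul, star_star, star_zero] at h2
  · intro m hm
    have h1 : k * star m = 0 := by
      have := congrArg star hm
      rwa [star_mul, hk.star_eq, star_zero] at this
    have h2 := congrArg star (h.1 (star m) h1)
    rwa [star_mul, star_star, star_zero] at h2

theorem her_mul {k y z : A} (hy : InHer k y) (hz : InHer k z) : InHer k (y * z) := by
  constructor
  · intro m hm
    rw [mul_assoc, hz.1 m hm, mul_zero]
  · intro m hm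
    rw [← mul_assoc, hy.2 m hm, zero_mul]

theorem her_add {k y z : A} (hy : InHer k y) (hz : InHer k z) : InHer k (y + z) := by
  constructor
  · intro m hm
    rw [add_mul, hy.1 m hm, hz.1 m hm, add_zero]
  · intro m hm
    rw [mul_add, hy.2 m hm, hz.2 m hm, add_zero]

theorem her_sub {k y z : A} (hy : InHer k y) (hz : InHer k z) : InHer k (y - z) := by
  constructor
  · intro m hm
    rw [sub_mul, hy.1 m hm, hz.1 m hm, sub_zero]
  · intro m hm
    rw [mul_sub, hy.2 m hm, hz.2 m hm, sub_zero]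

theorem her_sum {ι : Type} (s : Finset ι) {k : A} (y : ι → A) (h : ∀ i ∈ s, InHer k (y i)) :
    InHer k (∑ i ∈ s, y i) := by
  constructor
  · intro m hm
    rw [Finset.sum_mul]
    exact Finset.sum_eq_zero fun i hi => (h i hi).1 m hm
  · intro m hm
    rw [Finset.mul_sum]
    exact Finset.sum_eq_zero fun i hi => (h i hi).2 m hm

theorem her_smul {k y : A} (r : ℂ) (hy : InHer k y) : InHer k (r • y) := by
  constructor
  · intro m hm
    rw [smul_mul_assoc, hy.1 m hm, smul_zero]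
  · intro m hm
    rw [mul_smul_comm, hy.2 m hm, smul_zero]

theorem her_orth {k k' y z : A} (hkk : k * k' = 0) (hy : InHer k y) (hz : InHer k' z) :
    y * z = 0 := hz.2 y (hy.1 k' hkk)

theorem her_trans {c k x : A} (h : InHer c k) (h' : InHer k x) : InHer c x :=
  ⟨fun m hm => h'.1 m (h.1 m hm), fun m hm => h'.2 m (h.2 m hm)⟩

theorem cfc_mul_zero (X : A) (f g : ℝ → ℝ) (hf : Continuous f) (hg : Continuous g)
    (h : ∀ t, f t * g t = 0) : cfc f X * cfc g X = 0 := by
  rw [← cfc_mul f g X hf.continuousOn hg.continuousOn]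
  have : (fun t => f t * g t) = fun _ => (0 : ℝ) := funext h
  rw [this]
  exact cfc_const_zero ℝ X

theorem sum_mul_orth {ι : Type} (s : Finset ι) (y z : ι → A)
    (h : ∀ i ∈ s, ∀ i' ∈ s, i ≠ i' → y i * z i' = 0) :
    (∑ i ∈ s, y i) * (∑ i ∈ s, z i) = ∑ i ∈ s, y i * z i := by
  classical
  rw [Finset.sum_mul]
  refine Finset.sum_congr rfl fun i hi => ?_
  rw [Finset.mul_sum]
  exact Finset.sum_eq_single i (fun i' hi' hne => h i hi i' hi' hne.symm) fun hn => absurd hi hn

end alg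

section ord

variable {A : Type u} [CStarAlgebra A] [PartialOrder A] [StarOrderedRing A] [TrSet A]

theorem sq_le_self {p : A} (h0 : 0 ≤ p) (h1 : p ≤ 1) : p * p ≤ p := by
  have hp : star p = p := (IsSelfAdjoint.of_nonneg h0).star_eq
  have hq : star (1 - p) = 1 - p := by rw [star_sub, star_one, hp]
  have a1 := star_left_conjugate_nonneg (sub_nonneg.2 h1) p
  have a2 := star_left_conjugate_nonneg h0 (1 - p)
  rw [hp] at a1
  rw [hq] at a2
  have a3 := add_nonneg a1 a2
  have e : p * (1 - p) * p + (1 - p) * p * (1 - p) = p - p * p := by noncomm_ring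
  rw [e] at a3
  exact sub_nonneg.1 a3

theorem le_one_of_sq {P : A} (h0 : 0 ≤ P) (h : P * P ≤ P) : P ≤ 1 := by
  have hp : star P = P := (IsSelfAdjoint.of_nonneg h0).star_eq
  rw [← CStarAlgebra.norm_le_one_iff_of_nonneg P h0]
  have h1 : 0 ≤ P * P := by
    have := star_mul_self_nonneg P
    rwa [hp] at this
  have h2 := CStarAlgebra.norm_le_norm_of_nonneg_of_le h1 h
  have h3 : ‖star P * P‖ = ‖P‖ * ‖P‖ := CStarRing.norm_star_mul_self
  rw [hp] at h3
  rw [h3] at h2
  by_contra hc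
  push Not at hc
  nlinarith

/-- the cut-off near the end -/
noncomputable def Gc (s σ t : ℝ) : ℝ := min 1 (max 0 ((1 - σ * t) / s))

theorem cont_Gc (s σ : ℝ) : Continuous (Gc s σ) := by
  unfold Gc
  fun_prop

theorem norm_step (X P W : A) (s σ : ℝ) (hs : 0 < s) (hX : IsSelfAdjoint X)
    (hX1 : ∀ t ∈ spectrum ℝ X, σ * t ≤ 1) (hP1 : P ≤ 1)
    (h1 : cfc (Gc s σ) X * P = P) (h2 : P * cfc (Gc s σ) X = P) (hW : W ≤ P) :
    σ • X + s • W ≤ 1 := by
  set g := cfc (Gc s σ) X with hg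
  have hgs : star g = g := (cfc_predicate (Gc s σ) X : IsSelfAdjoint _).star_eq
  have h3 : P ≤ g * g := by
    have h4 := star_left_conjugate_le_conjugate hP1 g
    rw [hgs, mul_one] at h4
    rwa [h1, h2] at h4
  have h5 : σ • X + s • W ≤ σ • X + s • (g * g) :=
    add_le_add_right (smul_le_smul_of_nonneg_left (hW.trans h3) hs.le) _
  refine h5.trans ?_
  have e : σ • X + s • (g * g) = cfc (fun t => σ * t + s * (Gc s σ t * Gc s σ t)) X := by
    rw [cfc_add X (fun t => σ * t) (fun t => s * (Gc s σ t * Gc s σ t))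
      (by fun_prop) (by have := cont_Gc s σ; fun_prop),
      cfc_const_mul σ (fun t => t) X, cfc_id' ℝ X,
      cfc_const_mul s (fun t => Gc s σ t * Gc s σ t) X
        (by have := cont_Gc s σ; fun_prop),
      cfc_mul (Gc s σ) (Gc s σ) X (cont_Gc s σ).continuousOn (cont_Gc s σ).continuousOn]
  rw [e]
  apply cfc_le_one
  intro t ht
  have h6 := hX1 t ht
  have h7 : 0 ≤ (1 - σ * t) / s := div_nonneg (by linarith) hs.le
  have h8 : Gc s σ t ≤ (1 - σ * t) / s := by
    unfold Gc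
    rw [max_eq_right h7]
    exact min_le_right _ _
  have h9 : Gc s σ t ≤ 1 := min_le_left _ _
  have h10 : 0 ≤ Gc s σ t := by
    unfold Gc
    rw [max_eq_right h7]
    exact le_min (by norm_num) h7
  have h11 : Gc s σ t * Gc s σ t ≤ (1 - σ * t) / s := by nlinarith
  have h12 : s * (Gc s σ t * Gc s σ t) ≤ s * ((1 - σ * t) / s) :=
    mul_le_mul_of_nonneg_left h11 hs.le
  rw [mul_div_cancel₀ _ hs.ne'] at h12
  linarith

theorem Gc_bmp {N : ℕ} {j : Fin 2} {l : ℤ} (hN : 64 ≤ N) (hl : l ∈ Ls N j) (σ : ℝ)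
    (hσ : σ = 1 ∨ σ = -1) (t : ℝ) :
    (1 - Gc (8 / N) σ t) * bmp N l t = 0 := by
  by_cases h : bmp N l t = 0
  · rw [h, mul_zero]
  · have h1 := Ls_lt hl h
    have hNp : (0 : ℝ) < N := by
      have : 0 < N := by omega
      exact_mod_cast this
    have h2 : σ * t ≤ |t| := by
      rcases hσ with rfl | rfl
      · rw [one_mul]; exact le_abs_self t
      · rw [neg_one_mul]; exact neg_le_abs t
    have h3 : 1 ≤ (1 - σ * t) / (8 / (N : ℝ)) := by
      rw [le_div_iff₀ (by positivity), one_mul, div_le_iff₀ hNp]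
      nlinarith
    unfold Gc
    rw [max_eq_right (by linarith), min_eq_left h3, sub_self, zero_mul]

theorem spec_le (X : A) (hX : IsSelfAdjoint X) (h0 : -1 ≤ X) (h1 : X ≤ 1) (σ : ℝ)
    (hσ : σ = 1 ∨ σ = -1) : ∀ t ∈ spectrum ℝ X, σ * t ≤ 1 := by
  intro t ht
  rcases hσ with rfl | rfl
  · rw [one_mul]
    exact (CFC.le_one_iff (R := ℝ) X hX).1 h1 t ht
  · have h2 : algebraMap ℝ A (-1) ≤ X := by
      rw [map_neg, map_one]
      exact h0
    have h3 := (algebraMap_le_iff_le_spectrum (R := ℝ) (a := X) hX).1 h2 t ht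
    linarith

/-- the bump divided by `1 - t²` -/
noncomputable def qf (N : ℕ) (l : ℤ) (t : ℝ) : ℝ := bmp N l t / max (1 - t * t) (8 / N)

theorem cont_qf {N : ℕ} (hN : 64 ≤ N) (l : ℤ) : Continuous (qf N l) := by
  have hNp : (0 : ℝ) < N := by
    have : 0 < N := by omega
    exact_mod_cast this
  unfold qf
  apply Continuous.div (cont_bmp N l) (by fun_prop)
  intro t
  have : (0 : ℝ) < max (1 - t * t) (8 / N) := lt_max_of_lt_right (by positivity)
  exact this.ne'

theorem qf_mul {N : ℕ} {j : Fin 2} {l : ℤ} (hN : 64 ≤ N) (hl : l ∈ Ls N j) (t : ℝ) :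
    qf N l t * (1 - t * t) = bmp N l t := by
  have hNp : (0 : ℝ) < N := by
    have : 0 < N := by omega
    exact_mod_cast this
  by_cases h : bmp N l t = 0
  · rw [qf, h, zero_div, zero_mul]
  · have h1 := Ls_lt hl h
    have h2 : |t| ≤ 1 - 8 / N := by
      rw [le_sub_iff_add_le, ← le_sub_iff_add_le', div_le_iff₀ hNp]
      nlinarith
    have h3 : 0 ≤ |t| := abs_nonneg t
    have h4 : t * t = |t| * |t| := (abs_mul_abs_self t).symm
    have h5 : (0 : ℝ) < 8 / N := by positivity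
    have h6 : 8 / (N : ℝ) ≤ 1 - t * t := by rw [h4]; nlinarith
    rw [qf, max_eq_left h6, div_mul_cancel₀]
    linarith

theorem her_bmp {N : ℕ} {j : Fin 2} {l : ℤ} (hN : 64 ≤ N) (hl : l ∈ Ls N j) (X : A)
    (hX : IsSelfAdjoint X) : InHer (1 - X * X) (cfc (bmp N l) X) := by
  have hq := cont_qf hN l
  have e1 : cfc (fun t : ℝ => 1 - t * t) X = 1 - X * X := by
    rw [cfc_sub (fun _ : ℝ => 1) (fun t : ℝ => t * t) X, cfc_mul (fun t : ℝ => t) (fun t : ℝ => t) X,
      cfc_id' ℝ X, cfc_const_one ℝ X]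
  have e2 : cfc (bmp N l) X = cfc (qf N l) X * (1 - X * X) := by
    rw [← e1, ← cfc_mul (qf N l) (fun t : ℝ => 1 - t * t) X hq.continuousOn (by fun_prop)]
    congr 1
    funext t
    exact (qf_mul hN hl t).symm
  have e3 : cfc (bmp N l) X = (1 - X * X) * cfc (qf N l) X := by
    rw [← e1, ← cfc_mul (fun t : ℝ => 1 - t * t) (qf N l) X (by fun_prop) hq.continuousOn]
    congr 1
    funext t
    rw [mul_comm]
    exact (qf_mul hN hl t).symm
  constructor
  · intro m hm
    rw [e2, mul_assoc, hm, mul_zero]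
  · intro m hm
    rw [e3, ← mul_assoc, hm, zero_mul]

/-- the displacement from the centre of a bump, clamped -/
noncomputable def hc (N : ℕ) (l : ℤ) (t : ℝ) : ℝ :=
  max (-(1 / (N : ℝ))) (min (1 / (N : ℝ)) (t - l / N))

theorem cont_hc (N : ℕ) (l : ℤ) : Continuous (hc N l) := by
  unfold hc
  fun_prop

theorem abs_hc {N : ℕ} (l : ℤ) (t : ℝ) : |hc N l t| ≤ 1 / (N : ℝ) := by
  have : (0 : ℝ) ≤ 1 / (N : ℝ) := by positivity
  rw [abs_le, hc]
  refine ⟨le_max_left _ _, max_le (by linarith) (min_le_left _ _)⟩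

theorem hc_bmp {N : ℕ} (hN : 64 ≤ N) (l : ℤ) (t : ℝ) :
    (t - l / N - hc N l t) * bmp N l t = 0 := by
  have hNp : (0 : ℝ) < N := by
    have : 0 < N := by omega
    exact_mod_cast this
  by_cases h : bmp N l t = 0
  · rw [h, mul_zero]
  · have h1 := bmp_pos h
    have h2 : |t - l / N| ≤ 1 / (N : ℝ) := by
      have e : t - l / N = ((N : ℝ) * t - l) / N := by field_simp
      rw [e, abs_div, Nat.abs_cast]
      exact div_le_div_of_nonneg_right h1.le hNp.le
    rw [abs_le] at h2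
    rw [hc, min_eq_right h2.2, max_eq_right h2.1, sub_self, zero_mul]

end ord

end STEPh

open STEPh in
theorem t_STEP (hTB : StTB.{u}) : StSTEP.{u} := by
  intro A _ _ _ _ hDIV N hN j X η hX hX0 hX1 hη
  have hNp : (0 : ℝ) < N := by
    have : 0 < N := by omega
    exact_mod_cast this
  have hN64 : (64 : ℝ) ≤ N := by exact_mod_cast hN
  obtain ⟨ε', hε'⟩ : ∃ ε' : ℝ, ε' = η / ((Ls N j).card + 1) := ⟨_, rfl⟩
  have hcard : (0 : ℝ) < ((Ls N j).card : ℝ) + 1 := by positivity
  have hε : 0 < ε' := by rw [hε']; positivity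
  have hE : ((Ls N j).card : ℝ) * ε' ≤ η := by
    rw [hε', mul_div_assoc', div_le_iff₀ hcard]
    nlinarith
  obtain ⟨k, hk⟩ : ∃ k : ℤ → A, ∀ l, k l = cfc (bmp N l) X := ⟨_, fun _ => rfl⟩
  have hk0 : ∀ l, 0 ≤ k l := fun l => by
    rw [hk]; exact cfc_nonneg fun t _ => bmp_nonneg N l t
  have hk1 : ∀ l, k l ≤ 1 := fun l => by
    rw [hk]; exact cfc_le_one _ _ fun t _ => bmp_le_one N l t
  choose x hxx hher hp1 htr using fun l => hDIV (k l) ε' (hk0 l) (hk1 l) hε
  obtain ⟨p, hp⟩ : ∃ p : ℤ → A, ∀ l, p l = star (x l) * x l + x l * star (x l) :=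
    ⟨_, fun _ => rfl⟩
  obtain ⟨v, hv⟩ : ∃ v : ℤ → A, ∀ l, v l = star (x l) * x l - x l * star (x l) :=
    ⟨_, fun _ => rfl⟩
  have hks : ∀ l, IsSelfAdjoint (k l) := fun l => IsSelfAdjoint.of_nonneg (hk0 l)
  have hhs : ∀ l, InHer (k l) (star (x l)) := fun l => her_star (hks l) (hher l)
  have hpher : ∀ l, InHer (k l) (p l) := fun l => by
    rw [hp]; exact her_add (her_mul (hhs l) (hher l)) (her_mul (hher l) (hhs l))
  have hvher : ∀ l, InHer (k l) (v l) := fun l => by
    rw [hv]; exact her_sub (her_mul (hhs l) (hher l)) (her_mul (hher l) (hhs l))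
  have ha0 : ∀ l, 0 ≤ star (x l) * x l := fun l => star_mul_self_nonneg _
  have hb0 : ∀ l, 0 ≤ x l * star (x l) := fun l => mul_star_self_nonneg _
  have hp0 : ∀ l, 0 ≤ p l := fun l => by rw [hp]; exact add_nonneg (ha0 l) (hb0 l)
  have hp1' : ∀ l, p l ≤ 1 := fun l => by rw [hp]; exact hp1 l
  have hvs : ∀ l, star (v l) = v l := fun l => by
    rw [hv, star_sub, star_mul, star_mul, star_star]
  have hvv : ∀ l, v l * v l = p l * p l := fun l => by
    have h1 : star (x l) * star (x l) = 0 := by rw [← star_mul, hxx, star_zero]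
    have h2 : star (x l) * x l * (x l * star (x l)) = 0 := by
      rw [mul_assoc, ← mul_assoc (x l) (x l), hxx, zero_mul, mul_zero]
    have h3 : x l * star (x l) * (star (x l) * x l) = 0 := by
      rw [mul_assoc, ← mul_assoc (star (x l)) (star (x l)), h1, zero_mul, mul_zero]
    rw [hv, hp, mul_add, add_mul, add_mul, mul_sub, sub_mul, sub_mul, h2, h3]
    abel
  have hvp : ∀ l, v l ≤ p l := fun l => by
    rw [hv, hp, ← sub_nonneg]
    have e : star (x l) * x l + x l * star (x l) - (star (x l) * x l - x l * star (x l)) =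
      x l * star (x l) + x l * star (x l) := by abel
    rw [e]
    exact add_nonneg (hb0 l) (hb0 l)
  have hnvp : ∀ l, -v l ≤ p l := fun l => by
    rw [hv, hp, ← sub_nonneg]
    have e : star (x l) * x l + x l * star (x l) - -(star (x l) * x l - x l * star (x l)) =
      star (x l) * x l + star (x l) * x l := by abel
    rw [e]
    exact add_nonneg (ha0 l) (ha0 l)
  have hkk : ∀ l ∈ Ls N j, ∀ l' ∈ Ls N j, l ≠ l' → k l * k l' = 0 := fun l hl l' hl' hne => by
    rw [hk, hk]
    exact cfc_mul_zero X _ _ (cont_bmp N l) (cont_bmp N l') (bmp_mul (Ls_sep hl hl' hne))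
  obtain ⟨P, hP⟩ : ∃ P : A, P = ∑ l ∈ Ls N j, p l := ⟨_, rfl⟩
  obtain ⟨V, hV⟩ : ∃ V : A, V = ∑ l ∈ Ls N j, v l := ⟨_, rfl⟩
  have hPP : P * P = ∑ l ∈ Ls N j, p l * p l := by
    rw [hP]
    exact sum_mul_orth _ _ _ fun l hl l' hl' hne =>
      her_orth (hkk l hl l' hl' hne) (hpher l) (hpher l')
  have hVV : V * V = ∑ l ∈ Ls N j, p l * p l := by
    rw [hV, sum_mul_orth _ _ _ fun l hl l' hl' hne =>
      her_orth (hkk l hl l' hl' hne) (hvher l) (hvher l')]
    exact Finset.sum_congr rfl fun l _ => hvv l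
  have hP0 : 0 ≤ P := by rw [hP]; exact Finset.sum_nonneg fun l _ => hp0 l
  have hP1 : P ≤ 1 := by
    apply le_one_of_sq hP0
    rw [hPP, hP]
    exact Finset.sum_le_sum fun l _ => sq_le_self (hp0 l) (hp1' l)
  have hVP : V ≤ P := by rw [hV, hP]; exact Finset.sum_le_sum fun l _ => hvp l
  have hnVP : -V ≤ P := by
    rw [hV, hP, ← Finset.sum_neg_distrib]; exact Finset.sum_le_sum fun l _ => hnvp l
  have hVs : star V = V := by
    rw [hV, star_sum]; exact Finset.sum_congr rfl fun l _ => hvs l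
  -- absorption by the cut-offs
  have habs : ∀ σ : ℝ, (σ = 1 ∨ σ = -1) → cfc (Gc (8 / N) σ) X * P = P ∧
      P * cfc (Gc (8 / N) σ) X = P := by
    intro σ hσ
    have e1 : cfc (fun t => 1 - Gc (8 / N) σ t) X = 1 - cfc (Gc (8 / N) σ) X := by
      rw [cfc_sub (fun _ : ℝ => 1) (Gc (8 / N) σ) X (by fun_prop)
        (cont_Gc _ _).continuousOn, cfc_const_one ℝ X]
    have hc1 : Continuous fun t => 1 - Gc (8 / (N : ℝ)) σ t := by
      have := cont_Gc (8 / (N : ℝ)) σ
      fun_prop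
    have h1 : (1 - cfc (Gc (8 / N) σ) X) * P = 0 := by
      rw [hP, Finset.mul_sum]
      refine Finset.sum_eq_zero fun l hl => (hpher l).2 _ ?_
      rw [← e1, hk]
      exact cfc_mul_zero X _ _ hc1 (cont_bmp N l) (Gc_bmp hN hl σ hσ)
    have h2 : P * (1 - cfc (Gc (8 / N) σ) X) = 0 := by
      rw [hP, Finset.sum_mul]
      refine Finset.sum_eq_zero fun l hl => (hpher l).1 _ ?_
      rw [← e1, hk]
      exact cfc_mul_zero X _ _ (cont_bmp N l) hc1 fun t => by
        rw [mul_comm]; exact Gc_bmp hN hl σ hσ t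
    constructor
    · rw [sub_mul, one_mul, sub_eq_zero] at h1
      exact h1.symm
    · rw [mul_sub, mul_one, sub_eq_zero] at h2
      exact h2.symm
  have hs : (0 : ℝ) < 8 / N := by positivity
  have hdiff : X + (8 / N : ℝ) • V - X = (8 / N : ℝ) • V := by abel
  refine ⟨X + (8 / N : ℝ) • V, ?_, ?_, ?_, ?_, ?_⟩
  · rw [isSelfAdjoint_iff, star_add, star_smul, hX.star_eq, hVs, star_trivial]
  · have h1 := norm_step X P (-V) (8 / N) (-1) hs hX (spec_le X hX hX0 hX1 (-1) (Or.inr rfl)) hP1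
      (habs (-1) (Or.inr rfl)).1 (habs (-1) (Or.inr rfl)).2 hnVP
    rw [neg_one_smul, smul_neg] at h1
    have h2 : -(X + (8 / N : ℝ) • V) ≤ 1 := by
      have e : -(X + (8 / N : ℝ) • V) = -X + -((8 / N : ℝ) • V) := by abel
      rw [e]; exact h1
    exact neg_le.1 h2
  · have h1 := norm_step X P V (8 / N) 1 hs hX (spec_le X hX hX0 hX1 1 (Or.inl rfl)) hP1
      (habs 1 (Or.inl rfl)).1 (habs 1 (Or.inl rfl)).2 hVP
    rwa [one_smul] at h1
  · rw [hdiff]
    have e : (8 / N : ℝ) • V = ((8 / N : ℝ) : ℂ) • V := rfl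
    rw [e]
    apply her_smul
    rw [hV]
    refine her_sum _ _ fun l hl => her_trans ?_ (hvher l)
    rw [hk]
    exact her_bmp hN hl X hX
  · intro T hT
    obtain ⟨b1, b2, b3, b4, b5, b6, b7, b8, b9, b10, b11, b12, b13, b14, b15, b16⟩ := hTB A T hT
    have radd : ∀ a b : A, re T (a + b) = re T a + re T b := fun a b => by
      simp only [re, map_add, Complex.add_re]
    have rsmul : ∀ (r : ℝ) (a : A), re T (r • a) = r * re T a := fun r a => by
      have e : r • a = (r : ℂ) • a := rfl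
      rw [e]
      simp only [re, map_smul, smul_eq_mul, Complex.re_ofReal_mul]
    have rsum : ∀ (y : ℤ → A), re T (∑ l ∈ Ls N j, y l) = ∑ l ∈ Ls N j, re T (y l) := fun y => by
      simp only [re, map_sum, Complex.re_sum]
    obtain ⟨SP, hSP⟩ : ∃ SP : ℝ, SP = ∑ l ∈ Ls N j, re T (p l) := ⟨_, rfl⟩
    obtain ⟨K, hK⟩ : ∃ K : ℝ, K = ∑ l ∈ Ls N j, re T (k l) := ⟨_, rfl⟩
    have hKk : re T (cfc (kap N j) X) = K := by
      have e : kap N j = ∑ l ∈ Ls N j, bmp N l := by
        funext t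
        rw [Finset.sum_apply]
        rfl
      rw [e, cfc_sum (fun l => bmp N l) X (Ls N j) fun l _ => (cont_bmp N l).continuousOn, rsum, hK]
      exact Finset.sum_congr rfl fun l _ => by rw [hk]
    have hK0 : 0 ≤ K := by
      rw [hK]; exact Finset.sum_nonneg fun l _ => (b13 _ (hk0 l)).1
    have h1 : ∀ l, |re T (p l) - re T (k l)| ≤ ε' := fun l => by
      rw [hp]; exact (htr l T hT).1
    have h2 : ∀ l, re T (p l) - re T (p l * p l) ≤ ε' := fun l => by
      rw [hp]; exact (htr l T hT).2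
    have hSK : SP ≤ K + (Ls N j).card * ε' := by
      rw [hSP, hK, ← nsmul_eq_mul, ← Finset.sum_const, ← Finset.sum_add_distrib]
      exact Finset.sum_le_sum fun l _ => by have := abs_le.1 (h1 l); linarith
    have hKS : K ≤ SP + (Ls N j).card * ε' := by
      rw [hSP, hK, ← nsmul_eq_mul, ← Finset.sum_const, ← Finset.sum_add_distrib]
      exact Finset.sum_le_sum fun l _ => by have := abs_le.1 (h1 l); linarith
    obtain ⟨Q, hQ⟩ : ∃ Q : ℝ, Q = re T (V * V) := ⟨_, rfl⟩
    have hQ1 : SP ≤ Q + (Ls N j).card * ε' := by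
      rw [hQ, hVV, rsum, hSP, ← nsmul_eq_mul, ← Finset.sum_const, ← Finset.sum_add_distrib]
      exact Finset.sum_le_sum fun l _ => by have := h2 l; linarith
    have hQ2 : Q ≤ SP := by
      rw [hQ, hVV, rsum, hSP]
      exact Finset.sum_le_sum fun l _ => b12 _ _ (sq_le_self (hp0 l) (hp1' l))
    -- the cross term
    have hcr1 : ∀ l, |re T (v l * X)| ≤ 1 / N * re T (p l) := by
      intro l
      have e1 : cfc (fun t => t - l / N - hc N l t) X =
          X - ((l / N : ℝ)) • (1 : A) - cfc (hc N l) X := by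
        rw [cfc_sub (fun t : ℝ => t - l / N) (hc N l) X (by fun_prop) (cont_hc N l).continuousOn,
          cfc_sub (fun t : ℝ => t) (fun _ : ℝ => (l / N : ℝ)) X, cfc_id' ℝ X,
          cfc_const (l / N : ℝ) X, Algebra.algebraMap_eq_smul_one]
      have hcc : Continuous fun t => t - l / N - hc N l t := by
        have := cont_hc N l
        fun_prop
      have e2 : v l * (X - ((l / N : ℝ)) • (1 : A) - cfc (hc N l) X) = 0 := by
        apply (hvher l).1
        rw [← e1, hk]
        exact cfc_mul_zero X _ _ (cont_bmp N l) hcc fun t => by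
          rw [mul_comm]; exact hc_bmp hN l t
      have e3 : v l * X = (l / N : ℝ) • v l + v l * cfc (hc N l) X := by
        rw [mul_sub, mul_sub, mul_smul_comm, mul_one] at e2
        rw [sub_sub, sub_eq_zero] at e2
        exact e2
      have e4 : re T (v l) = 0 := by
        rw [hv, re, map_sub, T.tr (star (x l)) (x l), sub_self, Complex.zero_re]
      rw [e3, radd, rsmul, e4, mul_zero, zero_add]
      have hn : ‖cfc (hc N l) X‖ ≤ 1 / (N : ℝ) :=
        norm_cfc_le (by positivity) fun t _ => by rw [Real.norm_eq_abs]; exact abs_hc l t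
      have e5 : v l * cfc (hc N l) X = star (x l) * x l * cfc (hc N l) X -
          x l * star (x l) * cfc (hc N l) X := by rw [hv, sub_mul]
      have h3 : ‖T.f (v l * cfc (hc N l) X)‖ ≤
          re T (star (x l) * x l) * ‖cfc (hc N l) X‖ + re T (x l * star (x l)) *
            ‖cfc (hc N l) X‖ := by
        rw [e5, map_sub]
        exact (norm_sub_le _ _).trans (add_le_add ((b13 _ (ha0 l)).2.2 _) ((b13 _ (hb0 l)).2.2 _))
      have h4 : |re T (v l * cfc (hc N l) X)| ≤ ‖T.f (v l * cfc (hc N l) X)‖ :=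
        Complex.abs_re_le_norm _
      have h5 : re T (p l) = re T (star (x l) * x l) + re T (x l * star (x l)) := by
        rw [hp, radd]
      have h6 : 0 ≤ re T (p l) := (b13 _ (hp0 l)).1
      calc |re T (v l * cfc (hc N l) X)| ≤ re T (p l) * ‖cfc (hc N l) X‖ := by
            rw [h5, add_mul]; exact h4.trans h3
        _ ≤ re T (p l) * (1 / N) := mul_le_mul_of_nonneg_left hn h6
        _ = 1 / N * re T (p l) := mul_comm _ _
    have hcr : |re T (V * X)| ≤ 1 / N * SP := by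
      rw [hV, Finset.sum_mul, rsum, hSP, Finset.mul_sum]
      exact (Finset.abs_sum_le_sum_abs _ _).trans (Finset.sum_le_sum fun l _ => hcr1 l)
    have hXX : re T ((X + (8 / N : ℝ) • V) * (X + (8 / N : ℝ) • V)) =
        re T (X * X) + 2 * (8 / N) * re T (V * X) + (8 / N) * (8 / N) * Q := by
      have e : (X + (8 / N : ℝ) • V) * (X + (8 / N : ℝ) • V) =
          X * X + (8 / N : ℝ) • (X * V) + (8 / N : ℝ) • (V * X) +
            (8 / N : ℝ) • ((8 / N : ℝ) • (V * V)) := by
        rw [mul_add, add_mul, add_mul, mul_smul_comm, smul_mul_assoc, mul_smul_comm,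
          smul_mul_assoc]
        abel
      have e2 : re T (X * V) = re T (V * X) := by rw [re, re, T.tr]
      rw [e, radd, radd, radd, rsmul, rsmul, rsmul, rsmul, e2, ← hQ]
      ring
    have hN2 : (0 : ℝ) < (N : ℝ) ^ 2 := by positivity
    have hNN : (4096 : ℝ) ≤ (N : ℝ) ^ 2 := by nlinarith
    have hE0 : 0 ≤ ((Ls N j).card : ℝ) * ε' := by positivity
    obtain ⟨E, hEd⟩ : ∃ E : ℝ, E = ((Ls N j).card : ℝ) * ε' := ⟨_, rfl⟩
    rw [← hEd] at hSK hKS hQ1 hE0 hE
    obtain ⟨w, hw⟩ : ∃ w : ℝ, w = 1 / (N : ℝ) ^ 2 := ⟨_, rfl⟩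
    have hw0 : 0 < w := by rw [hw]; positivity
    have hw1 : w * 4096 ≤ 1 := by
      rw [hw, one_div, inv_mul_le_iff₀ hN2, mul_one]
      exact hNN
    have f1 : (8 / (N : ℝ)) * (8 / N) = 64 * w := by rw [hw]; field_simp; norm_num
    have f2 : 2 * (8 / (N : ℝ)) * (1 / N) = 16 * w := by rw [hw]; field_simp; norm_num
    have f3 : (32 : ℝ) / (N : ℝ) ^ 2 = 32 * w := by rw [hw]; ring
    have f4 : (64 : ℝ) / (N : ℝ) ^ 2 = 64 * w := by rw [hw]; ring
    have hwE : w * E ≤ w * η := mul_le_mul_of_nonneg_left hE hw0.le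
    have hwη : w * η * 4096 ≤ η := by nlinarith
    constructor
    · rw [hXX, hKk, f1, f3]
      have hcr2 := (abs_le.1 hcr).1
      have h7 : 2 * (8 / (N : ℝ)) * re T (V * X) ≥ -(16 * w * SP) := by
        have h8 : 2 * (8 / (N : ℝ)) * re T (V * X) ≥ 2 * (8 / (N : ℝ)) * (-(1 / N * SP)) :=
          mul_le_mul_of_nonneg_left hcr2 (by positivity)
        have h9 : 2 * (8 / (N : ℝ)) * (-(1 / N * SP)) = -(2 * (8 / (N : ℝ)) * (1 / N) * SP) := by
          ring
        rw [h9, f2] at h8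
        exact h8
      have h8 : w * SP ≤ w * (Q + E) := mul_le_mul_of_nonneg_left hQ1 hw0.le
      have h9 : w * K ≤ w * (SP + E) := mul_le_mul_of_nonneg_left hKS hw0.le
      have h10 : 0 ≤ w * K := mul_nonneg hw0.le hK0
      nlinarith
    · rw [hdiff, b2, hKk, f4]
      have e : star ((8 / N : ℝ) • V) * ((8 / N : ℝ) • V) =
          (8 / N : ℝ) • ((8 / N : ℝ) • (V * V)) := by
        rw [star_smul, hVs, star_trivial, mul_smul_comm, smul_mul_assoc]
      rw [e, rsmul, rsmul, ← hQ, ← mul_assoc, f1]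
      have h8 : w * Q ≤ w * SP := mul_le_mul_of_nonneg_left hQ2 hw0.le
      have h9 : w * SP ≤ w * (K + E) := mul_le_mul_of_nonneg_left hSK hw0.le
      nlinarith

end Pool.Agent.H327R4.NU
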